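import Pool.Agent.W862.Kom.Big

/-!
# Elementary abelian `p`-groups, `p` odd, with an absolute constant
-/

namespace Pool.Agent.W862.Kom

open Finset

variable {p : ℕ} [Fact p.Prime]
variable {m : Type*} [Fintype m] [DecidableEq m]

lemma e2_660 : e2 660 = 2 ^ 660 := by
  have := e2_nat 660
  rw [← this]
  norm_num

theorem oddP (hp : p ≠ 2) {R : Type*} [Fintype R]
    (a : R → (m → ZMod p) → ℝ) (ha : ∑ ρ, ∑ i, a ρ i ^ 2 ≤ 1) :
    ∃ x : (m → ZMod p) → ℝ, (∀ i, x i = 1 ∨ x i = -1) ∧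
      ∀ ρ g, |∑ i, a ρ (g - i) * x i| ≤ 2 ^ 666 := by
  have hp0 : 0 < p := (Fact.out : p.Prime).pos
  have h20 : (20000 : ℝ) ≤ 2 ^ 666 :=
    le_trans (by norm_num : (20000 : ℝ) ≤ 2 ^ 15)
      (pow_le_pow_right₀ (by norm_num) (by norm_num))
  have h66 : (2 : ℝ) ^ 666 = 2 ^ 660 * 64 := by
    rw [show (666 : ℕ) = 660 + 6 from rfl, pow_add]
    congr 1; norm_num
  have h60 : (1 : ℝ) ≤ 2 ^ 660 := one_le_pow₀ (by norm_num)
  rcases Nat.lt_or_ge p (2 ^ 48) with h | h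
  · obtain ⟨x, h1, h2⟩ := elemP hp a ha
    refine ⟨x, h1, fun ρ g => (h2 ρ g).trans (le_trans ?_ h20)⟩
    have h3 : Real.log p ≤ 48 := by
      have h4 : (p : ℝ) ≤ 2 ^ 48 := by exact_mod_cast h.le
      calc Real.log p ≤ Real.log (2 ^ 48) := Real.log_le_log (by exact_mod_cast hp0) h4
        _ = 48 * Real.log 2 := by rw [Real.log_pow]; norm_num
        _ ≤ 48 := by have := Real.log_two_lt_d9; linarith
    linarith
  · set k := Nat.log 2 p with hk
    have hk1 : 2 ^ k ≤ p := Nat.pow_log_le_self 2 hp0.ne'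
    have hk2 : p < 2 ^ (k + 1) := Nat.lt_pow_succ_log_self (by norm_num) p
    have hk48 : 48 ≤ k := by
      by_contra hc
      push Not at hc
      have : 2 ^ (k + 1) ≤ 2 ^ 48 := Nat.pow_le_pow_right (by norm_num) (by omega)
      omega
    set L := (k - 16) / 32 with hL
    have hL1 : 1 ≤ L := by omega
    have e1 : 16 * (2 * L + 1) ≤ k := by omega
    have e2' : k + 1 ≤ 16 * (2 * (L + 1) + 1) := by omega
    have h1 : Wc L ≤ p := by
      unfold Wc
      exact (Nat.pow_le_pow_right (by norm_num) e1).trans hk1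
    have h2 : p < Wc (L + 1) := by
      unfold Wc
      exact lt_of_lt_of_le hk2 (Nat.pow_le_pow_right (by norm_num) e2')
    obtain ⟨x, h3, h4⟩ := bigP L hL1 h1 h2 a ha
    refine ⟨x, h3, fun ρ g => (h4 ρ g).trans ?_⟩
    rw [e2_660, h66]
    generalize (2 : ℝ) ^ 660 = z at h60 ⊢
    linarith

end Pool.Agent.W862.Kom
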