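import Mathlib

/-!
# From bounded columns to set systems of bounded degree
-/

namespace Pool.Agent.W862.Kom

open Finset

/-- normalised incidence columns -/
lemma incidence_col {M V : Type*} [Fintype M] [DecidableEq V] (S : M → Finset V) (t : ℕ)
    (ht : 1 ≤ t) (x : V) (hdeg : Nat.card {i : M // x ∈ S i} ≤ t) :
    ∑ i : M, (if x ∈ S i then (1 : ℝ) / Real.sqrt t else 0) ^ 2 ≤ 1 := by
  classical
  have htR : (0 : ℝ) < t := by exact_mod_cast ht
  have h1 : ∀ i, (if x ∈ S i then (1 : ℝ) / Real.sqrt t else 0) ^ 2 =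
      if x ∈ S i then (1 : ℝ) / t else 0 := by
    intro i
    split_ifs
    · rw [div_pow, Real.sq_sqrt htR.le, one_pow]
    · norm_num
  simp_rw [h1]
  rw [← Finset.sum_filter, Finset.sum_const, nsmul_eq_mul, ← Fintype.card_subtype,
    ← Nat.card_eq_fintype_card, mul_one_div, div_le_one htR]
  exact_mod_cast hdeg

/-- from real signs to integer colourings -/
lemma incidence_conv {M V : Type*} [Fintype M] [Fintype V] [DecidableEq V] (S : M → Finset V)
    (t : ℕ) (ht : 1 ≤ t) (ε : V → ℝ) (hε : ∀ x, ε x = 1 ∨ ε x = -1) (B : ℝ)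
    (hB : ∀ i, |∑ x, ε x * (if x ∈ S i then (1 : ℝ) / Real.sqrt t else 0)| ≤ B) :
    ∃ χ : V → ℤ, (∀ x, χ x = 1 ∨ χ x = -1) ∧
      ∀ i, ((|∑ x ∈ S i, χ x| : ℤ) : ℝ) ≤ Real.sqrt t * B := by
  classical
  have htR : (0 : ℝ) < t := by exact_mod_cast ht
  have hsq : 0 < Real.sqrt t := Real.sqrt_pos.mpr htR
  refine ⟨fun x => if ε x = 1 then 1 else -1, ?_, ?_⟩
  · intro x
    dsimp only
    split_ifs <;> simp
  · intro i
    have h1 : ∀ x, (((if ε x = 1 then 1 else -1 : ℤ)) : ℝ) = ε x := by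
      intro x
      rcases hε x with h | h
      · rw [h]; simp
      · rw [h]; norm_num
    have h2 : ∑ x, ε x * (if x ∈ S i then (1 : ℝ) / Real.sqrt t else 0) =
        (∑ x ∈ S i, ε x) / Real.sqrt t := by
      rw [Finset.sum_div]
      have : ∀ x, ε x * (if x ∈ S i then (1 : ℝ) / Real.sqrt t else 0) =
          if x ∈ S i then ε x / Real.sqrt t else 0 := by
        intro x
        split_ifs
        · ring
        · ring
      simp_rw [this]
      rw [← Finset.sum_filter]
      congr 1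
      ext x
      simp
    have h3 := hB i
    rw [h2, abs_div, abs_of_pos hsq, div_le_iff₀ hsq] at h3
    push_cast
    have h4 : ∑ x ∈ S i, (((if ε x = 1 then 1 else -1 : ℤ)) : ℝ) = ∑ x ∈ S i, ε x :=
      Finset.sum_congr rfl fun x _ => h1 x
    push_cast at h4
    rw [h4]
    linarith

end Pool.Agent.W862.Kom
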