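import Pool.Agent.W862.Kom.ElemP

/-!
# Passing to systems with symmetries
-/

namespace Pool.Agent.W862.Kom

open Finset MulAction

lemma exists_signs {S X : Type*} [DecidableEq S] [Fintype X] (f : S → X → ℝ) (T : Finset S) :
    ∃ σ : S → ℝ, (∀ s, σ s = 1 ∨ σ s = -1) ∧
      ∑ x, (∑ s ∈ T, σ s * f s x) ^ 2 ≤ ∑ s ∈ T, ∑ x, f s x ^ 2 := by
  induction T using Finset.induction_on with
  | empty => exact ⟨fun _ => 1, fun _ => Or.inl rfl, by simp⟩
  | insert t T ht ih =>
    obtain ⟨σ, hσ, hb⟩ := ih
    set c : ℝ := if 0 ≤ ∑ x, (∑ s ∈ T, σ s * f s x) * f t x then -1 else 1 with hc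
    have hc1 : c = 1 ∨ c = -1 := by rw [hc]; split_ifs <;> simp
    have hc2 : c ^ 2 = 1 := by rcases hc1 with h | h <;> rw [h] <;> norm_num
    have hc3 : c * ∑ x, (∑ s ∈ T, σ s * f s x) * f t x ≤ 0 := by
      rw [hc]; split_ifs with h
      · linarith
      · push Not at h; linarith
    refine ⟨Function.update σ t c, fun s => ?_, ?_⟩
    · by_cases h : s = t
      · rw [h, Function.update_self]; exact hc1
      · rw [Function.update_of_ne h]; exact hσ s
    · rw [Finset.sum_insert ht]
      have h1 : ∀ x, (∑ s ∈ insert t T, Function.update σ t c s * f s x) ^ 2 =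
          (∑ s ∈ T, σ s * f s x) ^ 2 + 2 * (c * ((∑ s ∈ T, σ s * f s x) * f t x)) +
            f t x ^ 2 := by
        intro x
        rw [Finset.sum_insert ht, Function.update_self]
        have h2 : ∑ s ∈ T, Function.update σ t c s * f s x = ∑ s ∈ T, σ s * f s x := by
          refine Finset.sum_congr rfl fun s hs => ?_
          rw [Function.update_of_ne (fun h => ht (by rw [← h]; exact hs))]
        rw [h2]
        calc _ = (∑ s ∈ T, σ s * f s x) ^ 2 + 2 * (c * ((∑ s ∈ T, σ s * f s x) * f t x)) +
            c ^ 2 * f t x ^ 2 := by ring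
          _ = _ := by rw [hc2, one_mul]
      simp_rw [h1]
      rw [Finset.sum_add_distrib, Finset.sum_add_distrib, ← Finset.mul_sum, ← Finset.mul_sum]
      linarith

/-- free action: the set is a product of the set of orbits and the group -/
noncomputable def orbEquiv (H D : Type*) [Group H] [MulAction H D]
    (hfree : ∀ (a : H) (k : D), a • k = k → a = 1) : orbitRel.Quotient H D × H ≃ D :=
  Equiv.ofBijective (fun q => q.2 • (Quotient.out q.1 : D)) (by
    constructor
    · rintro ⟨ω, h⟩ ⟨ω', h'⟩ heq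
      simp only [] at heq
      have h1 : ω = ω' := by
        have h2 : (Quotient.mk'' (h • (Quotient.out ω : D)) : orbitRel.Quotient H D) = ω := by
          have : (Quotient.mk'' (h • (Quotient.out ω : D)) : orbitRel.Quotient H D) =
              Quotient.mk'' (Quotient.out ω : D) := by
            apply Quotient.sound'
            rw [orbitRel_apply]; exact mem_orbit _ h
          rw [this]; exact Quotient.out_eq' ω
        have h3 : (Quotient.mk'' (h' • (Quotient.out ω' : D)) : orbitRel.Quotient H D) = ω' := by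
          have : (Quotient.mk'' (h' • (Quotient.out ω' : D)) : orbitRel.Quotient H D) =
              Quotient.mk'' (Quotient.out ω' : D) := by
            apply Quotient.sound'
            rw [orbitRel_apply]; exact mem_orbit _ h'
          rw [this]; exact Quotient.out_eq' ω'
        rw [← h2, ← h3, heq]
      subst h1
      have h4 : (h'⁻¹ * h) • (Quotient.out ω : D) = Quotient.out ω := by
        rw [mul_smul, heq, inv_smul_smul]
      have h5 := hfree _ _ h4
      have h6 : h = h' := by
        have := congrArg (fun z => h' * z) h5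
        simpa using this
      rw [h6]
    · intro d
      have h1 : (Quotient.mk'' d : orbitRel.Quotient H D) = Quotient.mk'' d := rfl
      have h2 : orbitRel H D |>.r (Quotient.out (Quotient.mk'' d : orbitRel.Quotient H D)) d := by
        exact Quotient.exact' (Quotient.out_eq' _)
      have h3 : (Quotient.out (Quotient.mk'' d : orbitRel.Quotient H D) : D) ∈ orbit H d := h2
      obtain ⟨h, hh⟩ := h3
      refine ⟨(Quotient.mk'' d, h⁻¹), ?_⟩
      simp only []
      rw [← hh]
      simp)

lemma orbEquiv_apply (H D : Type*) [Group H] [MulAction H D]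
    (hfree : ∀ (a : H) (k : D), a • k = k → a = 1) (q : orbitRel.Quotient H D × H) :
    orbEquiv H D hfree q = q.2 • (Quotient.out q.1 : D) := rfl

lemma fin_module_equiv (p : ℕ) [Fact p.Prime] (A : Type) [AddCommGroup A] [Module (ZMod p) A]
    [Finite A] : ∃ d, Nonempty (A ≃+ (Fin d → ZMod p)) := by
  have : Module.Finite (ZMod p) A := by
    have : Fintype A := Fintype.ofFinite _
    exact ⟨⟨Finset.univ, by simp⟩⟩
  exact ⟨_, ⟨(Module.finBasis (ZMod p) A).equivFun.toAddEquiv⟩⟩

lemma elem_equiv (p : ℕ) [Fact p.Prime] (H : Type) [CommGroup H] [Finite H]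
    (hexp : ∀ a : H, a ^ p = 1) : ∃ d, Nonempty (Additive H ≃+ (Fin d → ZMod p)) := by
  have hfinA : Finite (Additive H) := inferInstanceAs (Finite H)
  exact @fin_module_equiv p _ (Additive H) _ (AddCommGroup.zmodModule (n := p) (by
    intro x
    have := hexp (Additive.toMul x)
    exact this)) _

variable {p : ℕ} [Fact p.Prime]

/-- from functions on `(ZMod p)^d` to systems with symmetries -/
theorem action_form (C : ℝ) (hC : 0 ≤ C)
    (hmain : ∀ (d : ℕ) (R : Type) [Fintype R] (a : R → (Fin d → ZMod p) → ℝ),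
      ∑ ρ, ∑ i, a ρ i ^ 2 ≤ 1 → ∃ x : (Fin d → ZMod p) → ℝ, (∀ i, x i = 1 ∨ x i = -1) ∧
        ∀ ρ g, |∑ i, a ρ (g - i) * x i| ≤ C)
    (H D N : Type) [CommGroup H] [Finite H] [Fintype D] [Fintype N]
    [MulAction H D] [MulAction H N] (v : N → D → ℝ)
    (hexp : ∀ a : H, a ^ p = 1)
    (hD : ∀ (a : H) (k : D), a • k = k → a = 1) (hN : ∀ (a : H) (j : N), a • j = j → a = 1)
    (hinv : ∀ (a : H) (j : N) (k : D), v (a • j) (a • k) = v j k)
    (hcol : ∀ j, ∑ k, v j k ^ 2 ≤ 1) :
    ∃ ε : N → ℝ, (∀ j, ε j = 1 ∨ ε j = -1) ∧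
      ∀ k, |∑ j, ε j * v j k| ≤ C * Real.sqrt (Nat.card (orbitRel.Quotient H N)) := by
  classical
  obtain ⟨d, ⟨e⟩⟩ := elem_equiv p H hexp
  -- `E g` is the group element
  let E : (Fin d → ZMod p) ≃ H := e.symm.toEquiv.trans (Additive.toMul (α := H))
  have hEsub : ∀ g h : Fin d → ZMod p, E (g - h) = (E h)⁻¹ * E g := by
    intro g h
    have h1 : e.symm (g - h) = e.symm g - e.symm h := map_sub _ _ _
    change Additive.toMul (e.symm (g - h)) = (Additive.toMul (e.symm h))⁻¹ *
      Additive.toMul (e.symm g)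
    rw [h1, toMul_sub, div_eq_mul_inv, mul_comm]
  haveI : Finite (orbitRel.Quotient H D) := Quotient.finite _
  haveI : Finite (orbitRel.Quotient H N) := Quotient.finite _
  letI : Fintype (orbitRel.Quotient H D) := Fintype.ofFinite _
  letI : Fintype (orbitRel.Quotient H N) := Fintype.ofFinite _
  letI : Fintype H := Fintype.ofFinite _
  let eD := orbEquiv H D hD
  let eN := orbEquiv H N hN
  -- the functions
  set f : orbitRel.Quotient H N → (orbitRel.Quotient H D × (Fin d → ZMod p)) → ℝ :=
    fun s q => v (Quotient.out s) (E q.2 • (Quotient.out q.1 : D)) with hf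
  obtain ⟨σ, hσ, hσb⟩ := exists_signs f univ
  have hcolf : ∀ s, ∑ q, f s q ^ 2 ≤ 1 := by
    intro s
    refine le_trans (le_of_eq ?_) (hcol (Quotient.out s))
    have h1 : ∑ q, f s q ^ 2 = ∑ q : orbitRel.Quotient H D × H,
        v (Quotient.out s) (eD q) ^ 2 := by
      rw [Fintype.sum_prod_type, Fintype.sum_prod_type]
      refine Finset.sum_congr rfl fun ω _ => ?_
      exact Fintype.sum_equiv E _ _ fun g => rfl
    rw [h1]
    exact Fintype.sum_equiv eD _ _ fun q => rfl
  have hS : ∑ q, (∑ s, σ s * f s q) ^ 2 ≤ (Fintype.card (orbitRel.Quotient H N) : ℝ) := by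
    refine hσb.trans ((Finset.sum_le_sum fun s _ => hcolf s).trans ?_)
    rw [Finset.sum_const, Finset.card_univ, nsmul_eq_mul, mul_one]
  set S : ℝ := (Fintype.card (orbitRel.Quotient H N) : ℝ) with hSdef
  have hS0 : 0 ≤ S := Nat.cast_nonneg _
  by_cases hSz : S = 0
  · -- no vectors
    have hemp : IsEmpty N := by
      have h0 : Fintype.card (orbitRel.Quotient H N) = 0 := by
        rw [hSdef] at hSz; exact_mod_cast hSz
      have h1 := Fintype.card_eq_zero_iff.mp h0
      exact ⟨fun j => h1.false (Quotient.mk'' j)⟩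
    refine ⟨fun _ => 1, fun _ => Or.inl rfl, fun k => ?_⟩
    rw [Finset.univ_eq_empty]
    simp only [Finset.sum_empty, abs_zero]
    exact mul_nonneg hC (Real.sqrt_nonneg _)
  have hSpos : 0 < S := lt_of_le_of_ne hS0 (Ne.symm hSz)
  have hsq : 0 < Real.sqrt S := Real.sqrt_pos.mpr hSpos
  obtain ⟨x, hx, hxb⟩ := hmain d (orbitRel.Quotient H D)
    (fun ρ g => (∑ s, σ s * f s (ρ, g)) / Real.sqrt S) (by
      rw [← Fintype.sum_prod_type (f := fun q : orbitRel.Quotient H D × (Fin d → ZMod p) =>
        ((∑ s, σ s * f s (q.1, q.2)) / Real.sqrt S) ^ 2)]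
      simp_rw [div_pow, Real.sq_sqrt hS0]
      rw [← Finset.sum_div, div_le_one hSpos]
      exact hS)
  refine ⟨fun j => σ (eN.symm j).1 * x (E.symm (eN.symm j).2), fun j => ?_, fun k => ?_⟩
  · beta_reduce
    rcases hσ (eN.symm j).1 with h1 | h1 <;> rcases hx (E.symm (eN.symm j).2) with h2 | h2 <;>
      rw [h1, h2] <;> simp
  · have hcard : (Nat.card (orbitRel.Quotient H N) : ℝ) = S := by
      rw [Nat.card_eq_fintype_card, hSdef]
    rw [hcard]
    have hk : k = E (E.symm (eD.symm k).2) • (Quotient.out (eD.symm k).1 : D) := by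
      rw [Equiv.apply_symm_apply]
      exact (Equiv.apply_symm_apply eD k).symm
    set ρ := (eD.symm k).1
    set g := E.symm (eD.symm k).2
    have h1 : ∑ j, (σ (eN.symm j).1 * x (E.symm (eN.symm j).2)) * v j k =
        Real.sqrt S * ∑ i, ((∑ s, σ s * f s (ρ, g - i)) / Real.sqrt S) * x i := by
      have h2 : ∑ j, (σ (eN.symm j).1 * x (E.symm (eN.symm j).2)) * v j k =
          ∑ q : orbitRel.Quotient H N × H, (σ q.1 * x (E.symm q.2)) * v (eN q) k := by
        refine Fintype.sum_equiv eN.symm _ _ fun j => ?_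
        rw [Equiv.apply_symm_apply]
      rw [h2, Fintype.sum_prod_type]
      have h3 : ∀ s : orbitRel.Quotient H N, ∑ h : H, (σ s * x (E.symm h)) * v (eN (s, h)) k =
          ∑ i : Fin d → ZMod p, (σ s * x i) * f s (ρ, g - i) := by
        intro s
        refine Fintype.sum_equiv E.symm _ _ fun h => ?_
        congr 1
        rw [hf]
        simp only []
        rw [hEsub, Equiv.apply_symm_apply]
        change v (h • (Quotient.out s : N)) k = _
        conv_lhs => rw [hk]
        have h4 := hinv h (Quotient.out s : N) ((h⁻¹ * E g) • (Quotient.out ρ : D))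
        rw [← mul_smul, mul_inv_cancel_left] at h4
        exact h4
      simp_rw [h3]
      rw [Finset.sum_comm, Finset.mul_sum]
      refine Finset.sum_congr rfl fun i _ => ?_
      rw [show Real.sqrt S * ((∑ s, σ s * f s (ρ, g - i)) / Real.sqrt S * x i) =
        (∑ s, σ s * f s (ρ, g - i)) * x i by field_simp, Finset.sum_mul]
      refine Finset.sum_congr rfl fun s _ => ?_
      ring
    rw [h1, abs_mul, abs_of_pos hsq, mul_comm]
    exact mul_le_mul_of_nonneg_right (hxb ρ g) hsq.le

end Pool.Agent.W862.Kom
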