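import Pool.Agent.W862.Kom.Split

/-!
# Assembly
-/

namespace Pool.Agent.W862.Kom

open Finset

variable {p : ℕ} [Fact p.Prime]
variable {m n : Type*} [Fintype m] [DecidableEq m] [Fintype n] [DecidableEq n]

lemma abel_sum (L : ℕ) (t g : ℕ → ℝ) :
    ∑ l ∈ range L, t (l + 1) * (g (l + 1) - g l) =
      ∑ l ∈ range L, (t (l + 1) - t l) * (g L - g l) + t 0 * (g L - g 0) := by
  induction L with
  | zero => simp
  | succ L ih =>
    rw [Finset.sum_range_succ, ih, Finset.sum_range_succ]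
    have h1 : ∑ l ∈ range L, (t (l + 1) - t l) * (g (L + 1) - g l) =
        ∑ l ∈ range L, (t (l + 1) - t l) * (g L - g l) + (t L - t 0) * (g (L + 1) - g L) := by
      have h2 : ∀ l, (t (l + 1) - t l) * (g (L + 1) - g l) =
          (t (l + 1) - t l) * (g L - g l) + (t (l + 1) - t l) * (g (L + 1) - g L) := by
        intro l; ring
      simp_rw [h2]
      rw [Finset.sum_add_distrib, ← Finset.sum_mul, Finset.sum_range_sub]
    rw [h1]
    ring

/-- the complex valued version of a real function -/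
noncomputable def cx {X : Type*} (f : X → ℝ) : X → ℂ := fun y => (f y : ℂ)

/-- the truncation -/
noncomputable def trunc {X : Type*} (a : X → ℝ) (δ : ℝ) : X → ℝ :=
  fun i => if |a i| ≤ δ then a i else 0

lemma XX_cx (a : (m → ZMod p) → ℝ) (F : (n → ZMod p) → ℝ) (ξ : n → m → ZMod p)
    (g : m → ZMod p) : ‖XX (cx a) (cx F) ξ g‖ = |∑ i, a i * F (yy ξ (g - i))| := by
  unfold XX cx
  have h : (∑ i, (a i : ℂ) * (F (yy ξ (g - i)) : ℂ)) = ((∑ i, a i * F (yy ξ (g - i)) : ℝ) : ℂ) := by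
    push_cast; rfl
  rw [h, Complex.norm_real, Real.norm_eq_abs]

open Classical in
theorem assemble {R : Type*} (a : R → (m → ZMod p) → ℝ) (L : ℕ)
    (f H : ℕ → (n → ZMod p) → ℝ) (δ : ℕ → ℝ) (C : ℝ) (hC : 0 ≤ C)
    (ha : ∀ ρ i, |a ρ i| ≤ δ 0) (hδ : ∀ l, 0 ≤ δ l) (hmono : ∀ l, δ (l + 1) ≤ δ l)
    (hfH : ∀ l < L, ∀ y, |f L y - f l y| ≤ C * H l y)
    (Λ : ℕ → R → Finset (m → ZMod p)) (hΛ : ∀ l ρ i, δ l < |a ρ i| → i ∈ Λ l ρ)
    (S0 : ℝ) (S T : ℕ → ℝ)
    (hS0 : Bd (fun (ξ : n → m → ZMod p) ρ g => ‖XX (cx (trunc (a ρ) (δ 0))) (cx (f 0)) ξ g‖) S0)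
    (hS : ∀ l < L, Bd (fun (ξ : n → m → ZMod p) ρ g =>
      ‖XX (cx (trunc (a ρ) (δ (l + 1)))) (cx (fun y => f (l + 1) y - f l y)) ξ g‖) (S l))
    (hT : ∀ l < L, Bd (fun (ξ : n → m → ZMod p) (ρ : R) g =>
      ‖XX (fun i => if i ∈ Λ (l + 1) ρ then 1 else 0) (cx (H l)) ξ g‖) (T l)) :
    Bd (fun (ξ : n → m → ZMod p) ρ g => |∑ i, a ρ i * f L (yy ξ (g - i))|)
      (S0 + ∑ l ∈ range L, S l + ∑ l ∈ range L, (C * δ l) * T l) := by
  refine ((hS0.add (Bd.sum L hS)).add (Bd.sum L fun l hl =>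
    (hT l hl).smul (mul_nonneg hC (hδ l)))).of_le fun ξ ρ g => ?_
  -- pointwise decomposition
  have h1 : ∀ i, a ρ i * f L (yy ξ (g - i)) =
      trunc (a ρ) (δ 0) i * f 0 (yy ξ (g - i)) +
      ∑ l ∈ range L, trunc (a ρ) (δ (l + 1)) i *
        (f (l + 1) (yy ξ (g - i)) - f l (yy ξ (g - i))) +
      ∑ l ∈ range L, ((a ρ i - trunc (a ρ) (δ (l + 1)) i) - (a ρ i - trunc (a ρ) (δ l) i)) *
        (f L (yy ξ (g - i)) - f l (yy ξ (g - i))) := by
    intro i
    have h2 := abel_sum L (fun l => a ρ i - trunc (a ρ) (δ l) i) (fun l => f l (yy ξ (g - i)))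
    have h3 : trunc (a ρ) (δ 0) i = a ρ i := by
      unfold trunc; rw [if_pos (ha ρ i)]
    simp only [h3, sub_self, zero_mul, add_zero] at h2
    rw [← h2, h3, add_assoc, ← Finset.sum_add_distrib]
    have h4 : ∀ l, trunc (a ρ) (δ (l + 1)) i * (f (l + 1) (yy ξ (g - i)) - f l (yy ξ (g - i))) +
        (a ρ i - trunc (a ρ) (δ (l + 1)) i) *
          (f (l + 1) (yy ξ (g - i)) - f l (yy ξ (g - i))) =
        a ρ i * (f (l + 1) (yy ξ (g - i)) - f l (yy ξ (g - i))) := by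
      intro l; ring
    simp_rw [h4]
    rw [← Finset.mul_sum, Finset.sum_range_sub (fun l => f l (yy ξ (g - i)))]
    ring
  have h5 : ∀ l < L, ∀ i, |((a ρ i - trunc (a ρ) (δ (l + 1)) i) - (a ρ i - trunc (a ρ) (δ l) i)) *
        (f L (yy ξ (g - i)) - f l (yy ξ (g - i)))| ≤
        (C * δ l) * ((if i ∈ Λ (l + 1) ρ then 1 else 0) * H l (yy ξ (g - i))) := by
    intro l hl i
    have h6 := hfH l hl (yy ξ (g - i))
    have h7 : |((a ρ i - trunc (a ρ) (δ (l + 1)) i) - (a ρ i - trunc (a ρ) (δ l) i))| ≤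
        δ l * (if i ∈ Λ (l + 1) ρ then 1 else 0) := by
      unfold trunc
      by_cases c1 : |a ρ i| ≤ δ (l + 1)
      · have c2 : |a ρ i| ≤ δ l := c1.trans (hmono l)
        rw [if_pos c1, if_pos c2]
        simp only [sub_self, abs_zero]
        exact mul_nonneg (hδ l) (by split_ifs <;> norm_num)
      · rw [if_neg c1, if_pos (hΛ (l + 1) ρ i (not_le.mp c1))]
        by_cases c2 : |a ρ i| ≤ δ l
        · rw [if_pos c2]; simpa using c2
        · rw [if_neg c2]; simpa using hδ l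
    rw [abs_mul]
    calc _ ≤ (δ l * (if i ∈ Λ (l + 1) ρ then 1 else 0)) * (C * H l (yy ξ (g - i))) :=
          mul_le_mul h7 h6 (abs_nonneg _) ((abs_nonneg _).trans h7)
      _ = _ := by ring
  have h8 : |∑ i, a ρ i * f L (yy ξ (g - i))| ≤
      |∑ i, trunc (a ρ) (δ 0) i * f 0 (yy ξ (g - i))| +
      |∑ i, ∑ l ∈ range L, trunc (a ρ) (δ (l + 1)) i *
        (f (l + 1) (yy ξ (g - i)) - f l (yy ξ (g - i)))| +
      |∑ i, ∑ l ∈ range L, ((a ρ i - trunc (a ρ) (δ (l + 1)) i) -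
        (a ρ i - trunc (a ρ) (δ l) i)) * (f L (yy ξ (g - i)) - f l (yy ξ (g - i)))| := by
    simp_rw [h1, Finset.sum_add_distrib]
    exact (abs_add_le _ _).trans (add_le_add (abs_add_le _ _) le_rfl)
  refine h8.trans (add_le_add (add_le_add ?_ ?_) ?_)
  · rw [XX_cx]
  · rw [Finset.sum_comm]
    refine (Finset.abs_sum_le_sum_abs _ _).trans (Finset.sum_le_sum fun l _ => ?_)
    rw [XX_cx]
  · rw [Finset.sum_comm]
    refine (Finset.abs_sum_le_sum_abs _ _).trans (Finset.sum_le_sum fun l hl => ?_)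
    refine (Finset.abs_sum_le_sum_abs _ _).trans ?_
    refine (Finset.sum_le_sum fun i _ => h5 l (Finset.mem_range.mp hl) i).trans ?_
    rw [← Finset.mul_sum]
    refine mul_le_mul_of_nonneg_left ?_ (mul_nonneg hC (hδ l))
    have h9 : (fun i => if i ∈ Λ (l + 1) ρ then (1 : ℂ) else 0) =
        cx (fun i => if i ∈ Λ (l + 1) ρ then (1 : ℝ) else 0) := by
      funext i; unfold cx
      by_cases hh : i ∈ Λ (l + 1) ρ
      · simp only [if_pos hh, Complex.ofReal_one]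
      · simp only [if_neg hh, Complex.ofReal_zero]
    rw [h9, XX_cx]
    exact le_abs_self _

/-- uniform distribution of `yy ξ i`, `i ≠ 0` -/
lemma sum_yy (φ : (n → ZMod p) → ℝ) (i : m → ZMod p) (hi : i ≠ 0) :
    ∑ ξ : n → m → ZMod p, φ (yy ξ i) =
      ((p : ℝ) ^ (Fintype.card n * Fintype.card m)) *
        (((p : ℝ) ^ (Fintype.card n))⁻¹ * ∑ y, φ y) := by
  obtain ⟨j, hj⟩ := Function.ne_iff.mp hi
  have hj' : i j ≠ 0 := by simpa using hj
  have h1 : ∑ ξ : n → m → ZMod p, cx φ (yy ξ i) = ∑ k, ft (cx φ) k *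
      ∑ ξ : n → m → ZMod p, chi (∑ s, ξ s ⬝ᵥ (k s • i)) := by
    have h2 : ∀ ξ : n → m → ZMod p, cx φ (yy ξ i) =
        ∑ k, ft (cx φ) k * chi (∑ s, ξ s ⬝ᵥ (k s • i)) := by
      intro ξ
      rw [ft_inv (cx φ)]
      refine Finset.sum_congr rfl fun k _ => ?_
      rw [dot_yy, cmb_dot]
    simp_rw [h2]
    rw [Finset.sum_comm]
    simp_rw [Finset.mul_sum]
  have h3 : ∀ k : n → ZMod p, ∑ ξ : n → m → ZMod p, chi (∑ s, ξ s ⬝ᵥ (k s • i)) =
      if k = 0 then ((p : ℂ) ^ (Fintype.card n * Fintype.card m)) else 0 := by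
    intro k
    rw [sum_chi_xi (fun s => k s • i)]
    refine if_congr ?_ rfl rfl
    constructor
    · intro h
      funext s
      have h4 := congrFun (congrFun h s) j
      simp only [Pi.smul_apply, smul_eq_mul, Pi.zero_apply] at h4
      rcases mul_eq_zero.mp h4 with h5 | h5
      · exact h5
      · exact absurd h5 hj'
    · rintro rfl; funext s; simp
  simp_rw [h3] at h1
  simp only [mul_ite, mul_zero, Finset.sum_ite_eq', Finset.mem_univ, if_true] at h1
  have h6 : ft (cx φ) 0 = ((((p : ℝ) ^ (Fintype.card n))⁻¹ * ∑ y, φ y : ℝ) : ℂ) := by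
    unfold ft cx
    simp [chi_zero]
  rw [h6] at h1
  unfold cx at h1
  rw [mul_comm] at h1
  exact_mod_cast h1

open Classical in
/-- choice of the frequencies -/
theorem choose_signs {R : Type*} (a : R → (m → ZMod p) → ℝ)
    (ha : ∀ ρ i, |a ρ i| ≤ 1) (F : (n → ZMod p) → ℝ) (hF : ∀ y, |F y| ≤ 1)
    (B : ℝ) (hB : 0 ≤ B)
    (hBd : Bd (fun (ξ : n → m → ZMod p) ρ g => |∑ i, a ρ i * F (yy ξ (g - i))|) B)
    (hun : ((p : ℝ) ^ (Fintype.card m)) * (((p : ℝ) ^ (Fintype.card n))⁻¹ *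
      ((univ.filter fun y : n → ZMod p => |F y| ≠ 1).card : ℝ)) ≤ 1 / 2) :
    ∃ x : (m → ZMod p) → ℝ, (∀ i, x i = 1 ∨ x i = -1) ∧
      ∀ ρ g, |∑ i, a ρ (g - i) * x i| ≤ 2 * B + 3 := by
  obtain ⟨M, hM0, hM1, hM2⟩ := hBd
  have hp : (0 : ℝ) < p := by exact_mod_cast (Fact.out : p.Prime).pos
  set N : ℝ := ((p : ℝ) ^ (Fintype.card n * Fintype.card m)) with hN
  have hN0 : 0 < N := by positivity
  set φ : (n → ZMod p) → ℝ := fun y => if |F y| ≠ 1 then 1 else 0 with hφ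
  have hφs : ∑ y, φ y = ((univ.filter fun y : n → ZMod p => |F y| ≠ 1).card : ℝ) := by
    rw [hφ, Finset.sum_boole]
  set u : (n → m → ZMod p) → ℝ := fun ξ => ∑ i ∈ univ.filter (fun i : m → ZMod p => i ≠ 0),
    φ (yy ξ i) with hu
  have hu1 : ∑ ξ, u ξ ≤ N * (1 / 2) := by
    rw [hu]
    simp only []
    rw [Finset.sum_comm]
    calc ∑ i ∈ univ.filter (fun i : m → ZMod p => i ≠ 0), ∑ ξ : n → m → ZMod p, φ (yy ξ i)
        = ∑ i ∈ univ.filter (fun i : m → ZMod p => i ≠ 0),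
          N * (((p : ℝ) ^ (Fintype.card n))⁻¹ * ∑ y, φ y) := by
          refine Finset.sum_congr rfl fun i hi => ?_
          exact sum_yy φ i (Finset.mem_filter.mp hi).2
      _ ≤ ∑ i : m → ZMod p, N * (((p : ℝ) ^ (Fintype.card n))⁻¹ * ∑ y, φ y) := by
          refine Finset.sum_le_sum_of_subset_of_nonneg (Finset.filter_subset _ _) fun i _ _ => ?_
          rw [hφs]; positivity
      _ = N * (((p : ℝ) ^ (Fintype.card m)) * (((p : ℝ) ^ (Fintype.card n))⁻¹ *
          ((univ.filter fun y : n → ZMod p => |F y| ≠ 1).card : ℝ))) := by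
          rw [Finset.sum_const, Finset.card_univ, nsmul_eq_mul, hφs]
          have : (Fintype.card (m → ZMod p) : ℝ) = (p : ℝ) ^ (Fintype.card m) := by
            simp [ZMod.card]
          rw [this]; ring
      _ ≤ N * (1 / 2) := mul_le_mul_of_nonneg_left hun hN0.le
  -- existence
  have hex : ∃ ξ, u ξ + M ξ / (2 * B + 1) < 1 := by
    by_contra hcon
    push Not at hcon
    have h1 : ∑ ξ : n → m → ZMod p, (1 : ℝ) ≤ ∑ ξ, (u ξ + M ξ / (2 * B + 1)) :=
      Finset.sum_le_sum fun ξ _ => hcon ξ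
    rw [Finset.sum_const, Finset.card_univ, nsmul_eq_mul, mul_one, card_xi,
      Finset.sum_add_distrib, ← Finset.sum_div] at h1
    have h2 : (∑ ξ, M ξ) / (2 * B + 1) ≤ N * B / (2 * B + 1) :=
      div_le_div_of_nonneg_right hM2 (by positivity)
    have h3 : N * B / (2 * B + 1) < N * (1 / 2) := by
      rw [div_lt_iff₀ (by positivity)]
      nlinarith
    linarith
  obtain ⟨ξ, hξ⟩ := hex
  have hu0 : ∀ i : m → ZMod p, 0 ≤ φ (yy ξ i) := fun i => by
    rw [hφ]; simp only []; split_ifs <;> norm_num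
  have hu00 : 0 ≤ u ξ := Finset.sum_nonneg fun i _ => hu0 i
  have hMM : 0 ≤ M ξ / (2 * B + 1) := div_nonneg (hM0 ξ) (by positivity)
  have hgood : ∀ i : m → ZMod p, i ≠ 0 → |F (yy ξ i)| = 1 := by
    intro i hi
    by_contra hc
    have h1 : φ (yy ξ i) = 1 := by rw [hφ]; simp only []; rw [if_pos hc]
    have h2 : φ (yy ξ i) ≤ u ξ := Finset.single_le_sum (f := fun i => φ (yy ξ i))
      (fun i _ => hu0 i) (Finset.mem_filter.mpr ⟨Finset.mem_univ i, hi⟩)
    linarith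
  have hMξ : M ξ ≤ 2 * B + 1 := by
    have h1 : M ξ / (2 * B + 1) < 1 := by linarith
    rw [div_lt_one (by positivity)] at h1
    exact h1.le
  refine ⟨fun i => if i = 0 then 1 else F (yy ξ i), ?_, ?_⟩
  · intro i
    by_cases hi : i = 0
    · left; simp [hi]
    · simp only [if_neg hi]
      exact eq_or_eq_neg_of_abs_eq (hgood i hi)
  · intro ρ g
    have h1 : ∑ i, a ρ (g - i) * (if i = 0 then 1 else F (yy ξ i)) =
        ∑ i, a ρ i * F (yy ξ (g - i)) + a ρ g * (1 - F (yy ξ 0)) := by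
      have h2 : ∑ i, a ρ i * F (yy ξ (g - i)) = ∑ i, a ρ (g - i) * F (yy ξ i) := by
        refine Fintype.sum_equiv (Equiv.subLeft g) _ _ fun i => ?_
        simp
      rw [h2]
      have h3 : a ρ g * (1 - F (yy ξ 0)) = ∑ i : m → ZMod p,
          (if i = 0 then a ρ (g - i) * (1 - F (yy ξ i)) else 0) := by
        rw [Finset.sum_ite_eq']; simp
      rw [h3, ← Finset.sum_add_distrib]
      refine Finset.sum_congr rfl fun i _ => ?_
      by_cases hi : i = 0
      · simp only [if_pos hi]; ring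
      · simp only [if_neg hi]; ring
    rw [h1]
    have h4 := (hM1 ξ ρ g).trans hMξ
    have h5 : |a ρ g * (1 - F (yy ξ 0))| ≤ 2 := by
      rw [abs_mul]
      have h6 : |1 - F (yy ξ 0)| ≤ 2 := by
        have := hF (yy ξ 0)
        rw [abs_le] at this ⊢
        constructor <;> linarith [this.1, this.2]
      calc |a ρ g| * |1 - F (yy ξ 0)| ≤ 1 * 2 :=
            mul_le_mul (ha ρ g) h6 (abs_nonneg _) zero_le_one
        _ = 2 := by norm_num
    calc _ ≤ _ := abs_add_le _ _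
      _ ≤ (2 * B + 1) + 2 := add_le_add h4 h5
      _ = _ := by ring

end Pool.Agent.W862.Kom
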