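import Pool.Agent.W862.Kom.Main

/-!
# The main theorem for large primes
-/

namespace Pool.Agent.W862.Kom

open Finset

variable {p : ℕ} [Fact p.Prime]
variable {m : Type*} [Fintype m] [DecidableEq m]

open Classical in
theorem bigP (L : ℕ) (hL : 1 ≤ L) (hpL : Wc L ≤ p) (hpU : p < Wc (L + 1)) {R : Type*} [Fintype R]
    (a : R → (m → ZMod p) → ℝ) (ha : ∑ ρ, ∑ i, a ρ i ^ 2 ≤ 1) :
    ∃ x : (m → ZMod p) → ℝ, (∀ i, x i = 1 ∨ x i = -1) ∧
      ∀ ρ g, |∑ i, a ρ (g - i) * x i| ≤ 2 * (e2 660 * 25) + 3 := by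
  have hR := hRc
  have := DD_ne (p := p) hR (L + 1)
  have hp8 : 8 ≤ p := (Wc_eight L).trans hpL
  have hp5 : 5 ≤ p := by omega
  have hp2 : p ≠ 2 := by omega
  have hp0 : (0 : ℝ) < p := by exact_mod_cast (by omega : 0 < p)
  have hp8' : (8 : ℝ) ≤ p := by exact_mod_cast hp8
  have hε0 : (0 : ℝ) < 1 / 256 := by norm_num
  have hε1 : (1 / 256 : ℝ) ≤ 1 / 4 := by norm_num
  have hQ2 : 2 ≤ Qc 1 := le_trans (by norm_num) (Qc_ge 0)
  have hWp : ∀ s < L + 1, Wc s ≤ p := fun s hs => (Wc_mono (by omega)).trans hpL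
  set J := Fintype.card m with hJ
  -- the exponents of `P / Q` in the second phase
  have hpp : (p : ℝ) ^ 2 ≤ e2 (64 * ((L : ℝ) + 1) + 32) := by
    have h1 : (p : ℝ) ≤ e2 (16 * (2 * ((L + 1 : ℕ) : ℝ) + 1)) := by
      rw [← Wc_real]; exact_mod_cast hpU.le
    calc (p : ℝ) ^ 2 ≤ (e2 (16 * (2 * ((L + 1 : ℕ) : ℝ) + 1))) ^ 2 :=
          pow_le_pow_left₀ hp0.le h1 2
      _ = _ := by rw [e2_pow]; congr 1; push_cast; ring
  have hPQ2 : ∀ j : ℕ, (p : ℝ) ^ 2 / ((Qc (L + 1) * p ^ j : ℕ) : ℝ) ≤
      e2 (64 * ((L : ℝ) + 1) + 32 - 16 * ((L : ℝ) + 1) ^ 2) * (1 / (p : ℝ) ^ j) := by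
    intro j
    push_cast
    rw [Qc_real]
    push_cast
    rw [div_le_iff₀ (mul_pos (e2_pos _) (by positivity)), sub_eq_add_neg, e2_add]
    have h3 := e2_inv (16 * ((L : ℝ) + 1) ^ 2)
    calc (p : ℝ) ^ 2 ≤ e2 (64 * ((L : ℝ) + 1) + 32) := hpp
      _ = e2 (64 * ((L : ℝ) + 1) + 32) *
            (e2 (-(16 * ((L : ℝ) + 1) ^ 2)) * e2 (16 * ((L : ℝ) + 1) ^ 2)) *
              (1 / (p : ℝ) ^ j * (p : ℝ) ^ j) := by
          rw [h3, one_div_mul_cancel (pow_ne_zero _ hp0.ne')]; ring
      _ = _ := by ring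
  -- `P / Q` in the first phase
  have hPQ1 : ∀ l : ℕ, ((Wc l : ℕ) : ℝ) ^ 2 / ((Qc (l + 1) : ℕ) : ℝ) ≤
      e2 (64 * ((l + 1 : ℕ) : ℝ) + 32 - 16 * ((l + 1 : ℕ) : ℝ) ^ 2) * 1 := by
    intro l
    rw [Qc_real, Wc_real, e2_pow, div_le_iff₀ (e2_pos _), mul_one, ← e2_add]
    refine e2_mono ?_
    push_cast
    nlinarith
  have hEb0 : 0 ≤ EE 4 (1 / 256) L (DD p Qc (L + 1)) :=
    EE_nonneg _ _ (by norm_num) (by norm_num) _ _ (Nat.cast_nonneg _)
  have hEb := EE_Th (p := p) 4 (by norm_num) (by norm_num) L hpU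
  have hMb : MajE (cx (bT (p := p) Qc (L + 1))) (EE 4 (1 / 256) L (DD p Qc (L + 1)))
      (Qc (L + 1)) (((Wc L : ℕ) : ℝ) ^ 2) :=
    majE_b hR hp5 (1 / 256) hε0 hε1 (L + 1) (by omega) hWp (Wc L)
      (by have := Wc_four L; omega) (fun s hs => Wc_mono (by omega))
  have hMbz : ∀ j ≤ J, MajE (fun y : Fin (L + 1) ⊕ Fin J → ZMod p =>
      cx (bT (p := p) Qc (L + 1)) (yl y) * cx (zr (p := p) J j) (yr y))
      (EE 4 (1 / 256) L (DD p Qc (L + 1)) * 1) (Qc (L + 1) * p ^ j) ((p : ℝ) ^ 2) := by
    intro j hj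
    exact hMb.prod_zero J j hj _ 1 zero_le_one (l1_zr J j) (by
      intro y hy
      unfold cx
      rw [zr_eq_zero J j y hy]; simp)
  have key : Bd (fun (ξ : Fin (L + 1) ⊕ Fin J → m → ZMod p) ρ g =>
      |∑ i, a ρ i * FF Qc L J (L + 1 + J) (yy ξ (g - i))|)
      (e2 660 + ∑ l ∈ range (L + 1 + J), (e2 660 * gg L l) +
        ∑ l ∈ range (L + 1 + J), (4 * dlt L l) * (e2 660 * gg L l / (4 * dlt L l))) := by
    refine assemble a (L + 1 + J) (fun l => FF Qc L J l) (fun l => HH Qc L J l) (dlt L) 4
      (by norm_num) ?_ (fun l => (dlt_pos L l).le) (dlt_mono L) ?_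
      (fun l => lev a (dlt L l)) ?_ (e2 660) (fun l => e2 660 * gg L l)
      (fun l => e2 660 * gg L l / (4 * dlt L l)) ?_ ?_ ?_
    · intro ρ i; rw [dlt_one]; exact abs_le_one a ha ρ i
    · intro l hl y
      exact FF_HH hR (fun s _ => Wc_four s) L J l hl hQ2 Qc_ge Qc_sixteen y
    · intro l ρ i h
      exact Finset.mem_filter.mpr ⟨Finset.mem_univ i, h⟩
    · -- first function
      have hM := (majE_f0 hR hp5 (1 / 256) hε0 hε1 (L + 1) (by omega) hQ2).lift (m2 := Fin J)
      have hF : cx (FF (p := p) Qc L J 0) =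
          fun y : Fin (L + 1) ⊕ Fin J → ZMod p => cx (gT (p := p) Qc (L + 1) 0) (yl y) := by
        funext y; unfold cx FF; beta_reduce; rw [if_pos (Nat.zero_le _)]
      rw [hF]
      refine stageS hM ?_ a ha ((0 : ℕ) : ℝ) (th 0) 1 1 1 (dlt L 0) one_pos one_pos le_rfl
        (by norm_num) (by norm_num) zero_le_one ?_ ?_ ?_ ?_ _ nq0
      · rw [← hF]
        exact ft_odd_zero _ fun y => by
          unfold FF
          rw [if_pos (Nat.zero_le _), if_pos (Nat.zero_le _)]
          exact gT_neg hR (L + 1) 0 (yl y)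
      · rw [Qc_real, Nat.cast_zero, mul_one]
        norm_num
        rw [e2_zero]
        have : e2 0 ≤ e2 32 := e2_mono (by norm_num)
        rw [e2_zero] at this
        simpa using this
      · exact EE_nonneg _ _ (by norm_num) (by norm_num) _ _ (Nat.cast_nonneg _)
      · exact EE_th 2 (by norm_num) (by norm_num) 0
      · rw [dlt_one]; simp [e2_zero]
    · intro l hl
      rcases Nat.lt_or_ge l L with hlL | hlL
      · -- differences in the first phase
        have hM := (majE_diff hR hp5 (1 / 256) hε0 hε1 (L + 1) (l + 1) (by omega) (by omega) hQ2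
          (fun s hs => hWp s (by omega)) (Wc l) (by have := Wc_four l; omega)
          (fun s hs => Wc_mono (by omega))).lift (m2 := Fin J)
        have hF : cx (fun y : Fin (L + 1) ⊕ Fin J → ZMod p => FF (p := p) Qc L J (l + 1) y -
            FF Qc L J l y) =
            fun y : Fin (L + 1) ⊕ Fin J → ZMod p =>
              cx (fun y => gT (p := p) Qc (L + 1) (l + 1) y - gT Qc (L + 1) (l + 1 - 1) y)
                (yl y) := by
          funext y; unfold cx FF; beta_reduce; rw [if_pos (by omega), if_pos (by omega)]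
          rfl
        have hg : gg L l = e2 (-(l : ℝ)) := by unfold gg; rw [if_pos (by omega)]
        rw [hF, hg]
        refine stageS hM ?_ a ha ((l + 1 : ℕ) : ℝ) (th (l + 1)) 1 1 1 (dlt L (l + 1)) one_pos
          one_pos le_rfl (by norm_num) (by norm_num) (by positivity) (hPQ1 l) ?_ ?_ ?_ _ (nq1 l)
        · rw [← hF]
          exact ft_odd_zero _ fun y => by
            unfold FF
            rw [if_pos (by omega), if_pos (by omega), if_pos (by omega), if_pos (by omega)]
            have e1 := gT_neg (p := p) hR (L + 1) (l + 1) (yl y)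
            have e2' := gT_neg (p := p) hR (L + 1) l (yl y)
            have e3 : yl (-y) = - yl y := rfl
            rw [e3, e1, e2']; ring
        · exact EE_nonneg _ _ (by norm_num) (by norm_num) _ _ (Nat.cast_nonneg _)
        · exact EE_th 12 (by norm_num) (by norm_num) (l + 1)
        · rw [dlt_low L (l + 1) (by omega), mul_one]
      · rcases Nat.eq_or_lt_of_le hlL with hlL' | hlL'
        · -- exact sign
          subst hlL'
          have hM := (majE_ex hR hp5 (1 / 256) hε0 hε1 (L + 1) (by omega) hQ2 hWp (Wc L)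
            (by have := Wc_four L; omega) (fun s hs => Wc_mono (by omega))).lift (m2 := Fin J)
          have hF : cx (fun y : Fin (L + 1) ⊕ Fin J → ZMod p => FF (p := p) Qc L J (L + 1) y -
              FF Qc L J L y) =
              fun y : Fin (L + 1) ⊕ Fin J → ZMod p =>
                cx (fun y => eT (p := p) Qc (L + 1) y - gT Qc (L + 1) (L + 1 - 1) y) (yl y) := by
            funext y; unfold cx FF; beta_reduce; rw [if_neg (by omega), if_pos (by omega)]
            have : sl J (L + 1 - (L + 1)) (yr y) = 0 := by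
              rw [Nat.sub_self]; simp [sl]
            rw [this, mul_zero, add_zero]
            rfl
          have hg : gg L L = e2 (-(L : ℝ)) := by unfold gg; rw [if_pos (by omega)]
          rw [hF, hg]
          refine stageS hM ?_ a ha ((L + 1 : ℕ) : ℝ) (Th L) 1 1 1 (dlt L (L + 1)) one_pos
            one_pos le_rfl (by norm_num) (by norm_num) (by positivity) (hPQ1 L) ?_ ?_ ?_ _ (nq3 L)
          · rw [← hF]
            exact ft_odd_zero _ fun y => by
              unfold FF
              have hs : ∀ y : Fin (L + 1) ⊕ Fin J → ZMod p,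
                  sl (p := p) J (L + 1 - (L + 1)) (yr y) = 0 := by
                intro y
                rw [Nat.sub_self]; simp [sl]
              rw [if_neg (by omega), if_pos (by omega), if_neg (by omega), if_pos (by omega),
                hs, hs, mul_zero, mul_zero, add_zero, add_zero]
              have e1 := eT_neg (p := p) hR (L + 1) (yl y)
              have e2' := gT_neg (p := p) hR (L + 1) L (yl y)
              have e3 : yl (-y) = - yl y := rfl
              rw [e3, e1, e2']; ring
          · exact EE_nonneg _ _ (by norm_num) (by norm_num) _ _ (Nat.cast_nonneg _)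
          · exact hEb
          · rw [dlt_low L (L + 1) (by omega), mul_one]
        · -- second phase
          obtain ⟨j, rfl⟩ : ∃ j, l = L + 1 + j := ⟨l - (L + 1), by omega⟩
          have hjJ : j < J := by omega
          have hM := hMb.prod_zero J j hjJ.le (cx (dl (p := p) J j)) (2 * (1 + Real.log p))
            (by have := Real.log_natCast_nonneg p; positivity) (l1_dl hp2 J j hjJ) (by
              intro y hy
              unfold cx dl
              rw [dif_pos hjJ, zr_eq_zero J j y hy]; simp)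
          have hF : cx (fun y : Fin (L + 1) ⊕ Fin J → ZMod p =>
              FF (p := p) Qc L J (L + 1 + j + 1) y - FF Qc L J (L + 1 + j) y) =
              fun y : Fin (L + 1) ⊕ Fin J → ZMod p =>
                cx (bT (p := p) Qc (L + 1)) (yl y) * cx (dl (p := p) J j) (yr y) := by
            funext y; unfold cx FF; beta_reduce; rw [if_neg (by omega), if_neg (by omega)]
            rw [show L + 1 + j + 1 - (L + 1) = j + 1 by omega,
              show L + 1 + j - (L + 1) = j by omega]
            unfold sl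
            rw [Finset.sum_range_succ]
            push_cast; ring
          have hg : gg L (L + 1 + j) = (9 / 10 : ℝ) ^ j := by
            unfold gg; rw [if_neg (by omega), show L + 1 + j - (L + 1) = j by omega]
          rw [hF, hg]
          refine stageS hM ?_ a ha ((L : ℝ) + 1) (Th L + 7 + L) ((9 / 10 : ℝ) ^ (2 * (j + 1)))
            ((9 / 10 : ℝ) ^ j) (1 / (p : ℝ) ^ j) (dlt L (L + 1 + j + 1)) (by positivity)
            (by positivity) (pow_le_one₀ (by norm_num) (by norm_num)) ?_ ?_ (by positivity)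
            (hPQ2 j) ?_ ?_ ?_ _ ?_
          · rw [ft_mul]
            have h0 : ft (cx (dl (p := p) J j)) (yr (0 : Fin (L + 1) ⊕ Fin J → ZMod p)) = 0 :=
              ft_dl_zero hp2 J j
            rw [h0, mul_zero]
          · rw [← pow_mul]
            exact pow_le_pow_of_le_one (by norm_num) (by norm_num) (by omega)
          · have h4 : 8 * ((9 / 10 : ℝ) ^ (2 * (j + 1))) ^ 4 * ((9 / 10 : ℝ) ^ j) ^ 4 =
                8 * (9 / 10 : ℝ) ^ 8 * ((9 / 10 : ℝ) ^ 12) ^ j := by
              have hr : ∀ r : ℝ, 8 * (r ^ (2 * (j + 1))) ^ 4 * (r ^ j) ^ 4 =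
                8 * r ^ 8 * (r ^ 12) ^ j := fun r => by ring
              exact hr (9 / 10)
            rw [h4]
            have h5 : 1 / (p : ℝ) ^ j ≤ ((9 / 10 : ℝ) ^ 12) ^ j := by
              rw [← one_div_pow]
              refine pow_le_pow_left₀ (by positivity) ?_ j
              rw [div_le_iff₀ hp0]
              norm_num
              linarith
            have h6 : (1 : ℝ) ≤ 8 * (9 / 10 : ℝ) ^ 8 := by norm_num
            calc 1 / (p : ℝ) ^ j ≤ 1 * ((9 / 10 : ℝ) ^ 12) ^ j := by rw [one_mul]; exact h5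
              _ ≤ _ := mul_le_mul_of_nonneg_right h6 (by positivity)
          · have := Real.log_natCast_nonneg p
            positivity
          · calc _ ≤ e2 (Th L) * e2 (7 + L) :=
                  mul_le_mul hEb (log_le L hpU) (by
                    have := Real.log_natCast_nonneg p
                    positivity) (e2_pos _).le
              _ = _ := by rw [← e2_add]; congr 1; ring
          · rw [show L + 1 + j + 1 = L + 1 + (j + 1) by ring]; exact dlt_high L (j + 1)
          · have := nq4 L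
            calc _ = (2 * e2 ((Th L + 7 + L) + 36 - ((L : ℝ) + 1) ^ 2 / 2)) *
                  (9 / 10 : ℝ) ^ j := by ring
              _ ≤ _ := mul_le_mul_of_nonneg_right this (by positivity)
    · intro l hl
      rcases Nat.lt_or_ge L l with hlL | hlL
      · obtain ⟨j, rfl⟩ : ∃ j, l = L + 1 + j := ⟨l - (L + 1), by omega⟩
        have hjJ : j < J := by omega
        have hM := hMbz j hjJ.le
        have hF : cx (HH (p := p) Qc L J (L + 1 + j)) =
            fun y : Fin (L + 1) ⊕ Fin J → ZMod p =>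
              cx (bT (p := p) Qc (L + 1)) (yl y) * cx (zr (p := p) J j) (yr y) := by
          funext y; unfold cx HH; beta_reduce; rw [if_neg (by omega)]
          rw [show L + 1 + j - (L + 1) = j by omega]
          push_cast; ring
        have hg : gg L (L + 1 + j) = (9 / 10 : ℝ) ^ j := by
          unfold gg; rw [if_neg (by omega), show L + 1 + j - (L + 1) = j by omega]
        rw [hF, hg]
        refine stageT hM a ha ((L : ℝ) + 1) (Th L) ((9 / 10 : ℝ) ^ (2 * (j + 1)))
          (1 / (9 / 10 : ℝ) ^ j) (1 / (p : ℝ) ^ j) (dlt L (L + 1 + j + 1)) (by positivity)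
          (by positivity) ?_ ?_ (by positivity) (by positivity) (hPQ2 j) ?_ ?_ ?_ _ ?_
        · have h4 : 1 / ((9 / 10 : ℝ) ^ (2 * (j + 1))) ^ 2 =
              (1 / (9 / 10 : ℝ) ^ 4) * (1 / (9 / 10 : ℝ) ^ j) ^ 4 := by
            rw [one_div_pow, ← pow_mul, ← pow_mul, one_div_mul_one_div, ← pow_add]
            congr 2; ring
          rw [h4]
          refine mul_le_mul_of_nonneg_right (by norm_num) (by positivity)
        · have h4 : 1 / ((9 / 10 : ℝ) ^ (2 * (j + 1))) ^ 8 =
              (1 / (9 / 10 : ℝ) ^ 16) * ((1 / (9 / 10 : ℝ) ^ j) ^ 4 *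
                (1 / (9 / 10 : ℝ) ^ 12) ^ j) := by
            rw [one_div_pow, one_div_pow, ← pow_mul, ← pow_mul, ← pow_mul, one_div_mul_one_div,
              one_div_mul_one_div, ← pow_add, ← pow_add]
            congr 2; ring
          rw [h4]
          have h5 : 1 / (p : ℝ) ^ j * (1 / (9 / 10 : ℝ) ^ 12) ^ j ≤ 1 := by
            rw [← one_div_pow, ← mul_pow]
            refine pow_le_one₀ (by positivity) ?_
            rw [one_div_mul_one_div, div_le_one (by positivity)]
            norm_num
            linarith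
          have h6 : 1 / (9 / 10 : ℝ) ^ 16 ≤ 8 := by norm_num
          calc _ = (1 / (9 / 10 : ℝ) ^ 16) * (1 / (9 / 10 : ℝ) ^ j) ^ 4 *
                (1 / (p : ℝ) ^ j * (1 / (9 / 10 : ℝ) ^ 12) ^ j) := by ring
            _ ≤ 8 * (1 / (9 / 10 : ℝ) ^ j) ^ 4 * 1 := by
                refine mul_le_mul ?_ h5 (by positivity) (by positivity)
                exact mul_le_mul_of_nonneg_right h6 (by positivity)
            _ = _ := mul_one _
        · rw [mul_one]; exact hEb0
        · rw [mul_one]; exact hEb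
        · rw [show L + 1 + j + 1 = L + 1 + (j + 1) by ring]; exact dlt_high L (j + 1)
        · rw [dlt_high, le_div_iff₀ (by have := e2_pos (-((L : ℝ) + 1) ^ 2); positivity)]
          have h7 := nq5 L
          have h8 : (0 : ℝ) < (9 / 10 : ℝ) ^ j := by positivity
          calc _ = (e2 (Th L + 36 + ((L : ℝ) + 1) ^ 2 / 2) * (4 * e2 (-((L : ℝ) + 1) ^ 2))) *
                (1 / (9 / 10 : ℝ) ^ j * (9 / 10 : ℝ) ^ (2 * j)) := by ring
            _ = (e2 (Th L + 36 + ((L : ℝ) + 1) ^ 2 / 2) * (4 * e2 (-((L : ℝ) + 1) ^ 2))) *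
                (9 / 10 : ℝ) ^ j := by
                congr 1
                rw [two_mul, pow_add]; field_simp
            _ ≤ _ := mul_le_mul_of_nonneg_right h7 h8.le
      · have hM := (majE_H hR hp5 (1 / 256) hε0 hε1 (L + 1) l (by omega) (Qc_ge l) (Qc_sixteen l)
          (fun s hs => hWp s (by omega)) (Wc l) (by have := Wc_four l; omega)
          (fun s hs => Wc_mono (by omega))).lift (m2 := Fin J)
        have hF : cx (HH (p := p) Qc L J l) =
            fun y : Fin (L + 1) ⊕ Fin J → ZMod p => cx (hT (p := p) Qc (L + 1) l) (yl y) := by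
          funext y; unfold cx HH; beta_reduce; rw [if_pos hlL]
        have hg : gg L l = e2 (-(l : ℝ)) := by unfold gg; rw [if_pos (by omega)]
        rw [hF, hg]
        refine stageT hM a ha ((l + 1 : ℕ) : ℝ) (th l) 1 1 1 (dlt L (l + 1)) one_pos
          one_pos (by norm_num) (by norm_num) zero_le_one (by positivity) (hPQ1 l) ?_ ?_ ?_ _ ?_
        · exact EE_nonneg _ _ (by norm_num) (by norm_num) _ _ (Nat.cast_nonneg _)
        · exact EE_th 16 (by norm_num) (by norm_num) l
        · rw [dlt_low L (l + 1) (by omega), mul_one]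
        · rw [dlt_low L l (by omega)]
          have := nq2 l
          push_cast
          exact this
  have hbound : e2 660 + ∑ l ∈ range (L + 1 + J), (e2 660 * gg L l) +
        ∑ l ∈ range (L + 1 + J), (4 * dlt L l) * (e2 660 * gg L l / (4 * dlt L l)) ≤
        e2 660 * 25 := by
    have h1 : ∀ l ∈ range (L + 1 + J),
        (4 * dlt L l) * (e2 660 * gg L l / (4 * dlt L l)) = e2 660 * gg L l := by
      intro l _
      have := dlt_pos L l
      field_simp
    rw [Finset.sum_congr rfl h1, ← Finset.mul_sum]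
    have h2 := mul_le_mul_of_nonneg_left (gg_sum L J) (e2_pos 660).le
    linarith
  obtain ⟨x, hx1, hx2⟩ := choose_signs (m := m) (n := Fin (L + 1) ⊕ Fin J) a
    (fun ρ i => abs_le_one a ha ρ i) (FF Qc L J (L + 1 + J)) (FF_abs_le hR L J J)
    (e2 660 * 25) (by have := e2_pos 660; positivity) (key.mono hbound) (by
      -- unfrozen points
      have hv := (hMbz J le_rfl).val 0
      set φ : (Fin (L + 1) ⊕ Fin J → ZMod p) → ℝ := fun y =>
        bT (p := p) Qc (L + 1) (yl y) * zr (p := p) J J (yr y) with hφ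
      have hb0 : ∀ y, 0 ≤ bT (p := p) Qc (L + 1) y := by
        intro y; unfold bT zz; split_ifs <;> norm_num
      have hφ0 : ∀ y, 0 ≤ φ y := fun y => mul_nonneg (hb0 _) (zr_nonneg _ _ _)
      have h1 : ft (fun y : Fin (L + 1) ⊕ Fin J → ZMod p =>
          cx (bT (p := p) Qc (L + 1)) (yl y) * cx (zr (p := p) J J) (yr y)) 0 =
          ((((p : ℝ) ^ (Fintype.card (Fin (L + 1) ⊕ Fin J)))⁻¹ * ∑ y, φ y : ℝ) : ℂ) := by
        unfold ft cx
        rw [hφ]
        push_cast
        congr 1
        refine Finset.sum_congr rfl fun y _ => ?_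
        rw [zero_dotProduct, neg_zero, chi_zero, mul_one]
      have h2 : ((univ.filter fun y : Fin (L + 1) ⊕ Fin J → ZMod p =>
          |FF Qc L J (L + 1 + J) y| ≠ 1).card : ℝ) ≤ ∑ y, φ y := by
        rw [Finset.card_filter]
        push_cast
        refine Finset.sum_le_sum fun y _ => ?_
        split_ifs with h
        · rcases FF_end hR L J J y with h3 | ⟨h3, _⟩
          · exact absurd h3 h
          · exact h3.ge
        · exact hφ0 y
      rw [h1, Complex.norm_real, Real.norm_eq_abs, abs_of_nonneg (mul_nonneg (by positivity)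
        (Finset.sum_nonneg fun y _ => hφ0 y)), mul_one] at hv
      have h3 : (p : ℝ) ^ J * (((p : ℝ) ^ (Fintype.card (Fin (L + 1) ⊕ Fin J)))⁻¹ * ∑ y, φ y) *
          e2 (16 * ((L : ℝ) + 1) ^ 2) ≤ 1 / 2 * e2 (16 * ((L : ℝ) + 1) ^ 2) := by
        have h4 : ((Qc (L + 1) * p ^ J : ℕ) : ℝ) = e2 (16 * ((L : ℝ) + 1) ^ 2) * (p : ℝ) ^ J := by
          push_cast; rw [Qc_real]; push_cast; rfl
        rw [h4] at hv
        calc _ = ((p : ℝ) ^ (Fintype.card (Fin (L + 1) ⊕ Fin J)))⁻¹ * (∑ y, φ y) *
              (e2 (16 * ((L : ℝ) + 1) ^ 2) * (p : ℝ) ^ J) := by ring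
          _ ≤ _ := hv
          _ ≤ _ := hEb
          _ ≤ _ := nq6 L hL
      have h5 := le_of_mul_le_mul_right h3 (e2_pos _)
      refine le_trans ?_ h5
      rw [← hJ]
      exact mul_le_mul_of_nonneg_left (mul_le_mul_of_nonneg_left h2 (by positivity))
        (by positivity))
  exact ⟨x, hx1, hx2⟩

end Pool.Agent.W862.Kom
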