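import Pool.Agent.W862.Kom.Num

/-!
# The full chain of functions
-/

namespace Pool.Agent.W862.Kom

open Finset

variable {p : ℕ} [Fact p.Prime]

/-- partial sums in the second phase -/
noncomputable def sl (J j : ℕ) (z : Fin J → ZMod p) : ℝ := ∑ i ∈ range j, dl J i z

lemma sl_struct (J j : ℕ) (z : Fin J → ZMod p) :
    (zr J j z = 1 ∧ sl J j z = 0) ∨ (zr J j z = 0 ∧ |sl J j z| = 1) := by
  cases j with
  | zero => left; exact ⟨zr_eq_one _ _ _ (fun t ht => absurd ht (by omega)), by simp [sl]⟩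
  | succ j => exact fl_struct J j z

lemma sl_abs_le (J j : ℕ) (z : Fin J → ZMod p) : |sl J j z| ≤ 1 := by
  rcases sl_struct J j z with ⟨_, h⟩ | ⟨_, h⟩
  · rw [h]; simp
  · rw [h]

lemma sl_diff (J j j' : ℕ) (h : j ≤ j') (z : Fin J → ZMod p) :
    |sl J j' z - sl J j z| ≤ zr J j z := by
  cases j with
  | zero =>
    have h0 : sl J 0 z = 0 := by simp [sl]
    have h1 : zr J 0 z = 1 := zr_eq_one _ _ _ (fun t ht => absurd ht (by omega))
    rw [h0, h1, sub_zero]; exact sl_abs_le J j' z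
  | succ j =>
    obtain ⟨j'', rfl⟩ : ∃ j'', j' = j'' + 1 := ⟨j' - 1, by omega⟩
    have := fl_diff J j j'' (by omega) z
    rwa [one_mul] at this

/-- the chain -/
noncomputable def FF (Q : ℕ → ℕ) (L J l : ℕ) (y : Fin (L + 1) ⊕ Fin J → ZMod p) : ℝ :=
  if l ≤ L then gT Q (L + 1) l (yl y)
  else eT Q (L + 1) (yl y) + bT Q (L + 1) (yl y) * sl J (l - (L + 1)) (yr y)

/-- the majorants of the tails -/
noncomputable def HH (Q : ℕ → ℕ) (L J l : ℕ) [NeZero (DD p Q (L + 1))]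
    (y : Fin (L + 1) ⊕ Fin J → ZMod p) : ℝ :=
  if l ≤ L then hT Q (L + 1) l (yl y)
  else bT Q (L + 1) (yl y) * zr J (l - (L + 1)) (yr y)

section
variable {Q W : ℕ → ℕ} (hR : Radix Q W)
include hR

lemma FF_end (L J j : ℕ) [NeZero (DD p Q (L + 1))] (y : Fin (L + 1) ⊕ Fin J → ZMod p) :
    |FF Q L J (L + 1 + j) y| = 1 ∨
      (bT Q (L + 1) (yl y) * zr J j (yr y) = 1 ∧ FF Q L J (L + 1 + j) y = 0) := by
  unfold FF
  rw [if_neg (by omega), show L + 1 + j - (L + 1) = j by omega]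
  rcases eT_abs hR (L + 1) (yl y) with ⟨h1, h2⟩ | ⟨h1, h2⟩
  · rw [h1, h2, one_mul, zero_add, one_mul]
    rcases sl_struct J j (yr y) with ⟨h3, h4⟩ | ⟨h3, h4⟩
    · right; exact ⟨h3, h4⟩
    · left; exact h4
  · left
    rw [h1, zero_mul, add_zero]; exact h2

lemma FF_abs_le (L J j : ℕ) [NeZero (DD p Q (L + 1))] (y : Fin (L + 1) ⊕ Fin J → ZMod p) :
    |FF Q L J (L + 1 + j) y| ≤ 1 := by
  rcases FF_end hR L J j y with h | ⟨_, h⟩
  · rw [h]
  · rw [h]; simp

lemma FF_HH (hW4 : ∀ s, 1 ≤ s → 4 ≤ W s) (L J l : ℕ) (hl : l < L + 1 + J)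
    [NeZero (DD p Q (L + 1))] (hQ2 : 2 ≤ Q 1) (hQ16 : ∀ l, 16 ≤ Q (l + 1))
    (hQd : ∀ l, 16 ∣ Q (l + 1))
    (y : Fin (L + 1) ⊕ Fin J → ZMod p) :
    |FF Q L J (L + 1 + J) y - FF Q L J l y| ≤ 4 * HH Q L J l y := by
  by_cases hlL : l ≤ L
  · have hend := FF_abs_le hR L J J y
    have hH : HH Q L J l y = hT Q (L + 1) l (yl y) := by unfold HH; rw [if_pos hlL]
    have hFl : FF Q L J l y = gT Q (L + 1) l (yl y) := by unfold FF; rw [if_pos hlL]
    rw [hH, hFl]
    have hRge : 2 ≤ Rl p Q (L + 1) l := by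
      obtain ⟨r, hr⟩ := Rl_even (p := p) hR (L + 1) l
      have := Rl_pos (p := p) hR (L + 1) l (by omega)
      omega
    rcases le_or_gt (2 * (Rl p Q (L + 1) l : ℝ))
      |(tz ((XI Q (L + 1) l (yl y) : ℤ) : ZMod (DD p Q (L + 1))) : ℝ)| with h | h
    · obtain ⟨h1, h2⟩ := frozen hR hW4 (L + 1) l L hlL (by omega) (yl y) 2 (by norm_num) hRge h
      have h3 : FF Q L J (L + 1 + J) y = gT Q (L + 1) l (yl y) := by
        unfold FF
        rw [if_neg (by omega)]
        have hb : bT Q (L + 1) (yl y) = 0 := by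
          unfold bT zz
          rw [if_neg (by simpa using h2)]
        rw [hb, zero_mul, add_zero, ← h1]
        unfold eT
        simp
      rw [h3, sub_self, abs_zero]
      have := hT_nonneg hR (L + 1) l (yl y)
      positivity
    · have h1 := hT_ge hR (L + 1) l (by omega) (hQ16 l) (hQd l) (yl y) h
      have h2 : |gT Q (L + 1) l (yl y)| ≤ 1 := by
        unfold gT; exact ph_abs _ _
      calc _ ≤ |FF Q L J (L + 1 + J) y| + |gT Q (L + 1) l (yl y)| := abs_sub _ _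
        _ ≤ 1 + 1 := add_le_add hend h2
        _ ≤ _ := by linarith
  · obtain ⟨j, rfl⟩ : ∃ j, l = L + 1 + j := ⟨l - (L + 1), by omega⟩
    unfold FF HH
    rw [if_neg (by omega), if_neg (by omega), if_neg (by omega)]
    rw [show L + 1 + J - (L + 1) = J by omega, show L + 1 + j - (L + 1) = j by omega]
    have h1 := sl_diff J j J (by omega) (yr y)
    have hb : 0 ≤ bT Q (L + 1) (yl y) := by unfold bT zz; split_ifs <;> norm_num
    have h2 : eT Q (L + 1) (yl y) + bT Q (L + 1) (yl y) * sl J J (yr y) -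
        (eT Q (L + 1) (yl y) + bT Q (L + 1) (yl y) * sl J j (yr y)) =
        bT Q (L + 1) (yl y) * (sl J J (yr y) - sl J j (yr y)) := by ring
    rw [h2, abs_mul, abs_of_nonneg hb]
    have h3 := mul_le_mul_of_nonneg_left h1 hb
    have h4 : 0 ≤ bT Q (L + 1) (yl y) * zr J j (yr y) := mul_nonneg hb (zr_nonneg _ _ _)
    linarith

end

end Pool.Agent.W862.Kom
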