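import Pool.Agent.W862.Kom.Prod

/-!
# The exponential and the distance to the nearest integer; discrete transforms modulo `N`
-/

namespace Pool.Agent.W862.Kom

open Finset

/-- `e(x) = exp (2 π i x)` -/
noncomputable def ex (x : ℝ) : ℂ := Complex.exp (2 * Real.pi * Complex.I * x)

lemma ex_eq (x : ℝ) : ex x = Complex.exp (Complex.I * ((2 * Real.pi * x : ℝ) : ℂ)) := by
  unfold ex; congr 1; push_cast; ring

lemma ex_zero : ex 0 = 1 := by unfold ex; simp

lemma ex_add (x y : ℝ) : ex (x + y) = ex x * ex y := by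
  unfold ex
  rw [← Complex.exp_add]; congr 1; push_cast; ring

lemma norm_ex (x : ℝ) : ‖ex x‖ = 1 := by
  rw [ex_eq, mul_comm]; exact Complex.norm_exp_ofReal_mul_I _

lemma ex_ne_zero (x : ℝ) : ex x ≠ 0 := by
  intro h; have := norm_ex x; rw [h, norm_zero] at this; norm_num at this

lemma ex_neg (x : ℝ) : ex (-x) = (ex x)⁻¹ := by
  refine eq_inv_of_mul_eq_one_left ?_
  rw [← ex_add, neg_add_cancel, ex_zero]

lemma ex_int (n : ℤ) : ex n = 1 := by
  unfold ex
  rw [Complex.exp_eq_one_iff]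
  exact ⟨n, by push_cast; ring⟩

lemma ex_add_int (x : ℝ) (n : ℤ) : ex (x + n) = ex x := by rw [ex_add, ex_int, mul_one]

lemma ex_sum {ι : Type*} (s : Finset ι) (f : ι → ℝ) : ex (∑ i ∈ s, f i) = ∏ i ∈ s, ex (f i) := by
  classical
  induction s using Finset.induction_on with
  | empty => simp [ex_zero]
  | insert a s ha ih => rw [Finset.sum_insert ha, Finset.prod_insert ha, ex_add, ih]

lemma ex_nat_mul (n : ℕ) (x : ℝ) : ex (n * x) = ex x ^ n := by
  induction n with
  | zero => simp [ex_zero]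
  | succ n ih => rw [Nat.cast_succ, add_mul, one_mul, ex_add, ih, pow_succ]

lemma norm_ex_sub_one (x : ℝ) : ‖ex x - 1‖ = 2 * |Real.sin (Real.pi * x)| := by
  rw [ex_eq, Complex.norm_exp_I_mul_ofReal_sub_one, norm_mul, Real.norm_eq_abs, Real.norm_eq_abs]
  congr 1
  · norm_num
  · congr 2; ring

lemma norm_ex_sub_one_le (x : ℝ) : ‖ex x - 1‖ ≤ 2 * Real.pi * |x| := by
  rw [ex_eq]
  refine Real.norm_exp_I_mul_ofReal_sub_one_le.trans ?_
  rw [Real.norm_eq_abs, abs_mul, abs_mul, abs_of_pos Real.pi_pos]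
  norm_num

lemma norm_ex_sub_ex (x y : ℝ) : ‖ex x - ex y‖ = ‖ex (x - y) - 1‖ := by
  have h : ex x - ex y = ex y * (ex (x - y) - 1) := by
    rw [mul_sub, ← ex_add, mul_one]; congr 2; ring
  rw [h, norm_mul, norm_ex, one_mul]

/-- distance to the nearest integer -/
noncomputable def nr (x : ℝ) : ℝ := ‖(x : UnitAddCircle)‖

lemma nr_eq (x : ℝ) : nr x = |x - round x| := UnitAddCircle.norm_eq

lemma nr_nonneg (x : ℝ) : 0 ≤ nr x := norm_nonneg _

lemma nr_le_abs (x : ℝ) : nr x ≤ |x| := by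
  rw [nr_eq]
  have := round_le x 0
  simpa using this

lemma nr_add_le (x y : ℝ) : nr (x + y) ≤ nr x + nr y := by
  unfold nr; rw [AddCircle.coe_add]; exact norm_add_le _ _

lemma nr_add_int (x : ℝ) (n : ℤ) : nr (x + n) = nr x := by
  rw [nr_eq, nr_eq, round_add_intCast]; push_cast; congr 1; ring

lemma nr_neg (x : ℝ) : nr (-x) = nr x := by
  unfold nr; rw [AddCircle.coe_neg, norm_neg]

lemma nr_lip (x y : ℝ) : nr x ≤ nr y + |x - y| := by
  have h : x = y + (x - y) := by ring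
  calc nr x = nr (y + (x - y)) := by rw [← h]
    _ ≤ nr y + nr (x - y) := nr_add_le _ _
    _ ≤ _ := by have := nr_le_abs (x - y); linarith

lemma four_nr_le (x : ℝ) : 4 * nr x ≤ ‖ex x - 1‖ := by
  rw [nr_eq]
  set θ : ℝ := x - round x with hθ
  have h1 : ex x = ex θ := by
    have : x = θ + (round x : ℤ) := by rw [hθ]; ring
    conv_lhs => rw [this]
    rw [ex_add_int]
  rw [h1, norm_ex_sub_one]
  have h2 : |θ| ≤ 1 / 2 := abs_sub_round x
  have hpi := Real.pi_pos
  have h3 : |Real.sin (Real.pi * θ)| = Real.sin (Real.pi * |θ|) := by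
    rcases le_or_gt 0 θ with h | h
    · rw [abs_of_nonneg h, abs_of_nonneg]
      refine Real.sin_nonneg_of_nonneg_of_le_pi (by positivity) ?_
      rw [abs_of_nonneg h] at h2
      nlinarith
    · rw [abs_of_neg h, mul_neg, Real.sin_neg, abs_of_nonpos]
      refine Real.sin_nonpos_of_nonpos_of_neg_pi_le (by nlinarith) ?_
      rw [abs_of_neg h] at h2
      nlinarith
  rw [h3]
  have h4 := Real.mul_le_sin (x := Real.pi * |θ|) (by positivity) (by nlinarith)
  have h5 : 2 / Real.pi * (Real.pi * |θ|) = 2 * |θ| := by field_simp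
  rw [h5] at h4
  linarith

/-- the standard character of `ZMod N` -/
noncomputable def chN {N : ℕ} [NeZero N] (x : ZMod N) : ℂ := ZMod.stdAddChar x

section
variable {N : ℕ} [NeZero N]

lemma chN_coe (j : ℤ) : chN (j : ZMod N) = ex (j / N) := by
  unfold chN ex
  rw [ZMod.stdAddChar_coe]
  congr 1; push_cast; ring

lemma chN_val (x : ZMod N) : chN x = ex (x.val / N) := by
  have h : x = ((x.val : ℤ) : ZMod N) := by simp
  conv_lhs => rw [h]
  rw [chN_coe]; push_cast; rfl

lemma chN_add (x y : ZMod N) : chN (x + y) = chN x * chN y := by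
  simp [chN, AddChar.map_add_eq_mul]

lemma chN_zero : chN (0 : ZMod N) = 1 := by simp [chN]

lemma norm_chN (x : ZMod N) : ‖chN x‖ = 1 := by rw [chN_val]; exact norm_ex _

/-- discrete transform on `ZMod N` -/
noncomputable def fN (φ : ZMod N → ℂ) (k : ZMod N) : ℂ := (N : ℂ)⁻¹ * ∑ x, φ x * chN (-(k * x))

lemma Npos : (0 : ℝ) < N := by exact_mod_cast Nat.pos_of_ne_zero (NeZero.ne N)

lemma Nne : (N : ℂ) ≠ 0 := by exact_mod_cast NeZero.ne N

lemma fN_add (φ ψ : ZMod N → ℂ) (k : ZMod N) :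
    fN (fun x => φ x + ψ x) k = fN φ k + fN ψ k := by
  unfold fN; simp_rw [add_mul, Finset.sum_add_distrib, mul_add]

lemma fN_sub (φ ψ : ZMod N → ℂ) (k : ZMod N) :
    fN (fun x => φ x - ψ x) k = fN φ k - fN ψ k := by
  unfold fN; simp_rw [sub_mul, Finset.sum_sub_distrib, mul_sub]

lemma fN_smul (c : ℂ) (φ : ZMod N → ℂ) (k : ZMod N) :
    fN (fun x => c * φ x) k = c * fN φ k := by
  unfold fN; simp_rw [mul_assoc, ← Finset.mul_sum]; ring

lemma fN_shift (φ : ZMod N → ℂ) (k : ZMod N) :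
    fN (fun x => φ (x + 1)) k = chN k * fN φ k := by
  unfold fN
  have h : ∑ x, φ (x + 1) * chN (-(k * x)) = chN k * ∑ x, φ x * chN (-(k * x)) := by
    rw [Finset.mul_sum]
    refine Fintype.sum_equiv (Equiv.addRight 1) _ _ fun x => ?_
    simp only [Equiv.coe_addRight]
    have : chN (-(k * x)) = chN k * chN (-(k * (x + 1))) := by
      rw [← chN_add]; congr 1; ring
    rw [this]; ring
  rw [h]; ring

/-- bound by the mean of the absolute values over a set containing the support -/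
lemma norm_fN_le (φ : ZMod N → ℂ) (k : ZMod N) (s : Finset (ZMod N)) (B : ℝ)
    (hs : ∀ x ∉ s, φ x = 0) (hB : ∀ x ∈ s, ‖φ x‖ ≤ B) :
    ‖fN φ k‖ ≤ s.card * B / N := by
  unfold fN
  rw [norm_mul, norm_inv, Complex.norm_natCast]
  have h1 : ∑ x, φ x * chN (-(k * x)) = ∑ x ∈ s, φ x * chN (-(k * x)) := by
    symm
    refine Finset.sum_subset (Finset.subset_univ s) fun x _ hx => ?_
    rw [hs x hx, zero_mul]
  rw [h1]
  have h2 : ‖∑ x ∈ s, φ x * chN (-(k * x))‖ ≤ s.card * B := by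
    refine (norm_sum_le _ _).trans ?_
    calc ∑ x ∈ s, ‖φ x * chN (-(k * x))‖ ≤ ∑ x ∈ s, B := by
          refine Finset.sum_le_sum fun x hx => ?_
          rw [norm_mul, norm_chN, mul_one]; exact hB x hx
      _ = _ := by rw [Finset.sum_const, nsmul_eq_mul]
  calc (N : ℝ)⁻¹ * _ ≤ (N : ℝ)⁻¹ * (s.card * B) :=
        mul_le_mul_of_nonneg_left h2 (by positivity)
    _ = _ := by ring

lemma sum_chN_mul (a : ZMod N) : ∑ x : ZMod N, chN (x * a) = if a = 0 then (N : ℂ) else 0 := by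
  have := AddChar.sum_mulShift (R' := ℂ) a (ZMod.isPrimitive_stdAddChar N)
  simpa [chN, ZMod.card] using this

lemma fN_inv (φ : ZMod N → ℂ) (x : ZMod N) : φ x = ∑ k, fN φ k * chN (k * x) := by
  have h1 : ∑ k, fN φ k * chN (k * x) = (N : ℂ)⁻¹ * ∑ z, φ z * ∑ k : ZMod N, chN (k * (x - z)) := by
    unfold fN
    simp_rw [mul_assoc, Finset.sum_mul, Finset.mul_sum]
    rw [Finset.sum_comm]
    refine Finset.sum_congr rfl fun z _ => Finset.sum_congr rfl fun k _ => ?_
    rw [mul_sub, sub_eq_add_neg, chN_add]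
    ring
  rw [h1]
  simp_rw [sum_chN_mul, sub_eq_zero]
  simp only [mul_ite, mul_zero, Finset.sum_ite_eq, Finset.mem_univ, if_true]
  have := Nne (N := N)
  field_simp

end

lemma chN_eq_chi {p : ℕ} [Fact p.Prime] (x : ZMod p) : chN x = chi x := rfl

lemma fN_eq_ft1 {p : ℕ} [Fact p.Prime] (φ : ZMod p → ℂ) (k : ZMod p) : fN φ k = ft1 φ k := rfl

end Pool.Agent.W862.Kom
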