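import Mathlib

/-!
# A Gowers–Cauchy–Schwarz inequality with weights
-/

namespace Pool.Agent.W862.Kom

open Finset

lemma cs_weight {β : Type*} (s : Finset β) (b x : β → ℝ) (hb : ∀ B ∈ s, 0 ≤ b B)  :
    (∑ B ∈ s, b B * x B) ^ 2 ≤ (∑ B ∈ s, b B) * ∑ B ∈ s, b B * x B ^ 2 := by
  refine Finset.sum_sq_le_sum_mul_sum_of_sq_le_mul s (fun i hi => hb i hi)
    (fun i hi => mul_nonneg (hb i hi) (sq_nonneg _)) (fun i _ => (by ring : _ = _).le)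

lemma norm_sum_weight_sq {β : Type*} [Fintype β] (b : β → ℝ) (hb : ∀ B, 0 ≤ b B) (z : β → ℂ) :
    ‖∑ B, (b B : ℂ) * z B‖ ^ 2 ≤ (∑ B, b B) * ∑ B, b B * ‖z B‖ ^ 2 := by
  have h1 : ‖∑ B, (b B : ℂ) * z B‖ ≤ ∑ B, b B * ‖z B‖ := by
    refine (norm_sum_le _ _).trans (Finset.sum_le_sum fun B _ => ?_)
    rw [norm_mul, Complex.norm_real, Real.norm_of_nonneg (hb B)]
  calc ‖∑ B, (b B : ℂ) * z B‖ ^ 2 ≤ (∑ B, b B * ‖z B‖) ^ 2 :=
        pow_le_pow_left₀ (norm_nonneg _) h1 2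
    _ ≤ _ := cs_weight _ _ _ (fun B _ => hb B)

lemma norm_sq_sum_eq {α : Type*} [Fintype α] (c : α → ℂ) :
    ((‖∑ A, c A‖ ^ 2 : ℝ) : ℂ) = ∑ A, ∑ A', c A * (starRingEnd ℂ) (c A') := by
  have h1 : ((‖∑ A, c A‖ ^ 2 : ℝ) : ℂ) = (∑ A, c A) * (starRingEnd ℂ) (∑ A, c A) := by
    rw [Complex.mul_conj, Complex.normSq_eq_norm_sq]
  rw [h1, map_sum, Finset.sum_mul_sum]

theorem gcs4 {α β : Type*} [Fintype α] [Fintype β] (a : α → ℝ) (b : β → ℝ)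
    (ha : ∀ A, 0 ≤ a A) (hb : ∀ B, 0 ≤ b B) (f : α → β → ℂ) :
    ‖∑ A, ∑ B, ((a A * b B : ℝ) : ℂ) * f A B‖ ^ 4 ≤
      (∑ A, a A) ^ 2 * (∑ B, b B) ^ 2 *
        ∑ A, ∑ A', a A * a A' * ‖∑ B, (b B : ℂ) * (f A B * (starRingEnd ℂ) (f A' B))‖ ^ 2 := by
  have e1 : ∑ A, ∑ B, ((a A * b B : ℝ) : ℂ) * f A B
      = ∑ B, (b B : ℂ) * ∑ A, (a A : ℂ) * f A B := by
    rw [Finset.sum_comm]
    refine Finset.sum_congr rfl fun B _ => ?_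
    rw [Finset.mul_sum]
    refine Finset.sum_congr rfl fun A _ => ?_
    push_cast; ring
  have e2 : ∑ B, b B * ‖∑ A, (a A : ℂ) * f A B‖ ^ 2 ≤
      ∑ A, ∑ A', a A * a A' * ‖∑ B, (b B : ℂ) * (f A B * (starRingEnd ℂ) (f A' B))‖ := by
    have h1 : ((∑ B, b B * ‖∑ A, (a A : ℂ) * f A B‖ ^ 2 : ℝ) : ℂ) =
        ∑ A, ∑ A', ((a A * a A' : ℝ) : ℂ) *
          ∑ B, (b B : ℂ) * (f A B * (starRingEnd ℂ) (f A' B)) := by
      rw [Complex.ofReal_sum]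
      have h2 : ∀ B, ((b B * ‖∑ A, (a A : ℂ) * f A B‖ ^ 2 : ℝ) : ℂ) =
          ∑ A, ∑ A', ((a A * a A' : ℝ) : ℂ) * ((b B : ℂ) * (f A B * (starRingEnd ℂ) (f A' B))) := by
        intro B
        rw [Complex.ofReal_mul, norm_sq_sum_eq, Finset.mul_sum]
        refine Finset.sum_congr rfl fun A _ => ?_
        rw [Finset.mul_sum]
        refine Finset.sum_congr rfl fun A' _ => ?_
        rw [map_mul, Complex.conj_ofReal]
        push_cast; ring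
      simp_rw [h2]
      rw [Finset.sum_comm]
      refine Finset.sum_congr rfl fun A _ => ?_
      rw [Finset.sum_comm]
      refine Finset.sum_congr rfl fun A' _ => ?_
      rw [Finset.mul_sum]
    have h3 : 0 ≤ ∑ B, b B * ‖∑ A, (a A : ℂ) * f A B‖ ^ 2 :=
      Finset.sum_nonneg fun B _ => mul_nonneg (hb B) (sq_nonneg _)
    have h4 : ‖((∑ B, b B * ‖∑ A, (a A : ℂ) * f A B‖ ^ 2 : ℝ) : ℂ)‖
        = ∑ B, b B * ‖∑ A, (a A : ℂ) * f A B‖ ^ 2 := by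
      rw [Complex.norm_real, Real.norm_of_nonneg h3]
    rw [← h4, h1]
    refine (norm_sum_le _ _).trans (Finset.sum_le_sum fun A _ => ?_)
    refine (norm_sum_le _ _).trans (Finset.sum_le_sum fun A' _ => ?_)
    rw [norm_mul, Complex.norm_real, Real.norm_of_nonneg (mul_nonneg (ha A) (ha A'))]
  have e3 : (∑ A, ∑ A', a A * a A' *
      ‖∑ B, (b B : ℂ) * (f A B * (starRingEnd ℂ) (f A' B))‖) ^ 2 ≤
      (∑ A, a A) ^ 2 *
      ∑ A, ∑ A', a A * a A' * ‖∑ B, (b B : ℂ) * (f A B * (starRingEnd ℂ) (f A' B))‖ ^ 2 := by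
    have := cs_weight (univ : Finset (α × α)) (fun q => a q.1 * a q.2)
      (fun q => ‖∑ B, (b B : ℂ) * (f q.1 B * (starRingEnd ℂ) (f q.2 B))‖)
      (fun q _ => mul_nonneg (ha _) (ha _))
    rw [Fintype.sum_prod_type, Fintype.sum_prod_type, Fintype.sum_prod_type] at this
    refine this.trans_eq ?_
    congr 1
    rw [sq, Finset.sum_mul_sum]
  have hSb : 0 ≤ ∑ B, b B := Finset.sum_nonneg fun B _ => hb B
  calc ‖∑ A, ∑ B, ((a A * b B : ℝ) : ℂ) * f A B‖ ^ 4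
      = (‖∑ B, (b B : ℂ) * ∑ A, (a A : ℂ) * f A B‖ ^ 2) ^ 2 := by rw [e1]; ring
    _ ≤ ((∑ B, b B) * ∑ B, b B * ‖∑ A, (a A : ℂ) * f A B‖ ^ 2) ^ 2 :=
        pow_le_pow_left₀ (sq_nonneg _) (norm_sum_weight_sq b hb _) 2
    _ ≤ ((∑ B, b B) * ∑ A, ∑ A', a A * a A' *
          ‖∑ B, (b B : ℂ) * (f A B * (starRingEnd ℂ) (f A' B))‖) ^ 2 := by
        refine pow_le_pow_left₀ (mul_nonneg hSb (Finset.sum_nonneg fun B _ =>
          mul_nonneg (hb B) (sq_nonneg _))) (mul_le_mul_of_nonneg_left e2 hSb) 2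
    _ = (∑ B, b B) ^ 2 * (∑ A, ∑ A', a A * a A' *
          ‖∑ B, (b B : ℂ) * (f A B * (starRingEnd ℂ) (f A' B))‖) ^ 2 := by ring
    _ ≤ (∑ B, b B) ^ 2 * ((∑ A, a A) ^ 2 *
      ∑ A, ∑ A', a A * a A' * ‖∑ B, (b B : ℂ) * (f A B * (starRingEnd ℂ) (f A' B))‖ ^ 2) :=
        mul_le_mul_of_nonneg_left e3 (sq_nonneg _)
    _ = _ := by ring

end Pool.Agent.W862.Kom
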