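import Pool.Agent.W862.Kom.Four
import Pool.Agent.W862.Kom.Gcs

/-!
# Fourth moments over the random frequencies
-/

namespace Pool.Agent.W862.Kom

open Finset

lemma sum4 {α : Type*} [Fintype α] (f1 f2 f3 f4 : α → ℂ) :
    ∑ i1, ∑ i2, ∑ i3, ∑ i4, (f1 i1 * f2 i2) * (f3 i3 * f4 i4)
      = ((∑ i, f1 i) * (∑ i, f2 i)) * ((∑ i, f3 i) * (∑ i, f4 i)) := by
  simp_rw [← Finset.mul_sum, ← Finset.sum_mul]
  congr 1
  rw [Finset.sum_mul_sum]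

variable {p : ℕ} [Fact p.Prime]
variable {m n : Type*} [Fintype m] [DecidableEq m] [Fintype n] [DecidableEq n]

/-- the product of four transforms -/
noncomputable def q4 (b : (m → ZMod p) → ℂ) (k1 k2 k3 k4 : n → ZMod p)
    (ξ : n → m → ZMod p) : ℂ :=
  (hat b (cmb k1 ξ) * (starRingEnd ℂ) (hat b (cmb k2 ξ))) *
    (starRingEnd ℂ) (hat b (cmb k3 ξ) * (starRingEnd ℂ) (hat b (cmb k4 ξ)))

lemma cmb_dot (k : n → ZMod p) (ξ : n → m → ZMod p) (i : m → ZMod p) :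
    cmb k ξ ⬝ᵥ i = ∑ s, ξ s ⬝ᵥ (k s • i) := by
  simp only [dotProduct, cmb, Finset.sum_mul, Pi.smul_apply, smul_eq_mul]
  rw [Finset.sum_comm]
  refine Finset.sum_congr rfl fun s _ => Finset.sum_congr rfl fun j _ => ?_
  ring

lemma q4_eq (b : (m → ZMod p) → ℂ) (k1 k2 k3 k4 : n → ZMod p) (ξ : n → m → ZMod p) :
    q4 b k1 k2 k3 k4 ξ = ∑ i1, ∑ i2, ∑ i3, ∑ i4,
      (b i1 * (starRingEnd ℂ) (b i2) * ((starRingEnd ℂ) (b i3) * b i4)) *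
        chi (∑ s, ξ s ⬝ᵥ (k2 s • i2 + k3 s • i3 - k1 s • i1 - k4 s • i4)) := by
  have h0 : ∀ i1 i2 i3 i4 : m → ZMod p,
      (b i1 * (starRingEnd ℂ) (b i2) * ((starRingEnd ℂ) (b i3) * b i4)) *
      chi (∑ s, ξ s ⬝ᵥ (k2 s • i2 + k3 s • i3 - k1 s • i1 - k4 s • i4)) =
      ((b i1 * chi (-(cmb k1 ξ ⬝ᵥ i1))) *
        ((starRingEnd ℂ) (b i2) * (starRingEnd ℂ) (chi (-(cmb k2 ξ ⬝ᵥ i2))))) *
      (((starRingEnd ℂ) (b i3) * (starRingEnd ℂ) (chi (-(cmb k3 ξ ⬝ᵥ i3)))) *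
        (b i4 * chi (-(cmb k4 ξ ⬝ᵥ i4)))) := by
    intro i1 i2 i3 i4
    have h01 : chi (∑ s, ξ s ⬝ᵥ (k2 s • i2 + k3 s • i3 - k1 s • i1 - k4 s • i4)) =
      (chi (-(cmb k1 ξ ⬝ᵥ i1)) * (starRingEnd ℂ) (chi (-(cmb k2 ξ ⬝ᵥ i2)))) *
      ((starRingEnd ℂ) (chi (-(cmb k3 ξ ⬝ᵥ i3))) * (chi (-(cmb k4 ξ ⬝ᵥ i4)))) := by
      rw [← chi_neg, ← chi_neg, neg_neg, neg_neg, ← chi_add, ← chi_add, ← chi_add]
      congr 1
      simp only [dotProduct_sub, dotProduct_add, Finset.sum_add_distrib, Finset.sum_sub_distrib,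
        ← cmb_dot]
      ring
    rw [h01]; ring
  simp_rw [h0]
  rw [sum4]
  unfold q4 hat
  simp only [map_sum, map_mul, Complex.conj_conj]

/-- generic case: the fourth moment is the sum of the fourth powers -/
lemma sum_q4 (b : (m → ZMod p) → ℂ) (k1 h k : n → ZMod p)
    (hli : LinearIndependent (ZMod p) ![h, k1, k]) :
    ∑ ξ : n → m → ZMod p, q4 b k1 (k1 + h) (k1 + k) (k1 + h + k) ξ =
      ((p : ℂ) ^ (Fintype.card n * Fintype.card m)) * ∑ i, ((‖b i‖ ^ 4 : ℝ) : ℂ) := by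
  simp_rw [q4_eq]
  have h1 : ∀ i1 i2 i3 i4 : m → ZMod p,
      ∑ ξ : n → m → ZMod p, chi (∑ s, ξ s ⬝ᵥ ((k1 + h) s • i2 + (k1 + k) s • i3 - k1 s • i1
        - (k1 + h + k) s • i4)) = if (i1 = i4 ∧ i2 = i4 ∧ i3 = i4) then
          ((p : ℂ) ^ (Fintype.card n * Fintype.card m)) else 0 := by
    intro i1 i2 i3 i4
    rw [sum_chi_xi (fun s => ((k1 + h) s • i2 + (k1 + k) s • i3 - k1 s • i1
        - (k1 + h + k) s • i4))]
    refine if_congr ?_ rfl rfl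
    constructor
    · intro hw
      rw [Fintype.linearIndependent_iff] at hli
      have h2 : ∀ j, (i2 j - i4 j = 0) ∧ (i2 j + i3 j - i1 j - i4 j = 0) ∧ (i3 j - i4 j = 0) := by
        intro j
        have := hli ![i2 j - i4 j, i2 j + i3 j - i1 j - i4 j, i3 j - i4 j] (by
          funext s
          have h3 := congrFun (congrFun hw s) j
          simp only [Pi.add_apply, Pi.smul_apply, Pi.sub_apply, smul_eq_mul, Pi.zero_apply] at h3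
          simp only [Fin.sum_univ_three, Matrix.cons_val_zero, Matrix.cons_val_one,
            Matrix.cons_val, Pi.add_apply, Pi.smul_apply, smul_eq_mul, Pi.zero_apply]
          linear_combination h3)
        exact ⟨this 0, this 1, this 2⟩
      refine ⟨?_, ?_, ?_⟩
      · funext j
        obtain ⟨a1, a2, a3⟩ := h2 j
        linear_combination a1 + a3 - a2
      · funext j
        obtain ⟨a1, a2, a3⟩ := h2 j
        linear_combination a1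
      · funext j
        obtain ⟨a1, a2, a3⟩ := h2 j
        linear_combination a3
    · rintro ⟨rfl, rfl, rfl⟩
      funext s j
      simp only [Pi.add_apply, Pi.smul_apply, Pi.sub_apply, smul_eq_mul, Pi.zero_apply]
      ring
  rw [Finset.sum_comm]
  have h2 : ∀ i1 : m → ZMod p, ∑ ξ : n → m → ZMod p, ∑ i2, ∑ i3, ∑ i4,
      (b i1 * (starRingEnd ℂ) (b i2) * ((starRingEnd ℂ) (b i3) * b i4)) *
        chi (∑ s, ξ s ⬝ᵥ ((k1 + h) s • i2 + (k1 + k) s • i3 - k1 s • i1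
        - (k1 + h + k) s • i4)) =
      ((p : ℂ) ^ (Fintype.card n * Fintype.card m)) * ((‖b i1‖ ^ 4 : ℝ) : ℂ) := by
    intro i1
    have h3 : ∑ ξ : n → m → ZMod p, ∑ i2, ∑ i3, ∑ i4,
      (b i1 * (starRingEnd ℂ) (b i2) * ((starRingEnd ℂ) (b i3) * b i4)) *
        chi (∑ s, ξ s ⬝ᵥ ((k1 + h) s • i2 + (k1 + k) s • i3 - k1 s • i1
        - (k1 + h + k) s • i4)) = ∑ i2, ∑ i3, ∑ i4,
      (b i1 * (starRingEnd ℂ) (b i2) * ((starRingEnd ℂ) (b i3) * b i4)) *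
        if (i1 = i4 ∧ i2 = i4 ∧ i3 = i4) then
          ((p : ℂ) ^ (Fintype.card n * Fintype.card m)) else 0 := by
      rw [Finset.sum_comm]
      refine Finset.sum_congr rfl fun i2 _ => ?_
      rw [Finset.sum_comm]
      refine Finset.sum_congr rfl fun i3 _ => ?_
      rw [Finset.sum_comm]
      refine Finset.sum_congr rfl fun i4 _ => ?_
      rw [← Finset.mul_sum, h1]
    rw [h3, Finset.sum_eq_single i1, Finset.sum_eq_single i1, Finset.sum_eq_single i1]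
    · rw [if_pos ⟨rfl, rfl, rfl⟩]
      have h4 : ((‖b i1‖ ^ 4 : ℝ) : ℂ) = (b i1 * (starRingEnd ℂ) (b i1)) ^ 2 := by
        rw [Complex.mul_conj, Complex.normSq_eq_norm_sq]; push_cast; ring
      rw [h4]; ring
    · intro i4 _ h5
      rw [if_neg (fun h6 => h5 h6.1.symm), mul_zero]
    · intro h5; exact absurd (Finset.mem_univ _) h5
    · intro i3 _ h5
      refine Finset.sum_eq_zero fun i4 _ => ?_
      rw [if_neg (fun h6 => h5 (h6.2.2.trans h6.1.symm)), mul_zero]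
    · intro h5; exact absurd (Finset.mem_univ _) h5
    · intro i2 _ h5
      refine Finset.sum_eq_zero fun i3 _ => Finset.sum_eq_zero fun i4 _ => ?_
      rw [if_neg (fun h6 => h5 (h6.2.1.trans h6.1.symm)), mul_zero]
    · intro h5; exact absurd (Finset.mem_univ _) h5
  rw [Finset.sum_congr rfl fun i1 _ => h2 i1, ← Finset.mul_sum]

/-- trivial bound -/
lemma norm_q4_le {R : Type*} [Fintype R] (b : R → (m → ZMod p) → ℂ) (K : ℝ)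
    (hK : ∀ η, ∑ ρ, ‖hat (b ρ) η‖ ^ 2 ≤ K ^ 2) (k1 k2 k3 k4 : n → ZMod p)
    (ξ : n → m → ZMod p) :
    ∑ ρ, ‖q4 (b ρ) k1 k2 k3 k4 ξ‖ ≤ K ^ 4 := by
  have key : ∀ u v : R → ℝ, (∀ ρ, 0 ≤ u ρ) → (∀ ρ, 0 ≤ v ρ) → ∑ ρ, u ρ ≤ K ^ 2 →
      ∑ ρ, v ρ ≤ K ^ 2 → ∑ ρ, u ρ * v ρ ≤ K ^ 4 := by
    intro u v hu hv h1 h2
    calc ∑ ρ, u ρ * v ρ ≤ ∑ ρ, u ρ * K ^ 2 := by
          refine Finset.sum_le_sum fun ρ _ => mul_le_mul_of_nonneg_left ?_ (hu ρ)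
          exact (Finset.single_le_sum (fun i _ => hv i) (Finset.mem_univ ρ)).trans h2
      _ = (∑ ρ, u ρ) * K ^ 2 := by rw [Finset.sum_mul]
      _ ≤ K ^ 2 * K ^ 2 := mul_le_mul_of_nonneg_right h1 (sq_nonneg _)
      _ = K ^ 4 := by ring
  have h1 := key (fun ρ => ‖hat (b ρ) (cmb k1 ξ)‖ ^ 2) (fun ρ => ‖hat (b ρ) (cmb k2 ξ)‖ ^ 2)
    (fun _ => sq_nonneg _) (fun _ => sq_nonneg _) (hK _) (hK _)
  have h2 := key (fun ρ => ‖hat (b ρ) (cmb k3 ξ)‖ ^ 2) (fun ρ => ‖hat (b ρ) (cmb k4 ξ)‖ ^ 2)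
    (fun _ => sq_nonneg _) (fun _ => sq_nonneg _) (hK _) (hK _)
  have h3 : ∀ ρ, ‖q4 (b ρ) k1 k2 k3 k4 ξ‖ ≤
      (‖hat (b ρ) (cmb k1 ξ)‖ ^ 2 * ‖hat (b ρ) (cmb k2 ξ)‖ ^ 2 +
        ‖hat (b ρ) (cmb k3 ξ)‖ ^ 2 * ‖hat (b ρ) (cmb k4 ξ)‖ ^ 2) / 2 := by
    intro ρ
    unfold q4
    rw [norm_mul, norm_mul, RCLike.norm_conj, RCLike.norm_conj, norm_mul, RCLike.norm_conj]
    nlinarith [sq_nonneg (‖hat (b ρ) (cmb k1 ξ)‖ * ‖hat (b ρ) (cmb k2 ξ)‖ -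
      ‖hat (b ρ) (cmb k3 ξ)‖ * ‖hat (b ρ) (cmb k4 ξ)‖)]
  calc ∑ ρ, ‖q4 (b ρ) k1 k2 k3 k4 ξ‖ ≤ _ := Finset.sum_le_sum fun ρ _ => h3 ρ
    _ = ((∑ ρ, ‖hat (b ρ) (cmb k1 ξ)‖ ^ 2 * ‖hat (b ρ) (cmb k2 ξ)‖ ^ 2) +
        ∑ ρ, ‖hat (b ρ) (cmb k3 ξ)‖ ^ 2 * ‖hat (b ρ) (cmb k4 ξ)‖ ^ 2) / 2 := by
        rw [← Finset.sum_div, Finset.sum_add_distrib]
    _ ≤ K ^ 4 := by linarith

end Pool.Agent.W862.Kom
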