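import Pool.Agent.W862.Kom.Engine

/-!
# The main fourth moment estimate, continued
-/

namespace Pool.Agent.W862.Kom

open Finset

variable {p : ℕ} [Fact p.Prime]
variable {m n : Type*} [Fintype m] [DecidableEq m] [Fintype n] [DecidableEq n]

lemma sum_pow_four_le {ι : Type*} (s : Finset ι) (x : ι → ℝ) (_hx : ∀ i ∈ s, 0 ≤ x i) :
    (∑ i ∈ s, x i) ^ 4 ≤ (s.card : ℝ) ^ 3 * ∑ i ∈ s, x i ^ 4 := by
  have h1 : (∑ i ∈ s, x i) ^ 2 ≤ (s.card : ℝ) * ∑ i ∈ s, x i ^ 2 := sq_sum_le_card_mul_sum_sq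
  have h2 : (∑ i ∈ s, x i ^ 2) ^ 2 ≤ (s.card : ℝ) * ∑ i ∈ s, (x i ^ 2) ^ 2 :=
    sq_sum_le_card_mul_sum_sq
  calc (∑ i ∈ s, x i) ^ 4 = ((∑ i ∈ s, x i) ^ 2) ^ 2 := by ring
    _ ≤ ((s.card : ℝ) * ∑ i ∈ s, x i ^ 2) ^ 2 := pow_le_pow_left₀ (sq_nonneg _) h1 2
    _ = (s.card : ℝ) ^ 2 * (∑ i ∈ s, x i ^ 2) ^ 2 := by ring
    _ ≤ (s.card : ℝ) ^ 2 * ((s.card : ℝ) * ∑ i ∈ s, (x i ^ 2) ^ 2) :=
        mul_le_mul_of_nonneg_left h2 (by positivity)
    _ = (s.card : ℝ) ^ 3 * ∑ i ∈ s, x i ^ 4 := by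
        rw [← mul_assoc, show (s.card : ℝ) ^ 2 * s.card = (s.card : ℝ) ^ 3 by ring]
        congr 1
        refine Finset.sum_congr rfl fun i _ => ?_
        ring

lemma card_xi : (Fintype.card (n → m → ZMod p) : ℝ) =
    ((p : ℝ) ^ (Fintype.card n * Fintype.card m)) := by
  simp [ZMod.card, ← pow_mul, mul_comm]

open Classical in
/-- bound for the averaged fourth product -/
lemma norm_sum_q4_le {R : Type*} [Fintype R] (b : R → (m → ZMod p) → ℂ) (K U : ℝ)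
    (hK : ∀ η, ∑ ρ, ‖hat (b ρ) η‖ ^ 2 ≤ K ^ 2) (hU : ∑ ρ, ∑ i, ‖b ρ i‖ ^ 4 ≤ U)
    (k1 h k : n → ZMod p) :
    ‖∑ ξ : n → m → ZMod p, ∑ ρ, q4 (b ρ) k1 (k1 + h) (k1 + k) (k1 + h + k) ξ‖ ≤
      ((p : ℝ) ^ (Fintype.card n * Fintype.card m)) *
        (U + K ^ 4 * (if LinearIndependent (ZMod p) ![h, k1, k] then (0 : ℝ) else 1)) := by
  have hU0 : 0 ≤ U := le_trans (Finset.sum_nonneg fun ρ _ => Finset.sum_nonneg fun i _ => by
    positivity) hU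
  by_cases hli : LinearIndependent (ZMod p) ![h, k1, k]
  · rw [if_pos hli, mul_zero, add_zero, Finset.sum_comm]
    simp_rw [sum_q4 _ _ _ _ hli]
    rw [← Finset.mul_sum, norm_mul, norm_pow, Complex.norm_natCast]
    refine mul_le_mul_of_nonneg_left ?_ (by positivity)
    simp_rw [← Complex.ofReal_sum]
    rw [Complex.norm_real, Real.norm_of_nonneg]
    · exact hU
    · exact Finset.sum_nonneg fun ρ _ => Finset.sum_nonneg fun i _ => by positivity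
  · rw [if_neg hli, mul_one]
    calc ‖∑ ξ : n → m → ZMod p, ∑ ρ, q4 (b ρ) k1 (k1 + h) (k1 + k) (k1 + h + k) ξ‖
        ≤ ∑ ξ : n → m → ZMod p, K ^ 4 := by
          refine (norm_sum_le _ _).trans (Finset.sum_le_sum fun ξ _ => ?_)
          exact (norm_sum_le _ _).trans (norm_q4_le b K hK _ _ _ _ ξ)
      _ = ((p : ℝ) ^ (Fintype.card n * Fintype.card m)) * K ^ 4 := by
          rw [Finset.sum_const, Finset.card_univ, nsmul_eq_mul, card_xi]
      _ ≤ _ := by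
          refine mul_le_mul_of_nonneg_left ?_ (by positivity)
          linarith

open Classical in
lemma sum_ker {R : Type*} [Fintype R] {Q : ℕ} (v : Fin Q → (n → ZMod p))
    (G : (n → ZMod p) → ℝ) (hG : ∀ κ, 0 ≤ G κ) (θ : (n → ZMod p) → ℂ) (hθ : ∀ κ, ‖θ κ‖ ≤ 1)
    (b : R → (m → ZMod p) → ℂ) (K U : ℝ)
    (hK : ∀ η, ∑ ρ, ‖hat (b ρ) η‖ ^ 2 ≤ K ^ 2) (hU : ∑ ρ, ∑ i, ‖b ρ i‖ ^ 4 ≤ U)
    (A A' : Fin Q) :
    ∑ ξ : n → m → ZMod p, ∑ ρ,
        ‖ker v G (fun κ => θ κ * hat (b ρ) (cmb κ ξ)) A A'‖ ^ 2 ≤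
      ∑ B : Fin Q × (n → ZMod p), ∑ B' : Fin Q × (n → ZMod p), (G B.2 / Q) * (G B'.2 / Q) *
        (((p : ℝ) ^ (Fintype.card n * Fintype.card m)) *
        (U + K ^ 4 * (if LinearIndependent (ZMod p)
          ![v A' - v A, v A + (v B.1 + B.2), (v B'.1 + B'.2) - (v B.1 + B.2)]
            then (0 : ℝ) else 1))) := by
  have h1 : ((∑ ξ : n → m → ZMod p, ∑ ρ,
        ‖ker v G (fun κ => θ κ * hat (b ρ) (cmb κ ξ)) A A'‖ ^ 2 : ℝ) : ℂ) =
      ∑ B : Fin Q × (n → ZMod p), ∑ B' : Fin Q × (n → ZMod p),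
        (((G B.2 / Q) * (G B'.2 / Q) : ℝ) : ℂ) *
        (((θ (v A + (v B.1 + B.2)) * (starRingEnd ℂ) (θ (v A' + (v B.1 + B.2)))) *
          (starRingEnd ℂ) (θ (v A + (v B'.1 + B'.2)) *
            (starRingEnd ℂ) (θ (v A' + (v B'.1 + B'.2))))) *
          ∑ ξ : n → m → ZMod p, ∑ ρ, q4 (b ρ) (v A + (v B.1 + B.2)) (v A' + (v B.1 + B.2))
            (v A + (v B'.1 + B'.2)) (v A' + (v B'.1 + B'.2)) ξ) := by
    rw [Complex.ofReal_sum]
    simp_rw [Complex.ofReal_sum, ker, norm_sq_sum_eq, Finset.mul_sum]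
    have h2 : ∀ ξ : n → m → ZMod p, ∑ ρ, ∑ B : Fin Q × (n → ZMod p),
        ∑ B' : Fin Q × (n → ZMod p),
        ((G B.2 / Q : ℝ) : ℂ) * (θ (v A + (v B.1 + B.2)) * hat (b ρ) (cmb (v A + (v B.1 + B.2)) ξ) *
          (starRingEnd ℂ) (θ (v A' + (v B.1 + B.2)) *
            hat (b ρ) (cmb (v A' + (v B.1 + B.2)) ξ))) *
        (starRingEnd ℂ) (((G B'.2 / Q : ℝ) : ℂ) * (θ (v A + (v B'.1 + B'.2)) *
          hat (b ρ) (cmb (v A + (v B'.1 + B'.2)) ξ) *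
          (starRingEnd ℂ) (θ (v A' + (v B'.1 + B'.2)) *
            hat (b ρ) (cmb (v A' + (v B'.1 + B'.2)) ξ)))) =
        ∑ B : Fin Q × (n → ZMod p), ∑ B' : Fin Q × (n → ZMod p), ∑ ρ,
        (((G B.2 / Q) * (G B'.2 / Q) : ℝ) : ℂ) *
        (((θ (v A + (v B.1 + B.2)) * (starRingEnd ℂ) (θ (v A' + (v B.1 + B.2)))) *
          (starRingEnd ℂ) (θ (v A + (v B'.1 + B'.2)) *
            (starRingEnd ℂ) (θ (v A' + (v B'.1 + B'.2))))) *
          q4 (b ρ) (v A + (v B.1 + B.2)) (v A' + (v B.1 + B.2))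
            (v A + (v B'.1 + B'.2)) (v A' + (v B'.1 + B'.2)) ξ) := by
      intro ξ
      rw [Finset.sum_comm]
      refine Finset.sum_congr rfl fun B _ => ?_
      rw [Finset.sum_comm]
      refine Finset.sum_congr rfl fun B' _ => Finset.sum_congr rfl fun ρ _ => ?_
      unfold q4
      simp only [map_mul, Complex.conj_conj, Complex.conj_ofReal]
      push_cast
      ring
    simp_rw [h2]
    rw [Finset.sum_comm]
    refine Finset.sum_congr rfl fun B _ => ?_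
    rw [Finset.sum_comm]
  have h3 : ‖((∑ ξ : n → m → ZMod p, ∑ ρ,
        ‖ker v G (fun κ => θ κ * hat (b ρ) (cmb κ ξ)) A A'‖ ^ 2 : ℝ) : ℂ)‖ =
      ∑ ξ : n → m → ZMod p, ∑ ρ,
        ‖ker v G (fun κ => θ κ * hat (b ρ) (cmb κ ξ)) A A'‖ ^ 2 := by
    rw [Complex.norm_real, Real.norm_of_nonneg]
    exact Finset.sum_nonneg fun _ _ => Finset.sum_nonneg fun _ _ => sq_nonneg _
  rw [← h3, h1]
  refine (norm_sum_le _ _).trans (Finset.sum_le_sum fun B _ => ?_)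
  refine (norm_sum_le _ _).trans (Finset.sum_le_sum fun B' _ => ?_)
  have hGG : 0 ≤ (G B.2 / Q) * (G B'.2 / Q) :=
    mul_nonneg (div_nonneg (hG _) (Nat.cast_nonneg _)) (div_nonneg (hG _) (Nat.cast_nonneg _))
  rw [norm_mul, Complex.norm_real, Real.norm_of_nonneg hGG]
  refine mul_le_mul_of_nonneg_left ?_ hGG
  rw [norm_mul]
  have h4 : ‖((θ (v A + (v B.1 + B.2)) * (starRingEnd ℂ) (θ (v A' + (v B.1 + B.2)))) *
          (starRingEnd ℂ) (θ (v A + (v B'.1 + B'.2)) *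
            (starRingEnd ℂ) (θ (v A' + (v B'.1 + B'.2)))))‖ ≤ 1 := by
    rw [norm_mul, norm_mul, RCLike.norm_conj, RCLike.norm_conj, norm_mul, RCLike.norm_conj]
    have h5 := mul_le_one₀ (hθ (v A + (v B.1 + B.2))) (norm_nonneg _) (hθ (v A' + (v B.1 + B.2)))
    have h6 := mul_le_one₀ (hθ (v A + (v B'.1 + B'.2))) (norm_nonneg _)
      (hθ (v A' + (v B'.1 + B'.2)))
    exact mul_le_one₀ h5 (by positivity) h6
  have h7 := norm_sum_q4_le (n := n) b K U hK hU (v A + (v B.1 + B.2)) (v A' - v A)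
    ((v B'.1 + B'.2) - (v B.1 + B.2))
  have e1 : v A + (v B.1 + B.2) + (v A' - v A) = v A' + (v B.1 + B.2) := by abel
  have e2 : v A + (v B.1 + B.2) + ((v B'.1 + B'.2) - (v B.1 + B.2)) = v A + (v B'.1 + B'.2) := by
    abel
  have e3 : v A' + (v B.1 + B.2) + ((v B'.1 + B'.2) - (v B.1 + B.2)) = v A' + (v B'.1 + B'.2) := by
    abel
  rw [e1, e2, e3] at h7
  calc _ ≤ 1 * _ := mul_le_mul_of_nonneg_right h4 (norm_nonneg _)
    _ ≤ _ := by rw [one_mul]; exact h7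

open Classical in
lemma sum_ker_total {R : Type*} [Fintype R] {Q : ℕ} (hQ : 0 < Q) (v : Fin Q → (n → ZMod p))
    (P : ℝ) (hP : 1 ≤ P) (hv : Spread v P)
    (G : (n → ZMod p) → ℝ) (hG : ∀ κ, 0 ≤ G κ) (Z : ℝ) (hZ : ∑ κ, G κ ≤ Z)
    (θ : (n → ZMod p) → ℂ) (hθ : ∀ κ, ‖θ κ‖ ≤ 1)
    (b : R → (m → ZMod p) → ℂ) (K U : ℝ)
    (hK : ∀ η, ∑ ρ, ‖hat (b ρ) η‖ ^ 2 ≤ K ^ 2) (hU : ∑ ρ, ∑ i, ‖b ρ i‖ ^ 4 ≤ U) :
    ∑ ξ : n → m → ZMod p, ∑ ρ, ∑ A : Fin Q, ∑ A' : Fin Q, (1 / (Q : ℝ)) * (1 / (Q : ℝ)) *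
        ‖ker v G (fun κ => θ κ * hat (b ρ) (cmb κ ξ)) A A'‖ ^ 2 ≤
      ((p : ℝ) ^ (Fintype.card n * Fintype.card m)) * (Z ^ 2 * (U + 3 * P * K ^ 4 / Q)) := by
  have hQ' : (0 : ℝ) < Q := by exact_mod_cast hQ
  have hU0 : 0 ≤ U := le_trans (Finset.sum_nonneg fun ρ _ => Finset.sum_nonneg fun i _ => by
    positivity) hU
  set N : ℝ := ((p : ℝ) ^ (Fintype.card n * Fintype.card m)) with hN
  have hN0 : 0 ≤ N := by positivity
  have hG0 : 0 ≤ ∑ κ, G κ := Finset.sum_nonneg fun κ _ => hG κ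
  -- reorganise
  have e1 : ∑ ξ : n → m → ZMod p, ∑ ρ, ∑ A : Fin Q, ∑ A' : Fin Q, (1 / (Q : ℝ)) * (1 / (Q : ℝ)) *
        ‖ker v G (fun κ => θ κ * hat (b ρ) (cmb κ ξ)) A A'‖ ^ 2 =
      (1 / (Q : ℝ)) * (1 / (Q : ℝ)) * ∑ A : Fin Q, ∑ A' : Fin Q, ∑ ξ : n → m → ZMod p, ∑ ρ,
        ‖ker v G (fun κ => θ κ * hat (b ρ) (cmb κ ξ)) A A'‖ ^ 2 := by
    simp_rw [← Finset.mul_sum]
    congr 1
    calc _ = ∑ ξ : n → m → ZMod p, ∑ A : Fin Q, ∑ ρ, ∑ A' : Fin Q,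
          ‖ker v G (fun κ => θ κ * hat (b ρ) (cmb κ ξ)) A A'‖ ^ 2 :=
          Finset.sum_congr rfl fun ξ _ => Finset.sum_comm
      _ = ∑ A : Fin Q, ∑ ξ : n → m → ZMod p, ∑ ρ, ∑ A' : Fin Q,
          ‖ker v G (fun κ => θ κ * hat (b ρ) (cmb κ ξ)) A A'‖ ^ 2 := Finset.sum_comm
      _ = ∑ A : Fin Q, ∑ ξ : n → m → ZMod p, ∑ A' : Fin Q, ∑ ρ,
          ‖ker v G (fun κ => θ κ * hat (b ρ) (cmb κ ξ)) A A'‖ ^ 2 :=
          Finset.sum_congr rfl fun A _ => Finset.sum_congr rfl fun ξ _ => Finset.sum_comm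
      _ = _ := Finset.sum_congr rfl fun A _ => Finset.sum_comm
  rw [e1]
  have e2 : ∑ A : Fin Q, ∑ A' : Fin Q, ∑ ξ : n → m → ZMod p, ∑ ρ,
        ‖ker v G (fun κ => θ κ * hat (b ρ) (cmb κ ξ)) A A'‖ ^ 2 ≤
      ∑ B : Fin Q × (n → ZMod p), ∑ B' : Fin Q × (n → ZMod p), (G B.2 / Q) * (G B'.2 / Q) *
        (N * ((Q : ℝ) * Q * U + K ^ 4 * ∑ A : Fin Q, ∑ A' : Fin Q,
          (if LinearIndependent (ZMod p)
          ![v A' - v A, v A + (v B.1 + B.2), (v B'.1 + B'.2) - (v B.1 + B.2)]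
            then (0 : ℝ) else 1))) := by
    calc _ ≤ ∑ A : Fin Q, ∑ A' : Fin Q, ∑ B : Fin Q × (n → ZMod p),
        ∑ B' : Fin Q × (n → ZMod p), (G B.2 / Q) * (G B'.2 / Q) *
        (N * (U + K ^ 4 * (if LinearIndependent (ZMod p)
          ![v A' - v A, v A + (v B.1 + B.2), (v B'.1 + B'.2) - (v B.1 + B.2)]
            then (0 : ℝ) else 1))) :=
          Finset.sum_le_sum fun A _ => Finset.sum_le_sum fun A' _ =>
            sum_ker v G hG θ hθ b K U hK hU A A'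
      _ = ∑ B : Fin Q × (n → ZMod p), ∑ B' : Fin Q × (n → ZMod p), ∑ A : Fin Q, ∑ A' : Fin Q,
          (G B.2 / Q) * (G B'.2 / Q) *
        (N * (U + K ^ 4 * (if LinearIndependent (ZMod p)
          ![v A' - v A, v A + (v B.1 + B.2), (v B'.1 + B'.2) - (v B.1 + B.2)]
            then (0 : ℝ) else 1))) := by
          calc _ = ∑ A : Fin Q, ∑ B : Fin Q × (n → ZMod p), ∑ A' : Fin Q,
                ∑ B' : Fin Q × (n → ZMod p), _ :=
                Finset.sum_congr rfl fun A _ => Finset.sum_comm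
            _ = ∑ B : Fin Q × (n → ZMod p), ∑ A : Fin Q, ∑ A' : Fin Q,
                ∑ B' : Fin Q × (n → ZMod p), _ := Finset.sum_comm
            _ = ∑ B : Fin Q × (n → ZMod p), ∑ A : Fin Q,
                ∑ B' : Fin Q × (n → ZMod p), ∑ A' : Fin Q, _ :=
                Finset.sum_congr rfl fun B _ => Finset.sum_congr rfl fun A _ => Finset.sum_comm
            _ = _ := Finset.sum_congr rfl fun B _ => Finset.sum_comm
      _ = _ := by
          refine Finset.sum_congr rfl fun B _ => Finset.sum_congr rfl fun B' _ => ?_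
          simp_rw [← Finset.mul_sum, Finset.sum_add_distrib, ← Finset.mul_sum]
          simp only [Finset.sum_const, Finset.card_univ, Fintype.card_fin, nsmul_eq_mul]
          ring
  -- bound the inner counts
  have e3 : ∀ B B' : Fin Q × (n → ZMod p), ∑ A : Fin Q, ∑ A' : Fin Q,
          (if LinearIndependent (ZMod p)
          ![v A' - v A, v A + (v B.1 + B.2), (v B'.1 + B'.2) - (v B.1 + B.2)]
            then (0 : ℝ) else 1) ≤ 2 * P * Q +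
            (if v B'.1 + B'.2 = v B.1 + B.2 then (Q : ℝ) * Q else 0) := by
    intro B B'
    by_cases h : v B'.1 + B'.2 = v B.1 + B.2
    · rw [if_pos h]
      have : ∑ A : Fin Q, ∑ A' : Fin Q,
          (if LinearIndependent (ZMod p)
          ![v A' - v A, v A + (v B.1 + B.2), (v B'.1 + B'.2) - (v B.1 + B.2)]
            then (0 : ℝ) else 1) ≤ ∑ A : Fin Q, ∑ A' : Fin Q, (1 : ℝ) := by
        refine Finset.sum_le_sum fun A _ => Finset.sum_le_sum fun A' _ => ?_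
        split_ifs <;> norm_num
      simp only [Finset.sum_const, Finset.card_univ, Fintype.card_fin, nsmul_eq_mul,
        mul_one] at this
      have h2 : 0 ≤ 2 * P * Q := by positivity
      linarith
    · rw [if_neg h, add_zero]
      exact count_pairs v P hv (v B.1 + B.2) _ (sub_ne_zero.mpr h)
  have e4 : ∑ B : Fin Q × (n → ZMod p), G B.2 / Q = ∑ κ, G κ := by
    rw [Fintype.sum_prod_type]
    simp only [Finset.sum_const, Finset.card_univ, Fintype.card_fin, nsmul_eq_mul]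
    rw [← Finset.sum_div]; field_simp
  have e5 : ∑ B : Fin Q × (n → ZMod p), ∑ B' : Fin Q × (n → ZMod p),
      (G B.2 / Q) * (G B'.2 / Q) *
      (if v B'.1 + B'.2 = v B.1 + B.2 then (Q : ℝ) * Q else 0) ≤ Q * Z ^ 2 := by
    have e6 : ∀ B : Fin Q × (n → ZMod p), ∑ B' : Fin Q × (n → ZMod p),
      (G B.2 / Q) * (G B'.2 / Q) *
      (if v B'.1 + B'.2 = v B.1 + B.2 then (Q : ℝ) * Q else 0) ≤ (G B.2 / Q) * (Q * Z) := by
      intro B
      have e7 : ∑ B' : Fin Q × (n → ZMod p),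
      (G B.2 / Q) * (G B'.2 / Q) *
      (if v B'.1 + B'.2 = v B.1 + B.2 then (Q : ℝ) * Q else 0) =
        (G B.2 / Q) * (Q * ∑ j : Fin Q, G (v B.1 + B.2 - v j)) := by
        rw [Fintype.sum_prod_type, Finset.mul_sum, Finset.mul_sum]
        refine Finset.sum_congr rfl fun j _ => ?_
        rw [Finset.sum_eq_single (v B.1 + B.2 - v j)]
        · rw [if_pos (by simp)]
          field_simp
        · intro κ _ hκ
          rw [if_neg, mul_zero]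
          intro h8
          exact hκ (by simp only [] at h8; rw [← h8]; abel)
        · intro h8; exact absurd (Finset.mem_univ _) h8
      rw [e7]
      refine mul_le_mul_of_nonneg_left (mul_le_mul_of_nonneg_left ?_ hQ'.le)
        (div_nonneg (hG _) hQ'.le)
      refine le_trans ?_ hZ
      have hinj : Function.Injective (fun j : Fin Q => v B.1 + B.2 - v j) := by
        intro i j hij
        exact hv.inj (sub_right_injective hij)
      rw [← Finset.sum_image (f := fun κ => G κ) (s := univ)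
        (g := fun j : Fin Q => v B.1 + B.2 - v j) (fun i _ j _ h => hinj h)]
      exact Finset.sum_le_sum_of_subset_of_nonneg (Finset.subset_univ _) fun κ _ _ => hG κ
    calc _ ≤ ∑ B : Fin Q × (n → ZMod p), (G B.2 / Q) * (Q * Z) :=
          Finset.sum_le_sum fun B _ => e6 B
      _ = (∑ κ, G κ) * (Q * Z) := by rw [← Finset.sum_mul, e4]
      _ ≤ Z * (Q * Z) := mul_le_mul_of_nonneg_right hZ (mul_nonneg hQ'.le (hG0.trans hZ))
      _ = _ := by ring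
  have e8 : ∑ B : Fin Q × (n → ZMod p), ∑ B' : Fin Q × (n → ZMod p),
      (G B.2 / Q) * (G B'.2 / Q) ≤ Z ^ 2 := by
    rw [← Finset.sum_mul_sum, e4, ← sq]
    exact pow_le_pow_left₀ hG0 hZ 2
  have e9 : ∑ B : Fin Q × (n → ZMod p), ∑ B' : Fin Q × (n → ZMod p), (G B.2 / Q) * (G B'.2 / Q) *
        (N * ((Q : ℝ) * Q * U + K ^ 4 * ∑ A : Fin Q, ∑ A' : Fin Q,
          (if LinearIndependent (ZMod p)
          ![v A' - v A, v A + (v B.1 + B.2), (v B'.1 + B'.2) - (v B.1 + B.2)]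
            then (0 : ℝ) else 1))) ≤
      N * (Z ^ 2 * (Q * Q * U) + K ^ 4 * (2 * P * Q * Z ^ 2 + Q * Z ^ 2)) := by
    calc _ ≤ ∑ B : Fin Q × (n → ZMod p), ∑ B' : Fin Q × (n → ZMod p),
          (G B.2 / Q) * (G B'.2 / Q) * (N * ((Q : ℝ) * Q * U + K ^ 4 * (2 * P * Q +
            (if v B'.1 + B'.2 = v B.1 + B.2 then (Q : ℝ) * Q else 0)))) := by
          refine Finset.sum_le_sum fun B _ => Finset.sum_le_sum fun B' _ => ?_
          have hGG : 0 ≤ (G B.2 / Q) * (G B'.2 / Q) :=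
            mul_nonneg (div_nonneg (hG _) hQ'.le) (div_nonneg (hG _) hQ'.le)
          refine mul_le_mul_of_nonneg_left (mul_le_mul_of_nonneg_left ?_ hN0) hGG
          have := mul_le_mul_of_nonneg_left (e3 B B') (by positivity : (0 : ℝ) ≤ K ^ 4)
          linarith
      _ = N * ((Q * Q * U + K ^ 4 * (2 * P * Q)) * ∑ B : Fin Q × (n → ZMod p),
            ∑ B' : Fin Q × (n → ZMod p), (G B.2 / Q) * (G B'.2 / Q) +
            K ^ 4 * ∑ B : Fin Q × (n → ZMod p), ∑ B' : Fin Q × (n → ZMod p),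
      (G B.2 / Q) * (G B'.2 / Q) *
      (if v B'.1 + B'.2 = v B.1 + B.2 then (Q : ℝ) * Q else 0)) := by
          simp_rw [Finset.mul_sum]
          rw [← Finset.sum_add_distrib, Finset.mul_sum]
          refine Finset.sum_congr rfl fun B _ => ?_
          rw [← Finset.sum_add_distrib, Finset.mul_sum]
          refine Finset.sum_congr rfl fun B' _ => ?_
          ring
      _ ≤ N * ((Q * Q * U + K ^ 4 * (2 * P * Q)) * Z ^ 2 + K ^ 4 * (Q * Z ^ 2)) := by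
          refine mul_le_mul_of_nonneg_left (add_le_add
            (mul_le_mul_of_nonneg_left e8 (by positivity))
            (mul_le_mul_of_nonneg_left e5 (by positivity))) hN0
      _ = _ := by ring
  calc _ ≤ (1 / (Q : ℝ)) * (1 / (Q : ℝ)) *
        (N * (Z ^ 2 * (Q * Q * U) + K ^ 4 * (2 * P * Q * Z ^ 2 + Q * Z ^ 2))) :=
        mul_le_mul_of_nonneg_left (e2.trans e9) (by positivity)
    _ = N * (Z ^ 2 * (U + (2 * P + 1) * K ^ 4 / Q)) := by field_simp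
    _ ≤ N * (Z ^ 2 * (U + 3 * P * K ^ 4 / Q)) := by
        refine mul_le_mul_of_nonneg_left (mul_le_mul_of_nonneg_left ?_ (sq_nonneg _)) hN0
        have : (2 * P + 1) * K ^ 4 / Q ≤ 3 * P * K ^ 4 / Q := by
          refine div_le_div_of_nonneg_right (mul_le_mul_of_nonneg_right (by linarith)
            (by positivity)) hQ'.le
        linarith

/-- `F` has a spread majorant with `I` pieces -/
structure Maj (F : (n → ZMod p) → ℂ) (I : Type*) [Fintype I] (Q : ℕ) (Z P : ℝ)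
    (v : I → Fin Q → (n → ZMod p)) (G : I → (n → ZMod p) → ℝ) : Prop where
  Qpos : 0 < Q
  Pone : 1 ≤ P
  nonneg : ∀ σ κ, 0 ≤ G σ κ
  mass : ∀ σ, ∑ κ, G σ κ ≤ Z
  spread : ∀ σ, Spread (v σ) P
  maj : ∀ κ i j, ‖ft F κ‖ ≤ ∑ σ, G σ (κ - v σ i - v σ j)

theorem core {R I : Type*} [Fintype R] [Fintype I] {F : (n → ZMod p) → ℂ} {Q : ℕ} {Z P : ℝ}
    {v : I → Fin Q → (n → ZMod p)} {G : I → (n → ZMod p) → ℝ} (hM : Maj F I Q Z P v G)
    (b : R → (m → ZMod p) → ℂ) (K U : ℝ)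
    (hK : ∀ η, ∑ ρ, ‖hat (b ρ) η‖ ^ 2 ≤ K ^ 2) (hU : ∑ ρ, ∑ i, ‖b ρ i‖ ^ 4 ≤ U) :
    ∃ W : (n → m → ZMod p) → ℝ, (∀ ξ, 0 ≤ W ξ) ∧ (∀ ξ ρ g, ‖XX (b ρ) F ξ g‖ ^ 4 ≤ W ξ) ∧
      ∑ ξ, W ξ ≤ ((p : ℝ) ^ (Fintype.card n * Fintype.card m)) *
        ((Fintype.card I : ℝ) ^ 4 * Z ^ 4 * (U + 3 * P * K ^ 4 / Q)) := by
  classical
  have hQ := hM.Qpos
  have hQ' : (0 : ℝ) < Q := by exact_mod_cast hQ
  -- the averaged majorant
  set pw : I → (n → ZMod p) → ℝ := fun σ κ => ∑ i : Fin Q, ∑ j : Fin Q,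
    (1 / (Q : ℝ)) * (G σ (κ - v σ i - v σ j) / Q) with hpw
  have hpw0 : ∀ σ κ, 0 ≤ pw σ κ := fun σ κ =>
    Finset.sum_nonneg fun i _ => Finset.sum_nonneg fun j _ =>
      mul_nonneg (by positivity) (div_nonneg (hM.nonneg _ _) hQ'.le)
  have hmaj : ∀ κ, ‖ft F κ‖ ≤ ∑ σ, pw σ κ := by
    intro κ
    have h1 : ∑ i : Fin Q, ∑ j : Fin Q, (1 / (Q : ℝ)) * (‖ft F κ‖ / Q) ≤
        ∑ i : Fin Q, ∑ j : Fin Q, (1 / (Q : ℝ)) * ((∑ σ, G σ (κ - v σ i - v σ j)) / Q) :=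
      Finset.sum_le_sum fun i _ => Finset.sum_le_sum fun j _ =>
        mul_le_mul_of_nonneg_left (div_le_div_of_nonneg_right (hM.maj κ i j) hQ'.le)
          (by positivity)
    have h2 : ∑ i : Fin Q, ∑ j : Fin Q, (1 / (Q : ℝ)) * (‖ft F κ‖ / Q) = ‖ft F κ‖ := by
      simp only [Finset.sum_const, Finset.card_univ, Fintype.card_fin, nsmul_eq_mul]
      field_simp
    have h3 : ∑ i : Fin Q, ∑ j : Fin Q, (1 / (Q : ℝ)) * ((∑ σ, G σ (κ - v σ i - v σ j)) / Q) =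
        ∑ σ, pw σ κ := by
      simp_rw [hpw, Finset.sum_div, Finset.mul_sum]
      rw [Finset.sum_congr rfl fun i _ => Finset.sum_comm, Finset.sum_comm]
    rw [h2, h3] at h1
    exact h1
  set θ : (n → ZMod p) → ℂ := fun κ => ft F κ / ((∑ σ, pw σ κ : ℝ) : ℂ) with hθdef
  have hθ : ∀ κ, ‖θ κ‖ ≤ 1 := by
    intro κ
    have h1 : 0 ≤ ∑ σ, pw σ κ := Finset.sum_nonneg fun σ _ => hpw0 σ κ
    rw [hθdef]
    simp only []
    rw [norm_div, Complex.norm_real, Real.norm_of_nonneg h1]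
    exact div_le_one_of_le₀ (hmaj κ) h1
  have hft : ∀ κ, ft F κ = ∑ σ, ((pw σ κ : ℝ) : ℂ) * θ κ := by
    intro κ
    rw [← Finset.sum_mul, ← Complex.ofReal_sum, hθdef]
    simp only []
    by_cases h1 : (∑ σ, pw σ κ : ℝ) = 0
    · have h2 : ft F κ = 0 := by
        have := hmaj κ
        rw [h1] at this
        exact norm_le_zero_iff.mp this
      rw [h1, h2]; simp
    · have h2 : ((∑ σ, pw σ κ : ℝ) : ℂ) ≠ 0 := by exact_mod_cast h1
      field_simp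
  -- the bound
  set Y : I → (n → m → ZMod p) → ℝ := fun σ ξ => ∑ ρ, ∑ A : Fin Q, ∑ A' : Fin Q,
    (1 / (Q : ℝ)) * (1 / (Q : ℝ)) *
      ‖ker (v σ) (G σ) (fun κ => θ κ * hat (b ρ) (cmb κ ξ)) A A'‖ ^ 2 with hY
  refine ⟨fun ξ => (Fintype.card I : ℝ) ^ 3 * ∑ σ, Z ^ 2 * Y σ ξ, ?_, ?_, ?_⟩
  · intro ξ
    refine mul_nonneg (by positivity) (Finset.sum_nonneg fun σ _ => mul_nonneg (sq_nonneg _) ?_)
    exact Finset.sum_nonneg fun ρ _ => Finset.sum_nonneg fun A _ => Finset.sum_nonneg fun A' _ => by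
              positivity
  · intro ξ ρ g
    have h1 : XX (b ρ) F ξ g = ∑ σ, ∑ κ, ((∑ i : Fin Q, ∑ j : Fin Q,
        (1 / (Q : ℝ)) * (G σ (κ - v σ i - v σ j) / Q) : ℝ) : ℂ) *
        ((θ κ * hat (b ρ) (cmb κ ξ)) * chi (cmb κ ξ ⬝ᵥ g)) := by
      rw [XX_eq, Finset.sum_comm]
      refine Finset.sum_congr rfl fun κ _ => ?_
      rw [hft κ, Finset.sum_mul]
      refine Finset.sum_congr rfl fun σ _ => ?_
      rw [hpw]
      ring
    have h2 : ‖XX (b ρ) F ξ g‖ ≤ ∑ σ, ‖∑ κ, ((∑ i : Fin Q, ∑ j : Fin Q,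
        (1 / (Q : ℝ)) * (G σ (κ - v σ i - v σ j) / Q) : ℝ) : ℂ) *
        ((θ κ * hat (b ρ) (cmb κ ξ)) * chi (cmb κ ξ ⬝ᵥ g))‖ := by
      rw [h1]; exact norm_sum_le _ _
    calc ‖XX (b ρ) F ξ g‖ ^ 4 ≤ _ := pow_le_pow_left₀ (norm_nonneg _) h2 4
      _ ≤ (Finset.card (univ : Finset I) : ℝ) ^ 3 * ∑ σ, ‖∑ κ, ((∑ i : Fin Q, ∑ j : Fin Q,
        (1 / (Q : ℝ)) * (G σ (κ - v σ i - v σ j) / Q) : ℝ) : ℂ) *
        ((θ κ * hat (b ρ) (cmb κ ξ)) * chi (cmb κ ξ ⬝ᵥ g))‖ ^ 4 :=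
          sum_pow_four_le _ _ (fun σ _ => norm_nonneg _)
      _ ≤ (Fintype.card I : ℝ) ^ 3 * ∑ σ, Z ^ 2 * Y σ ξ := by
          rw [Finset.card_univ]
          refine mul_le_mul_of_nonneg_left (Finset.sum_le_sum fun σ _ => ?_) (by positivity)
          refine (step_gcs hQ (v σ) (G σ) (hM.nonneg σ) Z (hM.mass σ) _ ξ g).trans ?_
          refine mul_le_mul_of_nonneg_left ?_ (sq_nonneg _)
          rw [hY]
          exact Finset.single_le_sum (f := fun ρ => ∑ A : Fin Q, ∑ A' : Fin Q,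
    (1 / (Q : ℝ)) * (1 / (Q : ℝ)) *
      ‖ker (v σ) (G σ) (fun κ => θ κ * hat (b ρ) (cmb κ ξ)) A A'‖ ^ 2)
            (fun ρ _ => Finset.sum_nonneg fun A _ => Finset.sum_nonneg fun A' _ => by
              positivity) (Finset.mem_univ ρ)
  · rw [← Finset.mul_sum, Finset.sum_comm]
    have h1 : ∀ σ, ∑ ξ : n → m → ZMod p, Z ^ 2 * Y σ ξ ≤
        ((p : ℝ) ^ (Fintype.card n * Fintype.card m)) *
          (Z ^ 4 * (U + 3 * P * K ^ 4 / Q)) := by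
      intro σ
      rw [← Finset.mul_sum]
      have := sum_ker_total hQ (v σ) P hM.Pone (hM.spread σ) (G σ) (hM.nonneg σ) Z (hM.mass σ)
        θ hθ b K U hK hU
      calc _ ≤ Z ^ 2 * (((p : ℝ) ^ (Fintype.card n * Fintype.card m)) *
            (Z ^ 2 * (U + 3 * P * K ^ 4 / Q))) := mul_le_mul_of_nonneg_left this (sq_nonneg _)
        _ = _ := by ring
    calc _ ≤ (Fintype.card I : ℝ) ^ 3 * ∑ σ : I, ((p : ℝ) ^ (Fintype.card n * Fintype.card m)) *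
          (Z ^ 4 * (U + 3 * P * K ^ 4 / Q)) :=
          mul_le_mul_of_nonneg_left (Finset.sum_le_sum fun σ _ => h1 σ) (by positivity)
      _ = _ := by
          rw [Finset.sum_const, Finset.card_univ, nsmul_eq_mul]; ring

end Pool.Agent.W862.Kom
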