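import Pool.Agent.W862.Kom.CoreThm

/-!
# The spread vectors of digits
-/

namespace Pool.Agent.W862.Kom

open Finset

/-- two coordinates determine a vector of a plane -/
lemma two_coords {F : Type*} [Field F] {a : ℕ} (ha : 0 < a) (X k : Fin a → F) :
    ∃ s s' : Fin a, ∀ α β : F, α * X s + β * k s = 0 → α * X s' + β * k s' = 0 →
      ∀ t, α * X t + β * k t = 0 := by
  by_cases h : ∃ s s' : Fin a, X s * k s' - X s' * k s ≠ 0
  · obtain ⟨s, s', hd⟩ := h
    refine ⟨s, s', fun α β h1 h2 t => ?_⟩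
    have hα : α * (X s * k s' - X s' * k s) = 0 := by linear_combination k s' * h1 - k s * h2
    have hβ : β * (X s * k s' - X s' * k s) = 0 := by linear_combination X s * h2 - X s' * h1
    have hα0 := (mul_eq_zero.mp hα).resolve_right hd
    have hβ0 := (mul_eq_zero.mp hβ).resolve_right hd
    rw [hα0, hβ0]; ring
  · push Not at h
    by_cases hX : ∃ s, X s ≠ 0
    · obtain ⟨s, hs⟩ := hX
      refine ⟨s, s, fun α β h1 _ t => ?_⟩
      have h2 := h s t
      have h3 : (α * X t + β * k t) * X s = 0 := by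
        linear_combination X t * h1 + β * h2
      exact (mul_eq_zero.mp h3).resolve_right hs
    · push Not at hX
      by_cases hk : ∃ s, k s ≠ 0
      · obtain ⟨s, hs⟩ := hk
        refine ⟨s, s, fun α β h1 _ t => ?_⟩
        rw [hX s, mul_zero, zero_add] at h1
        have hβ := (mul_eq_zero.mp h1).resolve_right hs
        rw [hX t, hβ]; ring
      · push Not at hk
        exact ⟨⟨0, ha⟩, ⟨0, ha⟩, fun α β _ _ t => by rw [hX t, hk t]; ring⟩

/-- data of a mixed radix expansion -/
structure Radix (Q W : ℕ → ℕ) : Prop where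
  zero : Q 0 = 1
  succ : ∀ s, Q (s + 1) = Q s * W s
  pos : ∀ s, 0 < W s

section
variable {Q W : ℕ → ℕ} (hR : Radix Q W)
include hR

lemma Radix.Qpos (s : ℕ) : 0 < Q s := by
  induction s with
  | zero => rw [hR.zero]; exact one_pos
  | succ s ih => rw [hR.succ]; exact Nat.mul_pos ih (hR.pos s)

lemma Radix.div_succ (s i : ℕ) : i / Q s = (i / Q s) % W s + W s * (i / Q (s + 1)) := by
  rw [hR.succ, ← Nat.div_div_eq_div_mul]
  exact (Nat.mod_add_div _ _).symm

lemma Radix.mono {s t : ℕ} (h : s ≤ t) : Q s ≤ Q t := by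
  induction t, h using Nat.le_induction with
  | base => exact le_rfl
  | succ t _ ih =>
    rw [hR.succ]; exact ih.trans (Nat.le_mul_of_pos_right _ (hR.pos t))

/-- digits determine the number -/
lemma Radix.digits_inj (a i j : ℕ) (hi : i < Q a) (hj : j < Q a)
    (h : ∀ s < a, (i / Q s) % W s = (j / Q s) % W s) : i = j := by
  have key : ∀ t, t ≤ a → i / Q (a - t) = j / Q (a - t) := by
    intro t
    induction t with
    | zero => intro _; rw [Nat.sub_zero, Nat.div_eq_of_lt hi, Nat.div_eq_of_lt hj]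
    | succ t ih =>
      intro ht
      have h1 : a - (t + 1) + 1 = a - t := by omega
      rw [hR.div_succ (a - (t + 1)) i, hR.div_succ (a - (t + 1)) j, h1, ih (by omega),
        h _ (by omega)]
  have := key a le_rfl
  rwa [Nat.sub_self, hR.zero, Nat.div_one, Nat.div_one] at this

end

variable {p : ℕ} [Fact p.Prime]

/-- the digit vectors -/
def vd (Q : ℕ → ℕ) (n : ℕ) (σ : ℕ → ℤ) (i : ℕ) : Fin n → ZMod p :=
  fun s => (σ s.1 : ZMod p) * ((i / Q s.1 : ℕ) : ZMod p)

/-- extension by zero -/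
def ez {n : ℕ} (u : Fin n → ZMod p) (s : ℕ) : ZMod p := if h : s < n then u ⟨s, h⟩ else 0

lemma vd_digit {Q W : ℕ → ℕ} (hR : Radix Q W) (n a : ℕ) (han : a ≤ n) (σ : ℕ → ℤ)
    (hσ : ∀ s < a, σ s = 1 ∨ σ s = -1) (i : ℕ) (hi : i < Q a) (s : ℕ) (hs : s < a) :
    (σ s : ZMod p) * ez (vd (p := p) Q n σ i) s -
      (W s : ZMod p) * ((σ (s + 1) : ZMod p) * ez (vd (p := p) Q n σ i) (s + 1)) =
      (((i / Q s) % W s : ℕ) : ZMod p) := by
  have hsq : ∀ t < a, (σ t : ZMod p) * (σ t : ZMod p) = 1 := by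
    intro t ht
    rcases hσ t ht with h | h <;> rw [h] <;> simp
  have h1 : (σ s : ZMod p) * ez (vd (p := p) Q n σ i) s = ((i / Q s : ℕ) : ZMod p) := by
    unfold ez vd
    rw [dif_pos (by omega)]
    rw [← mul_assoc, hsq s hs, one_mul]
  have h2 : (σ (s + 1) : ZMod p) * ez (vd (p := p) Q n σ i) (s + 1) =
      ((i / Q (s + 1) : ℕ) : ZMod p) := by
    by_cases hs1 : s + 1 < a
    · unfold ez vd
      rw [dif_pos (by omega)]
      rw [← mul_assoc, hsq _ hs1, one_mul]
    · have hs2 : s + 1 = a := by omega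
      have h3 : i / Q (s + 1) = 0 := by rw [hs2]; exact Nat.div_eq_of_lt hi
      unfold ez vd
      split_ifs
      · rw [h3]; simp
      · rw [h3]; simp
  rw [h1, h2]
  conv_lhs => rw [hR.div_succ s i]
  push_cast
  ring

theorem spread_vd {Q W : ℕ → ℕ} (hR : Radix Q W) (n a : ℕ) (han : a ≤ n) (σ : ℕ → ℤ)
    (hσ : ∀ s < a, σ s = 1 ∨ σ s = -1) (hWp : ∀ s < a, W s ≤ p) (Wm : ℕ) (hW1 : 1 ≤ Wm)
    (hWm : ∀ s < a, W s ≤ Wm) :
    Spread (p := p) (fun i : Fin (Q a) => vd Q n σ i.1) ((Wm : ℝ) ^ 2) := by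
  -- digits of the difference
  have hdig : ∀ (i j : Fin (Q a)) (s : ℕ), s < a →
      (σ s : ZMod p) * ez (fun t => vd (p := p) Q n σ i.1 t - vd Q n σ j.1 t) s -
        (W s : ZMod p) * ((σ (s + 1) : ZMod p) *
          ez (fun t => vd (p := p) Q n σ i.1 t - vd Q n σ j.1 t) (s + 1)) = 0 →
      (i.1 / Q s) % W s = (j.1 / Q s) % W s := by
    intro i j s hs h
    have hez : ∀ t, ez (fun t => vd (p := p) Q n σ i.1 t - vd Q n σ j.1 t) t =
        ez (vd (p := p) Q n σ i.1) t - ez (vd (p := p) Q n σ j.1) t := by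
      intro t; unfold ez; split_ifs <;> simp
    rw [hez, hez] at h
    have h1 := vd_digit (p := p) hR n a han σ hσ i.1 i.2 s hs
    have h2 := vd_digit (p := p) hR n a han σ hσ j.1 j.2 s hs
    have h3 : (((i.1 / Q s) % W s : ℕ) : ZMod p) = (((j.1 / Q s) % W s : ℕ) : ZMod p) := by
      rw [← h1, ← h2]; linear_combination h
    have h4 := (ZMod.natCast_eq_natCast_iff' _ _ _).mp h3
    have h5 : (i.1 / Q s) % W s < p := (Nat.mod_lt _ (hR.pos s)).trans_le (hWp s hs)
    have h6 : (j.1 / Q s) % W s < p := (Nat.mod_lt _ (hR.pos s)).trans_le (hWp s hs)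
    rwa [Nat.mod_eq_of_lt h5, Nat.mod_eq_of_lt h6] at h4
  constructor
  · intro i j hij
    apply Fin.ext
    refine hR.digits_inj a i.1 j.1 i.2 j.2 fun s hs => hdig i j s hs ?_
    have hz : (fun t => vd (p := p) Q n σ i.1 t - vd Q n σ j.1 t) = 0 := by
      funext t
      have := congrFun hij t
      simp only [] at this
      rw [this, sub_self]; rfl
    rw [hz]
    unfold ez
    simp
  · intro c X k
    rcases Nat.eq_zero_or_pos a with ha | ha
    · -- one vector only
      have h1 : Nat.card {i : Fin (Q a) // (fun i : Fin (Q a) => vd (p := p) Q n σ i.1) i + c ∈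
          Submodule.span (ZMod p) {X, k}} ≤ Nat.card (Fin (Q a)) :=
        Nat.card_le_card_of_injective Subtype.val Subtype.val_injective
      rw [Nat.card_eq_fintype_card (α := Fin (Q a)), Fintype.card_fin] at h1
      have hQ1 : Q a ≤ 1 := by rw [ha, hR.zero]
      have h2 : (1 : ℝ) ≤ (Wm : ℝ) ^ 2 := one_le_pow₀ (by exact_mod_cast hW1)
      refine le_trans ?_ h2
      exact_mod_cast h1.trans hQ1
    · set φ : (Fin n → ZMod p) → Fin a → ZMod p := fun u s =>
        (σ s.1 : ZMod p) * ez u s.1 - (W s.1 : ZMod p) * ((σ (s.1 + 1) : ZMod p) *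
          ez u (s.1 + 1)) with hφ
      obtain ⟨s, s', hss⟩ := two_coords ha (φ X) (φ k)
      -- membership
      have hmem : ∀ i : {i : Fin (Q a) // (fun i : Fin (Q a) => vd (p := p) Q n σ i.1) i + c ∈
          Submodule.span (ZMod p) {X, k}}, ∃ ab : ZMod p × ZMod p,
          ab.1 • X + ab.2 • k = vd Q n σ i.1.1 + c := by
        intro i
        obtain ⟨x, y, h⟩ := Submodule.mem_span_pair.mp i.2
        exact ⟨(x, y), h⟩
      choose ψ hψ using hmem
      have hez : ∀ (x y : ZMod p) (t : ℕ), ez (x • X + y • k) t = x * ez X t + y * ez k t := by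
        intro x y t; unfold ez; split_ifs <;> simp
      have hinj : Function.Injective (fun i : {i : Fin (Q a) //
          (fun i : Fin (Q a) => vd (p := p) Q n σ i.1) i + c ∈ Submodule.span (ZMod p) {X, k}} =>
          ((⟨(i.1.1 / Q s.1) % W s.1, (Nat.mod_lt _ (hR.pos _)).trans_le (hWm _ s.2)⟩ : Fin Wm),
            (⟨(i.1.1 / Q s'.1) % W s'.1, (Nat.mod_lt _ (hR.pos _)).trans_le (hWm _ s'.2)⟩ :
              Fin Wm))) := by
        intro i j hij
        simp only [Prod.mk.injEq, Fin.mk.injEq] at hij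
        obtain ⟨hd, hd'⟩ := hij
        -- the difference vector
        have hdiff : (fun t => vd (p := p) Q n σ i.1.1 t - vd Q n σ j.1.1 t) =
            ((ψ i).1 - (ψ j).1) • X + ((ψ i).2 - (ψ j).2) • k := by
          funext t
          have h1 := congrFun (hψ i) t
          have h2 := congrFun (hψ j) t
          simp only [Pi.add_apply, Pi.smul_apply, smul_eq_mul] at h1 h2 ⊢
          linear_combination h2 - h1
        have hφd : ∀ t : Fin a, ((ψ i).1 - (ψ j).1) * φ X t + ((ψ i).2 - (ψ j).2) * φ k t =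
            (((i.1.1 / Q t.1) % W t.1 : ℕ) : ZMod p) - (((j.1.1 / Q t.1) % W t.1 : ℕ) : ZMod p) := by
          intro t
          have h1 := vd_digit (p := p) hR n a han σ hσ i.1.1 i.1.2 t.1 t.2
          have h2 := vd_digit (p := p) hR n a han σ hσ j.1.1 j.1.2 t.1 t.2
          have hez2 : ∀ r, ez (vd (p := p) Q n σ i.1.1) r - ez (vd (p := p) Q n σ j.1.1) r =
              ((ψ i).1 - (ψ j).1) * ez X r + ((ψ i).2 - (ψ j).2) * ez k r := by
            intro r
            rw [← hez, ← hdiff]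
            unfold ez; split_ifs <;> simp
          have h3 := hez2 t.1
          have h4 := hez2 (t.1 + 1)
          rw [hφ]
          simp only []
          rw [← h1, ← h2]
          linear_combination (-(σ t.1 : ZMod p)) * h3 +
            (W t.1 : ZMod p) * (σ (t.1 + 1) : ZMod p) * h4
        have hzero := hss ((ψ i).1 - (ψ j).1) ((ψ i).2 - (ψ j).2)
          (by rw [hφd s, hd, sub_self]) (by rw [hφd s', hd', sub_self])
        apply Subtype.ext
        apply Fin.ext
        refine hR.digits_inj a _ _ i.1.2 j.1.2 fun t ht => ?_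
        have h1 := hzero ⟨t, ht⟩
        rw [hφd ⟨t, ht⟩, sub_eq_zero] at h1
        have h4 := (ZMod.natCast_eq_natCast_iff' _ _ _).mp h1
        have h5 : (i.1.1 / Q t) % W t < p := (Nat.mod_lt _ (hR.pos t)).trans_le (hWp t ht)
        have h6 : (j.1.1 / Q t) % W t < p := (Nat.mod_lt _ (hR.pos t)).trans_le (hWp t ht)
        rwa [Nat.mod_eq_of_lt h5, Nat.mod_eq_of_lt h6] at h4
      have hcard := Nat.card_le_card_of_injective _ hinj
      rw [Nat.card_prod, Nat.card_eq_fintype_card (α := Fin Wm), Fintype.card_fin] at hcard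
      calc _ ≤ ((Wm * Wm : ℕ) : ℝ) := by exact_mod_cast hcard
        _ = _ := by push_cast; ring

end Pool.Agent.W862.Kom
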