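import Pool.Agent.W862.Kom.Sgn

/-!
# Elementary abelian `p`-groups, bound `C (1 + log p)`
-/

namespace Pool.Agent.W862.Kom

open Finset

variable {p : ℕ} [Fact p.Prime]

open Classical in
/-- indicator of `y_0 = … = y_{l-1} = 0` -/
noncomputable def zr (N l : ℕ) (y : Fin N → ZMod p) : ℝ :=
  ∏ t : Fin N, if t.1 < l then (if y t = 0 then 1 else 0) else 1

lemma zr_eq_one (N l : ℕ) (y : Fin N → ZMod p) (h : ∀ t : Fin N, t.1 < l → y t = 0) :
    zr N l y = 1 := by
  unfold zr
  refine Finset.prod_eq_one fun t _ => ?_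
  split_ifs with h1 h2
  · rfl
  · exact absurd (h t h1) h2
  · rfl

lemma zr_eq_zero (N l : ℕ) (y : Fin N → ZMod p) (h : ∃ t : Fin N, t.1 < l ∧ y t ≠ 0) :
    zr N l y = 0 := by
  obtain ⟨t, h1, h2⟩ := h
  unfold zr
  refine Finset.prod_eq_zero (Finset.mem_univ t) ?_
  rw [if_pos h1, if_neg h2]

lemma zr_nonneg (N l : ℕ) (y : Fin N → ZMod p) : 0 ≤ zr N l y := by
  unfold zr
  refine Finset.prod_nonneg fun t _ => ?_
  split_ifs <;> norm_num

/-- the difference at level `l` -/
noncomputable def dl (N l : ℕ) (y : Fin N → ZMod p) : ℝ :=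
  if h : l < N then zr N l y * sg (y ⟨l, h⟩) else 0

/-- the functions `f_l` -/
noncomputable def fl (N l : ℕ) (y : Fin N → ZMod p) : ℝ := ∑ j ∈ range (l + 1), dl N j y

/-- structure of the partial sums -/
lemma fl_struct (N l : ℕ) (y : Fin N → ZMod p) :
    (zr N (l + 1) y = 1 ∧ fl N l y = 0) ∨ (zr N (l + 1) y = 0 ∧ |fl N l y| = 1) := by
  induction l with
  | zero =>
    unfold fl
    rw [zero_add, Finset.sum_range_one]
    unfold dl
    by_cases hN : 0 < N
    · rw [dif_pos hN]
      have h0 : zr N 0 y = 1 := zr_eq_one _ _ _ (fun t ht => absurd ht (by omega))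
      by_cases h : y ⟨0, hN⟩ = 0
      · left
        refine ⟨zr_eq_one _ _ _ fun t ht => ?_, by rw [h, sg_zero, mul_zero]⟩
        have : t = ⟨0, hN⟩ := Fin.ext (by simp only []; omega)
        rw [this]; exact h
      · right
        refine ⟨zr_eq_zero _ _ _ ⟨⟨0, hN⟩, by simp, h⟩, ?_⟩
        rw [h0, one_mul]; exact sg_abs _ h
    · rw [dif_neg hN]
      left
      exact ⟨zr_eq_one _ _ _ (fun t ht => absurd t.2 (by omega)), rfl⟩
  | succ l ih =>
    unfold fl at ih ⊢
    rw [Finset.sum_range_succ]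
    have hdl : dl N (l + 1) y = if h : l + 1 < N then zr N (l + 1) y * sg (y ⟨l + 1, h⟩) else 0 :=
      rfl
    rw [hdl]
    by_cases hz : ∃ t : Fin N, t.1 < l + 1 ∧ y t ≠ 0
    · have h1 := zr_eq_zero N (l + 1) y hz
      have h2 : zr N (l + 1 + 1) y = 0 := by
        obtain ⟨t, ht, ht'⟩ := hz
        exact zr_eq_zero _ _ _ ⟨t, by omega, ht'⟩
      rcases ih with ⟨h3, _⟩ | ⟨_, h4⟩
      · rw [h1] at h3; norm_num at h3
      · right
        refine ⟨h2, ?_⟩
        split_ifs with hN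
        · rw [h1, zero_mul, add_zero]; exact h4
        · rw [add_zero]; exact h4
    · push Not at hz
      have h1 := zr_eq_one N (l + 1) y hz
      rcases ih with ⟨_, h4⟩ | ⟨h3, _⟩
      · rw [h4, h1]
        by_cases hN : l + 1 < N
        · rw [dif_pos hN]
          by_cases h : y ⟨l + 1, hN⟩ = 0
          · left
            refine ⟨zr_eq_one _ _ _ fun t ht => ?_, by rw [h, sg_zero, mul_zero, add_zero]⟩
            rcases Nat.lt_or_ge t.1 (l + 1) with h5 | h5
            · exact hz t h5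
            · have : t = ⟨l + 1, hN⟩ := Fin.ext (by simp only []; omega)
              rw [this]; exact h
          · right
            refine ⟨zr_eq_zero _ _ _ ⟨⟨l + 1, hN⟩, by simp, h⟩, ?_⟩
            rw [one_mul, zero_add]; exact sg_abs _ h
        · rw [dif_neg hN, add_zero]
          left
          exact ⟨zr_eq_one _ _ _ fun t _ => hz t (by omega), rfl⟩
      · rw [h1] at h3; norm_num at h3

lemma fl_abs_le (N l : ℕ) (y : Fin N → ZMod p) : |fl N l y| ≤ 1 := by
  rcases fl_struct N l y with ⟨_, h⟩ | ⟨_, h⟩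
  · rw [h]; simp
  · rw [h]

lemma fl_diff (N l L : ℕ) (hl : l ≤ L) (y : Fin N → ZMod p) :
    |fl N L y - fl N l y| ≤ 1 * zr N (l + 1) y := by
  rw [one_mul]
  rcases fl_struct N l y with ⟨h1, h2⟩ | ⟨h1, h2⟩
  · rw [h1, h2, sub_zero]; exact fl_abs_le N L y
  · rw [h1]
    have h3 : fl N L y - fl N l y = 0 := by
      unfold fl
      rw [← Finset.sum_range_add_sum_Ico _ (by omega : l + 1 ≤ L + 1), add_sub_cancel_left]
      refine Finset.sum_eq_zero fun j hj => ?_
      have hj' := (Finset.mem_Ico.mp hj).1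
      unfold dl
      split_ifs with hN
      · have : zr N j y = 0 := by
          by_contra hne
          have : ∀ t : Fin N, t.1 < l + 1 → y t = 0 := by
            intro t ht
            by_contra ht'
            exact hne (zr_eq_zero _ _ _ ⟨t, by omega, ht'⟩)
          rw [zr_eq_one _ _ _ this] at h1
          norm_num at h1
        rw [this, zero_mul]
      · rfl
    rw [h3, abs_zero]

/-- factors of `zr` -/
noncomputable def zphi (N l : ℕ) (t : Fin N) (x : ZMod p) : ℂ :=
  if t.1 < l then (if x = 0 then (1 : ℂ) else 0) else 1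

/-- factors of `dl` -/
noncomputable def dphi (N l : ℕ) (t : Fin N) (x : ZMod p) : ℂ :=
  if t.1 < l then (if x = 0 then (1 : ℂ) else 0) else if t.1 = l then cx sg x else 1

/-- `zr` as a product function -/
lemma cx_zr (N l : ℕ) : cx (zr (p := p) N l) = fun y => ∏ t : Fin N, zphi N l t (y t) := by
  funext y
  unfold cx zr
  rw [Complex.ofReal_prod]
  refine Finset.prod_congr rfl fun t _ => ?_
  unfold zphi
  by_cases c1 : t.1 < l
  · by_cases c2 : y t = 0
    · simp [c1, c2]
    · simp [c1, c2]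
  · simp [c1]

lemma cx_dl (N l : ℕ) (hl : l < N) :
    cx (dl (p := p) N l) = fun y => ∏ t : Fin N, dphi N l t (y t) := by
  funext y
  unfold cx dl
  rw [dif_pos hl, Complex.ofReal_mul]
  have h1 : ((zr N l y : ℝ) : ℂ) = ∏ t : Fin N, zphi N l t (y t) := congrFun (cx_zr N l) y
  have h2 : ((sg (y ⟨l, hl⟩) : ℝ) : ℂ) = ∏ t : Fin N,
      (if t = ⟨l, hl⟩ then ((sg (y t) : ℝ) : ℂ) else 1) := by
    rw [Finset.prod_ite_eq']; simp
  rw [h1, h2, ← Finset.prod_mul_distrib]
  refine Finset.prod_congr rfl fun t _ => ?_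
  unfold zphi dphi
  simp only [Fin.ext_iff]
  by_cases c1 : t.1 < l
  · have c2 : t.1 ≠ l := by omega
    simp [c1, c2]
  · by_cases c2 : t.1 = l
    · simp [c2, cx]
    · simp [c1, c2]

lemma l1_zr (N l : ℕ) : ∑ κ, ‖ft (cx (zr (p := p) N l)) κ‖ ≤ 1 := by
  rw [cx_zr, sum_ft_prod]
  refine Finset.prod_le_one (fun t _ => n1_nonneg _) fun t _ => ?_
  by_cases c1 : t.1 < l
  · have : zphi (p := p) N l t = fun x => if x = 0 then 1 else 0 := by
      funext x; unfold zphi; rw [if_pos c1]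
    rw [this]; exact n1_delta.le
  · have : zphi (p := p) N l t = fun x => 1 := by
      funext x; unfold zphi; rw [if_neg c1]
    rw [this]; exact n1_one.le

lemma l1_dl (hp : p ≠ 2) (N l : ℕ) (hl : l < N) :
    ∑ κ, ‖ft (cx (dl (p := p) N l)) κ‖ ≤ 2 * (1 + Real.log p) := by
  rw [cx_dl N l hl, sum_ft_prod]
  have h1 : ∀ t : Fin N, n1 (dphi (p := p) N l t) =
      if t = ⟨l, hl⟩ then n1 (cx (sg (p := p))) else 1 := by
    intro t
    by_cases c1 : t.1 < l
    · have : dphi (p := p) N l t = fun x => if x = 0 then 1 else 0 := by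
        funext x; unfold dphi; rw [if_pos c1]
      rw [this, if_neg (by rw [Fin.ext_iff]; simp only []; omega)]; exact n1_delta
    · by_cases c2 : t.1 = l
      · have : dphi (p := p) N l t = cx sg := by
          funext x; unfold dphi; rw [if_neg c1, if_pos c2]
        rw [this, if_pos (Fin.ext c2)]
      · have : dphi (p := p) N l t = fun x => 1 := by
          funext x; unfold dphi; rw [if_neg c1, if_neg c2]
        rw [this, if_neg (by rw [Fin.ext_iff]; exact c2)]; exact n1_one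
  simp_rw [h1]
  rw [Finset.prod_ite_eq']
  simp only [Finset.mem_univ, if_true]
  exact n1_sg hp

lemma ft_dl_zero (hp : p ≠ 2) (N l : ℕ) : ft (cx (dl (p := p) N l)) 0 = 0 := by
  by_cases hl : l < N
  · rw [cx_dl N l hl, ft_prod]
    refine Finset.prod_eq_zero (Finset.mem_univ ⟨l, hl⟩) ?_
    have : dphi (p := p) N l ⟨l, hl⟩ = cx sg := by
      funext x; unfold dphi; rw [if_neg (lt_irrefl l), if_pos rfl]
    rw [this, Pi.zero_apply]
    exact ft1_sg_zero hp
  · unfold ft cx dl
    simp [dif_neg hl]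

/-- the decreasing weights -/
noncomputable def wt (l : ℕ) : ℝ := (20 / 21 : ℝ) ^ (l - 2)

lemma wt_pos (l : ℕ) : 0 < wt l := by unfold wt; positivity

lemma wt_le_one (l : ℕ) : wt l ≤ 1 := pow_le_one₀ (by norm_num) (by norm_num)

lemma wt_succ (l : ℕ) : wt (l + 1) ≤ wt l :=
  pow_le_pow_of_le_one (by norm_num) (by norm_num) (by omega)

lemma wt_succ' (l : ℕ) : wt l ≤ 21 / 20 * wt (l + 1) := by
  unfold wt
  rcases Nat.lt_or_ge l 2 with h | h
  · have h1 : l - 2 = 0 := by omega
    have h2 : l + 1 - 2 = 0 := by omega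
    rw [h1, h2]; norm_num
  · have h1 : l + 1 - 2 = (l - 2) + 1 := by omega
    rw [h1, pow_succ]
    have : (0 : ℝ) ≤ (20 / 21 : ℝ) ^ (l - 2) := by positivity
    linarith

lemma wt_sum (L : ℕ) : ∑ l ∈ range L, wt l ≤ 23 := by
  have h1 : ∀ L : ℕ, ∑ l ∈ range (L + 2), wt l ≤ 23 - 21 * (20 / 21 : ℝ) ^ L := by
    intro L
    induction L with
    | zero => simp [Finset.sum_range_succ, wt]; norm_num
    | succ L ih =>
      rw [show L + 1 + 2 = (L + 2) + 1 by ring, Finset.sum_range_succ]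
      have h2 : wt (L + 2) = (20 / 21 : ℝ) ^ L := by unfold wt; simp
      rw [h2, pow_succ]
      have : (0 : ℝ) ≤ (20 / 21 : ℝ) ^ L := by positivity
      linarith
  have h2 : ∑ l ∈ range L, wt l ≤ ∑ l ∈ range (L + 2), wt l :=
    Finset.sum_le_sum_of_subset_of_nonneg (Finset.range_mono (by omega))
      fun i _ _ => (wt_pos i).le
  have h3 := h1 L
  have : (0 : ℝ) ≤ (20 / 21 : ℝ) ^ L := by positivity
  linarith

/-- the ratio `P/Q` -/
lemma PQ_le (l : ℕ) : ((min (p ^ 2) (p ^ l) : ℕ) : ℝ) / ((p ^ l : ℕ) : ℝ) ≤ wt l ^ 12 := by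
  have hp2 := (Fact.out : p.Prime).two_le
  have hpos : (0 : ℝ) < ((p ^ l : ℕ) : ℝ) := by
    exact_mod_cast pow_pos (Fact.out : p.Prime).pos _
  rw [div_le_iff₀ hpos]
  rcases Nat.lt_or_ge l 2 with h | h
  · have h1 : wt l = 1 := by unfold wt; rw [show l - 2 = 0 by omega, pow_zero]
    rw [h1, one_pow, one_mul]
    exact_mod_cast min_le_right _ _
  · obtain ⟨j, rfl⟩ := Nat.exists_eq_add_of_le h
    have h1 : wt (2 + j) = (20 / 21 : ℝ) ^ j := by unfold wt; simp
    rw [h1]
    calc ((min (p ^ 2) (p ^ (2 + j)) : ℕ) : ℝ) ≤ ((p ^ 2 : ℕ) : ℝ) := by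
          exact_mod_cast min_le_left _ _
      _ = 1 * (p : ℝ) ^ 2 := by push_cast; ring
      _ ≤ (((20 / 21 : ℝ) ^ 12) ^ j * (p : ℝ) ^ j) * (p : ℝ) ^ 2 := by
          refine mul_le_mul_of_nonneg_right ?_ (by positivity)
          rw [← mul_pow]
          refine one_le_pow₀ ?_
          have : (2 : ℝ) ≤ p := by exact_mod_cast hp2
          nlinarith
      _ = _ := by
          rw [← pow_mul, ← pow_mul, mul_comm 12 j, pow_add]; push_cast; ring

variable {m : Type*} [Fintype m] [DecidableEq m]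

theorem elemP (hp : p ≠ 2) {R : Type*} [Fintype R] (a : R → (m → ZMod p) → ℝ)
    (ha : ∑ ρ, ∑ i, a ρ i ^ 2 ≤ 1) :
    ∃ x : (m → ZMod p) → ℝ, (∀ i, x i = 1 ∨ x i = -1) ∧
      ∀ ρ g, |∑ i, a ρ (g - i) * x i| ≤ 400 * (1 + Real.log p) := by
  classical
  have hp2 := (Fact.out : p.Prime).two_le
  have hlog : 0 ≤ Real.log p := Real.log_natCast_nonneg p
  set Z : ℝ := 2 * (1 + Real.log p) with hZ
  have hZ2 : 2 ≤ Z := by rw [hZ]; linarith
  set L := Fintype.card m with hL
  set N := L + 1 with hN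
  have hδ0 : ∀ l, 0 ≤ wt l ^ 2 := fun l => sq_nonneg _
  have key : Bd (fun (ξ : Fin N → m → ZMod p) ρ g => |∑ i, a ρ i * fl N L (yy ξ (g - i))|)
      ((3 * Z * wt 0) + ∑ l ∈ range L, (3 * Z * wt (l + 1)) +
        ∑ l ∈ range L, (1 * wt l ^ 2) * (2 / wt (l + 1))) := by
    have hsmall : ∀ l, l < N → Bd (fun (ξ : Fin N → m → ZMod p) ρ g =>
        ‖XX (cx (trunc (a ρ) (wt l ^ 2))) (cx (dl N l)) ξ g‖) (3 * Z * wt l) := by
      intro l hl
      have hM := maj_zero (p := p) N l hl.le (cx (dl N l)) Z (l1_dl hp N l hl) (by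
        intro y hy
        unfold cx dl
        rw [dif_pos hl, zr_eq_zero N l y hy]; simp)
      have hw := wt_pos l
      have hw1 := wt_le_one l
      have h1 := small_part hM (ft_dl_zero hp N l) (fun ρ => cx (trunc (a ρ) (wt l ^ 2)))
        (wt l ^ 2) (1 / wt l ^ 2) (2 * Z * wt l) (fun ρ i => trunc_norm_le _ _ (hδ0 l) i) (hδ0 l)
        (trunc_sum a ha _) (by positivity) (by positivity) (by
          have h2 := PQ_le (p := p) l
          rw [Fintype.card_unit]
          have h3 : (3 : ℝ) * ((min (p ^ 2) (p ^ l) : ℕ) : ℝ) * (1 / wt l ^ 2) ^ 4 /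
              ((p ^ l : ℕ) : ℝ) ≤ 3 * wt l ^ 4 := by
            have h4 : (3 : ℝ) * ((min (p ^ 2) (p ^ l) : ℕ) : ℝ) * (1 / wt l ^ 2) ^ 4 /
              ((p ^ l : ℕ) : ℝ) = 3 * (1 / wt l ^ 8) *
                (((min (p ^ 2) (p ^ l) : ℕ) : ℝ) / ((p ^ l : ℕ) : ℝ)) := by
              field_simp
            rw [h4]
            calc _ ≤ 3 * (1 / wt l ^ 8) * wt l ^ 12 :=
                  mul_le_mul_of_nonneg_left h2 (by positivity)
              _ = 3 * wt l ^ 4 := by field_simp
          have h5 : (wt l ^ 2 + 1 / (1 / wt l ^ 2)) ^ 2 = 4 * wt l ^ 4 := by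
            rw [one_div_one_div]; ring
          rw [h5]
          calc _ ≤ ((1 : ℕ) : ℝ) ^ 4 * Z ^ 4 * (4 * wt l ^ 4 + 3 * wt l ^ 4) :=
                mul_le_mul_of_nonneg_left (by linarith) (by positivity)
            _ ≤ (2 * Z * wt l) ^ 4 := by
                have : (0 : ℝ) ≤ Z ^ 4 * wt l ^ 4 := by positivity
                push_cast
                nlinarith)
      refine h1.mono ?_
      rw [Fintype.card_unit, div_div_eq_mul_div]
      have h6 : ((1 : ℕ) : ℝ) * Z * wt l ^ 2 / 1 ≤ Z * wt l := by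
        rw [Nat.cast_one, one_mul, div_one, sq, ← mul_assoc]
        exact mul_le_of_le_one_right (by positivity) hw1
      linarith
    refine assemble a L (fun l => fl N l) (fun l => zr N (l + 1)) (fun l => wt l ^ 2) 1
      zero_le_one ?_ hδ0 ?_ (fun l hl y => fl_diff N l L hl.le y) (fun l => lev a (wt l ^ 2)) ?_
      (3 * Z * wt 0) (fun l => 3 * Z * wt (l + 1)) (fun l => 2 / wt (l + 1)) ?_ ?_ ?_
    · intro ρ i
      have : wt 0 = 1 := by unfold wt; simp
      rw [this, one_pow]; exact abs_le_one a ha ρ i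
    · intro l; exact pow_le_pow_left₀ (wt_pos _).le (wt_succ l) 2
    · intro l ρ i h
      exact Finset.mem_filter.mpr ⟨Finset.mem_univ i, h⟩
    · have h1 : fl N 0 = dl (p := p) N 0 := by funext y; unfold fl; simp
      rw [h1]; exact hsmall 0 (by omega)
    · intro l hl
      have h1 : (fun y : Fin N → ZMod p => fl N (l + 1) y - fl N l y) = dl N (l + 1) := by
        funext y; unfold fl; rw [Finset.sum_range_succ (fun j => dl N j y) (l + 1)]; ring
      rw [h1]; exact hsmall (l + 1) (by omega)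
    · intro l hl
      have hM := maj_zero (p := p) N (l + 1) (by omega) (cx (zr N (l + 1))) 1 (l1_zr N (l + 1)) (by
        intro y hy
        unfold cx
        rw [zr_eq_zero N (l + 1) y hy]; simp)
      have hw := wt_pos (l + 1)
      have hw1 := wt_le_one (l + 1)
      refine large_part hM (lev a (wt (l + 1) ^ 2)) (1 / wt (l + 1) ^ 4) (2 / wt (l + 1)) ?_
        (by positivity) ?_
      · have := lev_card a ha (wt (l + 1) ^ 2) (by positivity)
        rwa [← pow_mul] at this
      · have h2 := PQ_le (p := p) (l + 1)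
        rw [Fintype.card_unit]
        have h3 : (3 : ℝ) * ((min (p ^ 2) (p ^ (l + 1)) : ℕ) : ℝ) * (1 / wt (l + 1) ^ 4) ^ 4 /
            ((p ^ (l + 1) : ℕ) : ℝ) ≤ 3 * (1 / wt (l + 1) ^ 4) := by
          have h4 : (3 : ℝ) * ((min (p ^ 2) (p ^ (l + 1)) : ℕ) : ℝ) * (1 / wt (l + 1) ^ 4) ^ 4 /
            ((p ^ (l + 1) : ℕ) : ℝ) = 3 * (1 / wt (l + 1) ^ 16) *
              (((min (p ^ 2) (p ^ (l + 1)) : ℕ) : ℝ) / ((p ^ (l + 1) : ℕ) : ℝ)) := by
            field_simp
          rw [h4]
          calc _ ≤ 3 * (1 / wt (l + 1) ^ 16) * wt (l + 1) ^ 12 :=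
                mul_le_mul_of_nonneg_left h2 (by positivity)
            _ = 3 * (1 / wt (l + 1) ^ 4) := by field_simp
        calc _ ≤ ((1 : ℕ) : ℝ) ^ 4 * 1 ^ 4 * (1 / wt (l + 1) ^ 4 + 3 * (1 / wt (l + 1) ^ 4)) :=
              mul_le_mul_of_nonneg_left (by linarith) (by positivity)
          _ ≤ (2 / wt (l + 1)) ^ 4 := by
              rw [div_pow]
              simp only [Nat.cast_one, one_pow, one_mul]
              have : (0 : ℝ) ≤ 1 / wt (l + 1) ^ 4 := by positivity
              have h5 : (2 : ℝ) ^ 4 / wt (l + 1) ^ 4 = 16 * (1 / wt (l + 1) ^ 4) := by ring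
              rw [h5]; linarith
  have hbound : (3 * Z * wt 0) + ∑ l ∈ range L, (3 * Z * wt (l + 1)) +
        ∑ l ∈ range L, (1 * wt l ^ 2) * (2 / wt (l + 1)) ≤ 94 * Z := by
    have h1 : (3 * Z * wt 0) + ∑ l ∈ range L, (3 * Z * wt (l + 1)) ≤ 69 * Z := by
      have h2 : (3 * Z * wt 0) + ∑ l ∈ range L, (3 * Z * wt (l + 1)) =
          3 * Z * ∑ l ∈ range (L + 1), wt l := by
        rw [Finset.sum_range_succ', mul_add, Finset.mul_sum]; ring
      rw [h2]
      have := mul_le_mul_of_nonneg_left (wt_sum (L + 1)) (by positivity : (0 : ℝ) ≤ 3 * Z)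
      linarith
    have h3 : ∑ l ∈ range L, (1 * wt l ^ 2) * (2 / wt (l + 1)) ≤ 25 * Z := by
      calc _ ≤ ∑ l ∈ range L, (21 / 10) * wt l := by
            refine Finset.sum_le_sum fun l _ => ?_
            have h4 := wt_succ' l
            have h5 := wt_pos l
            have h6 := wt_pos (l + 1)
            rw [one_mul, mul_div_assoc', div_le_iff₀ h6]
            nlinarith
        _ = (21 / 10) * ∑ l ∈ range L, wt l := by rw [Finset.mul_sum]
        _ ≤ (21 / 10) * 23 := mul_le_mul_of_nonneg_left (wt_sum L) (by norm_num)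
        _ ≤ 25 * Z := by linarith
    linarith
  obtain ⟨x, hx1, hx2⟩ := choose_signs (m := m) (n := Fin N) a (fun ρ i => abs_le_one a ha ρ i)
    (fl N L) (fl_abs_le N L) (94 * Z) (by positivity) (key.mono hbound) (by
      -- unfrozen points
      have h1 : (univ.filter fun y : Fin N → ZMod p => |fl N L y| ≠ 1) ⊆ {0} := by
        intro y hy
        rw [Finset.mem_filter] at hy
        rw [Finset.mem_singleton]
        rcases fl_struct N L y with ⟨h2, _⟩ | ⟨_, h2⟩
        · funext t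
          by_contra ht
          rw [zr_eq_zero N (L + 1) y ⟨t, t.2, ht⟩] at h2
          norm_num at h2
        · exact absurd h2 hy.2
      have h2 : ((univ.filter fun y : Fin N → ZMod p => |fl N L y| ≠ 1).card : ℝ) ≤ 1 := by
        have := Finset.card_le_card h1
        rw [Finset.card_singleton] at this
        exact_mod_cast this
      have hp0 : (0 : ℝ) < p := by exact_mod_cast (Fact.out : p.Prime).pos
      have hp2' : (2 : ℝ) ≤ p := by exact_mod_cast hp2
      rw [Fintype.card_fin]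
      calc (p : ℝ) ^ L * (((p : ℝ) ^ N)⁻¹ *
            ((univ.filter fun y : Fin N → ZMod p => |fl N L y| ≠ 1).card : ℝ))
          ≤ (p : ℝ) ^ L * (((p : ℝ) ^ N)⁻¹ * 1) :=
            mul_le_mul_of_nonneg_left (mul_le_mul_of_nonneg_left h2 (by positivity))
              (by positivity)
        _ = 1 / p := by rw [hN, pow_succ]; field_simp
        _ ≤ 1 / 2 := one_div_le_one_div_of_le (by norm_num) hp2')
  refine ⟨x, hx1, fun ρ g => (hx2 ρ g).trans ?_⟩
  rw [hZ]
  linarith

end Pool.Agent.W862.Kom
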