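import Pool.Agent.W862.Kom.Core

/-!
# The main fourth moment estimate
-/

namespace Pool.Agent.W862.Kom

open Finset

variable {p : ℕ} [Fact p.Prime]
variable {m n : Type*} [Fintype m] [DecidableEq m] [Fintype n] [DecidableEq n]

/-- a family of vectors which is injective and meets every affine plane in few points -/
structure Spread {Q : ℕ} (v : Fin Q → (n → ZMod p)) (P : ℝ) : Prop where
  inj : Function.Injective v
  plane : ∀ c X k : n → ZMod p,
    (Nat.card {i : Fin Q // v i + c ∈ Submodule.span (ZMod p) {X, k}} : ℝ) ≤ P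

lemma not_li (h k1 k : n → ZMod p) (hn : ¬ LinearIndependent (ZMod p) ![h, k1, k]) :
    k = 0 ∨ k1 ∈ Submodule.span (ZMod p) {k, k} ∨ h ∈ Submodule.span (ZMod p) {k1, k} := by
  by_contra hcon
  push Not at hcon
  obtain ⟨h1, h2, h3⟩ := hcon
  apply hn
  have e1 : (![h, k1, k] : Fin 3 → n → ZMod p) = Fin.cons h ![k1, k] := rfl
  rw [e1, linearIndependent_finCons]
  refine ⟨?_, ?_⟩
  · have e2 : (![k1, k] : Fin 2 → n → ZMod p) = Fin.cons k1 ![k] := rfl
    rw [e2, linearIndependent_finCons]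
    refine ⟨?_, ?_⟩
    · rw [linearIndependent_unique_iff]
      exact h1
    · have : Set.range (![k] : Fin 1 → n → ZMod p) = {k, k} := by
        ext x; simp [eq_comm]
      rw [this]; exact h2
  · have : Set.range (![k1, k] : Fin 2 → n → ZMod p) = {k1, k} := by
      ext x
      simp only [Set.mem_range, Set.mem_insert_iff, Set.mem_singleton_iff]
      constructor
      · rintro ⟨i, rfl⟩
        fin_cases i <;> simp
      · rintro (rfl | rfl)
        · exact ⟨0, rfl⟩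
        · exact ⟨1, rfl⟩
    rw [this]; exact h3

open Classical in
/-- counting of the degenerate pairs -/
lemma count_pairs {Q : ℕ} (v : Fin Q → (n → ZMod p)) (P : ℝ) (hv : Spread v P)
    (y k : n → ZMod p) (hk : k ≠ 0) :
    ∑ A : Fin Q, ∑ A' : Fin Q,
      (if LinearIndependent (ZMod p) ![v A' - v A, v A + y, k] then (0 : ℝ) else 1) ≤ 2 * P * Q := by
  have h1 : ∀ A A' : Fin Q,
      (if LinearIndependent (ZMod p) ![v A' - v A, v A + y, k] then (0 : ℝ) else 1) ≤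
      (if v A + y ∈ Submodule.span (ZMod p) {k, k} then (1 : ℝ) else 0) +
      (if v A' + (- v A) ∈ Submodule.span (ZMod p) {v A + y, k} then (1 : ℝ) else 0) := by
    intro A A'
    by_cases h : LinearIndependent (ZMod p) ![v A' - v A, v A + y, k]
    · rw [if_pos h]; positivity
    · rw [if_neg h]
      rcases not_li _ _ _ h with h2 | h2 | h2
      · exact absurd h2 hk
      · rw [if_pos h2]
        have : (0 : ℝ) ≤ (if v A' + (- v A) ∈ Submodule.span (ZMod p) {v A + y, k}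
          then (1 : ℝ) else 0) := by positivity
        linarith
      · rw [← sub_eq_add_neg, if_pos h2]
        have : (0 : ℝ) ≤ (if v A + y ∈ Submodule.span (ZMod p) {k, k}
          then (1 : ℝ) else 0) := by positivity
        linarith
  have hcard : ∀ c X Y : n → ZMod p, ∑ A : Fin Q,
      (if v A + c ∈ Submodule.span (ZMod p) {X, Y} then (1 : ℝ) else 0) ≤ P := by
    intro c X Y
    have h3 := hv.plane c X Y
    rw [Nat.card_eq_fintype_card, Fintype.card_subtype] at h3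
    rw [Finset.sum_boole]
    exact h3
  calc ∑ A : Fin Q, ∑ A' : Fin Q,
      (if LinearIndependent (ZMod p) ![v A' - v A, v A + y, k] then (0 : ℝ) else 1)
      ≤ ∑ A : Fin Q, ∑ A' : Fin Q,
      ((if v A + y ∈ Submodule.span (ZMod p) {k, k} then (1 : ℝ) else 0) +
      (if v A' + (- v A) ∈ Submodule.span (ZMod p) {v A + y, k} then (1 : ℝ) else 0)) :=
        Finset.sum_le_sum fun A _ => Finset.sum_le_sum fun A' _ => h1 A A'
    _ = (Q : ℝ) * ∑ A : Fin Q, (if v A + y ∈ Submodule.span (ZMod p) {k, k} then (1 : ℝ) else 0)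
        + ∑ A : Fin Q, ∑ A' : Fin Q,
        (if v A' + (- v A) ∈ Submodule.span (ZMod p) {v A + y, k} then (1 : ℝ) else 0) := by
        simp_rw [Finset.sum_add_distrib, Finset.sum_const, Finset.card_univ, Fintype.card_fin,
          nsmul_eq_mul, Finset.mul_sum]
    _ ≤ (Q : ℝ) * P + ∑ A : Fin Q, P := by
        refine add_le_add (mul_le_mul_of_nonneg_left (hcard y k k) (Nat.cast_nonneg _)) ?_
        exact Finset.sum_le_sum fun A _ => hcard _ _ _
    _ = 2 * P * Q := by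
        rw [Finset.sum_const, Finset.card_univ, Fintype.card_fin, nsmul_eq_mul]; ring

/-- the bilinear kernel -/
noncomputable def ker {Q : ℕ} (v : Fin Q → (n → ZMod p)) (G : (n → ZMod p) → ℝ)
    (Φ : (n → ZMod p) → ℂ) (A A' : Fin Q) : ℂ :=
  ∑ B : Fin Q × (n → ZMod p), ((G B.2 / Q : ℝ) : ℂ) *
    (Φ (v A + (v B.1 + B.2)) * (starRingEnd ℂ) (Φ (v A' + (v B.1 + B.2))))

/-- the first step: Gowers-Cauchy-Schwarz, uniform in `g` -/
lemma step_gcs {Q : ℕ} (hQ : 0 < Q) (v : Fin Q → (n → ZMod p)) (G : (n → ZMod p) → ℝ)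
    (hG : ∀ κ, 0 ≤ G κ) (Z : ℝ) (hZ : ∑ κ, G κ ≤ Z) (Φ : (n → ZMod p) → ℂ)
    (ξ : n → m → ZMod p) (g : m → ZMod p) :
    ‖∑ κ, ((∑ i : Fin Q, ∑ j : Fin Q, (1 / (Q : ℝ)) * (G (κ - v i - v j) / Q) : ℝ) : ℂ) *
        (Φ κ * chi (cmb κ ξ ⬝ᵥ g))‖ ^ 4 ≤
      Z ^ 2 * ∑ A : Fin Q, ∑ A' : Fin Q, (1 / (Q : ℝ)) * (1 / (Q : ℝ)) *
        ‖ker v G Φ A A'‖ ^ 2 := by
  have hQ' : (0 : ℝ) < Q := by exact_mod_cast hQ
  have e1 : ∑ κ, ((∑ i : Fin Q, ∑ j : Fin Q, (1 / (Q : ℝ)) * (G (κ - v i - v j) / Q) : ℝ) : ℂ) *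
        (Φ κ * chi (cmb κ ξ ⬝ᵥ g)) =
      ∑ A : Fin Q, ∑ B : Fin Q × (n → ZMod p), (((1 / (Q : ℝ)) * (G B.2 / Q) : ℝ) : ℂ) *
        (Φ (v A + (v B.1 + B.2)) * chi (cmb (v A + (v B.1 + B.2)) ξ ⬝ᵥ g)) := by
    simp_rw [Complex.ofReal_sum, Finset.sum_mul]
    rw [Finset.sum_comm]
    refine Finset.sum_congr rfl fun A _ => ?_
    rw [Fintype.sum_prod_type, Finset.sum_comm]
    refine Finset.sum_congr rfl fun j _ => ?_
    refine (Fintype.sum_equiv (Equiv.addLeft (v A + v j)) _ _ fun κ => ?_).symm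
    simp only [Equiv.coe_addLeft]
    have : v A + v j + κ - v A - v j = κ := by abel
    rw [this, add_assoc]
  rw [e1]
  refine (gcs4 (fun _ : Fin Q => (1 / (Q : ℝ))) (fun B : Fin Q × (n → ZMod p) => G B.2 / Q)
    (fun _ => by positivity) (fun B => div_nonneg (hG _) hQ'.le) _).trans ?_
  have h1 : ∑ _A : Fin Q, (1 / (Q : ℝ)) = 1 := by
    rw [Finset.sum_const, Finset.card_univ, Fintype.card_fin, nsmul_eq_mul]; field_simp
  have h2 : ∑ B : Fin Q × (n → ZMod p), G B.2 / Q = ∑ κ, G κ := by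
    rw [Fintype.sum_prod_type]
    simp only [Finset.sum_const, Finset.card_univ, Fintype.card_fin, nsmul_eq_mul]
    rw [← Finset.sum_div]; field_simp
  have h3 : 0 ≤ ∑ κ, G κ := Finset.sum_nonneg fun κ _ => hG κ
  rw [h1, h2, one_pow, one_mul]
  have h4 : ∀ A A' : Fin Q, ‖∑ B : Fin Q × (n → ZMod p), ((G B.2 / Q : ℝ) : ℂ) *
      ((Φ (v A + (v B.1 + B.2)) * chi (cmb (v A + (v B.1 + B.2)) ξ ⬝ᵥ g)) *
        (starRingEnd ℂ) (Φ (v A' + (v B.1 + B.2)) *
          chi (cmb (v A' + (v B.1 + B.2)) ξ ⬝ᵥ g)))‖ = ‖ker v G Φ A A'‖ := by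
    intro A A'
    have h5 : ∑ B : Fin Q × (n → ZMod p), ((G B.2 / Q : ℝ) : ℂ) *
      ((Φ (v A + (v B.1 + B.2)) * chi (cmb (v A + (v B.1 + B.2)) ξ ⬝ᵥ g)) *
        (starRingEnd ℂ) (Φ (v A' + (v B.1 + B.2)) *
          chi (cmb (v A' + (v B.1 + B.2)) ξ ⬝ᵥ g))) =
        (chi (cmb (v A) ξ ⬝ᵥ g) * (starRingEnd ℂ) (chi (cmb (v A') ξ ⬝ᵥ g))) *
          ker v G Φ A A' := by
      unfold ker
      rw [Finset.mul_sum]
      refine Finset.sum_congr rfl fun B _ => ?_
      have h6 : chi (cmb (v A + (v B.1 + B.2)) ξ ⬝ᵥ g) *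
          (starRingEnd ℂ) (chi (cmb (v A' + (v B.1 + B.2)) ξ ⬝ᵥ g)) =
          chi (cmb (v A) ξ ⬝ᵥ g) * (starRingEnd ℂ) (chi (cmb (v A') ξ ⬝ᵥ g)) := by
        rw [← chi_neg, ← chi_neg, ← chi_add, ← chi_add]
        congr 1
        rw [cmb_add (v A), cmb_add (v A'), add_dotProduct, add_dotProduct]
        ring
      rw [map_mul]
      calc _ = ((G B.2 / Q : ℝ) : ℂ) * (Φ (v A + (v B.1 + B.2)) *
          (starRingEnd ℂ) (Φ (v A' + (v B.1 + B.2)))) *
          (chi (cmb (v A + (v B.1 + B.2)) ξ ⬝ᵥ g) *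
          (starRingEnd ℂ) (chi (cmb (v A' + (v B.1 + B.2)) ξ ⬝ᵥ g))) := by ring
        _ = _ := by rw [h6]; ring
    rw [h5, norm_mul, norm_mul, norm_chi, RCLike.norm_conj, norm_chi, one_mul, one_mul]
  simp_rw [h4]
  refine mul_le_mul_of_nonneg_right (pow_le_pow_left₀ h3 hZ 2) ?_
  exact Finset.sum_nonneg fun A _ => Finset.sum_nonneg fun A' _ => by positivity

end Pool.Agent.W862.Kom
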