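import Pool.Agent.W862.Kom.Trap

/-!
# The Fejér type bump and the indicator of the zero set
-/

namespace Pool.Agent.W862.Kom

open Finset

section
variable {N : ℕ} [NeZero N]

lemma chN_neg (x : ZMod N) : chN (-x) = (starRingEnd ℂ) (chN x) := by
  have h1 : chN (-x) * chN x = 1 := by rw [← chN_add]; simp [chN_zero]
  have h2 : (starRingEnd ℂ) (chN x) * chN x = 1 := by
    rw [mul_comm, Complex.mul_conj, Complex.normSq_eq_norm_sq, norm_chN]; simp
  have h3 : chN x ≠ 0 := by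
    intro h; rw [h] at h2; simp at h2
  exact mul_right_cancel₀ h3 (h1.trans h2.symm)

/-- the bump -/
noncomputable def fej (M : ℕ) (x : ZMod N) : ℝ :=
  ‖(M : ℂ)⁻¹ * ∑ j ∈ range M, chN (((2 * j : ℕ) : ZMod N) * x)‖ ^ 2

lemma fej_nonneg (M : ℕ) (x : ZMod N) : 0 ≤ fej M x := sq_nonneg _

lemma fN_fej (M : ℕ) (κ : ZMod N) :
    fN (cx (fej M)) κ = ((M : ℂ)⁻¹) ^ 2 * ∑ j ∈ range M, ∑ j' ∈ range M,
      (if ((2 * j : ℕ) : ZMod N) - ((2 * j' : ℕ) : ZMod N) = κ then 1 else 0) := by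
  have h1 : ∀ x : ZMod N, cx (fej M) x = ((M : ℂ)⁻¹) ^ 2 * ∑ j ∈ range M, ∑ j' ∈ range M,
      chN ((((2 * j : ℕ) : ZMod N) - ((2 * j' : ℕ) : ZMod N)) * x) := by
    intro x
    unfold cx fej
    have h2 : ((‖(M : ℂ)⁻¹ * ∑ j ∈ range M, chN (((2 * j : ℕ) : ZMod N) * x)‖ ^ 2 : ℝ) : ℂ) =
        ((M : ℂ)⁻¹ * ∑ j ∈ range M, chN (((2 * j : ℕ) : ZMod N) * x)) *
        (starRingEnd ℂ) ((M : ℂ)⁻¹ * ∑ j ∈ range M, chN (((2 * j : ℕ) : ZMod N) * x)) := by
      rw [Complex.mul_conj, Complex.normSq_eq_norm_sq]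
    rw [h2, map_mul, map_inv₀, Complex.conj_natCast, map_sum]
    have h3 : (∑ j ∈ range M, chN (((2 * j : ℕ) : ZMod N) * x)) *
        (∑ j' ∈ range M, (starRingEnd ℂ) (chN (((2 * j' : ℕ) : ZMod N) * x))) =
        ∑ j ∈ range M, ∑ j' ∈ range M,
          chN ((((2 * j : ℕ) : ZMod N) - ((2 * j' : ℕ) : ZMod N)) * x) := by
      rw [Finset.sum_mul_sum]
      refine Finset.sum_congr rfl fun j _ => Finset.sum_congr rfl fun j' _ => ?_
      rw [← chN_neg, ← chN_add]; congr 1; ring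
    rw [← h3]; ring
  unfold fN
  simp_rw [h1]
  have hN := Nne (N := N)
  have h4 : ∑ x : ZMod N, (((M : ℂ)⁻¹) ^ 2 * ∑ j ∈ range M, ∑ j' ∈ range M,
      chN ((((2 * j : ℕ) : ZMod N) - ((2 * j' : ℕ) : ZMod N)) * x)) * chN (-(κ * x)) =
      ((M : ℂ)⁻¹) ^ 2 * ∑ j ∈ range M, ∑ j' ∈ range M, ∑ x : ZMod N,
        chN (x * (((2 * j : ℕ) : ZMod N) - ((2 * j' : ℕ) : ZMod N) - κ)) := by
    simp_rw [mul_assoc, ← Finset.mul_sum, Finset.sum_mul]
    congr 1
    rw [Finset.sum_comm]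
    refine Finset.sum_congr rfl fun j _ => ?_
    rw [Finset.sum_comm]
    refine Finset.sum_congr rfl fun j' _ => Finset.sum_congr rfl fun x _ => ?_
    rw [← chN_add]; congr 1; ring
  rw [h4]
  simp_rw [sum_chN_mul, sub_eq_zero]
  have h5 : ∀ j j' : ℕ, (if ((2 * j : ℕ) : ZMod N) - ((2 * j' : ℕ) : ZMod N) = κ then (N : ℂ) else 0) =
      N * (if ((2 * j : ℕ) : ZMod N) - ((2 * j' : ℕ) : ZMod N) = κ then 1 else 0) := by
    intro j j'; split_ifs <;> simp
  simp_rw [h5, ← Finset.mul_sum]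
  field_simp

lemma fN_fej_le (M : ℕ) (hM : 0 < M) (hMN : 4 * M ≤ N) (κ : ZMod N) :
    ‖fN (cx (fej M)) κ‖ ≤ 1 / M := by
  have hM0 : (0 : ℝ) < M := by exact_mod_cast hM
  rw [fN_fej, norm_mul, norm_pow, norm_inv, Complex.norm_natCast]
  have h1 : ‖∑ j ∈ range M, ∑ j' ∈ range M,
      (if ((2 * j : ℕ) : ZMod N) - ((2 * j' : ℕ) : ZMod N) = κ then (1 : ℂ) else 0)‖ ≤ M := by
    refine (norm_sum_le _ _).trans ?_
    have h2 : ∀ j ∈ range M, ‖∑ j' ∈ range M,
      (if ((2 * j : ℕ) : ZMod N) - ((2 * j' : ℕ) : ZMod N) = κ then (1 : ℂ) else 0)‖ ≤ 1 := by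
      intro j _
      rw [Finset.sum_boole, Complex.norm_natCast]
      have h3 : ((range M).filter fun j' : ℕ =>
          ((2 * j : ℕ) : ZMod N) - ((2 * j' : ℕ) : ZMod N) = κ).card ≤ 1 := by
        rw [Finset.card_le_one]
        intro a ha b hb
        rw [Finset.mem_filter, Finset.mem_range] at ha hb
        have h4 : ((2 * a : ℕ) : ZMod N) = ((2 * b : ℕ) : ZMod N) := by
          have := ha.2.trans hb.2.symm
          exact sub_right_injective this
        have h5 := (ZMod.natCast_eq_natCast_iff' _ _ _).mp h4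
        rw [Nat.mod_eq_of_lt (by omega), Nat.mod_eq_of_lt (by omega)] at h5
        omega
      exact_mod_cast h3
    refine (Finset.sum_le_sum h2).trans ?_
    rw [Finset.sum_const, Finset.card_range, nsmul_eq_mul, mul_one]
  calc ((M : ℝ)⁻¹) ^ 2 * _ ≤ ((M : ℝ)⁻¹) ^ 2 * M := mul_le_mul_of_nonneg_left h1 (by positivity)
    _ = 1 / M := by field_simp

lemma fN_fej_supp (M : ℕ) (hMN : 4 * M ≤ N) (κ : ZMod N) (h : fN (cx (fej M)) κ ≠ 0) :
    |(κ.valMinAbs : ℝ)| ≤ 2 * M := by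
  rw [fN_fej] at h
  have h1 := right_ne_zero_of_mul h
  obtain ⟨j, hj, h2⟩ := Finset.exists_ne_zero_of_sum_ne_zero h1
  obtain ⟨j', hj', h3⟩ := Finset.exists_ne_zero_of_sum_ne_zero h2
  rw [Finset.mem_range] at hj hj'
  have h4 : ((2 * j : ℕ) : ZMod N) - ((2 * j' : ℕ) : ZMod N) = κ := by
    by_contra hc; rw [if_neg hc] at h3; exact h3 rfl
  have h5 : κ.valMinAbs = 2 * (j : ℤ) - 2 * j' := by
    rw [ZMod.valMinAbs_spec]
    refine ⟨?_, ?_, ?_⟩
    · rw [← h4]; push_cast; ring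
    · omega
    · omega
  have h6 : |κ.valMinAbs| ≤ 2 * (M : ℤ) := by
    rw [h5, abs_le]; constructor <;> omega
  exact_mod_cast h6

lemma ex_re (θ : ℝ) : (ex θ).re = Real.cos (2 * Real.pi * θ) := by
  rw [ex_eq, mul_comm, Complex.exp_ofReal_mul_I_re]

/-- the character at an even frequency in terms of the triangle wave -/
lemma chN_two_re (j : ℕ) (x : ZMod N) :
    (chN (((2 * j : ℕ) : ZMod N) * x)).re = Real.cos (2 * Real.pi * (j * tz x / N)) := by
  have hN0 : (0 : ℝ) < N := Npos (N := N)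
  have h1 : ((2 * j : ℕ) : ZMod N) * x = ((2 * j * x.val : ℤ) : ZMod N) := by
    push_cast; simp
  rw [h1, chN_coe]
  push_cast
  unfold tz tt
  split_ifs with c1 c2
  · rw [← ex_re]; congr 2; push_cast; ring
  · have h2 : (2 * (j : ℝ) * x.val) / N = -(j * (((N : ℤ) - 2 * (x.val : ℤ) : ℤ) : ℝ) / N) +
        ((j : ℤ) : ℝ) := by
      push_cast; field_simp; ring
    rw [h2, ex_add_int, ex_re, mul_neg, Real.cos_neg]
  · have h2 : (2 * (j : ℝ) * x.val) / N = (j * ((2 * (x.val : ℤ) - 2 * (N : ℤ) : ℤ) : ℝ) / N) +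
        ((2 * j : ℤ) : ℝ) := by
      push_cast; field_simp; ring
    rw [h2, ex_add_int, ex_re]

lemma fej_ge (M : ℕ) (hM : 0 < M) (x : ZMod N) (h : 8 * (M : ℝ) * |(tz x : ℝ)| ≤ N) :
    1 / 2 ≤ fej M x := by
  have hN0 : (0 : ℝ) < N := Npos (N := N)
  have hM0 : (0 : ℝ) < M := by exact_mod_cast hM
  have hpi := Real.pi_pos
  unfold fej
  set z : ℂ := (M : ℂ)⁻¹ * ∑ j ∈ range M, chN (((2 * j : ℕ) : ZMod N) * x) with hz
  have h1 : Real.sqrt 2 / 2 ≤ z.re := by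
    have h2 : z.re = (M : ℝ)⁻¹ * ∑ j ∈ range M, (chN (((2 * j : ℕ) : ZMod N) * x)).re := by
      rw [hz]
      have : ((M : ℂ)⁻¹) = (((M : ℝ)⁻¹ : ℝ) : ℂ) := by push_cast; rfl
      rw [this, Complex.re_ofReal_mul, Complex.re_sum]
    rw [h2]
    have h3 : ∑ j ∈ range M, Real.sqrt 2 / 2 ≤
        ∑ j ∈ range M, (chN (((2 * j : ℕ) : ZMod N) * x)).re := by
      refine Finset.sum_le_sum fun j hj => ?_
      rw [chN_two_re, ← Real.cos_pi_div_four, ← Real.cos_abs (2 * Real.pi * (j * tz x / N))]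
      have hj' : (j : ℝ) ≤ M := by exact_mod_cast (Finset.mem_range.mp hj).le
      have h4 : |2 * Real.pi * (j * tz x / N)| ≤ Real.pi / 4 := by
        rw [abs_mul, abs_div, abs_mul (j : ℝ) (tz x : ℝ), abs_of_pos hN0,
          abs_of_nonneg (Nat.cast_nonneg j : (0 : ℝ) ≤ (j : ℝ)),
          abs_of_pos (by positivity : 0 < 2 * Real.pi)]
        have h5 : (j : ℝ) * |(tz x : ℝ)| / N ≤ 1 / 8 := by
          rw [div_le_iff₀ hN0]
          have := mul_le_mul_of_nonneg_right hj' (abs_nonneg (tz x : ℝ))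
          linarith
        have h6 := mul_le_mul_of_nonneg_left h5 (by positivity : 0 ≤ 2 * Real.pi)
        linarith
      exact Real.cos_le_cos_of_nonneg_of_le_pi (abs_nonneg _) (by linarith) h4
    rw [Finset.sum_const, Finset.card_range, nsmul_eq_mul] at h3
    calc Real.sqrt 2 / 2 = (M : ℝ)⁻¹ * (M * (Real.sqrt 2 / 2)) := by field_simp
      _ ≤ _ := mul_le_mul_of_nonneg_left h3 (by positivity)
  have h4 : Real.sqrt 2 / 2 ≤ ‖z‖ := h1.trans (Complex.re_le_norm z)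
  calc (1 : ℝ) / 2 = (Real.sqrt 2 / 2) ^ 2 := by
        rw [div_pow, Real.sq_sqrt (by norm_num)]; norm_num
    _ ≤ _ := pow_le_pow_left₀ (by positivity) h4 2

/-- indicator of the zero set of the triangle wave -/
noncomputable def zz (x : ZMod N) : ℝ := if tz x = 0 then 1 else 0

lemma fN_zz_le (h2N : 2 ∣ N) (κ : ZMod N) : ‖fN (cx (zz (N := N))) κ‖ ≤ 4 / N := by
  have hN0 : (0 : ℝ) < N := Npos (N := N)
  have h2 := norm_fN_le (cx (zz (N := N))) κ
    (univ.filter fun x : ZMod N => |tz x| = ((0 : ℕ) : ℤ)) 1 (by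
      intro x hx
      have h3 : tz x ≠ 0 := by
        intro hc
        exact hx (Finset.mem_filter.mpr ⟨Finset.mem_univ x, by rw [hc]; simp⟩)
      unfold cx zz; rw [if_neg h3]; simp) (by
      intro x _
      unfold cx zz; split_ifs <;> simp)
  refine h2.trans (div_le_div_of_nonneg_right ?_ hN0.le)
  rw [mul_one]
  exact_mod_cast card_eqR 0 h2N (by norm_num)

lemma valMinAbs_le (κ : ZMod N) : |(κ.valMinAbs : ℝ)| ≤ N / 2 := by
  have h4 := ZMod.natAbs_valMinAbs_le κ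
  have h5 : 2 * κ.valMinAbs.natAbs ≤ N := by omega
  have h6 : (κ.valMinAbs.natAbs : ℝ) = |(κ.valMinAbs : ℝ)| := by
    rw [Nat.cast_natAbs]; push_cast; rfl
  have h7 : (2 : ℝ) * |(κ.valMinAbs : ℝ)| ≤ N := by rw [← h6]; exact_mod_cast h5
  linarith

/-- Lipschitz property of the triangle wave -/
lemma tz_lip_nat (hN : 2 ≤ N) (x : ZMod N) (m : ℕ) : |tz (x + (m : ZMod N)) - tz x| ≤ 2 * m := by
  induction m with
  | zero => simp
  | succ m ih =>
    have h1 : x + ((m + 1 : ℕ) : ZMod N) = (x + (m : ZMod N)) + 1 := by push_cast; ring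
    rw [h1]
    have h2 := stp_abs hN (x + (m : ZMod N))
    unfold stp at h2
    have h3 : tz (x + (m : ZMod N) + 1) - tz x =
        (tz (x + (m : ZMod N) + 1) - tz (x + (m : ZMod N))) + (tz (x + (m : ZMod N)) - tz x) := by
      ring
    rw [h3]
    refine (abs_add_le _ _).trans ?_
    push_cast
    linarith

lemma tz_lip (hN : 2 ≤ N) (x : ZMod N) (m : ℤ) : |tz (x + (m : ZMod N)) - tz x| ≤ 2 * |m| := by
  rcases Int.natAbs_eq m with h | h
  · rw [h]
    have := tz_lip_nat hN x m.natAbs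
    simpa using this
  · have h1 := tz_lip_nat hN (x + (m : ZMod N)) m.natAbs
    have h2 : x + (m : ZMod N) + ((m.natAbs : ℕ) : ZMod N) = x := by
      have : (m : ZMod N) = -((m.natAbs : ℕ) : ZMod N) := by
        conv_lhs => rw [h]
        rw [Int.cast_neg, Int.cast_natCast]
      rw [this]; ring
    rw [h2, abs_sub_comm] at h1
    have h3 : |m| = (m.natAbs : ℤ) := (Int.natCast_natAbs m).symm
    rw [h3]; exact h1

end

end Pool.Agent.W862.Kom
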