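import Mathlib

/-!
# Finite Fourier analysis on vector spaces over `ZMod p`
-/

namespace Pool.Agent.W862.Kom

open Finset

variable {p : ℕ} [Fact p.Prime]

/-- the standard additive character -/
noncomputable def chi (x : ZMod p) : ℂ := ZMod.stdAddChar x

lemma chi_zero : chi (0 : ZMod p) = 1 := by simp [chi]

lemma chi_add (x y : ZMod p) : chi (x + y) = chi x * chi y := by
  simp [chi, AddChar.map_add_eq_mul]

lemma norm_chi (x : ZMod p) : ‖chi x‖ = 1 := by
  rw [chi, ZMod.stdAddChar_apply]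
  exact Circle.norm_coe _

lemma chi_neg (x : ZMod p) : chi (-x) = (starRingEnd ℂ) (chi x) := by
  have h1 : chi (-x) * chi x = 1 := by rw [← chi_add]; simp [chi_zero]
  have h2 : (starRingEnd ℂ) (chi x) * chi x = 1 := by
    rw [mul_comm, Complex.mul_conj, Complex.normSq_eq_norm_sq, norm_chi]; simp
  have h3 : chi x ≠ 0 := by
    intro h; rw [h] at h2; simp at h2
  exact mul_right_cancel₀ h3 (h1.trans h2.symm)

lemma sum_chi_mul (a : ZMod p) : ∑ x : ZMod p, chi (x * a) = if a = 0 then (p : ℂ) else 0 := by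
  have := AddChar.sum_mulShift (R' := ℂ) a (ZMod.isPrimitive_stdAddChar p)
  simpa [chi, ZMod.card] using this

/-- orthogonality on `ι → ZMod p` -/
lemma sum_chi_dot {ι : Type*} [Fintype ι] [DecidableEq ι] (z : ι → ZMod p) :
    ∑ x : ι → ZMod p, chi (x ⬝ᵥ z) = if z = 0 then ((p : ℂ) ^ (Fintype.card ι)) else 0 := by
  have h1 : ∀ x : ι → ZMod p, chi (x ⬝ᵥ z) = ∏ i, chi (x i * z i) := by
    intro x
    unfold dotProduct
    induction (univ : Finset ι) using Finset.induction_on with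
    | empty => simp [chi_zero]
    | insert a s ha ih => rw [Finset.sum_insert ha, Finset.prod_insert ha, chi_add, ih]
  simp_rw [h1]
  have h2 := Finset.prod_univ_sum (fun _ : ι => (univ : Finset (ZMod p)))
    (fun i x => chi (x * z i))
  rw [Fintype.piFinset_univ] at h2
  rw [← h2]
  simp_rw [sum_chi_mul]
  by_cases hz : z = 0
  · subst hz; simp
  · rw [if_neg hz]
    obtain ⟨i, hi⟩ := Function.ne_iff.mp hz
    exact Finset.prod_eq_zero (Finset.mem_univ i) (if_neg (by simpa using hi))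

section
variable {ι : Type*} [Fintype ι] [DecidableEq ι]

/-- normalised Fourier transform of a function on `ι → ZMod p` -/
noncomputable def ft (F : (ι → ZMod p) → ℂ) (k : ι → ZMod p) : ℂ :=
  ((p : ℂ) ^ (Fintype.card ι))⁻¹ * ∑ y, F y * chi (-(k ⬝ᵥ y))

lemma ft_inv (F : (ι → ZMod p) → ℂ) (y : ι → ZMod p) :
    F y = ∑ k, ft F k * chi (k ⬝ᵥ y) := by
  have hp : ((p : ℂ) ^ (Fintype.card ι)) ≠ 0 := by
    have : (p : ℂ) ≠ 0 := by exact_mod_cast (Fact.out : p.Prime).ne_zero
    exact pow_ne_zero _ this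
  have h1 : ∑ k, ft F k * chi (k ⬝ᵥ y)
      = ((p : ℂ) ^ (Fintype.card ι))⁻¹ * ∑ z, F z * ∑ k : ι → ZMod p, chi (k ⬝ᵥ (y - z)) := by
    unfold ft
    simp_rw [mul_assoc, Finset.sum_mul, Finset.mul_sum]
    rw [Finset.sum_comm]
    refine Finset.sum_congr rfl fun z _ => Finset.sum_congr rfl fun k _ => ?_
    rw [dotProduct_sub, sub_eq_add_neg, chi_add]
    ring
  rw [h1]
  simp_rw [sum_chi_dot, sub_eq_zero]
  simp only [mul_ite, mul_zero, Finset.sum_ite_eq, Finset.mem_univ, if_true]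
  field_simp

end

section
variable {m n : Type*} [Fintype m] [DecidableEq m] [Fintype n] [DecidableEq n]

/-- the random linear map: `y(ξ, g)_s = ξ_s · g` -/
def yy (ξ : n → m → ZMod p) (g : m → ZMod p) : n → ZMod p := fun s => ξ s ⬝ᵥ g

/-- linear combination of the rows of `ξ` -/
def cmb (k : n → ZMod p) (ξ : n → m → ZMod p) : m → ZMod p := fun j => ∑ s, k s * ξ s j

lemma dot_yy (k : n → ZMod p) (ξ : n → m → ZMod p) (g : m → ZMod p) :
    k ⬝ᵥ yy ξ g = cmb k ξ ⬝ᵥ g := by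
  simp only [dotProduct, yy, cmb, Finset.sum_mul, Finset.mul_sum]
  rw [Finset.sum_comm]
  refine Finset.sum_congr rfl fun j _ => Finset.sum_congr rfl fun s _ => ?_
  ring

lemma cmb_add (k l : n → ZMod p) (ξ : n → m → ZMod p) : cmb (k + l) ξ = cmb k ξ + cmb l ξ := by
  funext j
  simp [cmb, add_mul, Finset.sum_add_distrib]

/-- the transform of a function on `m → ZMod p` (not normalised) -/
noncomputable def hat (b : (m → ZMod p) → ℂ) (η : m → ZMod p) : ℂ :=
  ∑ i, b i * chi (-(η ⬝ᵥ i))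

/-- the convolution sum -/
noncomputable def XX (b : (m → ZMod p) → ℂ) (F : (n → ZMod p) → ℂ) (ξ : n → m → ZMod p)
    (g : m → ZMod p) : ℂ := ∑ i, b i * F (yy ξ (g - i))

lemma XX_eq (b : (m → ZMod p) → ℂ) (F : (n → ZMod p) → ℂ) (ξ : n → m → ZMod p)
    (g : m → ZMod p) :
    XX b F ξ g = ∑ k, ft F k * (chi (cmb k ξ ⬝ᵥ g) * hat b (cmb k ξ)) := by
  unfold XX hat
  have h1 : ∀ i, b i * F (yy ξ (g - i))
      = ∑ k, ft F k * (chi (cmb k ξ ⬝ᵥ g) * (b i * chi (-(cmb k ξ ⬝ᵥ i)))) := by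
    intro i
    rw [ft_inv F, Finset.mul_sum]
    refine Finset.sum_congr rfl fun k _ => ?_
    rw [dot_yy, dotProduct_sub, sub_eq_add_neg, chi_add]
    ring
  simp_rw [h1]
  rw [Finset.sum_comm]
  refine Finset.sum_congr rfl fun k _ => ?_
  rw [Finset.mul_sum, Finset.mul_sum]

/-- orthogonality for the random matrix `ξ` -/
lemma sum_chi_xi (w : n → m → ZMod p) :
    ∑ ξ : n → m → ZMod p, chi (∑ s, ξ s ⬝ᵥ w s)
      = if w = 0 then ((p : ℂ) ^ (Fintype.card n * Fintype.card m)) else 0 := by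
  have h1 : ∀ x : n → m → ZMod p, chi (∑ s, x s ⬝ᵥ w s) = ∏ s, chi (x s ⬝ᵥ w s) := by
    intro x
    induction (univ : Finset n) using Finset.induction_on with
    | empty => simp [chi_zero]
    | insert a s ha ih => rw [Finset.sum_insert ha, Finset.prod_insert ha, chi_add, ih]
  simp_rw [h1]
  have h2 := Finset.prod_univ_sum (fun _ : n => (univ : Finset (m → ZMod p)))
    (fun i x => chi (x ⬝ᵥ w i))
  rw [Fintype.piFinset_univ] at h2
  rw [← h2]
  simp_rw [sum_chi_dot]
  by_cases hz : w = 0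
  · subst hz
    simp [← pow_mul, mul_comm]
  · rw [if_neg hz]
    obtain ⟨i, hi⟩ := Function.ne_iff.mp hz
    exact Finset.prod_eq_zero (Finset.mem_univ i) (if_neg (by simpa using hi))

end

end Pool.Agent.W862.Kom
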