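import Pool.Agent.W862.Kom.Phase

/-!
# Frozen points and oddness
-/

namespace Pool.Agent.W862.Kom

open Finset

variable {p : ℕ} [Fact p.Prime]

section
variable {Q W : ℕ → ℕ} (hR : Radix Q W)
include hR

/-- oddness of `Θ_l` -/
lemma XI_neg (n l : ℕ) (y : Fin n → ZMod p) :
    ((XI Q n l (-y) : ℤ) : ZMod (DD p Q n)) = -((XI Q n l y : ℤ) : ZMod (DD p Q n)) := by
  have h1 : ((XI Q n l (-y) : ℤ) : ZMod (DD p Q n)) + ((XI Q n l y : ℤ) : ZMod (DD p Q n)) = 0 := by
    rw [← Int.cast_add, ZMod.intCast_zmod_eq_zero_iff_dvd]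
    unfold XI
    rw [← Finset.sum_add_distrib]
    refine Finset.dvd_sum fun s _ => ?_
    by_cases h0 : s.1 = 0
    · simp only [if_pos h0, Pi.neg_apply]
      by_cases hy : y s = 0
      · rw [hy, neg_zero, ZMod.val_zero]; simp
      · have : NeZero (y s) := ⟨hy⟩
        have h2 : (-(y s)).val = p - (y s).val := ZMod.val_neg_of_ne_zero (y s)
        have h3 := ZMod.val_lt (y s)
        rw [h2, Nat.cast_sub h3.le]
        unfold DD
        refine ⟨1, ?_⟩
        push_cast; ring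
    · by_cases hl : s.1 ≤ l
      · simp only [if_neg h0, if_pos hl, Pi.neg_apply]
        rw [tz_neg]
        exact ⟨0, by ring⟩
      · simp only [if_neg h0, if_neg hl]; simp
  exact eq_neg_of_add_eq_zero_left h1

lemma gT_neg (n l : ℕ) (y : Fin n → ZMod p) : gT Q n l (-y) = - gT (p := p) Q n l y := by
  haveI := DD_ne (p := p) hR n
  unfold gT; rw [XI_neg hR, ph_neg]

lemma eT_neg (n : ℕ) (y : Fin n → ZMod p) : eT Q n (-y) = - eT (p := p) Q n y := by
  haveI := DD_ne (p := p) hR n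
  unfold eT; rw [XI_neg hR, ph_neg]

end

/-- odd functions have mean zero -/
lemma ft_odd_zero {n : Type*} [Fintype n] [DecidableEq n] (F : (n → ZMod p) → ℝ)
    (h : ∀ y, F (-y) = - F y) : ft (cx F) 0 = 0 := by
  unfold ft
  have h1 : ∑ y : n → ZMod p, cx F y * chi (-((0 : n → ZMod p) ⬝ᵥ y)) = 0 := by
    have h2 : ∑ y : n → ZMod p, cx F y * chi (-((0 : n → ZMod p) ⬝ᵥ y)) = ∑ y, cx F y := by
      refine Finset.sum_congr rfl fun y _ => ?_
      rw [zero_dotProduct, neg_zero, chi_zero, mul_one]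
    rw [h2]
    have h3 : ∑ y, cx F y = ∑ y, cx F (-y) :=
      (Fintype.sum_equiv (Equiv.neg _) _ _ fun x => rfl).symm
    have h4 : ∑ y, cx F (-y) = - ∑ y, cx F y := by
      rw [← Finset.sum_neg_distrib]
      refine Finset.sum_congr rfl fun y _ => ?_
      unfold cx; rw [h]; push_cast; ring
    rw [h4] at h3
    have h5 : (2 : ℂ) * ∑ y, cx F y = 0 := by linear_combination h3
    exact (mul_eq_zero.mp h5).resolve_left (by norm_num)
  rw [h1, mul_zero]

section
variable {Q W : ℕ → ℕ} (hR : Radix Q W)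
include hR

/-- the later perturbations are small -/
lemma XI_diff (hW4 : ∀ s, 1 ≤ s → 4 ≤ W s) (n l l' : ℕ) (hll : l ≤ l') (hl' : l' < n)
    (y : Fin n → ZMod p) :
    3 * |((XI Q n l' y : ℤ) : ℝ) - (XI Q n l y : ℤ)| ≤ (Rl p Q n l : ℝ) := by
  have hp0 : (0 : ℝ) < p := Npos (N := p)
  have hQp : ∀ t, (0 : ℝ) < Q t := fun t => by exact_mod_cast hR.Qpos t
  -- telescoping
  have key : ∀ t, l ≤ t → t < n → |((XI Q n t y : ℤ) : ℝ) - (XI Q n l y : ℤ)| ≤
      (p : ℝ) * Q n * (4 / 3 * (1 / Q (l + 1) - 1 / Q (t + 1))) := by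
    intro t hlt
    induction t, hlt using Nat.le_induction with
    | base => intro _; rw [sub_self, sub_self]; simp
    | succ t hlt ih =>
      intro ht
      have ih' := ih (by omega)
      have hstep : ((XI Q n (t + 1) y : ℤ) : ℝ) - (XI Q n t y : ℤ) =
          2 * ((Q n : ℝ) / Q (t + 1)) * tz (y ⟨t + 1, ht⟩) := by
        have h1 : XI Q n (t + 1) y - XI Q n t y =
            2 * ((Q n / Q (t + 1) : ℕ) : ℤ) * tz (y ⟨t + 1, ht⟩) := by
          unfold XI
          rw [← Finset.sum_sub_distrib]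
          rw [Finset.sum_eq_single (⟨t + 1, ht⟩ : Fin n)]
          · simp only []
            rw [if_neg (by omega), if_pos le_rfl, if_neg (by omega), if_neg (by omega), sub_zero]
          · intro s _ hs
            have hs' : s.1 ≠ t + 1 := fun h => hs (Fin.ext h)
            by_cases h0 : s.1 = 0
            · simp only [if_pos h0, sub_self]
            · by_cases h2 : s.1 ≤ t
              · simp only [if_neg h0, if_pos h2]; rw [if_pos (by omega), sub_self]
              · simp only [if_neg h0, if_neg h2]; rw [if_neg (by omega), sub_self]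
          · intro h; exact absurd (Finset.mem_univ _) h
        have h2 : ((XI Q n (t + 1) y : ℤ) : ℝ) - (XI Q n t y : ℤ) =
            ((XI Q n (t + 1) y - XI Q n t y : ℤ) : ℝ) := by push_cast; ring
        rw [h2, h1]
        have hdiv : (((Q n / Q (t + 1) : ℕ) : ℤ) : ℝ) = (Q n : ℝ) / Q (t + 1) := by
          rw [Int.cast_natCast]; exact Nat.cast_div (hR.dvd (by omega)) (hQp _).ne'
        rw [Int.cast_mul, Int.cast_mul, hdiv]; push_cast; ring
      have hsz : |((XI Q n (t + 1) y : ℤ) : ℝ) - (XI Q n t y : ℤ)| ≤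
          (p : ℝ) * Q n * (1 / Q (t + 1)) := by
        rw [hstep]
        have h3 : 2 * |(tz (y ⟨t + 1, ht⟩) : ℝ)| ≤ p := by exact_mod_cast tz_abs (y ⟨t + 1, ht⟩)
        rw [abs_mul, abs_mul, abs_of_pos (by norm_num : (0 : ℝ) < 2),
          abs_of_pos (div_pos (hQp n) (hQp (t + 1)))]
        calc 2 * ((Q n : ℝ) / Q (t + 1)) * |(tz (y ⟨t + 1, ht⟩) : ℝ)| =
              ((Q n : ℝ) / Q (t + 1)) * (2 * |(tz (y ⟨t + 1, ht⟩) : ℝ)|) := by ring
          _ ≤ ((Q n : ℝ) / Q (t + 1)) * p :=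
              mul_le_mul_of_nonneg_left h3 (div_pos (hQp n) (hQp (t + 1))).le
          _ = _ := by ring
      have h4 : (1 : ℝ) / Q (t + 1) ≤ 4 / 3 * (1 / Q (t + 1) - 1 / Q (t + 1 + 1)) := by
        have h5 : (4 : ℝ) * Q (t + 1) ≤ Q (t + 1 + 1) := by
          have h6 := hW4 (t + 1) (by omega)
          have h7 : 4 * Q (t + 1) ≤ Q (t + 1 + 1) := by
            rw [hR.succ (t + 1), mul_comm]; exact Nat.mul_le_mul_left _ h6
          exact_mod_cast h7
        have h8 : (1 : ℝ) / Q (t + 1 + 1) ≤ 1 / (4 * Q (t + 1)) :=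
          one_div_le_one_div_of_le (by have := hQp (t + 1); positivity) h5
        have h9 : (1 : ℝ) / (4 * Q (t + 1)) = 1 / 4 * (1 / Q (t + 1)) := by
          rw [one_div_mul_one_div_rev, mul_comm]
        rw [h9] at h8
        linarith
      have h10 : ((XI Q n (t + 1) y : ℤ) : ℝ) - (XI Q n l y : ℤ) =
          (((XI Q n (t + 1) y : ℤ) : ℝ) - (XI Q n t y : ℤ)) +
            (((XI Q n t y : ℤ) : ℝ) - (XI Q n l y : ℤ)) := by ring
      rw [h10]
      refine (abs_add_le _ _).trans ?_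
      have h11 := mul_le_mul_of_nonneg_left h4 (by have := hQp n; positivity : 0 ≤ (p : ℝ) * Q n)
      calc _ ≤ (p : ℝ) * Q n * (1 / Q (t + 1)) +
            (p : ℝ) * Q n * (4 / 3 * (1 / Q (l + 1) - 1 / Q (t + 1))) := add_le_add hsz ih'
        _ ≤ (p : ℝ) * Q n * (4 / 3 * (1 / Q (t + 1) - 1 / Q (t + 1 + 1))) +
            (p : ℝ) * Q n * (4 / 3 * (1 / Q (l + 1) - 1 / Q (t + 1))) := by linarith
        _ = _ := by ring
  have h1 := key l' hll hl'
  have h2 : (Rl p Q n l : ℝ) = 4 * (p * Q n * (1 / Q (l + 1))) := by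
    unfold Rl
    push_cast
    rw [Nat.cast_div (hR.dvd (by omega : l + 1 ≤ n)) (hQp _).ne']; ring
  rw [h2]
  have h3 : 0 ≤ (p : ℝ) * Q n * (4 / 3 * (1 / Q (l' + 1))) := by
    have := hQp n; have := hQp (l' + 1); positivity
  have h4 : (p : ℝ) * Q n * (4 / 3 * (1 / Q (l + 1) - 1 / Q (l' + 1))) =
      4 / 3 * (p * Q n * (1 / Q (l + 1))) - (p : ℝ) * Q n * (4 / 3 * (1 / Q (l' + 1))) := by ring
  rw [h4] at h1
  linarith

/-- frozen points do not change any more -/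
lemma frozen (hW4 : ∀ s, 1 ≤ s → 4 ≤ W s) (n l l' : ℕ) (hll : l ≤ l') (hl' : l' < n)
    [NeZero (DD p Q n)] (y : Fin n → ZMod p) (R' : ℕ) (hR' : 0 < R') (hRR : R' ≤ Rl p Q n l)
    (h : 2 * (Rl p Q n l : ℝ) ≤ |(tz ((XI Q n l y : ℤ) : ZMod (DD p Q n)) : ℝ)|) :
    ph R' ((XI Q n l' y : ℤ) : ZMod (DD p Q n)) = gT Q n l y ∧
      tz ((XI Q n l' y : ℤ) : ZMod (DD p Q n)) ≠ 0 := by
  have hRp := Rl_pos (p := p) hR n l (by omega)
  have hRp' : (0 : ℝ) < Rl p Q n l := by exact_mod_cast hRp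
  have hD2 : 2 ≤ DD p Q n := by
    have := DD_pos (p := p) hR n
    obtain ⟨q, hq⟩ := DD_four (p := p) hR n
    omega
  have h1 := XI_diff (p := p) hR hW4 n l l' hll hl' y
  set x : ZMod (DD p Q n) := ((XI Q n l y : ℤ) : ZMod (DD p Q n)) with hx
  have h2 : ((XI Q n l' y : ℤ) : ZMod (DD p Q n)) =
      x + ((XI Q n l' y - XI Q n l y : ℤ) : ZMod (DD p Q n)) := by
    rw [hx]; push_cast; ring
  rw [h2]
  set x' : ZMod (DD p Q n) := x + ((XI Q n l' y - XI Q n l y : ℤ) : ZMod (DD p Q n)) with hx'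
  have h3 := tz_lip hD2 x (XI Q n l' y - XI Q n l y)
  rw [← hx'] at h3
  have h4 : |((tz x' : ℤ) : ℝ) - tz x| ≤ 2 * |((XI Q n l' y : ℤ) : ℝ) - (XI Q n l y : ℤ)| := by
    exact_mod_cast h3
  have h5 := abs_le.mp h4
  have hRR' : (R' : ℝ) ≤ Rl p Q n l := by exact_mod_cast hRR
  rcases le_total 0 (tz x : ℝ) with hs | hs
  · rw [abs_of_nonneg hs] at h
    have e1 : (R' : ℝ) ≤ tz x' := by linarith [h5.1]
    have e2 : (Rl p Q n l : ℝ) ≤ tz x := by linarith
    have e3 : (0 : ℝ) < tz x' := by linarith [h5.1]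
    refine ⟨?_, ?_⟩
    · rw [ph_pos R' hR' x' (by exact_mod_cast e1)]
      unfold gT
      rw [← hx, ph_pos _ hRp x (by exact_mod_cast e2)]
    · intro h0; rw [h0] at e3; simp at e3
  · rw [abs_of_nonpos hs] at h
    have e1 : (tz x' : ℝ) ≤ -(R' : ℝ) := by linarith [h5.2]
    have e2 : (tz x : ℝ) ≤ -(Rl p Q n l : ℝ) := by linarith
    have e3 : (tz x' : ℝ) < 0 := by linarith [h5.2]
    refine ⟨?_, ?_⟩
    · rw [ph_neg' R' hR' x' (by exact_mod_cast e1)]
      unfold gT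
      rw [← hx, ph_neg' _ hRp x (by exact_mod_cast e2)]
    · intro h0; rw [h0] at e3; simp at e3

/-- unfrozen points are seen by the bump -/
lemma hT_ge (n l : ℕ) (hln : l < n) [NeZero (DD p Q n)] (hQ16 : 16 ≤ Q (l + 1))
    (hQd : 16 ∣ Q (l + 1)) (y : Fin n → ZMod p)
    (h : |(tz ((XI Q n l y : ℤ) : ZMod (DD p Q n)) : ℝ)| < 2 * (Rl p Q n l : ℝ)) :
    1 / 2 ≤ hT Q n l y := by
  unfold hT
  set M := Q (l + 1) / 16 with hMdef
  have hMQ : M * 16 = Q (l + 1) := Nat.div_mul_cancel hQd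
  have hM0 : 0 < M := by omega
  refine fej_ge M hM0 _ ?_
  have hM0' : (0 : ℝ) < M := by exact_mod_cast hM0
  have hmul := Rl_mul (p := p) hR n l hln
  have h1 : (Rl p Q n l : ℝ) * (M * 16) = DD p Q n := by
    have : Rl p Q n l * (M * 16) = DD p Q n := by rw [hMQ]; exact hmul
    exact_mod_cast this
  have h2 := mul_le_mul_of_nonneg_left h.le (by positivity : 0 ≤ 8 * (M : ℝ))
  calc _ ≤ 8 * (M : ℝ) * (2 * (Rl p Q n l : ℝ)) := h2
    _ = (Rl p Q n l : ℝ) * (M * 16) := by ring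
    _ = _ := h1
    _ ≤ _ := le_rfl

lemma hT_nonneg (n l : ℕ) [NeZero (DD p Q n)] (y : Fin n → ZMod p) : 0 ≤ hT Q n l y :=
  fej_nonneg _ _

/-- the exact sign is `±1` off the zero set -/
lemma eT_abs (n : ℕ) [NeZero (DD p Q n)] (y : Fin n → ZMod p) :
    (bT Q n y = 1 ∧ eT Q n y = 0) ∨ (bT Q n y = 0 ∧ |eT Q n y| = 1) := by
  unfold bT eT zz
  set x : ZMod (DD p Q n) := ((XI Q n (n - 1) y : ℤ) : ZMod (DD p Q n))
  have h2D : 2 ∣ DD p Q n := dvd_trans (by norm_num) (DD_four (p := p) hR n)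
  have h1 := tz_even h2D x
  by_cases h0 : tz x = 0
  · left
    refine ⟨if_pos h0, ?_⟩
    unfold ph; rw [h0]; simp; exact cl_mid 0 (by norm_num) (by norm_num)
  · right
    refine ⟨if_neg h0, ?_⟩
    rcases lt_or_gt_of_ne h0 with hlt | hgt
    · rw [ph_neg' 2 (by norm_num) x (by push_cast; omega)]; simp
    · rw [ph_pos 2 (by norm_num) x (by push_cast; omega)]; simp

end

end Pool.Agent.W862.Kom
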