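import Pool.Agent.W862.Kom.MajE

/-!
# Majorants of the level functions
-/

namespace Pool.Agent.W862.Kom

open Finset

variable {p : ℕ} [Fact p.Prime]

/-- admissible signs, all coordinates `1 ≤ s ≤ l` -/
def Tpm (l : ℕ) (s : ℕ) : Finset ℤ := if 1 ≤ s ∧ s ≤ l then {1, -1} else {1}

/-- admissible signs with a zero at the last coordinate -/
def Tpz (l : ℕ) (s : ℕ) : Finset ℤ := if s = l then {1, -1, 0} else Tpm l s

lemma one_mem_Tpm (l s : ℕ) : (1 : ℤ) ∈ Tpm l s := by unfold Tpm; split_ifs <;> simp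

lemma neg_mem_Tpm (l s : ℕ) (h1 : 1 ≤ s) (h2 : s ≤ l) : (-1 : ℤ) ∈ Tpm l s := by
  unfold Tpm; rw [if_pos ⟨h1, h2⟩]; simp

lemma one_mem_Tpz (l s : ℕ) : (1 : ℤ) ∈ Tpz l s := by
  unfold Tpz; split_ifs
  · simp
  · exact one_mem_Tpm l s

lemma neg_mem_Tpz (l s : ℕ) (h1 : 1 ≤ s) (h2 : s ≤ l) : (-1 : ℤ) ∈ Tpz l s := by
  unfold Tpz; split_ifs
  · simp
  · exact neg_mem_Tpm l s h1 h2

lemma Tpm_pm (l s : ℕ) : ∀ τ ∈ Tpm l s, τ = 1 ∨ τ = -1 := by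
  intro τ hτ
  unfold Tpm at hτ
  split_ifs at hτ
  · simpa using hτ
  · left; simpa using hτ

lemma Tpz_abs (l s : ℕ) : ∀ τ ∈ Tpz l s, |τ| ≤ 1 := by
  intro τ hτ
  unfold Tpz at hτ
  split_ifs at hτ
  · simp only [Finset.mem_insert, Finset.mem_singleton] at hτ
    rcases hτ with rfl | rfl | rfl <;> simp
  · rcases Tpm_pm l s τ hτ with rfl | rfl <;> simp

lemma Tpm_abs (l s : ℕ) : ∀ τ ∈ Tpm l s, |τ| ≤ 1 := by
  intro τ hτ
  rcases Tpm_pm l s τ hτ with rfl | rfl <;> simp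

lemma nat_prod_if_le (n l c : ℕ) (hc : 1 ≤ c) :
    ∏ s : Fin n, (if 1 ≤ s.1 ∧ s.1 ≤ l then c else 1) ≤ c ^ l := by
  have h := prod_if_le n l c (by exact_mod_cast hc)
  have e : ((∏ s : Fin n, (if 1 ≤ s.1 ∧ s.1 ≤ l then c else 1) : ℕ) : ℝ) =
      ∏ s : Fin n, (if 1 ≤ s.1 ∧ s.1 ≤ l then (c : ℝ) else 1) := by
    push_cast; rfl
  have h2 : ((∏ s : Fin n, (if 1 ≤ s.1 ∧ s.1 ≤ l then c else 1) : ℕ) : ℝ) ≤ ((c ^ l : ℕ) : ℝ) := by
    rw [e]; push_cast; exact h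
  exact_mod_cast h2

lemma card_Tpm (n l : ℕ) : ∏ s : Fin n, (Tpm l s.1).card ≤ 3 * 2 ^ l := by
  have h1 : ∀ s : Fin n, (Tpm l s.1).card = if 1 ≤ s.1 ∧ s.1 ≤ l then 2 else 1 := by
    intro s; unfold Tpm; split_ifs
    · decide
    · simp
  simp_rw [h1]
  have := nat_prod_if_le n l 2 (by norm_num)
  omega

lemma card_Tpz (n l : ℕ) : ∏ s : Fin n, (Tpz l s.1).card ≤ 3 * 2 ^ l := by
  have h1 : ∀ s : Fin n, (Tpz l s.1).card ≤ (if s.1 = l then 3 else 1) *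
      (if 1 ≤ s.1 ∧ s.1 ≤ l then 2 else 1) := by
    intro s; unfold Tpz Tpm
    by_cases h : s.1 = l
    · rw [if_pos h, if_pos h]
      have : ({1, -1, 0} : Finset ℤ).card = 3 := by decide
      rw [this]; split_ifs <;> norm_num
    · rw [if_neg h, if_neg h]; split_ifs
      · decide
      · simp
  refine (Finset.prod_le_prod' fun s _ => h1 s).trans ?_
  rw [Finset.prod_mul_distrib]
  refine Nat.mul_le_mul ?_ (nat_prod_if_le n l 2 (by norm_num))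
  by_cases hl : l < n
  · have h2 : ∀ s : Fin n, (if s.1 = l then 3 else 1) = if s = ⟨l, hl⟩ then 3 else 1 := by
      intro s; simp only [Fin.ext_iff]
    simp_rw [h2]
    rw [Finset.prod_ite_eq']; simp
  · have h2 : ∀ s : Fin n, (if s.1 = l then 3 else 1) = 1 := by
      intro s; rw [if_neg (by have := s.2; omega)]
    simp_rw [h2]; simp

/-- function of `Θ_l` on the group -/
noncomputable def fT (Q : ℕ → ℕ) (n l : ℕ) (Φ : ZMod (DD p Q n) → ℂ) (y : Fin n → ZMod p) : ℂ :=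
  Φ ((XI Q n l y : ℤ) : ZMod (DD p Q n))

lemma prod_tf_le {Q W : ℕ → ℕ} (hR : Radix Q W) (hp : 5 ≤ p) (η : ℝ) (hη0 : 0 < η) (hη1 : η ≤ 1)
    (n l : ℕ) (T : ℕ → Finset ℤ) (hT1 : ∀ s, (1 : ℤ) ∈ T s)
    (hT2 : ∀ s, 1 ≤ s → s ≤ l → (-1 : ℤ) ∈ T s) (k : ℤ) (μ : Fin n → ZMod p) :
    ‖∏ s : Fin n, tf Q l k s.1 (μ s)‖ ≤ (80 * (1 + |(k : ℝ)|) ^ η) ^ l *
      ∏ s : Fin n, tb Q η l (T s.1) k s.1 (μ s) := by
  have hC : 1 ≤ 80 * (1 + |(k : ℝ)|) ^ η := by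
    have : 1 ≤ (1 + |(k : ℝ)|) ^ η := Real.one_le_rpow (by linarith [abs_nonneg (k : ℝ)]) hη0.le
    linarith
  rw [norm_prod]
  calc ∏ s : Fin n, ‖tf Q l k s.1 (μ s)‖ ≤ ∏ s : Fin n,
        ((if 1 ≤ s.1 ∧ s.1 ≤ l then 80 * (1 + |(k : ℝ)|) ^ η else 1) *
          tb Q η l (T s.1) k s.1 (μ s)) :=
        Finset.prod_le_prod (fun s _ => norm_nonneg _) fun s _ =>
          tf_le hR hp η hη0 hη1 l (T s.1) (hT1 _) k s.1 (hT2 _) (μ s)
    _ = (∏ s : Fin n, (if 1 ≤ s.1 ∧ s.1 ≤ l then 80 * (1 + |(k : ℝ)|) ^ η else 1)) *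
          ∏ s : Fin n, tb Q η l (T s.1) k s.1 (μ s) := Finset.prod_mul_distrib
    _ ≤ _ := mul_le_mul_of_nonneg_right (prod_if_le n l _ hC)
          (Finset.prod_nonneg fun s _ => tb_nonneg _ _ _ _ _ _ _)

theorem majE_fun {Q W : ℕ → ℕ} (hR : Radix Q W) (hp : 5 ≤ p) (ε : ℝ) (hε0 : 0 < ε)
    (hε1 : ε ≤ 1 / 4) (n l a : ℕ) (hn : 0 < n) (han : a ≤ n) (hal : a ≤ l + 1)
    (hWp : ∀ s < a, W s ≤ p) (Wm : ℕ) (hW1 : 1 ≤ Wm) (hWm : ∀ s < a, W s ≤ Wm)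
    [NeZero (DD p Q n)] (Φ : ZMod (DD p Q n) → ℂ) (C : ℝ) (hC : 0 ≤ C) (q' : ℝ)
    (hqq : (Q a : ℝ) ≤ q') (h1 : ∀ κ, ‖fN Φ κ‖ * Q a ≤ C)
    (h2 : ∀ κ, |(κ.valMinAbs : ℝ)| * ‖fN Φ κ‖ ≤ C)
    (h3 : ∀ κ, |(κ.valMinAbs : ℝ)| ^ 2 * ‖fN Φ κ‖ ≤ C * q') :
    MajE (fT Q n l Φ) (EE C ε l q') (Q a) ((Wm : ℝ) ^ 2) := by
  have hl0 : (0 : ℝ) ≤ l := Nat.cast_nonneg _
  have hη0 : 0 < ε / ((l : ℝ) + 1) := by positivity
  have hη1 : ε / ((l : ℝ) + 1) ≤ 1 := by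
    rw [div_le_one (by positivity)]; linarith
  refine majE_main hR ε hε0 hε1 n l a hn han hal (Tpm l) (by unfold Tpm; simp) (Tpm_abs l)
    (fun s _ => Tpm_pm l s) (card_Tpm n l) hWp Wm hW1 hWm _ (fun κ => ‖fN Φ κ‖)
    (fun κ => norm_nonneg _) C hC q' hqq h1 h2 h3 ?_
  intro μ
  unfold fT
  rw [ft_comp hR]
  refine (norm_sum_le _ _).trans (Finset.sum_le_sum fun κ _ => ?_)
  rw [norm_mul]
  exact mul_le_mul_of_nonneg_left (prod_tf_le hR hp _ hη0 hη1 n l (Tpm l) (one_mem_Tpm l)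
    (neg_mem_Tpm l) _ μ) (norm_nonneg _)

/-- the transform of a difference of two functions -/
lemma ft_sub {n : Type*} [Fintype n] [DecidableEq n] (F G : (n → ZMod p) → ℂ) (μ : n → ZMod p) :
    ft (fun y => F y - G y) μ = ft F μ - ft G μ := by
  unfold ft
  simp_rw [sub_mul, Finset.sum_sub_distrib, mul_sub]

theorem majE_step {Q W : ℕ → ℕ} (hR : Radix Q W) (hp : 5 ≤ p) (ε : ℝ) (hε0 : 0 < ε)
    (hε1 : ε ≤ 1 / 4) (n l : ℕ) (hl : 1 ≤ l) (hln : l < n)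
    (hWp : ∀ s < l, W s ≤ p) (Wm : ℕ) (hW1 : 1 ≤ Wm) (hWm : ∀ s < l, W s ≤ Wm)
    [NeZero (DD p Q n)] (Φ Ψ : ZMod (DD p Q n) → ℂ) (C : ℝ) (hC : 0 ≤ C) (q' : ℝ)
    (hqq : (Q l : ℝ) ≤ q')
    (h1 : ∀ κ, ‖fN Φ κ - fN Ψ κ‖ * Q l ≤ C)
    (h2 : ∀ κ, |(κ.valMinAbs : ℝ)| * ‖fN Φ κ‖ ≤ C)
    (h2' : ∀ κ, |(κ.valMinAbs : ℝ)| * ‖fN Ψ κ‖ ≤ C)
    (h3 : ∀ κ, |(κ.valMinAbs : ℝ)| ^ 2 * ‖fN Φ κ‖ ≤ C * q')
    (h3' : ∀ κ, |(κ.valMinAbs : ℝ)| ^ 2 * ‖fN Ψ κ‖ ≤ C * Q l) :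
    MajE (fun y => fT Q n l Φ y - fT Q n (l - 1) Ψ y) (EE (3 * C) ε l q') (Q l)
      ((Wm : ℝ) ^ 2) := by
  have hl0 : (0 : ℝ) ≤ l := Nat.cast_nonneg _
  set η := ε / ((l : ℝ) + 1) with hη
  have hη0 : 0 < η := by rw [hη]; positivity
  have hη1 : η ≤ 1 := by
    rw [hη, div_le_one (by positivity)]; linarith
  have hQ0 : (0 : ℝ) < Q l := by exact_mod_cast hR.Qpos l
  set β : ZMod (DD p Q n) → ℝ := fun κ => ‖fN Φ κ - fN Ψ κ‖ +
    (if |(κ.valMinAbs : ℝ)| ≤ Q l then |(κ.valMinAbs : ℝ)| / Q l else 1) * ‖fN Ψ κ‖ with hβ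
  have hif0 : ∀ κ : ZMod (DD p Q n),
      0 ≤ (if |(κ.valMinAbs : ℝ)| ≤ Q l then |(κ.valMinAbs : ℝ)| / Q l else 1) := by
    intro κ; split_ifs
    · positivity
    · norm_num
  have hβ0 : ∀ κ, 0 ≤ β κ := fun κ => add_nonneg (norm_nonneg _)
    (mul_nonneg (hif0 κ) (norm_nonneg _))
  have hd : ∀ κ, ‖fN Φ κ - fN Ψ κ‖ ≤ ‖fN Φ κ‖ + ‖fN Ψ κ‖ := fun κ => norm_sub_le _ _
  refine majE_main hR ε hε0 hε1 n l l (by omega) (by omega) (by omega) (Tpz l)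
    (by unfold Tpz Tpm; rw [if_neg (by omega)]; simp) (Tpz_abs l)
    (fun s hs => by
      intro τ hτ
      unfold Tpz at hτ
      rw [if_neg (by omega)] at hτ
      exact Tpm_pm l s τ hτ) (card_Tpz n l) hWp Wm hW1 hWm _ β hβ0 (3 * C) (by positivity) q' hqq
    ?_ ?_ ?_ ?_
  · intro κ
    have e1 : (if |(κ.valMinAbs : ℝ)| ≤ Q l then |(κ.valMinAbs : ℝ)| / Q l else 1) * ‖fN Ψ κ‖ *
        Q l ≤ C := by
      split_ifs with h
      · have : |(κ.valMinAbs : ℝ)| / Q l * ‖fN Ψ κ‖ * Q l = |(κ.valMinAbs : ℝ)| * ‖fN Ψ κ‖ := by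
          field_simp
        rw [this]; exact h2' κ
      · push Not at h
        rw [one_mul]
        calc ‖fN Ψ κ‖ * Q l ≤ ‖fN Ψ κ‖ * |(κ.valMinAbs : ℝ)| :=
              mul_le_mul_of_nonneg_left h.le (norm_nonneg _)
          _ = |(κ.valMinAbs : ℝ)| * ‖fN Ψ κ‖ := by ring
          _ ≤ C := h2' κ
    rw [hβ]
    simp only []
    rw [add_mul]
    linarith [h1 κ]
  · intro κ
    have e1 : |(κ.valMinAbs : ℝ)| *
        ((if |(κ.valMinAbs : ℝ)| ≤ Q l then |(κ.valMinAbs : ℝ)| / Q l else 1) * ‖fN Ψ κ‖) ≤ C := by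
      have hle : (if |(κ.valMinAbs : ℝ)| ≤ Q l then |(κ.valMinAbs : ℝ)| / Q l else 1) ≤ 1 := by
        split_ifs with h
        · rw [div_le_one hQ0]; exact h
        · exact le_rfl
      calc _ ≤ |(κ.valMinAbs : ℝ)| * (1 * ‖fN Ψ κ‖) :=
            mul_le_mul_of_nonneg_left (mul_le_mul_of_nonneg_right hle (norm_nonneg _))
              (abs_nonneg _)
        _ ≤ C := by rw [one_mul]; exact h2' κ
    rw [hβ]
    simp only []
    rw [mul_add]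
    have e2 := mul_le_mul_of_nonneg_left (hd κ) (abs_nonneg (κ.valMinAbs : ℝ))
    rw [mul_add] at e2
    linarith [h2 κ, h2' κ]
  · intro κ
    have e1 : |(κ.valMinAbs : ℝ)| ^ 2 *
        ((if |(κ.valMinAbs : ℝ)| ≤ Q l then |(κ.valMinAbs : ℝ)| / Q l else 1) * ‖fN Ψ κ‖) ≤
        C * q' := by
      have hle : (if |(κ.valMinAbs : ℝ)| ≤ Q l then |(κ.valMinAbs : ℝ)| / Q l else 1) ≤ 1 := by
        split_ifs with h
        · rw [div_le_one hQ0]; exact h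
        · exact le_rfl
      calc _ ≤ |(κ.valMinAbs : ℝ)| ^ 2 * (1 * ‖fN Ψ κ‖) :=
            mul_le_mul_of_nonneg_left (mul_le_mul_of_nonneg_right hle (norm_nonneg _))
              (by positivity)
        _ ≤ C * Q l := by rw [one_mul]; exact h3' κ
        _ ≤ C * q' := mul_le_mul_of_nonneg_left hqq hC
    rw [hβ]
    simp only []
    rw [mul_add]
    have e2 := mul_le_mul_of_nonneg_left (hd κ) (by positivity : 0 ≤ |(κ.valMinAbs : ℝ)| ^ 2)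
    rw [mul_add] at e2
    have e3 := (h3' κ).trans (mul_le_mul_of_nonneg_left hqq hC)
    linarith [h3 κ]
  · intro μ
    rw [ft_sub]
    unfold fT
    rw [ft_comp hR, ft_comp hR, ← Finset.sum_sub_distrib]
    refine (norm_sum_le _ _).trans (Finset.sum_le_sum fun κ _ => ?_)
    set k := κ.valMinAbs with hk
    set j : Fin n := ⟨l, hln⟩ with hj
    -- split off the coordinate `l`
    have p1 : ∏ s : Fin n, tf Q l k s.1 (μ s) =
        tf Q l k l (μ j) * ∏ s ∈ univ.erase j, tf Q l k s.1 (μ s) :=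
      (Finset.mul_prod_erase univ (fun s : Fin n => tf Q l k s.1 (μ s)) (Finset.mem_univ j)).symm
    have p2 : ∏ s : Fin n, tf Q (l - 1) k s.1 (μ s) =
        (if μ j = 0 then 1 else 0) * ∏ s ∈ univ.erase j, tf Q l k s.1 (μ s) := by
      rw [← Finset.mul_prod_erase univ (fun s : Fin n => tf Q (l - 1) k s.1 (μ s))
        (Finset.mem_univ j)]
      congr 1
      · have : j.1 = l := rfl
        rw [this]
        unfold tf
        rw [if_neg (by omega), if_neg (by omega)]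
      · refine Finset.prod_congr rfl fun s hs => ?_
        have hs' : s.1 ≠ l := fun h => (Finset.mem_erase.mp hs).1 (Fin.ext h)
        unfold tf
        by_cases h0 : s.1 = 0
        · simp only [if_pos h0]
        · by_cases h4 : s.1 ≤ l
          · simp only [if_neg h0, if_pos h4]
            rw [if_pos (by omega)]
          · simp only [if_neg h0, if_neg h4]
            rw [if_neg (by omega)]
    have p3 : tf Q l k l (μ j) = That p (k / Q l) (μ j) := by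
      unfold tf; rw [if_neg (by omega), if_pos le_rfl]
    have p4 : ∏ s : Fin n, tb Q η l (Tpz l s.1) k s.1 (μ s) =
        tb Q η l (Tpz l l) k l (μ j) * ∏ s ∈ univ.erase j, tb Q η l (Tpz l s.1) k s.1 (μ s) :=
      (Finset.mul_prod_erase univ (fun s : Fin n => tb Q η l (Tpz l s.1) k s.1 (μ s))
        (Finset.mem_univ j)).symm
    set c := 80 * (1 + |(k : ℝ)|) ^ η with hc
    have hc1 : 1 ≤ c := by
      have : 1 ≤ (1 + |(k : ℝ)|) ^ η := Real.one_le_rpow (by linarith [abs_nonneg (k : ℝ)]) hη0.le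
      rw [hc]; linarith
    -- the other coordinates
    have p5 : ‖∏ s ∈ univ.erase j, tf Q l k s.1 (μ s)‖ ≤
        c ^ (l - 1) * ∏ s ∈ univ.erase j, tb Q η l (Tpz l s.1) k s.1 (μ s) := by
      rw [norm_prod]
      calc ∏ s ∈ univ.erase j, ‖tf Q l k s.1 (μ s)‖ ≤ ∏ s ∈ univ.erase j,
            ((if 1 ≤ s.1 ∧ s.1 ≤ l then c else 1) * tb Q η l (Tpz l s.1) k s.1 (μ s)) :=
            Finset.prod_le_prod (fun s _ => norm_nonneg _) fun s _ =>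
              tf_le hR hp η hη0 hη1 l _ (one_mem_Tpz l _) k s.1 (neg_mem_Tpz l _) (μ s)
        _ = (∏ s ∈ univ.erase j, (if 1 ≤ s.1 ∧ s.1 ≤ l then c else 1)) *
              ∏ s ∈ univ.erase j, tb Q η l (Tpz l s.1) k s.1 (μ s) := Finset.prod_mul_distrib
        _ ≤ _ := by
            refine mul_le_mul_of_nonneg_right ?_
              (Finset.prod_nonneg fun s _ => tb_nonneg _ _ _ _ _ _ _)
            have e1 : ∏ s ∈ univ.erase j, (if 1 ≤ s.1 ∧ s.1 ≤ l then c else 1) =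
                ∏ s ∈ univ.erase j, (if 1 ≤ s.1 ∧ s.1 ≤ l - 1 then c else 1) := by
              refine Finset.prod_congr rfl fun s hs => ?_
              have hs' : s.1 ≠ l := fun h => (Finset.mem_erase.mp hs).1 (Fin.ext h)
              refine if_congr ?_ rfl rfl
              omega
            rw [e1]
            have e2 := Finset.mul_prod_erase univ
              (fun s : Fin n => if 1 ≤ s.1 ∧ s.1 ≤ l - 1 then c else 1) (Finset.mem_univ j)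
            have e3 : (if 1 ≤ j.1 ∧ j.1 ≤ l - 1 then c else 1) = 1 := by
              rw [if_neg (by rw [hj]; simp only []; omega)]
            rw [e3, one_mul] at e2
            rw [e2]
            exact prod_if_le n (l - 1) c hc1
    have p6 := That_sub_le hR hp η hη0 hη1 l hl k (μ j)
    have p7 := tf_le hR hp η hη0 hη1 l (Tpz l l) (one_mem_Tpz l l) k l (neg_mem_Tpz l l) (μ j)
    rw [if_pos ⟨hl, le_rfl⟩, ← hc] at p7
    have hTl : Tpz l l = {1, -1, 0} := by unfold Tpz; rw [if_pos rfl]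
    rw [← hTl, ← hc] at p6
    have p8 : fN Φ κ * (∏ s : Fin n, tf Q l k s.1 (μ s)) -
        fN Ψ κ * (∏ s : Fin n, tf Q (l - 1) k s.1 (μ s)) =
        ((fN Φ κ - fN Ψ κ) * tf Q l k l (μ j) +
          fN Ψ κ * (That p (k / Q l) (μ j) - (if μ j = 0 then 1 else 0))) *
          ∏ s ∈ univ.erase j, tf Q l k s.1 (μ s) := by
      rw [p1, p2, p3]; ring
    have p9 : ‖(fN Φ κ - fN Ψ κ) * tf Q l k l (μ j) +
          fN Ψ κ * (That p (k / Q l) (μ j) - (if μ j = 0 then 1 else 0))‖ ≤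
          β κ * (c * tb Q η l (Tpz l l) k l (μ j)) := by
      refine (norm_add_le _ _).trans ?_
      rw [norm_mul, norm_mul, hβ]
      simp only []
      rw [add_mul]
      refine add_le_add (mul_le_mul_of_nonneg_left p7 (norm_nonneg _)) ?_
      calc ‖fN Ψ κ‖ * ‖That p (k / Q l) (μ j) - (if μ j = 0 then 1 else 0)‖ ≤
            ‖fN Ψ κ‖ * ((if |(k : ℝ)| ≤ Q l then |(k : ℝ)| / Q l else 1) *
              (c * tb Q η l (Tpz l l) k l (μ j))) :=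
            mul_le_mul_of_nonneg_left p6 (norm_nonneg _)
        _ = _ := by ring
    have p10 : 0 ≤ tb Q η l (Tpz l l) k l (μ j) := tb_nonneg _ _ _ _ _ _ _
    rw [p8, norm_mul]
    calc _ ≤ (β κ * (c * tb Q η l (Tpz l l) k l (μ j))) *
          (c ^ (l - 1) * ∏ s ∈ univ.erase j, tb Q η l (Tpz l s.1) k s.1 (μ s)) :=
          mul_le_mul p9 p5 (norm_nonneg _)
            (mul_nonneg (hβ0 κ) (mul_nonneg (by linarith) p10))
      _ = β κ * ((c * c ^ (l - 1)) * (tb Q η l (Tpz l l) k l (μ j) *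
          ∏ s ∈ univ.erase j, tb Q η l (Tpz l s.1) k s.1 (μ s))) := by ring
      _ = _ := by
          rw [← p4, ← pow_succ', show l - 1 + 1 = l by omega]

end Pool.Agent.W862.Kom
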