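import Pool.Agent.W862.Kom.Stage

/-!
# The main theorem for large primes
-/

namespace Pool.Agent.W862.Kom

open Finset

variable {p : ℕ} [Fact p.Prime]

/-- cut-offs -/
noncomputable def dlt (L l : ℕ) : ℝ :=
  if l ≤ L then e2 (-(l : ℝ) ^ 2)
  else e2 (-((L : ℝ) + 1) ^ 2) * (9 / 10 : ℝ) ^ (2 * (l - (L + 1)))

/-- weights -/
noncomputable def gg (L l : ℕ) : ℝ :=
  if l ≤ L then e2 (-(l : ℝ)) else (9 / 10 : ℝ) ^ (l - (L + 1))

lemma dlt_pos (L l : ℕ) : 0 < dlt L l := by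
  unfold dlt; split_ifs
  · exact e2_pos _
  · exact mul_pos (e2_pos _) (by positivity)

lemma gg_pos (L l : ℕ) : 0 < gg L l := by
  unfold gg; split_ifs
  · exact e2_pos _
  · positivity

lemma dlt_one (L : ℕ) : dlt L 0 = 1 := by
  unfold dlt; rw [if_pos (Nat.zero_le _)]; simp [e2_zero]

lemma dlt_low (L l : ℕ) (h : l ≤ L + 1) : dlt L l = e2 (-(l : ℝ) ^ 2) := by
  unfold dlt
  rcases Nat.lt_or_ge L l with h1 | h1
  · have : l = L + 1 := by omega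
    subst this
    rw [if_neg (by omega)]; simp
  · rw [if_pos h1]

lemma dlt_high (L j : ℕ) :
    dlt L (L + 1 + j) = e2 (-((L : ℝ) + 1) ^ 2) * (9 / 10 : ℝ) ^ (2 * j) := by
  unfold dlt
  rw [if_neg (by omega), show L + 1 + j - (L + 1) = j by omega]

lemma dlt_mono (L l : ℕ) : dlt L (l + 1) ≤ dlt L l := by
  rcases Nat.lt_or_ge L l with h | h
  · obtain ⟨j, rfl⟩ : ∃ j, l = L + 1 + j := ⟨l - (L + 1), by omega⟩
    rw [show L + 1 + j + 1 = L + 1 + (j + 1) by ring, dlt_high, dlt_high]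
    refine mul_le_mul_of_nonneg_left ?_ (e2_pos _).le
    exact pow_le_pow_of_le_one (by norm_num) (by norm_num) (by omega)
  · rw [dlt_low L l (by omega), dlt_low L (l + 1) (by omega)]
    refine e2_mono ?_
    push_cast
    have : (0 : ℝ) ≤ l := Nat.cast_nonneg _
    nlinarith

lemma geom_le (r : ℝ) (h0 : 0 ≤ r) (h1 : r < 1) (J : ℕ) :
    ∑ j ∈ range J, r ^ j ≤ 1 / (1 - r) := by
  rw [geom_sum_eq h1.ne, ← neg_div_neg_eq, neg_sub, neg_sub]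
  refine div_le_div_of_nonneg_right ?_ (by linarith)
  have := pow_nonneg h0 J
  linarith

lemma gg_sum (L J : ℕ) : ∑ l ∈ range (L + 1 + J), gg L l ≤ 12 := by
  rw [Finset.sum_range_add]
  have h1 : ∑ l ∈ range (L + 1), gg L l ≤ 2 := by
    have : ∀ l ∈ range (L + 1), gg L l = (1 / 2 : ℝ) ^ l := by
      intro l hl
      have := Finset.mem_range.mp hl
      unfold gg
      rw [if_pos (by omega), e2_neg, e2_nat, one_div, inv_pow]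
    rw [Finset.sum_congr rfl this]
    refine (geom_le (1 / 2) (by norm_num) (by norm_num) _).trans (by norm_num)
  have h2 : ∑ j ∈ range J, gg L (L + 1 + j) ≤ 10 := by
    have : ∀ j ∈ range J, gg L (L + 1 + j) = (9 / 10 : ℝ) ^ j := by
      intro j _
      unfold gg
      rw [if_neg (by omega), show L + 1 + j - (L + 1) = j by omega]
    rw [Finset.sum_congr rfl this]
    refine (geom_le (9 / 10) (by norm_num) (by norm_num) _).trans (by norm_num)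
  linarith

lemma Wc_eight (s : ℕ) : 8 ≤ Wc s := by
  unfold Wc
  calc 8 = 2 ^ 3 := by norm_num
    _ ≤ _ := Nat.pow_le_pow_right (by norm_num) (by omega)

/-! numerics of the exponents -/

lemma nq1 (l : ℕ) : 2 * (e2 (th (l + 1) + 36 - ((l + 1 : ℕ) : ℝ) ^ 2 / 2) * 1) ≤
    e2 660 * e2 (-(l : ℝ)) := by
  have h2 : (2 : ℝ) * (e2 (th (l + 1) + 36 - ((l + 1 : ℕ) : ℝ) ^ 2 / 2) * 1) =
      e2 (1 + (th (l + 1) + 36 - ((l + 1 : ℕ) : ℝ) ^ 2 / 2)) := by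
    rw [e2_add 1, e2_one, mul_one]
  rw [h2, ← e2_add]
  refine e2_mono ?_
  unfold th
  push_cast
  nlinarith [sq_nonneg ((l : ℝ) - 42)]

lemma nq0 : 2 * (e2 (th 0 + 36 - ((0 : ℕ) : ℝ) ^ 2 / 2) * 1) ≤ e2 660 := by
  have h2 : (2 : ℝ) * (e2 (th 0 + 36 - ((0 : ℕ) : ℝ) ^ 2 / 2) * 1) =
      e2 (1 + (th 0 + 36 - ((0 : ℕ) : ℝ) ^ 2 / 2)) := by
    rw [e2_add 1, e2_one, mul_one]
  rw [h2]
  refine e2_mono ?_
  unfold th
  push_cast
  norm_num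

lemma nq3 (L : ℕ) : 2 * (e2 (Th L + 36 - ((L + 1 : ℕ) : ℝ) ^ 2 / 2) * 1) ≤
    e2 660 * e2 (-(L : ℝ)) := by
  have h2 : (2 : ℝ) * (e2 (Th L + 36 - ((L + 1 : ℕ) : ℝ) ^ 2 / 2) * 1) =
      e2 (1 + (Th L + 36 - ((L + 1 : ℕ) : ℝ) ^ 2 / 2)) := by
    rw [e2_add 1, e2_one, mul_one]
  rw [h2, ← e2_add]
  refine e2_mono ?_
  unfold Th
  push_cast
  nlinarith [sq_nonneg ((L : ℝ) - 42)]

lemma nq4 (L : ℕ) : 2 * e2 ((Th L + 7 + L) + 36 - ((L : ℝ) + 1) ^ 2 / 2) ≤ e2 660 := by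
  have h2 : (2 : ℝ) * e2 ((Th L + 7 + L) + 36 - ((L : ℝ) + 1) ^ 2 / 2) =
      e2 (1 + ((Th L + 7 + L) + 36 - ((L : ℝ) + 1) ^ 2 / 2)) := by
    rw [e2_add 1, e2_one]
  rw [h2]
  refine e2_mono ?_
  unfold Th
  nlinarith [sq_nonneg ((L : ℝ) - 42)]

lemma nq2 (l : ℕ) : e2 (th l + 36 + ((l : ℝ) + 1) ^ 2 / 2) * 1 ≤
    e2 660 * e2 (-(l : ℝ)) / (4 * e2 (-(l : ℝ) ^ 2)) := by
  rw [le_div_iff₀ (mul_pos (by norm_num) (e2_pos _)), mul_one]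
  have h2 : e2 (th l + 36 + ((l : ℝ) + 1) ^ 2 / 2) * (4 * e2 (-(l : ℝ) ^ 2)) =
      e2 (th l + 36 + ((l : ℝ) + 1) ^ 2 / 2 + 2 + -(l : ℝ) ^ 2) := by
    rw [e2_add _ (-(l : ℝ) ^ 2), e2_add _ 2, e2_two]; ring
  rw [h2, ← e2_add]
  refine e2_mono ?_
  unfold th
  nlinarith [sq_nonneg ((l : ℝ) - 42)]

lemma nq5 (L : ℕ) : e2 (Th L + 36 + ((L : ℝ) + 1) ^ 2 / 2) * (4 * e2 (-((L : ℝ) + 1) ^ 2)) ≤
    e2 660 := by
  have h2 : e2 (Th L + 36 + ((L : ℝ) + 1) ^ 2 / 2) * (4 * e2 (-((L : ℝ) + 1) ^ 2)) =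
      e2 (Th L + 36 + ((L : ℝ) + 1) ^ 2 / 2 + 2 + -((L : ℝ) + 1) ^ 2) := by
    rw [e2_add _ (-((L : ℝ) + 1) ^ 2), e2_add _ 2, e2_two]; ring
  rw [h2]
  refine e2_mono ?_
  unfold Th
  nlinarith [sq_nonneg ((L : ℝ) - 42)]

lemma nq6 (L : ℕ) (hL : 1 ≤ L) : e2 (Th L) ≤ 1 / 2 * e2 (16 * ((L : ℝ) + 1) ^ 2) := by
  have h1 : (1 : ℝ) / 2 * e2 (16 * ((L : ℝ) + 1) ^ 2) = e2 (16 * ((L : ℝ) + 1) ^ 2 + -1) := by
    rw [e2_add, e2_neg, e2_one]; ring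
  rw [h1]
  refine e2_mono ?_
  unfold Th
  have : (1 : ℝ) ≤ L := by exact_mod_cast hL
  nlinarith

lemma log_le (L : ℕ) (hp : p < Wc (L + 1)) : 2 * (1 + Real.log p) ≤ e2 (7 + L) := by
  have hp0 : (0 : ℝ) < p := by exact_mod_cast (Fact.out : p.Prime).pos
  have h1 : (p : ℝ) ≤ e2 (16 * (2 * ((L + 1 : ℕ) : ℝ) + 1)) := by
    rw [← Wc_real]; exact_mod_cast hp.le
  have h2 : Real.log p ≤ 16 * (2 * ((L + 1 : ℕ) : ℝ) + 1) := by
    calc Real.log p ≤ Real.log (e2 (16 * (2 * ((L + 1 : ℕ) : ℝ) + 1))) :=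
          Real.log_le_log hp0 h1
      _ = 16 * (2 * ((L + 1 : ℕ) : ℝ) + 1) * Real.log 2 := by
          unfold e2; rw [Real.log_rpow (by norm_num)]
      _ ≤ 16 * (2 * ((L + 1 : ℕ) : ℝ) + 1) * 1 := by
          refine mul_le_mul_of_nonneg_left ?_ (by positivity)
          have := Real.log_two_lt_d9
          linarith
      _ = _ := mul_one _
  have h3 : (L : ℝ) + 1 ≤ e2 L := by
    rw [e2_nat]
    have : L + 1 ≤ 2 ^ L := Nat.lt_two_pow_self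
    exact_mod_cast this
  have h7 : e2 7 = 128 := by
    have := e2_nat 7
    norm_num at this
    exact this
  rw [e2_add, h7]
  push_cast at h2
  have : (0 : ℝ) ≤ L := Nat.cast_nonneg _
  linarith

end Pool.Agent.W862.Kom
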