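import Pool.Agent.W862.Kom.Theta

/-!
# The majorant with explicit weights
-/

namespace Pool.Agent.W862.Kom

open Finset

variable {p : ℕ} [Fact p.Prime]

/-- existence of a spread majorant of total size `E` -/
def MajE {n : Type*} [Fintype n] [DecidableEq n] (F : (n → ZMod p) → ℂ) (E : ℝ) (Q : ℕ)
    (P : ℝ) : Prop :=
  ∃ (I : Type) (_ : Fintype I) (Z : ℝ) (v : I → Fin Q → (n → ZMod p))
    (G : I → (n → ZMod p) → ℝ), Fintype.card I * Z ≤ E ∧ Maj F I Q Z P v G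

lemma sum_Icc_abs (g : ℕ → ℝ) (D : ℕ) :
    ∑ m ∈ Finset.Icc (-(D : ℤ)) D, g m.natAbs = g 0 + 2 * ∑ j ∈ range D, g (j + 1) := by
  induction D with
  | zero => simp
  | succ D ih =>
    have h1 : Finset.Icc (-((D + 1 : ℕ) : ℤ)) ((D + 1 : ℕ) : ℤ) =
        insert ((D + 1 : ℕ) : ℤ) (insert (-((D + 1 : ℕ) : ℤ)) (Finset.Icc (-(D : ℤ)) D)) := by
      ext m
      simp only [Finset.mem_insert, Finset.mem_Icc]
      omega
    have h2 : -((D + 1 : ℕ) : ℤ) ∉ Finset.Icc (-(D : ℤ)) (D : ℤ) := by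
      rw [Finset.mem_Icc]; omega
    have h3 : ((D + 1 : ℕ) : ℤ) ∉ insert (-((D + 1 : ℕ) : ℤ)) (Finset.Icc (-(D : ℤ)) (D : ℤ)) := by
      rw [Finset.mem_insert, Finset.mem_Icc]; omega
    rw [h1, Finset.sum_insert h3, Finset.sum_insert h2, ih, Finset.sum_range_succ, Int.natAbs_neg,
      Int.natAbs_natCast]
    ring

/-- the weight `h` -/
noncomputable def hw (X : ℝ) (q : ℕ) (ε : ℝ) (m : ℤ) : ℝ :=
  X * ((q : ℝ) + (m.natAbs : ℝ)) ^ (-(1 + ε))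

lemma hw_nonneg (X : ℝ) (hX : 0 ≤ X) (q : ℕ) (ε : ℝ) (m : ℤ) : 0 ≤ hw X q ε m := by
  unfold hw; positivity

lemma sum_hw_le (X : ℝ) (hX : 0 ≤ X) (q : ℕ) (hq : 1 ≤ q) (ε : ℝ) (hε : 0 < ε) (D : ℕ) :
    ∑ m ∈ Finset.Icc (-(D : ℤ)) D, hw X q ε m ≤ X * (1 + 2 / ε) := by
  unfold hw
  rw [← Finset.mul_sum]
  refine mul_le_mul_of_nonneg_left ?_ hX
  rw [sum_Icc_abs (fun v => ((q : ℝ) + (v : ℝ)) ^ (-(1 + ε)))]
  have hq' : (1 : ℝ) ≤ q := by exact_mod_cast hq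
  have h1 : ∀ v : ℕ, ((q : ℝ) + (v : ℝ)) ^ (-(1 + ε)) ≤ (1 + (v : ℝ)) ^ (-(1 + ε)) := by
    intro v
    exact Real.rpow_le_rpow_of_nonpos (by positivity) (by linarith) (by linarith)
  have h2 := h1 0
  have h3 : ∑ j ∈ range D, ((q : ℝ) + ((j + 1 : ℕ) : ℝ)) ^ (-(1 + ε)) ≤ 1 / ε :=
    (Finset.sum_le_sum fun j _ => h1 (j + 1)).trans (sum_rpow_le ε hε D)
  have h4 : (1 + ((0 : ℕ) : ℝ)) ^ (-(1 + ε)) = 1 := by simp
  rw [h4] at h2
  have h5 : 2 / ε = 2 * (1 / ε) := by ring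
  rw [h5]
  exact add_le_add h2 (mul_le_mul_of_nonneg_left h3 (by norm_num))

/-- the size of the coefficients against the weight -/
lemma beta_le (C β ε : ℝ) (q q' : ℝ) (u : ℝ) (hq : 1 ≤ q) (hqq : q ≤ q') (hu : 0 ≤ u)
    (hβ : 0 ≤ β) (hε0 : 0 < ε) (hε1 : ε ≤ 1 / 4) (h1 : β * q ≤ C) (h2 : u * β ≤ C)
    (h3 : u ^ 2 * β ≤ C * q') :
    β * (q + u) ^ (1 + 2 * ε) ≤ 4 * C * q' ^ (2 * ε) := by
  have hq0 : 0 < q := by linarith
  have hC : 0 ≤ C := le_trans (by positivity) h1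
  have hbase : ∀ z : ℝ, 0 < z → (2 * z) ^ (1 + 2 * ε) ≤ 4 * (z * z ^ (2 * ε)) := by
    intro z hz
    rw [Real.mul_rpow (by norm_num) hz.le, Real.rpow_add hz, Real.rpow_one]
    refine mul_le_mul_of_nonneg_right ?_ (by positivity)
    calc (2 : ℝ) ^ (1 + 2 * ε) ≤ 2 ^ (2 : ℝ) :=
          Real.rpow_le_rpow_of_exponent_le (by norm_num) (by linarith)
      _ = 4 := by norm_num
  rcases le_or_gt u q with hc | hc
  · have e1 : (q + u) ^ (1 + 2 * ε) ≤ (2 * q) ^ (1 + 2 * ε) :=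
      Real.rpow_le_rpow (by positivity) (by linarith) (by linarith)
    have e2 : q ^ (2 * ε) ≤ q' ^ (2 * ε) := Real.rpow_le_rpow hq0.le hqq (by linarith)
    calc β * (q + u) ^ (1 + 2 * ε) ≤ β * (4 * (q * q ^ (2 * ε))) :=
          mul_le_mul_of_nonneg_left (e1.trans (hbase q hq0)) hβ
      _ = 4 * (β * q) * q ^ (2 * ε) := by ring
      _ ≤ 4 * C * q' ^ (2 * ε) := by
          refine mul_le_mul (by linarith) e2 (by positivity) (by positivity)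
  · have hu0 : 0 < u := by linarith
    have e1 : (q + u) ^ (1 + 2 * ε) ≤ 4 * (u * u ^ (2 * ε)) := by
      refine le_trans (Real.rpow_le_rpow (by positivity) (by linarith) (by linarith)) (hbase u hu0)
    rcases le_or_gt u q' with hc' | hc'
    · have e2 : u ^ (2 * ε) ≤ q' ^ (2 * ε) := Real.rpow_le_rpow hu0.le hc' (by linarith)
      calc β * (q + u) ^ (1 + 2 * ε) ≤ β * (4 * (u * u ^ (2 * ε))) :=
            mul_le_mul_of_nonneg_left e1 hβ
        _ = 4 * (u * β) * u ^ (2 * ε) := by ring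
        _ ≤ 4 * C * q' ^ (2 * ε) := by
            refine mul_le_mul (by linarith) e2 (by positivity) (by positivity)
    · have hq'0 : 0 < q' := by linarith
      have e2 : q' * u ^ (2 * ε) ≤ u * q' ^ (2 * ε) := by
        -- `u^(2ε-1) ≤ q'^(2ε-1)`
        have e3 : u ^ (2 * ε - 1) ≤ q' ^ (2 * ε - 1) :=
          Real.rpow_le_rpow_of_nonpos hq'0 hc'.le (by linarith)
        have e4 : u ^ (2 * ε) = u * u ^ (2 * ε - 1) := by
          rw [Real.rpow_sub_one hu0.ne']; field_simp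
        have e5 : q' ^ (2 * ε) = q' * q' ^ (2 * ε - 1) := by
          rw [Real.rpow_sub_one hq'0.ne']; field_simp
        rw [e4, e5]
        have := mul_le_mul_of_nonneg_left e3 (by positivity : 0 ≤ u * q')
        linarith
      have e6 : u * (β * (q + u) ^ (1 + 2 * ε)) ≤ u * (4 * C * q' ^ (2 * ε)) := by
        calc u * (β * (q + u) ^ (1 + 2 * ε)) ≤ u * (β * (4 * (u * u ^ (2 * ε)))) :=
              mul_le_mul_of_nonneg_left (mul_le_mul_of_nonneg_left e1 hβ) hu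
          _ = 4 * (u ^ 2 * β) * u ^ (2 * ε) := by ring
          _ ≤ 4 * (C * q') * u ^ (2 * ε) := by
              refine mul_le_mul_of_nonneg_right (by linarith) (by positivity)
          _ = 4 * C * (q' * u ^ (2 * ε)) := by ring
          _ ≤ 4 * C * (u * q' ^ (2 * ε)) := mul_le_mul_of_nonneg_left e2 (by positivity)
          _ = _ := by ring
      exact le_of_mul_le_mul_left e6 hu0

/-- the constant of level `l` -/
noncomputable def EE (C ε : ℝ) (l : ℕ) (q' : ℝ) : ℝ :=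
  3 * 2 ^ l * (36 * C * 720 ^ l * q' ^ (2 * ε) * (1 + 2 / ε) * (1 + 2 / (ε / (l + 1))) ^ l)

/-- the sign vectors attached to a choice function -/
def sv {n : ℕ} (T : ℕ → Finset ℤ) (ι : ↥(Fintype.piFinset fun s : Fin n => T s.1)) (s : ℕ) : ℤ :=
  if h : s < n then ι.1 ⟨s, h⟩ else 1

theorem majE_main {Q W : ℕ → ℕ} (hR : Radix Q W) (ε : ℝ) (hε0 : 0 < ε)
    (hε1 : ε ≤ 1 / 4) (n l a : ℕ) (hn : 0 < n) (han : a ≤ n) (hal : a ≤ l + 1)
    (T : ℕ → Finset ℤ) (hT0 : T 0 = {1}) (hTabs : ∀ s, ∀ τ ∈ T s, |τ| ≤ 1)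
    (hTa : ∀ s < a, ∀ τ ∈ T s, τ = 1 ∨ τ = -1)
    (hTc : ∏ s : Fin n, (T s.1).card ≤ 3 * 2 ^ l)
    (hWp : ∀ s < a, W s ≤ p) (Wm : ℕ) (hW1 : 1 ≤ Wm) (hWm : ∀ s < a, W s ≤ Wm)
    [NeZero (DD p Q n)] (F : (Fin n → ZMod p) → ℂ) (β : ZMod (DD p Q n) → ℝ)
    (hβ : ∀ κ, 0 ≤ β κ) (C : ℝ) (hC : 0 ≤ C) (q' : ℝ) (hqq : (Q a : ℝ) ≤ q')
    (h1 : ∀ κ, β κ * Q a ≤ C)
    (h2 : ∀ κ, |(κ.valMinAbs : ℝ)| * β κ ≤ C)
    (h3 : ∀ κ, |(κ.valMinAbs : ℝ)| ^ 2 * β κ ≤ C * q')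
    (hF : ∀ μ, ‖ft F μ‖ ≤ ∑ κ : ZMod (DD p Q n), β κ *
      ((80 * (1 + |(κ.valMinAbs : ℝ)|) ^ (ε / (l + 1))) ^ l *
        ∏ s : Fin n, tb Q (ε / (l + 1)) l (T s.1) κ.valMinAbs s.1 (μ s))) :
    MajE F (EE C ε l q') (Q a) ((Wm : ℝ) ^ 2) := by
  classical
  set η := ε / ((l : ℝ) + 1) with hη
  have hl0 : (0 : ℝ) ≤ l := Nat.cast_nonneg _
  have hη0 : 0 < η := by rw [hη]; positivity
  have hη1 : η ≤ 1 := by
    rw [hη, div_le_one (by positivity)]; linarith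
  have hηl : η * l ≤ ε := by
    rw [hη, div_mul_eq_mul_div, div_le_iff₀ (by positivity)]
    nlinarith
  have hq1 : 1 ≤ Q a := hR.Qpos a
  have hq1' : (1 : ℝ) ≤ Q a := by exact_mod_cast hq1
  set X : ℝ := 36 * C * 720 ^ l * q' ^ (2 * ε) with hX
  have hq'0 : 0 < q' := by linarith
  have hX0 : 0 ≤ X := by rw [hX]; positivity
  set w : ZMod (DD p Q n) → ℝ := fun κ =>
    β κ * (80 * (1 + |(κ.valMinAbs : ℝ)|) ^ η) ^ l with hw'
  have hw0 : ∀ κ, 0 ≤ w κ := fun κ => mul_nonneg (hβ κ) (by positivity)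
  have hnat : ∀ z : ℤ, (z.natAbs : ℝ) = |(z : ℝ)| := by
    intro z; rw [Nat.cast_natAbs]; push_cast; rfl
  -- comparison with `h`
  have hwh : ∀ (κ : ZMod (DD p Q n)) (i j : ℕ), i < Q a → j < Q a →
      w κ * 9 ^ l ≤ hw X (Q a) ε (κ.valMinAbs - i - j) := by
    intro κ i j hi hj
    set u : ℝ := |(κ.valMinAbs : ℝ)| with hu
    have hu0 : 0 ≤ u := abs_nonneg _
    have e1 : (80 * (1 + u) ^ η) ^ l ≤ 80 ^ l * ((Q a : ℝ) + u) ^ ε := by
      rw [mul_pow]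
      refine mul_le_mul_of_nonneg_left ?_ (by positivity)
      rw [← Real.rpow_natCast, ← Real.rpow_mul (by positivity)]
      calc (1 + u) ^ (η * l) ≤ (1 + u) ^ ε :=
            Real.rpow_le_rpow_of_exponent_le (by linarith) hηl
        _ ≤ _ := Real.rpow_le_rpow (by positivity) (by linarith) hε0.le
    have e2 := beta_le C (β κ) ε (Q a) q' u hq1' hqq hu0 (hβ κ) hε0 hε1 (h1 κ) (h2 κ) (h3 κ)
    have hQu : 0 < (Q a : ℝ) + u := by positivity
    have e3 : (Q a : ℝ) + ((κ.valMinAbs - (i : ℤ) - (j : ℤ)).natAbs : ℝ) ≤ 3 * ((Q a : ℝ) + u) := by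
      rw [hnat]
      push_cast
      have hi' : (i : ℝ) ≤ Q a := by exact_mod_cast hi.le
      have hj' : (j : ℝ) ≤ Q a := by exact_mod_cast hj.le
      have hi0 : (0 : ℝ) ≤ i := Nat.cast_nonneg _
      have hj0 : (0 : ℝ) ≤ j := Nat.cast_nonneg _
      have : |(κ.valMinAbs : ℝ) - i - j| ≤ u + i + j := by
        rw [hu]
        calc |(κ.valMinAbs : ℝ) - i - j| ≤ |(κ.valMinAbs : ℝ) - i| + |(j : ℝ)| := abs_sub _ _
          _ ≤ |(κ.valMinAbs : ℝ)| + |(i : ℝ)| + |(j : ℝ)| := by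
              have := abs_sub (κ.valMinAbs : ℝ) (i : ℝ)
              linarith
          _ = _ := by rw [abs_of_nonneg hi0, abs_of_nonneg hj0]
      linarith
    have e4 : (3 * ((Q a : ℝ) + u)) ^ (-(1 + ε)) ≤
        ((Q a : ℝ) + ((κ.valMinAbs - (i : ℤ) - (j : ℤ)).natAbs : ℝ)) ^ (-(1 + ε)) :=
      Real.rpow_le_rpow_of_nonpos (by positivity) e3 (by linarith)
    have e5 : (1 / 9 : ℝ) ≤ 3 ^ (-(1 + ε)) := by
      have := rpow_ge_sq (x := 3) (η := ε) (by norm_num) (by linarith)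
      norm_num at this ⊢
      linarith
    rw [Real.mul_rpow (by norm_num) hQu.le] at e4
    have e6 : (1 / 9) * ((Q a : ℝ) + u) ^ (-(1 + ε)) ≤
        ((Q a : ℝ) + ((κ.valMinAbs - (i : ℤ) - (j : ℤ)).natAbs : ℝ)) ^ (-(1 + ε)) :=
      (mul_le_mul_of_nonneg_right e5 (by positivity)).trans e4
    have e7 : w κ * 9 ^ l ≤ 720 ^ l * (β κ * ((Q a : ℝ) + u) ^ ε) := by
      rw [hw']
      simp only []
      calc β κ * (80 * (1 + u) ^ η) ^ l * 9 ^ l ≤ β κ * (80 ^ l * ((Q a : ℝ) + u) ^ ε) * 9 ^ l :=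
            mul_le_mul_of_nonneg_right (mul_le_mul_of_nonneg_left e1 (hβ κ)) (by positivity)
        _ = (80 ^ l * 9 ^ l) * (β κ * ((Q a : ℝ) + u) ^ ε) := by ring
        _ = _ := by rw [← mul_pow]; norm_num
    have e8 : β κ * ((Q a : ℝ) + u) ^ ε =
        (β κ * ((Q a : ℝ) + u) ^ (1 + 2 * ε)) * ((Q a : ℝ) + u) ^ (-(1 + ε)) := by
      rw [mul_assoc, ← Real.rpow_add hQu]; congr 2; ring
    have hpos : 0 < ((Q a : ℝ) + u) ^ (-(1 + ε)) := by positivity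
    unfold hw
    calc w κ * 9 ^ l ≤ 720 ^ l * (β κ * ((Q a : ℝ) + u) ^ ε) := e7
      _ = 720 ^ l * ((β κ * ((Q a : ℝ) + u) ^ (1 + 2 * ε)) * ((Q a : ℝ) + u) ^ (-(1 + ε))) := by
          rw [e8]
      _ ≤ 720 ^ l * ((4 * C * q' ^ (2 * ε)) * ((Q a : ℝ) + u) ^ (-(1 + ε))) :=
          mul_le_mul_of_nonneg_left (mul_le_mul_of_nonneg_right e2 hpos.le) (by positivity)
      _ = X * ((1 / 9) * ((Q a : ℝ) + u) ^ (-(1 + ε))) := by rw [hX]; ring
      _ ≤ _ := mul_le_mul_of_nonneg_left e6 hX0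
  have hHs := sum_hw_le X hX0 (Q a) hq1 ε hε0 (DD p Q n)
  have hD : 4 * Q a ≤ DD p Q n := by
    unfold DD
    have hp1 := (Fact.out : p.Prime).pos
    have := hR.mono han
    calc 4 * Q a ≤ 4 * 1 * Q n := by omega
      _ ≤ 4 * p * Q n := Nat.mul_le_mul_right _ (Nat.mul_le_mul_left _ hp1)
  have hmem : ∀ (ι : ↥(Fintype.piFinset fun s : Fin n => T s.1)) (s : ℕ) (hs : s < n),
      sv T ι s ∈ T s := by
    intro ι s hs
    unfold sv
    rw [dif_pos hs]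
    exact Fintype.mem_piFinset.mp ι.2 ⟨s, hs⟩
  have hM := maj_lemma hR η hη0 hη1 n l a han hal (DD p Q n) hD
    (I := ↥(Fintype.piFinset fun s : Fin n => T s.1)) (fun ι => sv T ι)
    (fun ι => by
      have := hmem ι 0 hn
      rw [hT0, Finset.mem_singleton] at this; exact this)
    (fun ι s => by
      by_cases hs : s < n
      · exact hTabs s _ (hmem ι s hs)
      · unfold sv; rw [dif_neg hs]; norm_num)
    (fun ι s hs => hTa s hs _ (hmem ι s (by omega))) hWp Wm hW1 hWm F w hw0 (hw X (Q a) ε)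
    (hw_nonneg X hX0 (Q a) ε) hwh (X * (1 + 2 / ε)) hHs (by
      intro μ
      refine (hF μ).trans (le_of_eq ?_)
      rw [Finset.sum_comm]
      refine Finset.sum_congr rfl fun κ _ => ?_
      rw [← mul_assoc, ← Finset.mul_sum]
      congr 1
      have h4 := Finset.prod_univ_sum (fun s : Fin n => T s.1)
        (fun s τ => gf Q η l (fun _ => τ) κ.valMinAbs s.1 (μ s))
      unfold tb
      rw [h4, ← Finset.sum_coe_sort]
      refine Finset.sum_congr rfl fun ι _ => Finset.prod_congr rfl fun s _ => ?_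
      rw [gf_const Q η l (sv T ι)]
      have : sv T ι s.1 = ι.1 s := by unfold sv; rw [dif_pos s.2]
      rw [this])
  refine ⟨↥(Fintype.piFinset fun s : Fin n => T s.1), inferInstance, _, _, _, ?_, hM⟩
  have hcard : (Fintype.card ↥(Fintype.piFinset fun s : Fin n => T s.1) : ℝ) ≤ 3 * 2 ^ l := by
    rw [Fintype.card_coe, Fintype.card_piFinset]
    exact_mod_cast hTc
  unfold EE
  rw [← hη]
  have hpos : 0 ≤ X * (1 + 2 / ε) * (1 + 2 / η) ^ l := by positivity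
  calc _ ≤ (3 * 2 ^ l) * (X * (1 + 2 / ε) * (1 + 2 / η) ^ l) :=
        mul_le_mul_of_nonneg_right hcard hpos
    _ = _ := by rw [hX]

end Pool.Agent.W862.Kom
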