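import Pool.Agent.W862.Kom.Nu

/-!
# Trapezoidal waves modulo `N`, `4 ∣ N`
-/

namespace Pool.Agent.W862.Kom

open Finset

/-- clamp to `[-1, 1]` -/
noncomputable def cl (u : ℝ) : ℝ := max (-1) (min 1 u)

lemma cl_abs (u : ℝ) : |cl u| ≤ 1 := by
  unfold cl
  rw [abs_le]
  exact ⟨le_max_left _ _, max_le (by norm_num) (min_le_left _ _)⟩

lemma cl_neg (u : ℝ) : cl (-u) = -cl u := by
  unfold cl
  rcases le_total u 1 with h1 | h1 <;> rcases le_total (-1) u with h2 | h2
  · rw [min_eq_right (by linarith : -u ≤ 1), max_eq_right (by linarith), min_eq_right h1,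
      max_eq_right h2]
  · rw [min_eq_left (by linarith : 1 ≤ -u), max_eq_right (by norm_num), min_eq_right h1,
      max_eq_left h2]; ring
  · rw [min_eq_right (by linarith : -u ≤ 1), max_eq_left (by linarith), min_eq_left h1,
      max_eq_right (by norm_num)]
  · linarith

lemma cl_ge (u : ℝ) (h : 1 ≤ u) : cl u = 1 := by
  unfold cl; rw [min_eq_left h, max_eq_right (by norm_num)]

lemma cl_le (u : ℝ) (h : u ≤ -1) : cl u = -1 := by
  unfold cl; rw [min_eq_right (by linarith), max_eq_left h]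

lemma cl_mid (u : ℝ) (h1 : -1 ≤ u) (h2 : u ≤ 1) : cl u = u := by
  unfold cl; rw [min_eq_right h2, max_eq_right h1]

lemma cl_lip (u v : ℝ) : |cl u - cl v| ≤ |u - v| := by
  unfold cl
  have h1 : |max (-1) (min 1 u) - max (-1) (min 1 v)| ≤ |min 1 u - min 1 v| := by
    have := abs_max_sub_max_le_abs (min 1 u) (min 1 v) (-1)
    rwa [max_comm (min 1 u), max_comm (min 1 v)] at this
  have h2 : |min 1 u - min 1 v| ≤ |u - v| := by
    have := abs_min_sub_min_le_max 1 u 1 v
    simpa using this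
  exact h1.trans h2

lemma cl_nonneg (u : ℝ) (h : 0 ≤ u) : 0 ≤ cl u := by
  unfold cl; exact le_max_of_le_right (le_min (by norm_num) h)

section
variable {N : ℕ} [NeZero N]

/-- the trapezoidal wave -/
noncomputable def ph (R : ℕ) (x : ZMod N) : ℝ := cl (tz x / R)

lemma ph_abs (R : ℕ) (x : ZMod N) : |ph R x| ≤ 1 := cl_abs _

lemma ph_neg (R : ℕ) (x : ZMod N) : ph R (-x) = - ph R x := by
  unfold ph; rw [tz_neg, ← cl_neg]; congr 1; push_cast; ring

lemma ph_pos (R : ℕ) (hR : 0 < R) (x : ZMod N) (h : (R : ℤ) ≤ tz x) : ph R x = 1 := by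
  unfold ph
  refine cl_ge _ ?_
  have hR' : (0 : ℝ) < R := by exact_mod_cast hR
  rw [le_div_iff₀ hR', one_mul]; exact_mod_cast h

lemma ph_neg' (R : ℕ) (hR : 0 < R) (x : ZMod N) (h : tz x ≤ -(R : ℤ)) : ph R x = -1 := by
  unfold ph
  refine cl_le _ ?_
  have hR' : (0 : ℝ) < R := by exact_mod_cast hR
  rw [div_le_iff₀ hR']
  have : (tz x : ℝ) ≤ -(R : ℝ) := by exact_mod_cast h
  linarith

lemma ph_lip (R : ℕ) (hR : 0 < R) (x y : ZMod N) : |ph R x - ph R y| ≤ |(tz x : ℝ) - tz y| / R := by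
  have hR' : (0 : ℝ) < R := by exact_mod_cast hR
  unfold ph
  refine (cl_lip _ _).trans (le_of_eq ?_)
  rw [← sub_div, abs_div, abs_of_pos hR']

/-- evenness -/
lemma tz_even (h4 : 2 ∣ N) (x : ZMod N) : 2 ∣ tz x := by
  obtain ⟨q, hq⟩ := h4
  unfold tz tt
  split_ifs <;> omega

lemma stp_pm (h4 : 4 ∣ N) (x : ZMod N) : stp x = 2 ∨ stp x = -2 := by
  have hN := Nat.pos_of_ne_zero (NeZero.ne N)
  obtain ⟨q, hq⟩ := h4
  have h2 := ZMod.val_lt x
  unfold stp tz tt
  rw [val_succ (by omega) x]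
  generalize x.val = v at *
  by_cases c1 : v + 1 = N
  · rw [if_pos c1]; split_ifs <;> omega
  · rw [if_neg c1]; split_ifs <;> omega

lemma stp_same (h4 : 4 ∣ N) (x : ZMod N) (h : 2 * |tz (x + 1)| < N) : stp (x + 1) = stp x := by
  have hN := Nat.pos_of_ne_zero (NeZero.ne N)
  obtain ⟨q, hq⟩ := h4
  have h2 := ZMod.val_lt x
  have h3 : -(N : ℤ) < 2 * tz (x + 1) ∧ 2 * tz (x + 1) < N := by
    rcases abs_cases (tz (x + 1)) with h | h <;> omega
  clear h
  unfold stp tz tt at *
  rw [val_succ (by omega) (x + 1), val_succ (by omega) x] at *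
  generalize x.val = v at *
  by_cases c1 : v + 1 = N
  · rw [if_pos c1] at *; split_ifs at * <;> omega
  · rw [if_neg c1] at *
    by_cases c2 : v + 1 + 1 = N
    · rw [if_pos c2]; split_ifs at * <;> omega
    · rw [if_neg c2]; split_ifs at * <;> omega

/-- points where the wave is small -/
def sml (N : ℕ) [NeZero N] (R : ℕ) : Finset (ZMod N) := univ.filter fun x => |tz x| ≤ (R : ℤ)

lemma card_filter_valN (s : Finset ℕ) :
    (univ.filter fun x : ZMod N => x.val ∈ s).card ≤ s.card := by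
  refine Finset.card_le_card_of_injOn (fun x => x.val) ?_ ?_
  · intro x hx
    have hx' := Finset.mem_coe.mp hx
    exact Finset.mem_coe.mpr (Finset.mem_filter.mp hx').2
  · intro x _ y _ h
    exact ZMod.val_injective N h

lemma card_sml (R : ℕ) (h2 : 2 ∣ N) (hR : 2 ∣ R) : (sml N R).card ≤ 2 * R + 2 := by
  obtain ⟨a, ha⟩ := h2
  obtain ⟨r, hr⟩ := hR
  have h1 : sml N R ⊆ univ.filter fun x : ZMod N => x.val ∈
      (range (r + 1) ∪ Finset.Icc (a - r) (a + r) ∪ Finset.Ico (N - r) N) := by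
    intro x hx
    have h3 := (Finset.mem_filter.mp hx).2
    rw [Finset.mem_filter]
    refine ⟨Finset.mem_univ x, ?_⟩
    simp only [Finset.mem_union, Finset.mem_range, Finset.mem_Icc, Finset.mem_Ico]
    have h4 := ZMod.val_lt x
    have h5 : -(R : ℤ) ≤ tz x ∧ tz x ≤ R := abs_le.mp h3
    unfold tz tt at h5
    generalize x.val = v at *
    split_ifs at h5 <;> omega
  refine (Finset.card_le_card h1).trans ((card_filter_valN _).trans ?_)
  refine (Finset.card_union_le _ _).trans ?_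
  refine (Nat.add_le_add_right (Finset.card_union_le _ _) _).trans ?_
  rw [Finset.card_range, Nat.card_Icc, Nat.card_Ico]
  omega

lemma card_eqR (R : ℕ) (h2 : 2 ∣ N) (hR : 2 ∣ R) :
    (univ.filter fun x : ZMod N => |tz x| = (R : ℤ)).card ≤ 4 := by
  obtain ⟨a, ha⟩ := h2
  obtain ⟨r, hr⟩ := hR
  have h1 : (univ.filter fun x : ZMod N => |tz x| = (R : ℤ)) ⊆
      univ.filter fun x : ZMod N => x.val ∈ ({r, a - r, a + r, N - r} : Finset ℕ) := by
    intro x hx
    have h3 := (Finset.mem_filter.mp hx).2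
    rw [Finset.mem_filter]
    refine ⟨Finset.mem_univ x, ?_⟩
    simp only [Finset.mem_insert, Finset.mem_singleton]
    have h4 := ZMod.val_lt x
    have h5 : tz x = R ∨ tz x = -R := by
      rcases abs_cases (tz x) with h | h <;> omega
    unfold tz tt at h5
    generalize x.val = v at *
    split_ifs at h5 <;> omega
  refine (Finset.card_le_card h1).trans ((card_filter_valN _).trans ?_)
  exact Finset.card_le_four

/-- lower bound for the symbol of the difference operator -/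
lemma chN_sub_one_ge (κ : ZMod N) : 4 * |(κ.valMinAbs : ℝ)| / N ≤ ‖chN κ - 1‖ := by
  have hN0 : (0 : ℝ) < N := Npos (N := N)
  have h1 : chN κ = ex (κ.valMinAbs / N) := by
    have : κ = ((κ.valMinAbs : ℤ) : ZMod N) := (ZMod.coe_valMinAbs κ).symm
    conv_lhs => rw [this]
    rw [chN_coe]
  rw [h1]
  refine le_trans ?_ (four_nr_le _)
  have h2 : nr ((κ.valMinAbs : ℝ) / N) = |(κ.valMinAbs : ℝ)| / N := by
    unfold nr
    have h3 : |(κ.valMinAbs : ℝ) / N| ≤ |(1 : ℝ)| / 2 := by
      rw [abs_div, abs_of_pos hN0, abs_one, div_le_div_iff₀ hN0 (by norm_num)]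
      have h4 := ZMod.natAbs_valMinAbs_le κ
      have h5 : 2 * κ.valMinAbs.natAbs ≤ N := by omega
      have h6 : (κ.valMinAbs.natAbs : ℝ) = |(κ.valMinAbs : ℝ)| := by
        rw [Nat.cast_natAbs]; push_cast; rfl
      have h7 : (2 : ℝ) * |(κ.valMinAbs : ℝ)| ≤ N := by rw [← h6]; exact_mod_cast h5
      linarith
    rw [(AddCircle.norm_coe_eq_abs_iff (1 : ℝ) (by norm_num)).mpr h3, abs_div, abs_of_pos hN0]
  rw [h2]
  apply le_of_eq; ring

lemma fN_ph_le_one (R : ℕ) (κ : ZMod N) : ‖fN (cx (ph R)) κ‖ ≤ 1 := by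
  have hN0 : (0 : ℝ) < N := Npos (N := N)
  have h := norm_fN_le (cx (ph (N := N) R)) κ univ 1 (fun x hx => absurd (Finset.mem_univ x) hx)
    (fun x _ => by unfold cx; rw [Complex.norm_real]; exact ph_abs R x)
  rw [Finset.card_univ, ZMod.card, mul_one, div_self hN0.ne'] at h
  exact h

lemma fN_ph_zero (R : ℕ) : fN (cx (ph (N := N) R)) 0 = 0 := by
  unfold fN
  have h1 : ∑ x : ZMod N, cx (ph R) x * chN (-(0 * x)) = 0 := by
    have h2 : ∑ x : ZMod N, cx (ph R) x * chN (-(0 * x)) = ∑ x : ZMod N, cx (ph R) x := by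
      refine Finset.sum_congr rfl fun x _ => ?_
      rw [zero_mul, neg_zero, chN_zero, mul_one]
    rw [h2]
    have h3 : ∑ x : ZMod N, cx (ph R) x = ∑ x : ZMod N, cx (ph R) (-x) :=
      (Fintype.sum_equiv (Equiv.neg _) _ _ fun x => rfl).symm
    have h4 : ∑ x : ZMod N, cx (ph R) (-x) = - ∑ x : ZMod N, cx (ph R) x := by
      rw [← Finset.sum_neg_distrib]
      refine Finset.sum_congr rfl fun x _ => ?_
      unfold cx; rw [ph_neg]; push_cast; ring
    rw [h4] at h3
    have h5 : (2 : ℂ) * ∑ x : ZMod N, cx (ph R) x = 0 := by linear_combination h3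
    exact (mul_eq_zero.mp h5).resolve_left (by norm_num)
  rw [h1, mul_zero]

/-- first order decay -/
lemma fN_ph_first (R : ℕ) (hR : 0 < R) (h4 : 4 ∣ N) (h2R : 2 ∣ R) (κ : ZMod N) :
    |(κ.valMinAbs : ℝ)| * ‖fN (cx (ph R)) κ‖ ≤ 2 := by
  have hN0 : (0 : ℝ) < N := Npos (N := N)
  have hR0 : (0 : ℝ) < R := by exact_mod_cast hR
  have hR1 : (1 : ℝ) ≤ R := by exact_mod_cast hR
  have hN := Nat.pos_of_ne_zero (NeZero.ne N)
  have h2N : 2 ∣ N := dvd_trans (by norm_num) h4
  have h1 : fN (fun x => cx (ph R) (x + 1) - cx (ph R) x) κ = (chN κ - 1) * fN (cx (ph R)) κ := by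
    rw [fN_sub, fN_shift]; ring
  have h2 := norm_fN_le (fun x => cx (ph R) (x + 1) - cx (ph R) x) κ (sml N R) (2 / R) (by
    intro x hx
    have h3 : (R : ℤ) < |tz x| := by
      by_contra hc
      exact hx (Finset.mem_filter.mpr ⟨Finset.mem_univ x, not_lt.mp hc⟩)
    have h5 := tz_even h2N x
    have h6 := stp_pm h4 x
    have h7 : tz (x + 1) = tz x + stp x := by unfold stp; ring
    have h2R' : (2 : ℤ) ∣ R := by exact_mod_cast h2R
    unfold cx
    rcases abs_cases (tz x) with h | h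
    · rw [ph_pos R hR x (by omega), ph_pos R hR (x + 1) (by omega)]; simp
    · rw [ph_neg' R hR x (by omega), ph_neg' R hR (x + 1) (by omega)]; simp) (by
    intro x _
    unfold cx
    rw [← Complex.ofReal_sub, Complex.norm_real, Real.norm_eq_abs]
    refine (ph_lip R hR _ _).trans ?_
    refine div_le_div_of_nonneg_right ?_ hR0.le
    have h7 : (tz (x + 1) : ℝ) - tz x = (stp x : ℤ) := by unfold stp; push_cast; ring
    rw [h7]
    rcases stp_pm h4 x with h | h <;> rw [h] <;> norm_num)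
  rw [h1, norm_mul] at h2
  have h3 := chN_sub_one_ge κ
  have h5 : ((sml N R).card : ℝ) ≤ 2 * R + 2 := by exact_mod_cast card_sml R h2N h2R
  have h6 : ((sml N R).card : ℝ) * (2 / R) / N ≤ 8 / N := by
    refine div_le_div_of_nonneg_right ?_ hN0.le
    calc _ ≤ (2 * (R : ℝ) + 2) * (2 / R) := mul_le_mul_of_nonneg_right h5 (by positivity)
      _ ≤ (4 * R) * (2 / R) := mul_le_mul_of_nonneg_right (by linarith) (by positivity)
      _ = 8 := by field_simp; norm_num
  have h7 := (mul_le_mul_of_nonneg_right h3 (norm_nonneg (fN (cx (ph R)) κ))).trans (h2.trans h6)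
  rw [le_div_iff₀ hN0] at h7
  have h8 : 4 * |(κ.valMinAbs : ℝ)| / N * ‖fN (cx (ph R)) κ‖ * N =
      4 * (|(κ.valMinAbs : ℝ)| * ‖fN (cx (ph R)) κ‖) := by field_simp
  rw [h8] at h7
  linarith

/-- second order decay -/
lemma fN_ph_second (R : ℕ) (hR : 0 < R) (hRN : 2 * R ≤ N) (h4 : 4 ∣ N) (h2R : 2 ∣ R)
    (κ : ZMod N) :
    |(κ.valMinAbs : ℝ)| ^ 2 * ‖fN (cx (ph R)) κ‖ ≤ N / R := by
  have hN0 : (0 : ℝ) < N := Npos (N := N)
  have hR0 : (0 : ℝ) < R := by exact_mod_cast hR
  have hN := Nat.pos_of_ne_zero (NeZero.ne N)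
  have h2N : 2 ∣ N := dvd_trans (by norm_num) h4
  have h1 : fN (fun x => cx (ph R) (x + 1 + 1) - 2 * cx (ph R) (x + 1) + cx (ph R) x) κ =
      (chN κ - 1) * (chN κ - 1) * fN (cx (ph R)) κ := by
    rw [fN_add, fN_sub, fN_smul, fN_shift (fun x => cx (ph R) (x + 1)), fN_shift]; ring
  have h2 := norm_fN_le (fun x => cx (ph R) (x + 1 + 1) - 2 * cx (ph R) (x + 1) + cx (ph R) x) κ
    (univ.filter fun x : ZMod N => |tz (x + 1)| = (R : ℤ)) (4 / R) (by
    intro x hx
    have h3 : |tz (x + 1)| ≠ (R : ℤ) := by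
      intro hc
      exact hx (Finset.mem_filter.mpr ⟨Finset.mem_univ x, hc⟩)
    have h5 := tz_even h2N (x + 1)
    have h2R' : (2 : ℤ) ∣ R := by exact_mod_cast h2R
    have h6 := stp_pm h4 x
    have h6' := stp_pm h4 (x + 1)
    have h7 : tz x = tz (x + 1) - stp x := by unfold stp; ring
    have h7' : tz (x + 1 + 1) = tz (x + 1) + stp (x + 1) := by unfold stp; ring
    unfold cx
    rcases lt_or_gt_of_ne h3 with hlt | hgt
    · -- linear part
      have h8 : stp (x + 1) = stp x := stp_same h4 x (by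
        have : (2 * R : ℤ) ≤ N := by exact_mod_cast hRN
        omega)
      have h9 : ∀ z : ZMod N, -(R : ℤ) ≤ tz z → tz z ≤ R → ph R z = tz z / R := by
        intro z hz1 hz2
        unfold ph
        have e1 : -(R : ℝ) ≤ tz z := by exact_mod_cast hz1
        have e2 : (tz z : ℝ) ≤ R := by exact_mod_cast hz2
        refine cl_mid _ ?_ ?_
        · rw [le_div_iff₀ hR0]; linarith
        · rw [div_le_iff₀ hR0]; linarith
      have h10 : -(R : ℤ) < tz (x + 1) ∧ tz (x + 1) < R := abs_lt.mp hlt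
      rw [h9 x (by omega) (by omega), h9 (x + 1) (by omega) (by omega),
        h9 (x + 1 + 1) (by omega) (by omega), h7', h7, h8]
      push_cast; ring
    · rcases abs_cases (tz (x + 1)) with h | h
      · rw [ph_pos R hR x (by omega), ph_pos R hR (x + 1) (by omega),
          ph_pos R hR (x + 1 + 1) (by omega)]; norm_num
      · rw [ph_neg' R hR x (by omega), ph_neg' R hR (x + 1) (by omega),
          ph_neg' R hR (x + 1 + 1) (by omega)]; norm_num) (by
    intro x _
    have e1 : cx (ph R) (x + 1 + 1) - 2 * cx (ph R) (x + 1) + cx (ph R) x =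
        (((ph R (x + 1 + 1) - ph R (x + 1)) - (ph R (x + 1) - ph R x) : ℝ) : ℂ) := by
      unfold cx; push_cast; ring
    rw [e1, Complex.norm_real, Real.norm_eq_abs]
    have e2 : ∀ z : ZMod N, |ph R (z + 1) - ph R z| ≤ 2 / R := by
      intro z
      refine (ph_lip R hR _ _).trans ?_
      refine div_le_div_of_nonneg_right ?_ hR0.le
      have h7 : (tz (z + 1) : ℝ) - tz z = (stp z : ℤ) := by unfold stp; push_cast; ring
      rw [h7]
      rcases stp_pm h4 z with h | h <;> rw [h] <;> norm_num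
    calc _ ≤ |ph R (x + 1 + 1) - ph R (x + 1)| + |ph R (x + 1) - ph R x| := abs_sub _ _
      _ ≤ 2 / R + 2 / R := add_le_add (e2 _) (e2 _)
      _ = 4 / R := by ring)
  have hcard : ((univ.filter fun x : ZMod N => |tz (x + 1)| = (R : ℤ)).card : ℝ) ≤ 4 := by
    have h3 : (univ.filter fun x : ZMod N => |tz (x + 1)| = (R : ℤ)).card ≤
        (univ.filter fun x : ZMod N => |tz x| = (R : ℤ)).card := by
      refine Finset.card_le_card_of_injOn (fun x => x + 1) ?_ ?_
      · intro x hx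
        have hx' := Finset.mem_coe.mp hx
        exact Finset.mem_coe.mpr (Finset.mem_filter.mpr ⟨Finset.mem_univ _,
          (Finset.mem_filter.mp hx').2⟩)
      · intro x _ y _ h; exact add_right_cancel h
    exact_mod_cast h3.trans (card_eqR R h2N h2R)
  rw [h1, norm_mul, norm_mul] at h2
  have h3 := chN_sub_one_ge κ
  have h0 : 0 ≤ 4 * |(κ.valMinAbs : ℝ)| / N := by positivity
  have h6 : ((univ.filter fun x : ZMod N => |tz (x + 1)| = (R : ℤ)).card : ℝ) * (4 / R) / N ≤
      16 / R / N := by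
    refine div_le_div_of_nonneg_right ?_ hN0.le
    calc _ ≤ 4 * (4 / (R : ℝ)) := mul_le_mul_of_nonneg_right hcard (by positivity)
      _ = 16 / R := by ring
  have h7 : (4 * |(κ.valMinAbs : ℝ)| / N) * (4 * |(κ.valMinAbs : ℝ)| / N) *
      ‖fN (cx (ph R)) κ‖ ≤ 16 / R / N := by
    refine le_trans ?_ (h2.trans h6)
    refine mul_le_mul_of_nonneg_right ?_ (norm_nonneg _)
    exact mul_le_mul h3 h3 h0 (norm_nonneg _)
  have h8 : (4 * |(κ.valMinAbs : ℝ)| / N) * (4 * |(κ.valMinAbs : ℝ)| / N) *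
      ‖fN (cx (ph R)) κ‖ = (16 / N ^ 2) * (|(κ.valMinAbs : ℝ)| ^ 2 * ‖fN (cx (ph R)) κ‖) := by
    ring
  rw [h8, mul_comm, ← le_div_iff₀ (by positivity)] at h7
  refine h7.trans (le_of_eq ?_)
  field_simp

/-- two waves of different slopes -/
lemma fN_ph_diff (R R' : ℕ) (hR : 0 < R) (hR' : 0 < R') (hRR : R' ≤ R) (h2N : 2 ∣ N)
    (h2R : 2 ∣ R) (κ : ZMod N) :
    ‖fN (cx (ph R')) κ - fN (cx (ph R)) κ‖ ≤ 4 * R / N := by
  have hN0 : (0 : ℝ) < N := Npos (N := N)
  have hR1 : (1 : ℝ) ≤ R := by exact_mod_cast hR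
  rw [← fN_sub]
  have h2 := norm_fN_le (fun x => cx (ph R') x - cx (ph R) x) κ (sml N R) 1 (by
    intro x hx
    have h3 : (R : ℤ) < |tz x| := by
      by_contra hc
      exact hx (Finset.mem_filter.mpr ⟨Finset.mem_univ x, not_lt.mp hc⟩)
    unfold cx
    rcases abs_cases (tz x) with h | h
    · rw [ph_pos R hR x (by omega), ph_pos R' hR' x (by omega)]; simp
    · rw [ph_neg' R hR x (by omega), ph_neg' R' hR' x (by omega)]; simp) (by
    intro x _
    unfold cx
    rw [← Complex.ofReal_sub, Complex.norm_real, Real.norm_eq_abs]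
    have h3 := abs_le.mp (ph_abs R x)
    have h4 := abs_le.mp (ph_abs R' x)
    have hRp : (0 : ℝ) < R := by exact_mod_cast hR
    have hRp' : (0 : ℝ) < R' := by exact_mod_cast hR'
    rcases le_total 0 (tz x) with h | h
    · have e : (0 : ℝ) ≤ tz x := by exact_mod_cast h
      have h5 : 0 ≤ ph R x := cl_nonneg _ (by positivity)
      have h6 : 0 ≤ ph R' x := cl_nonneg _ (by positivity)
      rw [abs_le]; constructor <;> linarith [h3.2, h4.2]
    · have e : (0 : ℝ) ≤ -(tz x : ℝ) := by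
        have : (tz x : ℝ) ≤ 0 := by exact_mod_cast h
        linarith
      have h5 : ph R x ≤ 0 := by
        have : 0 ≤ cl (-((tz x : ℝ) / R)) := cl_nonneg _ (by rw [← neg_div]; positivity)
        rw [cl_neg] at this; unfold ph; linarith
      have h6 : ph R' x ≤ 0 := by
        have : 0 ≤ cl (-((tz x : ℝ) / R')) := cl_nonneg _ (by rw [← neg_div]; positivity)
        rw [cl_neg] at this; unfold ph; linarith
      rw [abs_le]; constructor <;> linarith [h3.1, h4.1])
  refine h2.trans ?_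
  refine div_le_div_of_nonneg_right ?_ hN0.le
  have h5 : ((sml N R).card : ℝ) ≤ 2 * R + 2 := by exact_mod_cast card_sml R h2N h2R
  linarith

end

end Pool.Agent.W862.Kom
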