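import Pool.Agent.W862.Kom.Digits
import Pool.Agent.W862.Kom.Trap

/-!
# The majorisation lemma
-/

namespace Pool.Agent.W862.Kom

open Finset

variable {p : ℕ} [Fact p.Prime]

open Classical in
/-- factors of the majorant -/
noncomputable def gf (Q : ℕ → ℕ) (η : ℝ) (l : ℕ) (σ : ℕ → ℤ) (m : ℤ) (s : ℕ) (x : ZMod p) : ℝ :=
  if s = 0 then (if x = (m : ZMod p) then 1 else 0)
  else if s ≤ l then nu η (x - (σ s : ZMod p) * ((m / (Q s : ℤ) : ℤ) : ZMod p))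
  else (if x = 0 then 1 else 0)

lemma gf_nonneg (Q : ℕ → ℕ) (η : ℝ) (l : ℕ) (σ : ℕ → ℤ) (m : ℤ) (s : ℕ) (x : ZMod p) :
    0 ≤ gf Q η l σ m s x := by
  unfold gf
  split_ifs
  · norm_num
  · norm_num
  · exact (nu_pos _ _).le
  · norm_num
  · norm_num

lemma sum_gf (Q : ℕ → ℕ) (η : ℝ) (hη : 0 < η) (l : ℕ) (σ : ℕ → ℤ) (m : ℤ) (s : ℕ) :
    ∑ x : ZMod p, gf Q η l σ m s x ≤ if 1 ≤ s ∧ s ≤ l then 1 + 2 / η else 1 := by
  unfold gf
  by_cases h0 : s = 0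
  · simp [h0]
  · by_cases h1 : s ≤ l
    · simp only [if_neg h0, if_pos h1]
      rw [if_pos ⟨by omega, h1⟩]
      exact sum_nu_le η hη _
    · simp only [if_neg h0, if_neg h1]
      rw [if_neg (by omega)]
      simp

lemma prod_if_le (n l : ℕ) (c : ℝ) (hc : 1 ≤ c) :
    ∏ s : Fin n, (if 1 ≤ s.1 ∧ s.1 ≤ l then c else 1) ≤ c ^ l := by
  rw [Finset.prod_ite, Finset.prod_const, Finset.prod_const_one, mul_one]
  refine pow_le_pow_right₀ hc ?_
  have h1 : (univ.filter fun s : Fin n => 1 ≤ s.1 ∧ s.1 ≤ l).card ≤ (Finset.Icc 1 l).card := by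
    refine Finset.card_le_card_of_injOn (fun s => s.1) ?_ ?_
    · intro s hs
      have := (Finset.mem_filter.mp (Finset.mem_coe.mp hs)).2
      exact Finset.mem_coe.mpr (Finset.mem_Icc.mpr this)
    · intro s _ t _ h; exact Fin.ext h
  rwa [Nat.card_Icc, Nat.add_sub_cancel] at h1

lemma carry_le (q k m i j : ℤ) (hq : 0 < q) (h : k = m + i + j) :
    0 ≤ k / q - i / q - j / q - m / q ∧ k / q - i / q - j / q - m / q ≤ 2 := by
  have e1 := Int.emod_add_mul_ediv k q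
  have e2 := Int.emod_add_mul_ediv i q
  have e3 := Int.emod_add_mul_ediv j q
  have e4 := Int.emod_add_mul_ediv m q
  have k1 := Int.emod_nonneg k hq.ne'
  have k2 := Int.emod_lt_of_pos k hq
  have i1 := Int.emod_nonneg i hq.ne'
  have i2 := Int.emod_lt_of_pos i hq
  have j1 := Int.emod_nonneg j hq.ne'
  have j2 := Int.emod_lt_of_pos j hq
  have m1 := Int.emod_nonneg m hq.ne'
  have m2 := Int.emod_lt_of_pos m hq
  set c := k / q - i / q - j / q - m / q with hc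
  have h5 : q * c = (m % q + i % q + j % q) - k % q := by
    rw [hc]; linear_combination h + e1 - e2 - e3 - e4
  constructor
  · by_contra hneg
    push Not at hneg
    have : q * c ≤ q * (-1) := mul_le_mul_of_nonneg_left (by omega) hq.le
    linarith
  · by_contra hgt
    push Not at hgt
    have : q * 3 ≤ q * c := mul_le_mul_of_nonneg_left (by omega) hq.le
    linarith

/-- comparison of the factors -/
lemma gf_shift {Q W : ℕ → ℕ} (hR : Radix Q W) (η : ℝ) (h0 : 0 ≤ η) (h1 : η ≤ 1) (n l a : ℕ)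
    (hal : a ≤ l + 1) (σ : ℕ → ℤ) (hσ0 : σ 0 = 1) (hσ : ∀ s, |σ s| ≤ 1) (k : ℤ) (i j : ℕ)
    (hi : i < Q a) (hj : j < Q a) (s : Fin n) (x : ZMod p) :
    gf Q η l σ k s.1 x ≤ (if 1 ≤ s.1 ∧ s.1 ≤ l then 9 else 1) *
      gf Q η l σ (k - i - j) s.1 (x - vd Q n σ i s - vd Q n σ j s) := by
  unfold gf vd
  by_cases hs0 : s.1 = 0
  · have hcond : ¬ (1 ≤ s.1 ∧ s.1 ≤ l) := by omega
    simp only [if_pos hs0]
    rw [if_neg hcond, one_mul, hs0, hσ0, hR.zero, Nat.div_one, Nat.div_one]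
    apply le_of_eq
    refine if_congr ?_ rfl rfl
    push_cast
    constructor
    · rintro rfl; ring
    · intro h; linear_combination h
  · by_cases hsl : s.1 ≤ l
    · have hcond : 1 ≤ s.1 ∧ s.1 ≤ l := ⟨by omega, hsl⟩
      simp only [if_neg hs0, if_pos hsl]
      rw [if_pos hcond]
      refine nu_shift η h0 h1 _ _ ?_
      have hQ : (0 : ℤ) < Q s.1 := by exact_mod_cast hR.Qpos s.1
      have hc := carry_le (Q s.1) k (k - i - j) i j hQ (by ring)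
      set c := k / (Q s.1 : ℤ) - (i : ℤ) / (Q s.1 : ℤ) - (j : ℤ) / (Q s.1 : ℤ) -
        (k - i - j) / (Q s.1 : ℤ) with hcdef
      have e1 : x - (σ s.1 : ZMod p) * ((i / Q s.1 : ℕ) : ZMod p) -
          (σ s.1 : ZMod p) * ((j / Q s.1 : ℕ) : ZMod p) -
          (σ s.1 : ZMod p) * (((k - i - j) / (Q s.1 : ℤ) : ℤ) : ZMod p) =
          (x - (σ s.1 : ZMod p) * ((k / (Q s.1 : ℤ) : ℤ) : ZMod p)) +
            ((σ s.1 * c : ℤ) : ZMod p) := by
        have e2 : ((i / Q s.1 : ℕ) : ZMod p) = (((i : ℤ) / (Q s.1 : ℤ) : ℤ) : ZMod p) := by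
          rw [← Int.natCast_div, Int.cast_natCast]
        have e3 : ((j / Q s.1 : ℕ) : ZMod p) = (((j : ℤ) / (Q s.1 : ℤ) : ℤ) : ZMod p) := by
          rw [← Int.natCast_div, Int.cast_natCast]
        rw [e2, e3, hcdef]
        push_cast
        ring
      rw [e1]
      refine (dz_add_le _ _).trans ?_
      have h2 : |((σ s.1 * c : ℤ) : ℝ)| ≤ 2 := by
        have h3 : |σ s.1 * c| ≤ 2 := by
          rw [abs_mul, abs_of_nonneg hc.1]
          calc |σ s.1| * c ≤ 1 * 2 := mul_le_mul (hσ _) hc.2 hc.1 zero_le_one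
            _ = 2 := by norm_num
        exact_mod_cast h3
      linarith
    · have hcond : ¬ (1 ≤ s.1 ∧ s.1 ≤ l) := by omega
      simp only [if_neg hs0, if_neg hsl]
      rw [if_neg hcond, one_mul]
      have hQs : Q a ≤ Q s.1 := hR.mono (by omega)
      rw [Nat.div_eq_of_lt (by omega), Nat.div_eq_of_lt (by omega)]
      simp

/-- the majorant -/
noncomputable def GG (Q : ℕ → ℕ) (η : ℝ) (n l D : ℕ) (h : ℤ → ℝ) (σ : ℕ → ℤ)
    (μ : Fin n → ZMod p) : ℝ :=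
  ∑ m ∈ Finset.Icc (-(D : ℤ)) D, h m * ∏ s : Fin n, gf Q η l σ m s.1 (μ s)

lemma GG_mass (Q : ℕ → ℕ) (η : ℝ) (hη : 0 < η) (n l D : ℕ) (h : ℤ → ℝ) (hh : ∀ m, 0 ≤ h m)
    (Hs : ℝ) (hHs : ∑ m ∈ Finset.Icc (-(D : ℤ)) D, h m ≤ Hs) (σ : ℕ → ℤ) :
    ∑ μ : Fin n → ZMod p, GG Q η n l D h σ μ ≤ Hs * (1 + 2 / η) ^ l := by
  unfold GG
  rw [Finset.sum_comm]
  have h1 : ∀ m, ∑ μ : Fin n → ZMod p, h m * ∏ s : Fin n, gf Q η l σ m s.1 (μ s) ≤
      h m * (1 + 2 / η) ^ l := by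
    intro m
    rw [← Finset.mul_sum]
    refine mul_le_mul_of_nonneg_left ?_ (hh m)
    have h2 := Finset.prod_univ_sum (fun _ : Fin n => (univ : Finset (ZMod p)))
      (fun s x => gf Q η l σ m s.1 x)
    rw [Fintype.piFinset_univ] at h2
    rw [← h2]
    calc ∏ s : Fin n, ∑ x : ZMod p, gf Q η l σ m s.1 x
        ≤ ∏ s : Fin n, (if 1 ≤ s.1 ∧ s.1 ≤ l then 1 + 2 / η else 1) :=
          Finset.prod_le_prod (fun s _ => Finset.sum_nonneg fun x _ => gf_nonneg _ _ _ _ _ _ _)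
            fun s _ => sum_gf Q η hη l σ m s.1
      _ ≤ _ := prod_if_le n l _ (by
          have : 0 < 2 / η := by positivity
          linarith)
  refine (Finset.sum_le_sum fun m _ => h1 m).trans ?_
  rw [← Finset.sum_mul]
  exact mul_le_mul_of_nonneg_right hHs (by positivity)

/-- the majorisation lemma -/
theorem maj_lemma {Q W : ℕ → ℕ} (hR : Radix Q W) (η : ℝ) (hη0 : 0 < η) (hη1 : η ≤ 1)
    (n l a : ℕ) (han : a ≤ n) (hal : a ≤ l + 1) (D : ℕ) [NeZero D] (hD : 4 * Q a ≤ D)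
    {I : Type*} [Fintype I] (σ : I → ℕ → ℤ) (hσ0 : ∀ ι, σ ι 0 = 1) (hσ : ∀ ι s, |σ ι s| ≤ 1)
    (hσa : ∀ ι, ∀ s < a, σ ι s = 1 ∨ σ ι s = -1) (hWp : ∀ s < a, W s ≤ p) (Wm : ℕ)
    (hW1 : 1 ≤ Wm) (hWm : ∀ s < a, W s ≤ Wm)
    (F : (Fin n → ZMod p) → ℂ) (w : ZMod D → ℝ) (hw : ∀ κ, 0 ≤ w κ) (h : ℤ → ℝ)
    (hh : ∀ m, 0 ≤ h m)
    (hwh : ∀ (κ : ZMod D) (i j : ℕ), i < Q a → j < Q a →
      w κ * 9 ^ l ≤ h (κ.valMinAbs - i - j))
    (Hs : ℝ) (hHs : ∑ m ∈ Finset.Icc (-(D : ℤ)) D, h m ≤ Hs)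
    (hF : ∀ μ, ‖ft F μ‖ ≤ ∑ ι, ∑ κ : ZMod D, w κ *
      ∏ s : Fin n, gf Q η l (σ ι) κ.valMinAbs s.1 (μ s)) :
    Maj F I (Q a) (Hs * (1 + 2 / η) ^ l) ((Wm : ℝ) ^ 2)
      (fun ι i => vd Q n (σ ι) i.1) (fun ι => GG Q η n l D h (σ ι)) where
  Qpos := hR.Qpos a
  Pone := one_le_pow₀ (by exact_mod_cast hW1)
  nonneg := fun ι μ => Finset.sum_nonneg fun m _ => mul_nonneg (hh m)
    (Finset.prod_nonneg fun s _ => gf_nonneg _ _ _ _ _ _ _)
  mass := fun ι => GG_mass Q η hη0 n l D h hh Hs hHs (σ ι)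
  spread := fun ι => spread_vd hR n a han (σ ι) (hσa ι) hWp Wm hW1 hWm
  maj := by
    intro μ i j
    refine (hF μ).trans (Finset.sum_le_sum fun ι _ => ?_)
    have h9 : ∀ κ : ZMod D, w κ * ∏ s : Fin n, gf Q η l (σ ι) κ.valMinAbs s.1 (μ s) ≤
        h (κ.valMinAbs - i.1 - j.1) * ∏ s : Fin n, gf Q η l (σ ι) (κ.valMinAbs - i.1 - j.1) s.1
          (μ s - vd Q n (σ ι) i.1 s - vd Q n (σ ι) j.1 s) := by
      intro κ
      have h1 : ∏ s : Fin n, gf Q η l (σ ι) κ.valMinAbs s.1 (μ s) ≤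
          9 ^ l * ∏ s : Fin n, gf Q η l (σ ι) (κ.valMinAbs - i.1 - j.1) s.1
          (μ s - vd Q n (σ ι) i.1 s - vd Q n (σ ι) j.1 s) := by
        calc _ ≤ ∏ s : Fin n, ((if 1 ≤ s.1 ∧ s.1 ≤ l then 9 else 1) *
              gf Q η l (σ ι) (κ.valMinAbs - i.1 - j.1) s.1
                (μ s - vd Q n (σ ι) i.1 s - vd Q n (σ ι) j.1 s)) :=
              Finset.prod_le_prod (fun s _ => gf_nonneg _ _ _ _ _ _ _) fun s _ =>
                gf_shift hR η hη0.le hη1 n l a hal (σ ι) (hσ0 ι) (hσ ι) κ.valMinAbs i.1 j.1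
                  i.2 j.2 s (μ s)
          _ = (∏ s : Fin n, (if 1 ≤ s.1 ∧ s.1 ≤ l then (9 : ℝ) else 1)) *
              ∏ s : Fin n, gf Q η l (σ ι) (κ.valMinAbs - i.1 - j.1) s.1
                (μ s - vd Q n (σ ι) i.1 s - vd Q n (σ ι) j.1 s) := Finset.prod_mul_distrib
          _ ≤ 9 ^ l * _ := mul_le_mul_of_nonneg_right (prod_if_le n l 9 (by norm_num))
              (Finset.prod_nonneg fun s _ => gf_nonneg _ _ _ _ _ _ _)
      have h2 : 0 ≤ ∏ s : Fin n, gf Q η l (σ ι) (κ.valMinAbs - i.1 - j.1) s.1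
          (μ s - vd Q n (σ ι) i.1 s - vd Q n (σ ι) j.1 s) :=
        Finset.prod_nonneg fun s _ => gf_nonneg _ _ _ _ _ _ _
      calc _ ≤ w κ * (9 ^ l * ∏ s : Fin n, gf Q η l (σ ι) (κ.valMinAbs - i.1 - j.1) s.1
          (μ s - vd Q n (σ ι) i.1 s - vd Q n (σ ι) j.1 s)) :=
            mul_le_mul_of_nonneg_left h1 (hw κ)
        _ = (w κ * 9 ^ l) * ∏ s : Fin n, gf Q η l (σ ι) (κ.valMinAbs - i.1 - j.1) s.1
          (μ s - vd Q n (σ ι) i.1 s - vd Q n (σ ι) j.1 s) := by ring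
        _ ≤ _ := mul_le_mul_of_nonneg_right (hwh κ i.1 j.1 i.2 j.2) h2
    refine (Finset.sum_le_sum fun κ _ => h9 κ).trans ?_
    unfold GG
    have hinj : Function.Injective (fun κ : ZMod D => κ.valMinAbs - (i.1 : ℤ) - (j.1 : ℤ)) := by
      intro κ κ' hκ
      simp only [sub_left_inj] at hκ
      exact ZMod.valMinAbs_inj.mp hκ
    rw [← Finset.sum_image (f := fun m => h m * ∏ s : Fin n, gf Q η l (σ ι) m s.1
          (μ s - vd Q n (σ ι) i.1 s - vd Q n (σ ι) j.1 s)) (s := univ)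
      (g := fun κ : ZMod D => κ.valMinAbs - (i.1 : ℤ) - (j.1 : ℤ)) (fun x _ y _ hxy => hinj hxy)]
    refine Finset.sum_le_sum_of_subset_of_nonneg ?_ fun m _ _ => mul_nonneg (hh m)
      (Finset.prod_nonneg fun s _ => gf_nonneg _ _ _ _ _ _ _)
    intro m hm
    obtain ⟨κ, _, rfl⟩ := Finset.mem_image.mp hm
    have h1 := ZMod.natAbs_valMinAbs_le κ
    have hi := i.2
    have hj := j.2
    rw [Finset.mem_Icc]
    constructor <;> omega

end Pool.Agent.W862.Kom
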