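import Pool.Agent.W862.Kom.ProdMaj

/-!
# Consequences of a spread majorant
-/

namespace Pool.Agent.W862.Kom

open Finset

variable {p : ℕ} [Fact p.Prime]
variable {m n : Type*} [Fintype m] [DecidableEq m] [Fintype n] [DecidableEq n]

lemma Maj.prod_nonneg {I : Type*} [Fintype I] {F : (n → ZMod p) → ℂ} {Q : ℕ} {Z P : ℝ}
    {v : I → Fin Q → (n → ZMod p)} {G : I → (n → ZMod p) → ℝ} (hM : Maj F I Q Z P v G) :
    0 ≤ (Fintype.card I : ℝ) * Z :=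
  le_trans (Finset.sum_nonneg fun _ _ => norm_nonneg _) hM.l1

theorem MajE.small {R : Type*} [Fintype R] {F : (n → ZMod p) → ℂ} {E P : ℝ} {Q : ℕ}
    (h : MajE F E Q P) (hF0 : ft F 0 = 0) (s : R → (m → ZMod p) → ℂ)
    (δ B : ℝ) (hδ : ∀ ρ i, ‖s ρ i‖ ≤ δ) (hδ0 : 0 < δ)
    (hs : ∑ ρ, ∑ i, ‖s ρ i‖ ^ 2 ≤ 1) (hB : 0 ≤ B) (hEB : E * δ ≤ B)
    (hB4 : E ^ 4 * (4 * δ ^ 2 + 3 * (P / Q) * (1 / δ) ^ 4) ≤ B ^ 4) :
    Bd (fun (ξ : n → m → ZMod p) ρ g => ‖XX (s ρ) F ξ g‖) (2 * B) := by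
  obtain ⟨I, hI, Z, v, G, hE, hM⟩ := h
  have h0 := hM.prod_nonneg
  have hP : 1 ≤ P := hM.Pone
  have h1 := small_part hM hF0 s δ (1 / δ) B hδ hδ0.le hs (by positivity) hB (by
    refine le_trans ?_ hB4
    have e1 : (δ + 1 / (1 / δ)) ^ 2 = 4 * δ ^ 2 := by rw [one_div_one_div]; ring
    have e2 : 3 * P * (1 / δ) ^ 4 / (Q : ℝ) = 3 * (P / Q) * (1 / δ) ^ 4 := by ring
    rw [e1, e2, ← mul_pow]
    refine mul_le_mul_of_nonneg_right (pow_le_pow_left₀ h0 hE 4) ?_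
    have : 0 ≤ P / Q := div_nonneg (by linarith) (Nat.cast_nonneg _)
    positivity)
  refine h1.mono ?_
  have e3 : (Fintype.card I : ℝ) * Z / (1 / δ) = (Fintype.card I : ℝ) * Z * δ := by
    rw [div_div_eq_mul_div, div_one]
  rw [e3]
  have := mul_le_mul_of_nonneg_right hE hδ0.le
  linarith

open Classical in
theorem MajE.large {R : Type*} [Fintype R] {F : (n → ZMod p) → ℂ} {E P : ℝ} {Q : ℕ}
    (h : MajE F E Q P) (Λ : R → Finset (m → ZMod p)) (lam B : ℝ)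
    (hlam : ∑ ρ, ((Λ ρ).card : ℝ) ≤ lam) (hB : 0 ≤ B)
    (hB4 : E ^ 4 * (lam + 3 * (P / Q) * lam ^ 4) ≤ B ^ 4) :
    Bd (fun (ξ : n → m → ZMod p) ρ g => ‖XX (fun i => if i ∈ Λ ρ then 1 else 0) F ξ g‖) B := by
  obtain ⟨I, hI, Z, v, G, hE, hM⟩ := h
  have h0 := hM.prod_nonneg
  have hP : 1 ≤ P := hM.Pone
  have hlam0 : 0 ≤ lam := le_trans (Finset.sum_nonneg fun _ _ => Nat.cast_nonneg _) hlam
  refine large_part hM Λ lam B hlam hB (le_trans ?_ hB4)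
  have e2 : 3 * P * lam ^ 4 / (Q : ℝ) = 3 * (P / Q) * lam ^ 4 := by ring
  rw [e2, ← mul_pow]
  refine mul_le_mul_of_nonneg_right (pow_le_pow_left₀ h0 hE 4) ?_
  have : 0 ≤ P / Q := div_nonneg (by linarith) (Nat.cast_nonneg _)
  positivity

theorem MajE.val {F : (n → ZMod p) → ℂ} {E P : ℝ} {Q : ℕ}
    (h : MajE F E Q P) (κ : n → ZMod p) : ‖ft F κ‖ * Q ≤ E := by
  obtain ⟨I, hI, Z, v, G, hE, hM⟩ := h
  refine le_trans ?_ hE
  have i0 : Fin Q := ⟨0, hM.Qpos⟩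
  calc ‖ft F κ‖ * Q = ∑ _i : Fin Q, ‖ft F κ‖ := by
        rw [Finset.sum_const, Finset.card_univ, Fintype.card_fin, nsmul_eq_mul, mul_comm]
    _ ≤ ∑ i : Fin Q, ∑ σ, G σ (κ - v σ i - v σ i0) :=
        Finset.sum_le_sum fun i _ => hM.maj κ i i0
    _ = ∑ σ, ∑ i : Fin Q, G σ (κ - v σ i - v σ i0) := Finset.sum_comm
    _ ≤ ∑ _σ : I, Z := by
        refine Finset.sum_le_sum fun σ _ => ?_
        have hinj : Function.Injective (fun i : Fin Q => κ - v σ i - v σ i0) := by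
          intro i j hij
          apply (hM.spread σ).inj
          have := sub_left_injective (G := n → ZMod p) (b := v σ i0) hij
          exact sub_right_injective this
        calc ∑ i : Fin Q, G σ (κ - v σ i - v σ i0) =
              ∑ x ∈ univ.image (fun i : Fin Q => κ - v σ i - v σ i0), G σ x := by
              rw [Finset.sum_image (fun i _ j _ h => hinj h)]
          _ ≤ ∑ x, G σ x := Finset.sum_le_sum_of_subset_of_nonneg (Finset.subset_univ _)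
              fun x _ _ => hM.nonneg σ x
          _ ≤ Z := hM.mass σ
    _ = _ := by rw [Finset.sum_const, Finset.card_univ, nsmul_eq_mul]

lemma MajE.mono {F : (n → ZMod p) → ℂ} {E E' P : ℝ} {Q : ℕ}
    (h : MajE F E Q P) (hE : E ≤ E') : MajE F E' Q P := by
  obtain ⟨I, hI, Z, v, G, hE', hM⟩ := h
  exact ⟨I, hI, Z, v, G, hE'.trans hE, hM⟩

end Pool.Agent.W862.Kom
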