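import Pool.Agent.W862.Kom.Prod

/-!
# The odd sign function on `ZMod p`
-/

namespace Pool.Agent.W862.Kom

open Finset

variable {p : ℕ} [Fact p.Prime]

/-- odd sign function on `ZMod p` -/
noncomputable def sg (x : ZMod p) : ℝ := if x = 0 then 0 else if 2 * x.val < p then 1 else -1

lemma sg_abs (x : ZMod p) (hx : x ≠ 0) : |sg x| = 1 := by
  unfold sg; rw [if_neg hx]; split_ifs <;> simp

lemma sg_zero : sg (0 : ZMod p) = 0 := by unfold sg; simp

lemma sg_abs_le (x : ZMod p) : |sg x| ≤ 1 := by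
  by_cases hx : x = 0
  · rw [hx, sg_zero]; simp
  · rw [sg_abs x hx]

lemma sg_neg (hp : p ≠ 2) (x : ZMod p) : sg (-x) = - sg x := by
  by_cases hx : x = 0
  · rw [hx, neg_zero, sg_zero]; simp
  · have hx' : -x ≠ 0 := neg_ne_zero.mpr hx
    unfold sg
    rw [if_neg hx, if_neg hx']
    haveI : NeZero x := ⟨hx⟩
    have h1 : (-x).val = p - x.val := ZMod.val_neg_of_ne_zero x
    have h2 : x.val < p := ZMod.val_lt x
    have h3 : p % 2 = 1 := ((Fact.out : p.Prime).eq_two_or_odd).resolve_left hp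
    have h4 : 0 < x.val := Nat.pos_of_ne_zero (by rwa [Ne, ZMod.val_eq_zero])
    rw [h1]
    by_cases h5 : 2 * x.val < p
    · rw [if_pos h5, if_neg (by omega)]
    · rw [if_neg h5, if_pos (by omega)]; simp

/-- the transform as a difference of two geometric sums -/
lemma ft1_sg (hp : p ≠ 2) (k : ZMod p) :
    ft1 (cx (sg (p := p))) k = (p : ℂ)⁻¹ * (∑ j ∈ range ((p - 1) / 2), chi (-k) ^ (j + 1) -
      ∑ j ∈ range ((p - 1) / 2), chi k ^ (j + 1)) := by
  have h3 : p % 2 = 1 := ((Fact.out : p.Prime).eq_two_or_odd).resolve_left hp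
  have hp2 := (Fact.out : p.Prime).two_le
  unfold ft1
  congr 1
  have hchi : ∀ (j : ℕ) (x : ZMod p), chi ((j : ZMod p) * x) = chi x ^ j := by
    intro j x
    induction j with
    | zero => simp [chi_zero]
    | succ j ih => rw [Nat.cast_succ, add_mul, one_mul, chi_add, ih, pow_succ]
  -- sum over `ZMod p` as a sum over `range p`
  have h4 : ∑ x : ZMod p, cx sg x * chi (-(k * x)) =
      ∑ j ∈ range p, cx sg (j : ZMod p) * chi (-(k * (j : ZMod p))) := by
    have hne : NeZero p := ⟨(Fact.out : p.Prime).ne_zero⟩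
    rw [← Fin.sum_univ_eq_sum_range (fun j => cx sg (j : ZMod p) * chi (-(k * (j : ZMod p)))) p]
    refine Fintype.sum_equiv (ZMod.finEquiv p).symm.toEquiv _ _ fun x => ?_
    have : (((ZMod.finEquiv p).symm x : Fin p) : ZMod p) = x := by
      have h5 : ∀ y : Fin p, ((y : ℕ) : ZMod p) = ZMod.finEquiv p y := by
        intro y
        obtain ⟨q, rfl⟩ : ∃ q, p = q + 1 := ⟨p - 1, by omega⟩
        simp only [ZMod.finEquiv]
        exact Fin.cast_val_eq_self y
      rw [h5, RingEquiv.apply_symm_apply]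
    simp only [RingEquiv.toEquiv_eq_coe, EquivLike.coe_coe]
    rw [this]
  rw [h4]
  have h5 : p = ((p - 1) / 2 + (p - 1) / 2) + 1 := by omega
  set h := (p - 1) / 2 with hh
  have h6 : ∑ j ∈ range p, cx sg (j : ZMod p) * chi (-(k * (j : ZMod p))) =
      ∑ j ∈ range (h + h), cx sg ((j + 1 : ℕ) : ZMod p) * chi (-(k * ((j + 1 : ℕ) : ZMod p))) := by
    conv_lhs => rw [show range p = range ((h + h) + 1) by rw [← h5]]
    rw [Finset.sum_range_succ']
    simp [cx, sg_zero]
  rw [h6, Finset.sum_range_add]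
  have h7 : ∀ j ∈ range h, cx sg ((j + 1 : ℕ) : ZMod p) * chi (-(k * ((j + 1 : ℕ) : ZMod p))) =
      chi (-k) ^ (j + 1) := by
    intro j hj
    have hj' := Finset.mem_range.mp hj
    have h8 : ((j + 1 : ℕ) : ZMod p).val = j + 1 := ZMod.val_cast_of_lt (by omega)
    have h9 : ((j + 1 : ℕ) : ZMod p) ≠ 0 := by
      intro h10; rw [h10, ZMod.val_zero] at h8; omega
    have h10 : sg ((j + 1 : ℕ) : ZMod p) = 1 := by
      unfold sg; rw [if_neg h9, h8, if_pos (by omega)]
    unfold cx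
    rw [h10, Complex.ofReal_one, one_mul, ← hchi]
    congr 1; ring
  have h11 : ∑ j ∈ range h, cx sg ((h + j + 1 : ℕ) : ZMod p) *
      chi (-(k * ((h + j + 1 : ℕ) : ZMod p))) = - ∑ j ∈ range h, chi k ^ (j + 1) := by
    rw [← Finset.sum_range_reflect (fun j => chi k ^ (j + 1)) h, ← Finset.sum_neg_distrib]
    refine Finset.sum_congr rfl fun j hj => ?_
    have hj' := Finset.mem_range.mp hj
    have h8 : ((h + j + 1 : ℕ) : ZMod p).val = h + j + 1 := ZMod.val_cast_of_lt (by omega)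
    have h9 : ((h + j + 1 : ℕ) : ZMod p) ≠ 0 := by
      intro h10; rw [h10, ZMod.val_zero] at h8; omega
    have h10 : sg ((h + j + 1 : ℕ) : ZMod p) = -1 := by
      unfold sg; rw [if_neg h9, h8, if_neg (by omega)]
    have h12 : ((h + j + 1 : ℕ) : ZMod p) = - ((h - 1 - j + 1 : ℕ) : ZMod p) := by
      rw [eq_neg_iff_add_eq_zero, ← Nat.cast_add, show h + j + 1 + (h - 1 - j + 1) = p by omega,
        ZMod.natCast_self]
    unfold cx
    rw [h10, ← hchi, h12]
    push_cast
    rw [neg_one_mul]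
    congr 2; ring
  rw [Finset.sum_congr rfl h7, h11]
  ring

/-- distance of `k` to `0` in `ZMod p` -/
def dz (k : ZMod p) : ℕ := min k.val (p - k.val)

lemma norm_one_sub_chi (k : ZMod p) : 4 * (dz k : ℝ) / p ≤ ‖1 - chi k‖ := by
  have hp : (0 : ℝ) < p := by exact_mod_cast (Fact.out : p.Prime).pos
  have hval : k.val < p := ZMod.val_lt k
  have h1 : chi k = Complex.exp (2 * Real.pi * Complex.I * (k.val : ℂ) / p) := by
    have : k = ((k.val : ℤ) : ZMod p) := by simp
    conv_lhs => rw [this]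
    rw [chi, ZMod.stdAddChar_coe]
    push_cast
    congr 1
  set t : ℝ := Real.pi * k.val / p with ht
  have h2 : ‖1 - chi k‖ = 2 * |Real.sin t| := by
    have h3 : 1 - chi k = -2 * Complex.I * Complex.sin t * Complex.exp (Complex.I * t) := by
      rw [h1, Complex.sin, ht]
      have e1 : (2 * Real.pi * Complex.I * (k.val : ℂ) / p : ℂ) =
          Complex.I * ((Real.pi * k.val / p : ℝ) : ℂ) + Complex.I * ((Real.pi * k.val / p : ℝ) : ℂ)
          := by push_cast; ring
      rw [e1, Complex.exp_add]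
      set w : ℂ := ((Real.pi * k.val / p : ℝ) : ℂ)
      have e2 : Complex.exp (-w * Complex.I) * Complex.exp (Complex.I * w) = 1 := by
        rw [← Complex.exp_add]; ring_nf; simp
      have e3 : Complex.exp (w * Complex.I) = Complex.exp (Complex.I * w) := by ring_nf
      rw [e3]
      have : -2 * Complex.I * ((Complex.exp (-w * Complex.I) - Complex.exp (Complex.I * w)) *
          Complex.I / 2) * Complex.exp (Complex.I * w) =
          -(Complex.I * Complex.I) * (Complex.exp (-w * Complex.I) * Complex.exp (Complex.I * w) -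
            Complex.exp (Complex.I * w) * Complex.exp (Complex.I * w)) := by ring
      rw [this, e2, Complex.I_mul_I]
      ring
    rw [h3, norm_mul, norm_mul, norm_mul, norm_neg, Complex.norm_I, mul_one,
      mul_comm Complex.I (t : ℂ), Complex.norm_exp_ofReal_mul_I, mul_one, ← Complex.ofReal_sin,
      Complex.norm_real, Real.norm_eq_abs]
    norm_num
  rw [h2]
  have hpi := Real.pi_pos
  by_cases hc : 2 * k.val ≤ p
  · have h4 : (dz k : ℝ) = k.val := by
      unfold dz; rw [min_eq_left (by omega)]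
    have hc' : 2 * (k.val : ℝ) ≤ p := by exact_mod_cast hc
    have h5 : 2 / Real.pi * t ≤ Real.sin t := by
      refine Real.mul_le_sin (by positivity) ?_
      rw [ht, div_le_div_iff₀ hp (by norm_num)]
      nlinarith
    have h6 : 2 / Real.pi * t = 2 * k.val / p := by rw [ht]; field_simp
    rw [h4]
    have h7 := le_abs_self (Real.sin t)
    rw [h6] at h5
    have h8 : 4 * (k.val : ℝ) / p = 2 * (2 * k.val / p) := by ring
    rw [h8]; linarith
  · have h4 : (dz k : ℝ) = p - k.val := by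
      unfold dz; rw [min_eq_right (by omega)]
      rw [Nat.cast_sub hval.le]
    have hc' : (p : ℝ) < 2 * k.val := by
      push Not at hc; exact_mod_cast hc
    have hv' : (k.val : ℝ) ≤ p := by exact_mod_cast hval.le
    have h5 : 2 / Real.pi * (Real.pi - t) ≤ Real.sin (Real.pi - t) := by
      refine Real.mul_le_sin ?_ ?_
      · rw [ht, sub_nonneg, div_le_iff₀ hp]; nlinarith
      · rw [ht, sub_le_iff_le_add, ← sub_le_iff_le_add', le_div_iff₀ hp]
        nlinarith
    rw [Real.sin_pi_sub] at h5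
    have h6 : 2 / Real.pi * (Real.pi - t) = 2 * (p - k.val) / p := by rw [ht]; field_simp
    rw [h4]
    have h7 := le_abs_self (Real.sin t)
    rw [h6] at h5
    have h8 : 4 * ((p : ℝ) - k.val) / p = 2 * (2 * (p - k.val) / p) := by ring
    rw [h8]; linarith

lemma dz_pos (k : ZMod p) (hk : k ≠ 0) : 0 < dz k := by
  unfold dz
  have h1 : k.val < p := ZMod.val_lt k
  have h2 : 0 < k.val := Nat.pos_of_ne_zero (by rwa [Ne, ZMod.val_eq_zero])
  exact lt_min h2 (by omega)

lemma geom_bound (z : ℂ) (hz : ‖z‖ = 1) (h1 : z ≠ 1) (h : ℕ) :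
    ‖∑ j ∈ range h, z ^ (j + 1)‖ ≤ 2 / ‖1 - z‖ := by
  have h2 : 0 < ‖1 - z‖ := norm_pos_iff.mpr (sub_ne_zero.mpr h1.symm)
  rw [le_div_iff₀ h2, ← norm_mul]
  have h3 : (∑ j ∈ range h, z ^ (j + 1)) * (1 - z) = z - z ^ (h + 1) := by
    induction h with
    | zero => simp
    | succ h ih => rw [Finset.sum_range_succ, add_mul, ih]; ring
  rw [h3]
  calc ‖z - z ^ (h + 1)‖ ≤ ‖z‖ + ‖z ^ (h + 1)‖ := norm_sub_le _ _
    _ = 2 := by rw [norm_pow, hz]; norm_num

lemma ft1_sg_le (hp : p ≠ 2) (k : ZMod p) (hk : k ≠ 0) :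
    ‖ft1 (cx (sg (p := p))) k‖ ≤ 1 / dz k := by
  have hp0 : (0 : ℝ) < p := by exact_mod_cast (Fact.out : p.Prime).pos
  have hdz : (0 : ℝ) < dz k := by exact_mod_cast dz_pos k hk
  have h0 : 0 < 4 * (dz k : ℝ) / p := by positivity
  have h1 := norm_one_sub_chi k
  have hne : chi k ≠ 1 := by
    intro h; rw [h] at h1; simp at h1; linarith
  have hconj : ‖1 - chi (-k)‖ = ‖1 - chi k‖ := by
    rw [chi_neg, ← RCLike.norm_conj (1 - chi k), map_sub, map_one]
  have hne' : chi (-k) ≠ 1 := by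
    intro h; rw [h, sub_self, norm_zero] at hconj
    linarith
  rw [ft1_sg hp, norm_mul, norm_inv, Complex.norm_natCast]
  have h2 := geom_bound (chi k) (norm_chi k) hne ((p - 1) / 2)
  have h3 := geom_bound (chi (-k)) (norm_chi _) hne' ((p - 1) / 2)
  rw [hconj] at h3
  have h4 : 2 / ‖1 - chi k‖ ≤ p / (2 * dz k) := by
    rw [div_le_div_iff₀ (by linarith) (by positivity)]
    have := mul_le_mul_of_nonneg_left h1 hp0.le
    have h5 : (p : ℝ) * (4 * dz k / p) = 4 * dz k := by field_simp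
    linarith
  calc (p : ℝ)⁻¹ * ‖∑ j ∈ range ((p - 1) / 2), chi (-k) ^ (j + 1) -
      ∑ j ∈ range ((p - 1) / 2), chi k ^ (j + 1)‖ ≤
      (p : ℝ)⁻¹ * (p / (2 * dz k) + p / (2 * dz k)) :=
        mul_le_mul_of_nonneg_left ((norm_sub_le _ _).trans (add_le_add (h3.trans h4)
          (h2.trans h4))) (by positivity)
    _ = 1 / dz k := by field_simp; norm_num

lemma ft1_sg_zero (hp : p ≠ 2) : ft1 (cx (sg (p := p))) 0 = 0 := by
  rw [ft1_sg hp]; simp

lemma n1_sg (hp : p ≠ 2) : n1 (cx (sg (p := p))) ≤ 2 * (1 + Real.log p) := by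
  have hp1 := (Fact.out : p.Prime).one_lt
  have hne : NeZero p := ⟨(Fact.out : p.Prime).ne_zero⟩
  unfold n1
  -- compare with `∑ 1/j + 1/(p-j)`
  have h1 : ∀ k : ZMod p, ‖ft1 (cx (sg (p := p))) k‖ ≤
      if k = 0 then 0 else 1 / (k.val : ℝ) + 1 / ((-k).val : ℝ) := by
    intro k
    by_cases hk : k = 0
    · rw [if_pos hk, hk, ft1_sg_zero hp, norm_zero]
    · rw [if_neg hk]
      refine (ft1_sg_le hp k hk).trans ?_
      have : NeZero k := ⟨hk⟩
      have h2 : (-k).val = p - k.val := ZMod.val_neg_of_ne_zero k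
      rw [h2]
      unfold dz
      rcases min_choice k.val (p - k.val) with h | h
      · rw [h]
        have : (0 : ℝ) ≤ 1 / ((p - k.val : ℕ) : ℝ) := by positivity
        linarith
      · rw [h]
        have : (0 : ℝ) ≤ 1 / (k.val : ℝ) := by positivity
        linarith
  have h3 : ∑ k : ZMod p, (if k = 0 then (0 : ℝ) else 1 / (k.val : ℝ) + 1 / ((-k).val : ℝ)) ≤
      2 * ∑ k : ZMod p, (if k = 0 then (0 : ℝ) else 1 / (k.val : ℝ)) := by
    rw [two_mul]
    have h4 : ∑ k : ZMod p, (if k = 0 then (0 : ℝ) else 1 / (k.val : ℝ)) =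
        ∑ k : ZMod p, (if k = 0 then (0 : ℝ) else 1 / ((-k).val : ℝ)) := by
      refine Fintype.sum_equiv (Equiv.neg _) _ _ fun k => ?_
      simp only [Equiv.neg_apply, neg_neg, neg_eq_zero]
    conv_rhs => rw [h4]
    conv_rhs => rw [← h4]
    rw [show (∑ k : ZMod p, (if k = 0 then (0 : ℝ) else 1 / (k.val : ℝ))) +
      (∑ k : ZMod p, (if k = 0 then (0 : ℝ) else 1 / (k.val : ℝ))) =
      (∑ k : ZMod p, (if k = 0 then (0 : ℝ) else 1 / (k.val : ℝ))) +
      (∑ k : ZMod p, (if k = 0 then (0 : ℝ) else 1 / ((-k).val : ℝ))) by rw [← h4],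
      ← Finset.sum_add_distrib]
    refine Finset.sum_le_sum fun k _ => ?_
    split_ifs <;> simp
  have h5 : ∑ k : ZMod p, (if k = 0 then (0 : ℝ) else 1 / (k.val : ℝ)) =
      ∑ j ∈ range (p - 1), 1 / ((j : ℝ) + 1) := by
    have h6 : ∑ k : ZMod p, (if k = 0 then (0 : ℝ) else 1 / (k.val : ℝ)) =
        ∑ j ∈ range p, (if j = 0 then (0 : ℝ) else 1 / (j : ℝ)) := by
      rw [← Fin.sum_univ_eq_sum_range (fun j => if j = 0 then (0 : ℝ) else 1 / (j : ℝ)) p]
      refine Fintype.sum_equiv (ZMod.finEquiv p).symm.toEquiv _ _ fun x => ?_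
      have h7 : (((ZMod.finEquiv p).symm x : Fin p) : ℕ) = x.val := by
        obtain ⟨q, rfl⟩ : ∃ q, p = q + 1 := ⟨p - 1, by omega⟩
        rfl
      simp only [RingEquiv.toEquiv_eq_coe, EquivLike.coe_coe]
      rw [h7]
      simp [ZMod.val_eq_zero]
    rw [h6]
    have h8 : p = (p - 1) + 1 := by omega
    conv_lhs => rw [h8]
    rw [Finset.sum_range_succ']
    simp
  have h9 : ∑ j ∈ range (p - 1), 1 / ((j : ℝ) + 1) ≤ 1 + Real.log p := by
    have h10 := harmonic_le_one_add_log (p - 1)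
    have h11 : ((harmonic (p - 1) : ℚ) : ℝ) = ∑ j ∈ range (p - 1), 1 / ((j : ℝ) + 1) := by
      unfold harmonic
      push_cast
      refine Finset.sum_congr rfl fun j _ => ?_
      rw [one_div]
    rw [← h11]
    refine h10.trans ?_
    have : Real.log ((p - 1 : ℕ) : ℝ) ≤ Real.log p :=
      Real.log_le_log (by exact_mod_cast (by omega : 0 < p - 1)) (by exact_mod_cast (by omega))
    linarith
  calc _ ≤ _ := Finset.sum_le_sum fun k _ => h1 k
    _ ≤ _ := h3
    _ ≤ _ := by rw [h5]; linarith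

end Pool.Agent.W862.Kom
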