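import Pool.Agent.W862.Kom.Tri
import Pool.Agent.W862.Kom.Sgn

/-!
# The weights `ν`
-/

namespace Pool.Agent.W862.Kom

open Finset

section
variable {p : ℕ} [Fact p.Prime]

lemma dz_eq (z : ℤ) : (dz (z : ZMod p) : ℝ) = p * nr (z / p) := by
  have hp0 : (0 : ℝ) < p := Npos (N := p)
  have h1 : nr ((z : ℝ) / p) = nr (((z : ZMod p).val : ℝ) / p) := by
    have h2 : (((z : ZMod p).val : ℤ)) = z % p := ZMod.val_intCast z
    have h3 := Int.emod_add_mul_ediv z p
    have h4 : (z : ℝ) = (((z : ZMod p).val : ℝ)) + p * ((z / (p : ℤ) : ℤ) : ℝ) := by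
      have : (z : ℝ) = ((z % p + p * (z / p) : ℤ) : ℝ) := by rw [h3]
      rw [this, ← h2]; push_cast; ring
    have h5 : (z : ℝ) / p = ((z : ZMod p).val : ℝ) / p + ((z / (p : ℤ) : ℤ) : ℝ) := by
      rw [h4]; field_simp
    rw [h5, nr_add_int]
  rw [h1]
  have h6 := AddCircle.norm_div_natCast (p := (1 : ℝ)) (m := (z : ZMod p).val) (n := p)
  rw [mul_one, one_mul, Nat.mod_eq_of_lt (ZMod.val_lt _)] at h6
  unfold nr
  have h7 : ‖((((z : ZMod p).val : ℝ) / p : ℝ) : UnitAddCircle)‖ =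
      (min (z : ZMod p).val (p - (z : ZMod p).val) : ℕ) / (p : ℝ) := h6
  rw [h7]
  unfold dz
  field_simp

lemma dz_eq' (j : ZMod p) (m : ℤ) : (dz (j - (m : ZMod p)) : ℝ) = p * nr ((j.val - m) / p) := by
  have h : j - (m : ZMod p) = (((j.val : ℤ) - m : ℤ) : ZMod p) := by
    push_cast; simp
  rw [h, dz_eq]; push_cast; rfl

lemma dz_zero : dz (0 : ZMod p) = 0 := by unfold dz; simp

lemma dz_neg (x : ZMod p) : dz (-x) = dz x := by
  by_cases hx : x = 0
  · rw [hx, neg_zero]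
  · have : NeZero x := ⟨hx⟩
    have h1 : (-x).val = p - x.val := ZMod.val_neg_of_ne_zero x
    have h2 := ZMod.val_lt x
    unfold dz; rw [h1, min_comm]; congr 1; omega

lemma dz_add_le (x : ZMod p) (m : ℤ) : (dz (x + (m : ZMod p)) : ℝ) ≤ dz x + |(m : ℝ)| := by
  have hp0 : (0 : ℝ) < p := Npos (N := p)
  have h1 := dz_eq' x 0
  have h2 := dz_eq' x (-m)
  rw [Int.cast_zero, sub_zero] at h1
  rw [Int.cast_neg, sub_neg_eq_add] at h2
  rw [h1, h2]
  have h3 := nr_lip (((x.val : ℝ) - ((-m : ℤ) : ℝ)) / p) (((x.val : ℝ) - ((0 : ℤ) : ℝ)) / p)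
  have h4 : ((x.val : ℝ) - ((-m : ℤ) : ℝ)) / p - ((x.val : ℝ) - ((0 : ℤ) : ℝ)) / p = m / p := by
    push_cast; ring
  rw [h4, abs_div, abs_of_pos hp0] at h3
  have := mul_le_mul_of_nonneg_left h3 hp0.le
  rw [mul_add] at this
  have h5 : (p : ℝ) * (|(m : ℝ)| / p) = |(m : ℝ)| := by field_simp
  rw [h5] at this
  exact this

/-- the weight -/
noncomputable def nu (η : ℝ) (x : ZMod p) : ℝ := (1 + (dz x : ℝ)) ^ (-(1 + η))

lemma nu_pos (η : ℝ) (x : ZMod p) : 0 < nu η x := by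
  unfold nu; positivity

lemma nu_neg (η : ℝ) (x : ZMod p) : nu η (-x) = nu η x := by unfold nu; rw [dz_neg]

lemma nu_zero (η : ℝ) : nu η (0 : ZMod p) = 1 := by
  unfold nu; rw [dz_zero]; simp

lemma rpow_ge_sq {x η : ℝ} (hx : 1 ≤ x) (hη : η ≤ 1) : (x ^ 2)⁻¹ ≤ x ^ (-(1 + η)) := by
  have h1 : (x ^ 2)⁻¹ = x ^ (-(2 : ℝ)) := by
    rw [Real.rpow_neg (by linarith)]; norm_cast
  rw [h1]
  exact Real.rpow_le_rpow_of_exponent_le hx (by linarith)

/-- shifts by at most 2 cost a factor 9 -/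
lemma nu_shift (η : ℝ) (h0 : 0 ≤ η) (h1 : η ≤ 1) (x y : ZMod p) (hxy : (dz y : ℝ) ≤ dz x + 2) :
    nu η x ≤ 9 * nu η y := by
  unfold nu
  have hx : (0 : ℝ) ≤ dz x := Nat.cast_nonneg _
  have hy : (0 : ℝ) ≤ dz y := Nat.cast_nonneg _
  have h2 : 1 + (dz y : ℝ) ≤ 3 * (1 + dz x) := by linarith
  have h3 : (3 * (1 + (dz x : ℝ))) ^ (-(1 + η)) ≤ (1 + (dz y : ℝ)) ^ (-(1 + η)) :=
    Real.rpow_le_rpow_of_nonpos (by linarith) h2 (by linarith)
  rw [Real.mul_rpow (by norm_num) (by linarith)] at h3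
  have h4 : (1 / 9 : ℝ) ≤ 3 ^ (-(1 + η)) := by
    have := rpow_ge_sq (x := 3) (by norm_num) h1
    norm_num at this ⊢
    linarith
  have h5 : 0 ≤ (1 + (dz x : ℝ)) ^ (-(1 + η)) := by positivity
  have h6 := mul_le_mul_of_nonneg_right h4 h5
  linarith

lemma real_comb (η c a b u m : ℝ) (hη0 : 0 < η) (hη1 : η ≤ 1) (ha : 0 ≤ a) (hab : a ≤ b)
    (hu0 : 0 ≤ u) (hu1 : u ≤ 1) (h1 : a * u ≤ 1) (h2 : a * b * u ≤ 2 * Real.pi * |c|)
    (hm0 : 0 ≤ m) (hm : m ≤ a + 1) :
    u ≤ 32 * (1 + |c|) ^ η * (1 + m) ^ (-(1 + η)) := by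
  have hc := abs_nonneg c
  have hC1 : 1 ≤ (1 + |c|) ^ η := Real.one_le_rpow (by linarith) hη0.le
  rcases le_or_gt a 2 with ha2 | ha2
  · have h3 : (1 / 16 : ℝ) ≤ (1 + m) ^ (-(1 + η)) := by
      refine le_trans ?_ (rpow_ge_sq (by linarith) hη1)
      rw [one_div]
      refine inv_anti₀ (by positivity) ?_
      nlinarith
    have h4 : 32 * 1 * (1 / 16) ≤ 32 * (1 + |c|) ^ η * (1 + m) ^ (-(1 + η)) := by
      refine mul_le_mul ?_ h3 (by norm_num) (by positivity)
      linarith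
    linarith
  · have ha0 : 0 < a := by linarith
    have h3 : (2 * a) ^ (-(1 + η)) ≤ (1 + m) ^ (-(1 + η)) :=
      Real.rpow_le_rpow_of_nonpos (by linarith) (by linarith) (by linarith)
    rw [Real.mul_rpow (by norm_num) ha0.le] at h3
    have h4 : (1 / 4 : ℝ) ≤ 2 ^ (-(1 + η)) := by
      have := rpow_ge_sq (x := 2) (by norm_num) hη1
      norm_num at this ⊢
      linarith
    have h5 : 0 < a ^ (-(1 + η)) := by positivity
    have h6 : (1 / 4) * a ^ (-(1 + η)) ≤ (1 + m) ^ (-(1 + η)) :=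
      (mul_le_mul_of_nonneg_right h4 h5.le).trans h3
    -- `u ≤ 2π (1+|c|)^η a^(-(1+η))`
    have h7 : u ≤ 2 * Real.pi * ((1 + |c|) ^ η * a ^ (-(1 + η))) := by
      have h8 : a ^ (-(1 + η)) = a⁻¹ * (a ^ η)⁻¹ := by
        rw [neg_add, Real.rpow_add ha0, Real.rpow_neg_one, Real.rpow_neg ha0.le]
      have h9 : (1 + |c|) ^ η * a ^ (-(1 + η)) = a⁻¹ * ((1 + |c|) / a) ^ η := by
        rw [h8, Real.div_rpow (by linarith) ha0.le]; ring
      rw [h9]
      have hpi : 3 < Real.pi := Real.pi_gt_three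
      rcases le_or_gt 1 ((1 + |c|) / a) with hr | hr
      · have h10 : 1 ≤ ((1 + |c|) / a) ^ η := Real.one_le_rpow hr hη0.le
        have h11 : u ≤ a⁻¹ := by
          rw [← one_div, le_div_iff₀ ha0, mul_comm]; exact h1
        have h12 : 0 < a⁻¹ := by positivity
        calc u ≤ 1 * (a⁻¹ * 1) := by linarith
          _ ≤ 2 * Real.pi * (a⁻¹ * ((1 + |c|) / a) ^ η) := by
              refine mul_le_mul (by linarith) (mul_le_mul_of_nonneg_left h10 h12.le)
                (by positivity) (by positivity)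
      · have h10 : (1 + |c|) / a ≤ ((1 + |c|) / a) ^ η := by
          have h0 : 0 < (1 + |c|) / a := by positivity
          calc (1 + |c|) / a = ((1 + |c|) / a) ^ (1 : ℝ) := (Real.rpow_one _).symm
            _ ≤ _ := Real.rpow_le_rpow_of_exponent_ge h0 hr.le hη1
        have h11 : a * a * u ≤ 2 * Real.pi * |c| := by
          refine le_trans ?_ h2
          exact mul_le_mul_of_nonneg_right (mul_le_mul_of_nonneg_left hab ha0.le) hu0
        have h12 : u ≤ 2 * Real.pi * (a⁻¹ * (|c| / a)) := by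
          have : 2 * Real.pi * (a⁻¹ * (|c| / a)) = 2 * Real.pi * |c| / (a * a) := by
            field_simp
          rw [this, le_div_iff₀ (by positivity)]
          linarith
        refine h12.trans ?_
        refine mul_le_mul_of_nonneg_left (mul_le_mul_of_nonneg_left ?_ (by positivity))
          (by positivity)
        refine le_trans ?_ h10
        exact div_le_div_of_nonneg_right (by linarith) ha0.le
    have hpi4 : Real.pi ≤ 4 := Real.pi_le_four
    have h13 : 0 ≤ (1 + |c|) ^ η * a ^ (-(1 + η)) := by positivity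
    calc u ≤ 2 * Real.pi * ((1 + |c|) ^ η * a ^ (-(1 + η))) := h7
      _ ≤ 8 * ((1 + |c|) ^ η * a ^ (-(1 + η))) := by
          refine mul_le_mul_of_nonneg_right (by linarith) h13
      _ = 32 * (1 + |c|) ^ η * ((1 / 4) * a ^ (-(1 + η))) := by ring
      _ ≤ _ := mul_le_mul_of_nonneg_left h6 (by positivity)

/-- the main bound for the transform of `e (c τ)` -/
lemma That_bound (hp : 5 ≤ p) (η : ℝ) (hη0 : 0 < η) (hη1 : η ≤ 1) (c : ℝ) (j : ZMod p) :
    ‖That p c j‖ ≤ 32 * (1 + |c|) ^ η *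
      (nu η (j - ((⌊c⌋ : ℤ) : ZMod p)) + nu η (j + ((⌊c⌋ : ℤ) : ZMod p))) := by
  have hp0 : (0 : ℝ) < p := Npos (N := p)
  set a := p * nr ((j.val - c) / p) with ha
  set b := p * nr ((j.val + c) / p) with hb
  have ha0 : 0 ≤ a := mul_nonneg hp0.le (nr_nonneg _)
  have hb0 : 0 ≤ b := mul_nonneg hp0.le (nr_nonneg _)
  have hfl : |c - ⌊c⌋| ≤ 1 := by
    rw [abs_of_nonneg (sub_nonneg.mpr (Int.floor_le c))]
    linarith [Int.lt_floor_add_one c]
  have hm1 : (dz (j - ((⌊c⌋ : ℤ) : ZMod p)) : ℝ) ≤ a + 1 := by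
    rw [dz_eq', ha]
    have h := nr_lip (((j.val : ℝ) - (⌊c⌋ : ℝ)) / p) (((j.val : ℝ) - c) / p)
    have h2 : ((j.val : ℝ) - (⌊c⌋ : ℝ)) / p - ((j.val : ℝ) - c) / p = (c - ⌊c⌋) / p := by ring
    rw [h2, abs_div, abs_of_pos hp0] at h
    have h3 := mul_le_mul_of_nonneg_left h hp0.le
    have h4 : (p : ℝ) * (nr (((j.val : ℝ) - c) / p) + |c - ⌊c⌋| / p) =
        p * nr (((j.val : ℝ) - c) / p) + |c - ⌊c⌋| := by field_simp
    rw [h4] at h3
    linarith
  have hm2 : (dz (j + ((⌊c⌋ : ℤ) : ZMod p)) : ℝ) ≤ b + 1 := by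
    have h0 : j + ((⌊c⌋ : ℤ) : ZMod p) = j - ((-⌊c⌋ : ℤ) : ZMod p) := by push_cast; ring
    rw [h0, dz_eq', hb]
    have h := nr_lip (((j.val : ℝ) - ((-⌊c⌋ : ℤ) : ℝ)) / p) (((j.val : ℝ) + c) / p)
    have h2 : ((j.val : ℝ) - ((-⌊c⌋ : ℤ) : ℝ)) / p - ((j.val : ℝ) + c) / p =
        -((c - ⌊c⌋) / p) := by push_cast; ring
    rw [h2, abs_neg, abs_div, abs_of_pos hp0] at h
    have h3 := mul_le_mul_of_nonneg_left h hp0.le
    have h4 : (p : ℝ) * (nr (((j.val : ℝ) + c) / p) + |c - ⌊c⌋| / p) =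
        p * nr (((j.val : ℝ) + c) / p) + |c - ⌊c⌋| := by field_simp
    rw [h4] at h3
    linarith
  have hsec : a * b * ‖That p c j‖ ≤ 2 * Real.pi * |c| := by
    have h := mul_le_mul_of_nonneg_left (That_second hp c j) (by positivity : (0 : ℝ) ≤ p ^ 2)
    have e1 : (p : ℝ) ^ 2 * (2 * Real.pi * |c| / p ^ 2) = 2 * Real.pi * |c| := by field_simp
    rw [e1] at h
    calc _ = (p : ℝ) ^ 2 * (nr ((j.val - c) / p) * nr ((j.val + c) / p) * ‖That p c j‖) := by
          rw [ha, hb]; ring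
      _ ≤ _ := h
  obtain ⟨z, w, hzw, hz, hw⟩ := That_first hp c j
  have hz' : a * ‖z‖ ≤ 1 / 2 := by
    have h := mul_le_mul_of_nonneg_left hz hp0.le
    have e1 : (p : ℝ) * (1 / (2 * p)) = 1 / 2 := by field_simp
    rw [e1] at h
    rw [ha]; linarith
  have hw' : b * ‖w‖ ≤ 1 / 2 := by
    have h := mul_le_mul_of_nonneg_left hw hp0.le
    have e1 : (p : ℝ) * (1 / (2 * p)) = 1 / 2 := by field_simp
    rw [e1] at h
    rw [hb]; linarith
  have htri : ‖That p c j‖ ≤ ‖z‖ + ‖w‖ := by rw [hzw]; exact norm_add_le _ _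
  have hn1 := nu_pos η (j - ((⌊c⌋ : ℤ) : ZMod p))
  have hn2 := nu_pos η (j + ((⌊c⌋ : ℤ) : ZMod p))
  have hC : 0 ≤ 32 * (1 + |c|) ^ η := by positivity
  rcases le_total a b with hab | hab
  · have h := real_comb η c a b ‖That p c j‖ (dz (j - ((⌊c⌋ : ℤ) : ZMod p))) hη0 hη1 ha0 hab
      (norm_nonneg _) (That_le_one c j) (by
        have : a * ‖w‖ ≤ b * ‖w‖ := mul_le_mul_of_nonneg_right hab (norm_nonneg _)
        calc a * ‖That p c j‖ ≤ a * (‖z‖ + ‖w‖) := mul_le_mul_of_nonneg_left htri ha0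
          _ ≤ 1 := by linarith) hsec (Nat.cast_nonneg _) hm1
    refine h.trans (mul_le_mul_of_nonneg_left ?_ hC)
    have : (1 + (dz (j - ((⌊c⌋ : ℤ) : ZMod p)) : ℝ)) ^ (-(1 + η)) =
        nu η (j - ((⌊c⌋ : ℤ) : ZMod p)) := rfl
    rw [this]; linarith
  · have h := real_comb η c b a ‖That p c j‖ (dz (j + ((⌊c⌋ : ℤ) : ZMod p))) hη0 hη1 hb0 hab
      (norm_nonneg _) (That_le_one c j) (by
        have : b * ‖z‖ ≤ a * ‖z‖ := mul_le_mul_of_nonneg_right hab (norm_nonneg _)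
        calc b * ‖That p c j‖ ≤ b * (‖z‖ + ‖w‖) := mul_le_mul_of_nonneg_left htri hb0
          _ ≤ 1 := by linarith) (by rw [mul_comm b a]; exact hsec) (Nat.cast_nonneg _) hm2
    refine h.trans (mul_le_mul_of_nonneg_left ?_ hC)
    have : (1 + (dz (j + ((⌊c⌋ : ℤ) : ZMod p)) : ℝ)) ^ (-(1 + η)) =
        nu η (j + ((⌊c⌋ : ℤ) : ZMod p)) := rfl
    rw [this]; linarith

/-- low frequencies -/
lemma That_low (hp : 5 ≤ p) (η : ℝ) (hη0 : 0 < η) (hη1 : η ≤ 1) (c : ℝ) (hc : |c| ≤ 1)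
    (j : ZMod p) :
    ‖That p c j - (if j = 0 then 1 else 0)‖ ≤ 80 * |c| * nu η j := by
  have hp0 : (0 : ℝ) < p := Npos (N := p)
  have hpi := Real.pi_pos
  have hpi4 := Real.pi_le_four
  have hc0 := abs_nonneg c
  have hall : ‖That p c j - (if j = 0 then 1 else 0)‖ ≤ Real.pi / 2 * |c| := by
    have h1 : That p c j - (if j = 0 then 1 else 0) = fN (fun x => uc p c x - 1) j := by
      rw [fN_sub]
      unfold That
      rw [← fN_eq_ft1, fN_eq_ft1 (fun _ => (1 : ℂ)), ft1_one]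
    rw [h1]
    have h2 := norm_fN_le (fun x => uc p c x - 1) j univ (Real.pi / 2 * |c|)
      (fun x hx => absurd (Finset.mem_univ x) hx) (by
        intro x _
        unfold uc
        refine (norm_ex_sub_one_le _).trans ?_
        have h3 : 2 * |((tz x : ℤ) : ℝ)| ≤ p := by exact_mod_cast tz_abs x
        rw [abs_div, abs_mul, abs_of_pos (by positivity : (0 : ℝ) < 2 * p)]
        have h4 : |c| * |((tz x : ℤ) : ℝ)| / (2 * p) ≤ |c| * (p / 2) / (2 * p) :=
          div_le_div_of_nonneg_right (mul_le_mul_of_nonneg_left (by linarith) hc0) (by positivity)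
        calc _ ≤ 2 * Real.pi * (|c| * (p / 2) / (2 * p)) :=
              mul_le_mul_of_nonneg_left h4 (by positivity)
          _ = _ := by field_simp)
    rw [Finset.card_univ, ZMod.card] at h2
    refine h2.trans (le_of_eq ?_)
    field_simp
  rcases Nat.lt_or_ge (dz j) 2 with hd | hd
  · have h3 : (1 / 4 : ℝ) ≤ nu η j := by
      unfold nu
      have hd' : (dz j : ℝ) ≤ 1 := by exact_mod_cast (by omega : dz j ≤ 1)
      have hd0 : (0 : ℝ) ≤ dz j := Nat.cast_nonneg _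
      refine le_trans ?_ (rpow_ge_sq (by linarith) hη1)
      rw [one_div]
      refine inv_anti₀ (by positivity) ?_
      nlinarith
    have h4 : 80 * |c| * (1 / 4) ≤ 80 * |c| * nu η j :=
      mul_le_mul_of_nonneg_left h3 (by positivity)
    refine hall.trans (le_trans ?_ h4)
    nlinarith
  · have hd' : (2 : ℝ) ≤ dz j := by exact_mod_cast hd
    have hj : j ≠ 0 := by
      intro h; rw [h, dz_zero] at hd; omega
    rw [if_neg hj, sub_zero]
    set a := p * nr ((j.val - c) / p) with ha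
    set b := p * nr ((j.val + c) / p) with hb
    have hdz : (dz j : ℝ) = p * nr (j.val / p) := by
      have := dz_eq' j 0
      rw [Int.cast_zero, sub_zero, Int.cast_zero, sub_zero] at this
      exact this
    have ha1 : (dz j : ℝ) / 2 ≤ a := by
      have h := nr_lip ((j.val : ℝ) / p) (((j.val : ℝ) - c) / p)
      have h2 : (j.val : ℝ) / p - ((j.val : ℝ) - c) / p = c / p := by ring
      rw [h2, abs_div, abs_of_pos hp0] at h
      have h3 := mul_le_mul_of_nonneg_left h hp0.le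
      have h4 : (p : ℝ) * (nr (((j.val : ℝ) - c) / p) + |c| / p) =
          p * nr (((j.val : ℝ) - c) / p) + |c| := by field_simp
      rw [h4, ← hdz] at h3
      rw [ha]; linarith
    have hb1 : (dz j : ℝ) / 2 ≤ b := by
      have h := nr_lip ((j.val : ℝ) / p) (((j.val : ℝ) + c) / p)
      have h2 : (j.val : ℝ) / p - ((j.val : ℝ) + c) / p = -(c / p) := by ring
      rw [h2, abs_neg, abs_div, abs_of_pos hp0] at h
      have h3 := mul_le_mul_of_nonneg_left h hp0.le
      have h4 : (p : ℝ) * (nr (((j.val : ℝ) + c) / p) + |c| / p) =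
          p * nr (((j.val : ℝ) + c) / p) + |c| := by field_simp
      rw [h4, ← hdz] at h3
      rw [hb]; linarith
    have hsec : a * b * ‖That p c j‖ ≤ 2 * Real.pi * |c| := by
      have h := mul_le_mul_of_nonneg_left (That_second hp c j) (by positivity : (0 : ℝ) ≤ p ^ 2)
      have e1 : (p : ℝ) ^ 2 * (2 * Real.pi * |c| / p ^ 2) = 2 * Real.pi * |c| := by field_simp
      rw [e1] at h
      calc _ = (p : ℝ) ^ 2 * (nr ((j.val - c) / p) * nr ((j.val + c) / p) * ‖That p c j‖) := by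
            rw [ha, hb]; ring
        _ ≤ _ := h
    have h5 : (dz j : ℝ) / 2 * (dz j / 2) * ‖That p c j‖ ≤ 8 * |c| := by
      have h6 : (dz j : ℝ) / 2 * (dz j / 2) ≤ a * b :=
        mul_le_mul ha1 hb1 (by positivity) (le_trans (by positivity) ha1)
      have h7 := mul_le_mul_of_nonneg_right h6 (norm_nonneg (That p c j))
      have h8 : 2 * Real.pi * |c| ≤ 8 * |c| := by nlinarith
      linarith
    have h9 : ‖That p c j‖ ≤ 32 * |c| / (dz j : ℝ) ^ 2 := by
      rw [le_div_iff₀ (by positivity)]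
      nlinarith
    refine h9.trans ?_
    have h10 : ((1 + (dz j : ℝ)) ^ 2)⁻¹ ≤ nu η j := by
      unfold nu; exact rpow_ge_sq (by linarith) hη1
    have h11 : 32 * |c| / (dz j : ℝ) ^ 2 ≤ 72 * |c| * ((1 + (dz j : ℝ)) ^ 2)⁻¹ := by
      rw [← div_eq_mul_inv, div_le_div_iff₀ (by positivity) (by positivity)]
      have h12 : (1 + (dz j : ℝ)) ^ 2 ≤ 9 / 4 * (dz j : ℝ) ^ 2 := by nlinarith
      have := mul_le_mul_of_nonneg_left h12 (by positivity : (0 : ℝ) ≤ 32 * |c|)
      nlinarith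
    refine h11.trans ?_
    have h13 := mul_le_mul_of_nonneg_left h10 (by positivity : (0 : ℝ) ≤ 72 * |c|)
    have h14 := nu_pos η j
    nlinarith

/-- sums of a function of `dz` -/
lemma sum_dz_le (g : ℕ → ℝ) (hg : ∀ v, 0 ≤ g v) :
    ∑ x : ZMod p, g (dz x) ≤ g 0 + 2 * ∑ j ∈ range (p - 1), g (j + 1) := by
  have hp1 := (Fact.out : p.Prime).one_lt
  have hne : NeZero p := ⟨(Fact.out : p.Prime).ne_zero⟩
  have h1 : ∀ k : ZMod p, g (dz k) ≤
      (if k = 0 then g 0 else 0) + (if k = 0 then 0 else g k.val) +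
        (if -k = 0 then 0 else g (-k).val) := by
    intro k
    by_cases hk : k = 0
    · rw [if_pos hk, if_pos hk, if_pos (by rw [hk, neg_zero]), hk, dz_zero]; simp
    · have hk' : -k ≠ 0 := neg_ne_zero.mpr hk
      rw [if_neg hk, if_neg hk, if_neg hk']
      have : NeZero k := ⟨hk⟩
      have h2 : (-k).val = p - k.val := ZMod.val_neg_of_ne_zero k
      rw [h2]
      unfold dz
      rcases min_choice k.val (p - k.val) with h | h
      · rw [h]; have := hg (p - k.val); linarith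
      · rw [h]; have := hg k.val; linarith
  have h5 : ∑ k : ZMod p, (if k = 0 then (0 : ℝ) else g k.val) = ∑ j ∈ range (p - 1), g (j + 1) := by
    have h6 : ∑ k : ZMod p, (if k = 0 then (0 : ℝ) else g k.val) =
        ∑ j ∈ range p, (if j = 0 then (0 : ℝ) else g j) := by
      rw [← Fin.sum_univ_eq_sum_range (fun j => if j = 0 then (0 : ℝ) else g j) p]
      refine Fintype.sum_equiv (ZMod.finEquiv p).symm.toEquiv _ _ fun x => ?_
      have h7 : (((ZMod.finEquiv p).symm x : Fin p) : ℕ) = x.val := by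
        obtain ⟨q, rfl⟩ : ∃ q, p = q + 1 := ⟨p - 1, by omega⟩
        rfl
      simp only [RingEquiv.toEquiv_eq_coe, EquivLike.coe_coe]
      rw [h7]
      simp [ZMod.val_eq_zero]
    rw [h6]
    have h8 : p = (p - 1) + 1 := by omega
    conv_lhs => rw [h8]
    rw [Finset.sum_range_succ']
    simp
  have h9 : ∑ k : ZMod p, (if -k = 0 then (0 : ℝ) else g (-k).val) =
      ∑ k : ZMod p, (if k = 0 then (0 : ℝ) else g k.val) :=
    Fintype.sum_equiv (Equiv.neg _) _ _ fun k => rfl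
  calc _ ≤ _ := Finset.sum_le_sum fun k _ => h1 k
    _ = g 0 + 2 * ∑ j ∈ range (p - 1), g (j + 1) := by
        rw [Finset.sum_add_distrib, Finset.sum_add_distrib, h9, h5]
        simp only [Finset.sum_ite_eq', Finset.mem_univ, if_true]
        ring

/-- telescoping bound for the tail of `∑ (1+j)^(-1-η)` -/
lemma sum_rpow_le (η : ℝ) (hη : 0 < η) (M : ℕ) :
    ∑ j ∈ range M, (1 + ((j + 1 : ℕ) : ℝ)) ^ (-(1 + η)) ≤ 1 / η := by
  have key : ∀ M : ℕ, ∑ j ∈ range M, (1 + ((j + 1 : ℕ) : ℝ)) ^ (-(1 + η)) ≤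
      1 / η * (1 - ((M : ℝ) + 1) ^ (-η)) := by
    intro M
    induction M with
    | zero => simp
    | succ M ih =>
      rw [Finset.sum_range_succ]
      have hM : (0 : ℝ) ≤ M := Nat.cast_nonneg M
      -- `η (M+2)^(-1-η) ≤ (M+1)^(-η) - (M+2)^(-η)`
      set X : ℝ := (M : ℝ) + 2 with hX
      have hX0 : 0 < X := by positivity
      have h1 : η * X ^ (-(1 + η)) ≤ ((M : ℝ) + 1) ^ (-η) - X ^ (-η) := by
        have h2 : (M : ℝ) + 1 = X * (1 - 1 / X) := by rw [hX]; field_simp; ring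
        have h3 : 0 < 1 - 1 / X := by
          rw [sub_pos, div_lt_one hX0, hX]; linarith
        have h4 : 1 + η / X ≤ (1 - 1 / X) ^ (-η) := by
          rw [Real.rpow_def_of_pos h3]
          have h5 := Real.log_le_sub_one_of_pos h3
          have h6 : η / X ≤ Real.log (1 - 1 / X) * -η := by
            have : Real.log (1 - 1 / X) ≤ -(1 / X) := by linarith
            have h7 := mul_le_mul_of_nonneg_left this hη.le
            have h8 : η * -(1 / X) = -(η / X) := by ring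
            rw [h8] at h7
            linarith
          have h9 := Real.add_one_le_exp (Real.log (1 - 1 / X) * -η)
          linarith
        have h10 : X ^ (-(1 + η)) = X ^ (-η) / X := by
          rw [show -(1 + η) = -η - 1 by ring, Real.rpow_sub_one hX0.ne']
        have h11 : ((M : ℝ) + 1) ^ (-η) = X ^ (-η) * (1 - 1 / X) ^ (-η) := by
          rw [h2, Real.mul_rpow hX0.le h3.le]
        rw [h10, h11]
        have h12 : 0 < X ^ (-η) := by positivity
        have h13 := mul_le_mul_of_nonneg_left h4 h12.le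
        have h14 : X ^ (-η) * (1 + η / X) = X ^ (-η) + η * (X ^ (-η) / X) := by ring
        rw [h14] at h13
        linarith
      have h15 : (1 + ((M + 1 : ℕ) : ℝ)) ^ (-(1 + η)) = X ^ (-(1 + η)) := by
        congr 1; rw [hX]; push_cast; ring
      have h16 : (((M + 1 : ℕ) : ℝ) + 1) ^ (-η) = X ^ (-η) := by
        congr 1; rw [hX]; push_cast; ring
      rw [h15, h16]
      have h17 : X ^ (-(1 + η)) ≤ 1 / η * (((M : ℝ) + 1) ^ (-η) - X ^ (-η)) := by
        rw [one_div, ← div_eq_inv_mul, le_div_iff₀ hη]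
        linarith
      have h18 : 1 / η * (1 - X ^ (-η)) = 1 / η * (1 - ((M : ℝ) + 1) ^ (-η)) +
          1 / η * (((M : ℝ) + 1) ^ (-η) - X ^ (-η)) := by ring
      rw [h18]
      exact add_le_add ih h17
  refine (key M).trans ?_
  have h1 : (0 : ℝ) ≤ ((M : ℝ) + 1) ^ (-η) := by positivity
  have h2 : 0 < 1 / η := by positivity
  nlinarith

lemma sum_nu_le (η : ℝ) (hη : 0 < η) (s : ZMod p) :
    ∑ x : ZMod p, nu η (x - s) ≤ 1 + 2 / η := by
  have h1 : ∑ x : ZMod p, nu η (x - s) = ∑ x : ZMod p, nu η x :=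
    Fintype.sum_equiv (Equiv.subRight s) _ _ fun x => rfl
  rw [h1]
  have h2 := sum_dz_le (p := p) (fun v => (1 + (v : ℝ)) ^ (-(1 + η))) (fun v => by positivity)
  have h3 : ∑ x : ZMod p, nu η x = ∑ x : ZMod p, (1 + (dz x : ℝ)) ^ (-(1 + η)) := rfl
  rw [h3]
  refine h2.trans ?_
  have h4 := sum_rpow_le η hη (p - 1)
  have h5 : (1 + ((0 : ℕ) : ℝ)) ^ (-(1 + η)) = 1 := by simp
  rw [h5]
  have h6 : 2 / η = 2 * (1 / η) := by ring
  rw [h6]
  linarith

end

end Pool.Agent.W862.Kom
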