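import Pool.Agent.W862.Kom.MajU

/-!
# Numerical estimates
-/

namespace Pool.Agent.W862.Kom

open Finset

/-- powers of two -/
noncomputable def e2 (x : ℝ) : ℝ := (2 : ℝ) ^ x

lemma e2_pos (x : ℝ) : 0 < e2 x := by unfold e2; positivity

lemma e2_add (x y : ℝ) : e2 (x + y) = e2 x * e2 y := by
  unfold e2; exact Real.rpow_add (by norm_num) x y

lemma e2_mono {x y : ℝ} (h : x ≤ y) : e2 x ≤ e2 y := by
  unfold e2; exact Real.rpow_le_rpow_of_exponent_le (by norm_num) h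

lemma e2_zero : e2 0 = 1 := by unfold e2; simp

lemma e2_nat (k : ℕ) : e2 k = 2 ^ k := by unfold e2; exact Real.rpow_natCast 2 k

lemma e2_pow (x : ℝ) (k : ℕ) : e2 x ^ k = e2 (k * x) := by
  unfold e2
  rw [← Real.rpow_natCast, ← Real.rpow_mul (by norm_num)]
  congr 1; ring

lemma e2_neg (x : ℝ) : e2 (-x) = (e2 x)⁻¹ := by
  unfold e2; exact Real.rpow_neg (by norm_num) x

lemma e2_one : e2 1 = 2 := by unfold e2; simp

lemma e2_ge (x : ℝ) : 1 + x / 2 ≤ e2 x ∨ x < 0 := by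
  rcases lt_or_ge x 0 with h | h
  · right; exact h
  · left
    unfold e2
    rw [Real.rpow_def_of_pos (by norm_num)]
    have h1 := Real.add_one_le_exp (Real.log 2 * x)
    have h2 : (1 : ℝ) / 2 ≤ Real.log 2 := by
      have := Real.log_two_gt_d9
      linarith
    nlinarith

lemma succ_le_e2 (l : ℕ) : (l : ℝ) + 1 ≤ e2 ((l : ℝ) / 16 + 5) := by
  have hl : (0 : ℝ) ≤ l := Nat.cast_nonneg _
  rw [e2_add]
  have h5 : e2 5 = 32 := by
    have := e2_nat 5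
    norm_num at this
    exact this
  rw [h5]
  rcases e2_ge ((l : ℝ) / 16) with h | h
  · linarith
  · linarith

lemma EE_nonneg (C ε : ℝ) (hC : 0 ≤ C) (hε : 0 < ε) (l : ℕ) (q : ℝ) (hq : 0 ≤ q) :
    0 ≤ EE C ε l q := by
  unfold EE; positivity

lemma EE_le (C : ℝ) (hC0 : 0 ≤ C) (hC : C ≤ 16) (l : ℕ) (q x : ℝ) (hq : 0 ≤ q)
    (hx : q ≤ e2 (128 * x)) :
    EE C (1 / 256) l q ≤ e2 (20 + 25 * l + (l : ℝ) ^ 2 / 16 + x) := by
  have hl : (0 : ℝ) ≤ l := Nat.cast_nonneg _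
  have h1 : q ^ (2 * (1 / 256 : ℝ)) ≤ e2 x := by
    calc q ^ (2 * (1 / 256 : ℝ)) ≤ (e2 (128 * x)) ^ (2 * (1 / 256 : ℝ)) :=
          Real.rpow_le_rpow hq hx (by norm_num)
      _ = e2 x := by
          unfold e2
          rw [← Real.rpow_mul (by norm_num)]
          congr 1; ring
  have h2 : (1 + 2 / ((1 / 256 : ℝ) / ((l : ℝ) + 1))) ≤ 513 * ((l : ℝ) + 1) := by
    have : 2 / ((1 / 256 : ℝ) / ((l : ℝ) + 1)) = 512 * ((l : ℝ) + 1) := by field_simp; norm_num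
    rw [this]; linarith
  have h3 : (1 + 2 / ((1 / 256 : ℝ) / ((l : ℝ) + 1))) ^ l ≤
      513 ^ l * e2 ((l : ℝ) ^ 2 / 16 + 5 * l) := by
    calc _ ≤ (513 * ((l : ℝ) + 1)) ^ l := pow_le_pow_left₀ (by positivity) h2 l
      _ ≤ (513 * e2 ((l : ℝ) / 16 + 5)) ^ l :=
          pow_le_pow_left₀ (by positivity)
            (mul_le_mul_of_nonneg_left (succ_le_e2 l) (by norm_num)) l
      _ = _ := by
          rw [mul_pow, e2_pow]
          congr 2; ring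
  have h20 : (2 : ℝ) ^ 20 = e2 20 := by
    have := e2_nat 20
    norm_num at this ⊢
    exact this.symm
  have h4 : (738720 : ℝ) ^ l ≤ e2 (20 * l) := by
    calc (738720 : ℝ) ^ l ≤ (2 ^ 20) ^ l := pow_le_pow_left₀ (by norm_num) (by norm_num) l
      _ = _ := by rw [h20, e2_pow]; congr 1; ring
  unfold EE
  have h5 : 1 + 2 / (1 / 256 : ℝ) = 513 := by norm_num
  rw [h5]
  calc 3 * 2 ^ l * (36 * C * 720 ^ l * q ^ (2 * (1 / 256 : ℝ)) * 513 *
        (1 + 2 / ((1 / 256 : ℝ) / ((l : ℝ) + 1))) ^ l)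
      ≤ 3 * 2 ^ l * (36 * 16 * 720 ^ l * e2 x * 513 *
        (513 ^ l * e2 ((l : ℝ) ^ 2 / 16 + 5 * l))) := by
        have := e2_pos x
        gcongr
    _ = 886464 * (738720 : ℝ) ^ l * (e2 x * e2 ((l : ℝ) ^ 2 / 16 + 5 * l)) := by
        have : (738720 : ℝ) ^ l = 2 ^ l * 720 ^ l * 513 ^ l := by
          rw [← mul_pow, ← mul_pow]; norm_num
        rw [this]; ring
    _ ≤ e2 20 * e2 (20 * l) * (e2 x * e2 ((l : ℝ) ^ 2 / 16 + 5 * l)) := by
        have := e2_pos x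
        have := e2_pos ((l : ℝ) ^ 2 / 16 + 5 * l)
        have h6 : (886464 : ℝ) ≤ e2 20 := by rw [← h20]; norm_num
        gcongr
    _ = _ := by
        rw [← e2_add, ← e2_add, ← e2_add]
        congr 1; ring

lemma e2_inv (x : ℝ) : e2 (-x) * e2 x = 1 := by rw [← e2_add, neg_add_cancel, e2_zero]

lemma e2_two : e2 2 = 4 := by
  have := e2_nat 2
  norm_num at this
  exact this

lemma e2_five : e2 5 = 32 := by
  have := e2_nat 5
  norm_num at this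
  exact this

/-- numerics of the small part -/
lemma numS (m θ s σ s' PQ E δ : ℝ) (hs : 0 < s) (hσ : 0 < σ) (hσ1 : σ ≤ 1) (hs2 : s ≤ σ ^ 2)
    (hs' : s' ≤ 8 * s ^ 4 * σ ^ 4) (hPQ0 : 0 ≤ PQ)
    (hPQ : PQ ≤ e2 (64 * m + 32 - 16 * m ^ 2) * s') (hE0 : 0 ≤ E) (hE : E ≤ e2 θ)
    (hδ : δ = e2 (-m ^ 2) * s) :
    E * δ ≤ e2 (θ + 36 - m ^ 2 / 2) * σ ∧
    E ^ 4 * (4 * δ ^ 2 + 3 * PQ * (1 / δ) ^ 4) ≤ (e2 (θ + 36 - m ^ 2 / 2) * σ) ^ 4 := by
  have hsσ : s ≤ σ := hs2.trans (by nlinarith)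
  have hθ := e2_pos θ
  have hm := e2_pos (-m ^ 2)
  refine ⟨?_, ?_⟩
  · rw [hδ]
    calc E * (e2 (-m ^ 2) * s) ≤ e2 θ * (e2 (-m ^ 2) * σ) :=
          mul_le_mul hE (mul_le_mul_of_nonneg_left hsσ hm.le) (by positivity) hθ.le
      _ = e2 (θ - m ^ 2) * σ := by rw [← mul_assoc, ← e2_add]; congr 2
      _ ≤ _ := by
          refine mul_le_mul_of_nonneg_right (e2_mono ?_) hσ.le
          nlinarith [sq_nonneg m]
  · have h1 : (1 / δ) ^ 4 = e2 (4 * m ^ 2) * (1 / s ^ 4) := by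
      have h2 : 1 / δ = e2 (m ^ 2) * (1 / s) := by
        have h3 := e2_inv (m ^ 2)
        have h4 : δ * (e2 (m ^ 2) * (1 / s)) = 1 := by
          rw [hδ]
          calc e2 (-m ^ 2) * s * (e2 (m ^ 2) * (1 / s)) = (e2 (-m ^ 2) * e2 (m ^ 2)) *
                (s * (1 / s)) := by ring
            _ = 1 := by rw [h3, mul_one_div_cancel hs.ne', one_mul]
        have hδ0 : δ ≠ 0 := fun h => by rw [h, zero_mul] at h4; exact zero_ne_one h4
        rw [eq_comm, ← mul_right_inj' hδ0, h4, mul_one_div_cancel hδ0]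
      rw [h2, mul_pow, e2_pow, one_div, inv_pow, one_div]
      norm_num
    have h5 : 4 * δ ^ 2 ≤ e2 (140 - 2 * m ^ 2) * σ ^ 4 := by
      have h6 : δ ^ 2 = e2 (-(2 * m ^ 2)) * s ^ 2 := by
        rw [hδ, mul_pow, e2_pow]; congr 2; push_cast; ring
      rw [h6]
      calc 4 * (e2 (-(2 * m ^ 2)) * s ^ 2) ≤ 4 * (e2 (-(2 * m ^ 2)) * (σ ^ 2) ^ 2) := by
            have := e2_pos (-(2 * m ^ 2))
            have := pow_le_pow_left₀ hs.le hs2 2
            nlinarith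
        _ = e2 (2 - 2 * m ^ 2) * σ ^ 4 := by
            rw [sub_eq_add_neg, e2_add, e2_two]; ring
        _ ≤ _ := mul_le_mul_of_nonneg_right (e2_mono (by linarith)) (by positivity)
    have h7 : 3 * PQ * (1 / δ) ^ 4 ≤ e2 (140 - 2 * m ^ 2) * σ ^ 4 := by
      rw [h1]
      have hA := e2_pos (64 * m + 32 - 16 * m ^ 2)
      have hB := e2_pos (4 * m ^ 2)
      calc 3 * PQ * (e2 (4 * m ^ 2) * (1 / s ^ 4))
          ≤ 3 * (e2 (64 * m + 32 - 16 * m ^ 2) * (8 * s ^ 4 * σ ^ 4)) *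
            (e2 (4 * m ^ 2) * (1 / s ^ 4)) := by
            refine mul_le_mul_of_nonneg_right ?_ (by positivity)
            refine mul_le_mul_of_nonneg_left (hPQ.trans ?_) (by norm_num)
            exact mul_le_mul_of_nonneg_left hs' hA.le
        _ = 24 * (e2 (64 * m + 32 - 16 * m ^ 2) * e2 (4 * m ^ 2)) * σ ^ 4 := by
            field_simp; ring
        _ ≤ 32 * (e2 (64 * m + 32 - 16 * m ^ 2) * e2 (4 * m ^ 2)) * σ ^ 4 := by
            have : 0 ≤ (e2 (64 * m + 32 - 16 * m ^ 2) * e2 (4 * m ^ 2)) * σ ^ 4 := by positivity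
            nlinarith
        _ = e2 (5 + (64 * m + 32 - 16 * m ^ 2 + 4 * m ^ 2)) * σ ^ 4 := by
            rw [e2_add 5, e2_add (64 * m + 32 - 16 * m ^ 2), e2_five]
        _ ≤ _ := by
            refine mul_le_mul_of_nonneg_right (e2_mono ?_) (by positivity)
            nlinarith [sq_nonneg (10 * m - 32)]
    have h8 : E ^ 4 ≤ e2 (4 * θ) := by
      calc E ^ 4 ≤ (e2 θ) ^ 4 := pow_le_pow_left₀ hE0 hE 4
        _ = _ := by rw [e2_pow]; norm_num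
    have hC := e2_pos (140 - 2 * m ^ 2)
    calc E ^ 4 * (4 * δ ^ 2 + 3 * PQ * (1 / δ) ^ 4)
        ≤ e2 (4 * θ) * (2 * e2 (140 - 2 * m ^ 2) * σ ^ 4) := by
          refine mul_le_mul h8 (by linarith) ?_ (e2_pos _).le
          rw [h1]
          have hB := e2_pos (4 * m ^ 2)
          positivity
      _ = e2 (4 * θ + (1 + (140 - 2 * m ^ 2))) * σ ^ 4 := by
          rw [e2_add (4 * θ), e2_add 1, e2_one]; ring
      _ ≤ e2 (4 * (θ + 36 - m ^ 2 / 2)) * σ ^ 4 := by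
          refine mul_le_mul_of_nonneg_right (e2_mono ?_) (by positivity)
          linarith
      _ = _ := by rw [mul_pow, e2_pow]; norm_num

/-- numerics of the large part -/
lemma numT (m θ s τ s' PQ E lam : ℝ) (hs : 0 < s) (hτ : 0 < τ) (hs2 : 1 / s ^ 2 ≤ 2 * τ ^ 4)
    (hs' : s' * (1 / s ^ 8) ≤ 8 * τ ^ 4) (hs'0 : 0 ≤ s') (hPQ0 : 0 ≤ PQ)
    (hPQ : PQ ≤ e2 (64 * m + 32 - 16 * m ^ 2) * s') (hE0 : 0 ≤ E) (hE : E ≤ e2 θ)
    (hlam : lam = e2 (2 * m ^ 2) * (1 / s ^ 2)) :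
    E ^ 4 * (lam + 3 * PQ * lam ^ 4) ≤ (e2 (θ + 36 + m ^ 2 / 2) * τ) ^ 4 := by
  have h1 : lam ^ 4 = e2 (8 * m ^ 2) * (1 / s ^ 8) := by
    rw [hlam, mul_pow, e2_pow]
    congr 1
    · congr 1; push_cast; ring
    · rw [div_pow, one_pow, ← pow_mul]
  have h5 : lam ≤ e2 (140 + 2 * m ^ 2) * τ ^ 4 := by
    rw [hlam]
    calc e2 (2 * m ^ 2) * (1 / s ^ 2) ≤ e2 (2 * m ^ 2) * (2 * τ ^ 4) :=
          mul_le_mul_of_nonneg_left hs2 (e2_pos _).le
      _ = e2 (1 + 2 * m ^ 2) * τ ^ 4 := by rw [e2_add, e2_one]; ring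
      _ ≤ _ := mul_le_mul_of_nonneg_right (e2_mono (by linarith)) (by positivity)
  have h7 : 3 * PQ * lam ^ 4 ≤ e2 (140 + 2 * m ^ 2) * τ ^ 4 := by
    rw [h1]
    have hA := e2_pos (64 * m + 32 - 16 * m ^ 2)
    have hB := e2_pos (8 * m ^ 2)
    calc 3 * PQ * (e2 (8 * m ^ 2) * (1 / s ^ 8))
        ≤ 3 * (e2 (64 * m + 32 - 16 * m ^ 2) * s') * (e2 (8 * m ^ 2) * (1 / s ^ 8)) := by
          refine mul_le_mul_of_nonneg_right ?_ (by positivity)
          exact mul_le_mul_of_nonneg_left hPQ (by norm_num)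
      _ = 3 * (e2 (64 * m + 32 - 16 * m ^ 2) * e2 (8 * m ^ 2)) * (s' * (1 / s ^ 8)) := by ring
      _ ≤ 3 * (e2 (64 * m + 32 - 16 * m ^ 2) * e2 (8 * m ^ 2)) * (8 * τ ^ 4) :=
          mul_le_mul_of_nonneg_left hs' (by positivity)
      _ ≤ 32 * (e2 (64 * m + 32 - 16 * m ^ 2) * e2 (8 * m ^ 2)) * τ ^ 4 := by
          have : 0 ≤ (e2 (64 * m + 32 - 16 * m ^ 2) * e2 (8 * m ^ 2)) * τ ^ 4 := by positivity
          nlinarith
      _ = e2 (5 + (64 * m + 32 - 16 * m ^ 2 + 8 * m ^ 2)) * τ ^ 4 := by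
          rw [e2_add 5, e2_add (64 * m + 32 - 16 * m ^ 2), e2_five]
      _ ≤ _ := by
          refine mul_le_mul_of_nonneg_right (e2_mono ?_) (by positivity)
          nlinarith [sq_nonneg (10 * m - 32)]
  have h8 : E ^ 4 ≤ e2 (4 * θ) := by
    calc E ^ 4 ≤ (e2 θ) ^ 4 := pow_le_pow_left₀ hE0 hE 4
      _ = _ := by rw [e2_pow]; norm_num
  have hC := e2_pos (140 + 2 * m ^ 2)
  calc E ^ 4 * (lam + 3 * PQ * lam ^ 4)
      ≤ e2 (4 * θ) * (2 * e2 (140 + 2 * m ^ 2) * τ ^ 4) := by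
        refine mul_le_mul h8 (by linarith) ?_ (e2_pos _).le
        rw [h1, hlam]
        have hB := e2_pos (8 * m ^ 2)
        have hB' := e2_pos (2 * m ^ 2)
        positivity
    _ = e2 (4 * θ + (1 + (140 + 2 * m ^ 2))) * τ ^ 4 := by
        rw [e2_add (4 * θ), e2_add 1, e2_one]; ring
    _ ≤ e2 (4 * (θ + 36 + m ^ 2 / 2)) * τ ^ 4 := by
        refine mul_le_mul_of_nonneg_right (e2_mono ?_) (by positivity)
        linarith
    _ = _ := by rw [mul_pow, e2_pow]; norm_num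

end Pool.Agent.W862.Kom
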