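import Pool.Agent.W862.Kom.Levels
import Pool.Agent.W862.Kom.Fejer

/-!
# The first phase
-/

namespace Pool.Agent.W862.Kom

open Finset

variable {p : ℕ} [Fact p.Prime]

/-- slope parameter -/
def Rl (p : ℕ) (Q : ℕ → ℕ) (n l : ℕ) : ℕ := 4 * p * (Q n / Q (l + 1))

section
variable {Q W : ℕ → ℕ} (hR : Radix Q W)
include hR

lemma Rl_mul (n l : ℕ) (hl : l < n) : Rl p Q n l * Q (l + 1) = DD p Q n := by
  unfold Rl DD
  rw [mul_assoc, Nat.div_mul_cancel (hR.dvd (by omega))]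

lemma Rl_pos (n l : ℕ) (hl : l < n) : 0 < Rl p Q n l := by
  unfold Rl
  have h1 := (Fact.out : p.Prime).pos
  have h2 : 0 < Q n / Q (l + 1) := Nat.div_pos (hR.mono (by omega)) (hR.Qpos _)
  positivity

lemma Rl_even (n l : ℕ) : 2 ∣ Rl p Q n l := by
  unfold Rl; exact ⟨2 * p * (Q n / Q (l + 1)), by ring⟩

lemma Rl_anti (n l l' : ℕ) (h : l ≤ l') : Rl p Q n l' ≤ Rl p Q n l := by
  unfold Rl
  exact Nat.mul_le_mul_left _ (Nat.div_le_div_left (hR.mono (by omega)) (hR.Qpos _))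

lemma Rl_real (n l : ℕ) (hl : l < n) :
    (DD p Q n : ℝ) / Rl p Q n l = Q (l + 1) := by
  have h1 : (0 : ℝ) < Rl p Q n l := by exact_mod_cast Rl_pos hR n l hl
  rw [div_eq_iff h1.ne', ← Rl_mul hR n l hl]
  push_cast; ring

/-- `f_l` -/
noncomputable def gT (Q : ℕ → ℕ) (n l : ℕ) (y : Fin n → ZMod p) : ℝ :=
  ph (Rl p Q n l) ((XI Q n l y : ℤ) : ZMod (DD p Q n))

/-- `H_l` -/
noncomputable def hT (Q : ℕ → ℕ) (n l : ℕ) [NeZero (DD p Q n)] (y : Fin n → ZMod p) : ℝ :=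
  fej (Q (l + 1) / 16) ((XI Q n l y : ℤ) : ZMod (DD p Q n))

/-- the exact sign -/
noncomputable def eT (Q : ℕ → ℕ) (n : ℕ) (y : Fin n → ZMod p) : ℝ :=
  ph 2 ((XI Q n (n - 1) y : ℤ) : ZMod (DD p Q n))

/-- the unfrozen set -/
noncomputable def bT (Q : ℕ → ℕ) (n : ℕ) (y : Fin n → ZMod p) : ℝ :=
  zz ((XI Q n (n - 1) y : ℤ) : ZMod (DD p Q n))

variable (hp : 5 ≤ p) (ε : ℝ) (hε0 : 0 < ε) (hε1 : ε ≤ 1 / 4) (n : ℕ) [NeZero (DD p Q n)]
include hp hε0 hε1

lemma majE_f0 (hn : 0 < n) (hQ2 : 2 ≤ Q 1) :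
    MajE (cx (gT (p := p) Q n 0)) (EE 2 ε 0 (Q 1)) (Q 0) 1 := by
  have hRp := Rl_pos (p := p) hR n 0 hn
  have hmul := Rl_mul (p := p) hR n 0 hn
  have h2R : 2 * Rl p Q n 0 ≤ DD p Q n := by
    rw [← hmul, mul_comm]; exact Nat.mul_le_mul_left _ hQ2
  have hM := majE_fun hR hp ε hε0 hε1 n 0 0 hn (by omega) (by omega) (fun s hs => by omega) 1
    le_rfl (fun s hs => by omega) (cx (ph (Rl p Q n 0))) 2 (by norm_num) (Q 1)
    (by exact_mod_cast hR.mono (by omega)) (fun κ => by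
      rw [hR.zero, Nat.cast_one, mul_one]
      have := fN_ph_le_one (Rl p Q n 0) κ
      linarith) (fun κ => fN_ph_first _ hRp (DD_four hR n) (Rl_even hR n 0) κ) (fun κ => by
      have h1 := fN_ph_second _ hRp h2R (DD_four hR n) (Rl_even hR n 0) κ
      rw [Rl_real hR n 0 hn] at h1
      have : (0 : ℝ) ≤ Q (0 + 1) := Nat.cast_nonneg _
      calc _ ≤ (Q (0 + 1) : ℝ) := h1
        _ ≤ 2 * (Q 1 : ℝ) := by rw [zero_add] at this ⊢; linarith)
  rw [Nat.cast_one, one_pow] at hM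
  exact hM

lemma majE_diff (l : ℕ) (hl : 1 ≤ l) (hln : l < n) (hQ2 : 2 ≤ Q 1)
    (hWp : ∀ s < l, W s ≤ p) (Wm : ℕ) (hW1 : 1 ≤ Wm) (hWm : ∀ s < l, W s ≤ Wm) :
    MajE (cx (fun y => gT (p := p) Q n l y - gT Q n (l - 1) y)) (EE 12 ε l (Q (l + 1))) (Q l)
      ((Wm : ℝ) ^ 2) := by
  have hRp := Rl_pos (p := p) hR n l hln
  have hRp' := Rl_pos (p := p) hR n (l - 1) (by omega)
  have hmul := Rl_mul (p := p) hR n l hln
  have hmul' := Rl_mul (p := p) hR n (l - 1) (by omega)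
  have hQ2' : ∀ t, 2 ≤ Q (t + 1) := fun t => hQ2.trans (hR.mono (by omega))
  have h2R : 2 * Rl p Q n l ≤ DD p Q n := by
    rw [← hmul, mul_comm]; exact Nat.mul_le_mul_left _ (hQ2' l)
  have h2R' : 2 * Rl p Q n (l - 1) ≤ DD p Q n := by
    rw [← hmul', mul_comm]; exact Nat.mul_le_mul_left _ (hQ2' _)
  have hD0 : (0 : ℝ) < DD p Q n := Npos
  have hl1 : l - 1 + 1 = l := by omega
  have hM := majE_step hR hp ε hε0 hε1 n l hl hln hWp Wm hW1 hWm (cx (ph (Rl p Q n l)))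
    (cx (ph (Rl p Q n (l - 1)))) 4 (by norm_num) (Q (l + 1))
    (by exact_mod_cast hR.mono (by omega)) (fun κ => by
      have h1 := fN_ph_diff (N := DD p Q n) (Rl p Q n (l - 1)) (Rl p Q n l) hRp' hRp
        (Rl_anti hR n (l - 1) l (by omega)) (dvd_trans (by norm_num) (DD_four (p := p) hR n))
        (Rl_even hR n _) κ
      have h2 : (0 : ℝ) ≤ Q l := Nat.cast_nonneg _
      calc _ ≤ 4 * (Rl p Q n (l - 1) : ℝ) / DD p Q n * Q l := mul_le_mul_of_nonneg_right h1 h2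
        _ = 4 := by
            have h3 : (Rl p Q n (l - 1) : ℝ) * Q l = DD p Q n := by
              rw [hl1] at hmul'
              exact_mod_cast hmul'
            rw [div_mul_eq_mul_div, mul_assoc, h3]; field_simp
        _ ≤ 4 := le_rfl)
    (fun κ => (fN_ph_first _ hRp (DD_four hR n) (Rl_even hR n l) κ).trans (by norm_num))
    (fun κ => (fN_ph_first _ hRp' (DD_four hR n) (Rl_even hR n _) κ).trans (by norm_num))
    (fun κ => by
      have h1 := fN_ph_second _ hRp h2R (DD_four hR n) (Rl_even hR n l) κ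
      rw [Rl_real hR n l hln] at h1
      have : (0 : ℝ) ≤ Q (l + 1) := Nat.cast_nonneg _
      linarith)
    (fun κ => by
      have h1 := fN_ph_second _ hRp' h2R' (DD_four hR n) (Rl_even hR n _) κ
      rw [Rl_real hR n (l - 1) (by omega), hl1] at h1
      have : (0 : ℝ) ≤ Q l := Nat.cast_nonneg _
      linarith)
  have e : (3 : ℝ) * 4 = 12 := by norm_num
  rw [e] at hM
  have hF : (fun y : Fin n → ZMod p => fT Q n l (cx (ph (Rl p Q n l))) y -
      fT Q n (l - 1) (cx (ph (Rl p Q n (l - 1)))) y) =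
      cx (fun y => gT (p := p) Q n l y - gT Q n (l - 1) y) := by
    funext y; unfold fT cx gT; push_cast; rfl
  rw [hF] at hM
  exact hM

lemma majE_H (l : ℕ) (hln : l < n) (hQ16 : 16 ≤ Q (l + 1)) (hQd : 16 ∣ Q (l + 1))
    (hWp : ∀ s < l + 1, W s ≤ p) (Wm : ℕ) (hW1 : 1 ≤ Wm) (hWm : ∀ s < l + 1, W s ≤ Wm) :
    MajE (cx (hT (p := p) Q n l)) (EE 16 ε l (Q (l + 1))) (Q (l + 1)) ((Wm : ℝ) ^ 2) := by
  set M := Q (l + 1) / 16 with hMdef
  have hMQ : M * 16 = Q (l + 1) := Nat.div_mul_cancel hQd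
  have hM0 : 0 < M := by omega
  have hM0' : (0 : ℝ) < M := by exact_mod_cast hM0
  have hMQ' : (M : ℝ) * 16 = Q (l + 1) := by exact_mod_cast hMQ
  have h4M : 4 * M ≤ DD p Q n := by
    have h1 := hR.mono (show l + 1 ≤ n by omega)
    unfold DD
    calc 4 * M ≤ 4 * Q n := by omega
      _ = 4 * 1 * Q n := by ring
      _ ≤ 4 * p * Q n := Nat.mul_le_mul_right _ (Nat.mul_le_mul_left _ (by omega))
  have hM := majE_fun hR hp ε hε0 hε1 n l (l + 1) (by omega) (by omega) le_rfl hWp Wm hW1 hWm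
    (cx (fej M)) 16 (by norm_num) (Q (l + 1)) le_rfl (fun κ => by
      have h1 := fN_fej_le M hM0 h4M κ
      calc _ ≤ 1 / (M : ℝ) * Q (l + 1) := mul_le_mul_of_nonneg_right h1 (Nat.cast_nonneg _)
        _ = 16 := by rw [← hMQ']; field_simp
        _ ≤ 16 := le_rfl) (fun κ => by
      by_cases hz : fN (cx (fej M)) κ = 0
      · rw [hz]; simp
      · have h1 := fN_fej_le M hM0 h4M κ
        have h2 := fN_fej_supp M h4M κ hz
        calc _ ≤ (2 * (M : ℝ)) * (1 / M) := mul_le_mul h2 h1 (norm_nonneg _) (by positivity)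
          _ = 2 := by field_simp
          _ ≤ 16 := by norm_num) (fun κ => by
      by_cases hz : fN (cx (fej M)) κ = 0
      · rw [hz]; simp
      · have h1 := fN_fej_le M hM0 h4M κ
        have h2 := fN_fej_supp M h4M κ hz
        calc _ ≤ (2 * (M : ℝ)) ^ 2 * (1 / M) :=
              mul_le_mul (pow_le_pow_left₀ (abs_nonneg _) h2 2) h1 (norm_nonneg _) (by positivity)
          _ = 4 * M := by field_simp; norm_num
          _ ≤ 16 * (Q (l + 1) : ℝ) := by rw [← hMQ']; linarith)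
  exact hM

lemma majE_ex (hn : 0 < n) (hQ2 : 2 ≤ Q 1)
    (hWp : ∀ s < n, W s ≤ p) (Wm : ℕ) (hW1 : 1 ≤ Wm) (hWm : ∀ s < n, W s ≤ Wm) :
    MajE (cx (fun y => eT (p := p) Q n y - gT Q n (n - 1) y))
      (EE 4 ε (n - 1) (DD p Q n)) (Q n) ((Wm : ℝ) ^ 2) := by
  have hn1 : n - 1 + 1 = n := by omega
  have hRp := Rl_pos (p := p) hR n (n - 1) (by omega)
  have hmul := Rl_mul (p := p) hR n (n - 1) (by omega)
  rw [hn1] at hmul
  have hD0 : (0 : ℝ) < DD p Q n := Npos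
  have hQn2 : 2 ≤ Q n := hQ2.trans (hR.mono (by omega))
  have h2R : 2 * Rl p Q n (n - 1) ≤ DD p Q n := by
    rw [← hmul, mul_comm]; exact Nat.mul_le_mul_left _ hQn2
  have hRge : 2 ≤ Rl p Q n (n - 1) := by
    obtain ⟨r, hr⟩ := Rl_even (p := p) hR n (n - 1)
    omega
  have hD4 : 2 * 2 ≤ DD p Q n := by omega
  have hQD : (Q n : ℝ) ≤ DD p Q n := by
    have : Q n ≤ DD p Q n := by
      rw [← hmul]; exact Nat.le_mul_of_pos_left _ hRp
    exact_mod_cast this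
  have h2D : 2 ∣ DD p Q n := dvd_trans (by norm_num) (DD_four (p := p) hR n)
  have hfN : ∀ κ, fN (fun x => cx (ph (N := DD p Q n) 2) x - cx (ph (Rl p Q n (n - 1))) x) κ =
      fN (cx (ph 2)) κ - fN (cx (ph (Rl p Q n (n - 1)))) κ := fun κ => fN_sub _ _ κ
  have hM := majE_fun hR hp ε hε0 hε1 n (n - 1) n hn le_rfl (by omega) hWp Wm hW1 hWm
    (fun x => cx (ph (N := DD p Q n) 2) x - cx (ph (Rl p Q n (n - 1))) x) 4 (by norm_num)
    (DD p Q n) hQD (fun κ => by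
      rw [hfN]
      have h1 := fN_ph_diff (N := DD p Q n) (Rl p Q n (n - 1)) 2 hRp (by norm_num) hRge h2D
        (Rl_even hR n _) κ
      calc _ ≤ 4 * (Rl p Q n (n - 1) : ℝ) / DD p Q n * Q n :=
            mul_le_mul_of_nonneg_right h1 (Nat.cast_nonneg _)
        _ = 4 := by
            have h3 : (Rl p Q n (n - 1) : ℝ) * Q n = DD p Q n := by exact_mod_cast hmul
            rw [div_mul_eq_mul_div, mul_assoc, h3]; field_simp
        _ ≤ 4 := le_rfl) (fun κ => by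
      rw [hfN]
      have h1 := fN_ph_first _ hRp (DD_four hR n) (Rl_even hR n (n - 1)) κ
      have h2 := fN_ph_first (N := DD p Q n) 2 (by norm_num) (DD_four hR n) (by norm_num) κ
      calc _ ≤ |(κ.valMinAbs : ℝ)| * (‖fN (cx (ph 2)) κ‖ + ‖fN (cx (ph (Rl p Q n (n - 1)))) κ‖) :=
            mul_le_mul_of_nonneg_left (norm_sub_le _ _) (abs_nonneg _)
        _ ≤ 4 := by rw [mul_add]; linarith) (fun κ => by
      rw [hfN]
      have h1 := fN_ph_second _ hRp h2R (DD_four hR n) (Rl_even hR n _) κ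
      rw [Rl_real hR n (n - 1) (by omega), hn1] at h1
      have h2 := fN_ph_second (N := DD p Q n) 2 (by norm_num) hD4 (DD_four hR n) (by norm_num) κ
      have h3 : (DD p Q n : ℝ) / ((2 : ℕ) : ℝ) ≤ DD p Q n := by
        push_cast; linarith
      calc _ ≤ |(κ.valMinAbs : ℝ)| ^ 2 *
            (‖fN (cx (ph 2)) κ‖ + ‖fN (cx (ph (Rl p Q n (n - 1)))) κ‖) :=
            mul_le_mul_of_nonneg_left (norm_sub_le _ _) (by positivity)
        _ ≤ 4 * (DD p Q n : ℝ) := by rw [mul_add]; linarith)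
  have hF : fT Q n (n - 1) (fun x => cx (ph (N := DD p Q n) 2) x -
      cx (ph (Rl p Q n (n - 1))) x) = cx (fun y => eT (p := p) Q n y - gT Q n (n - 1) y) := by
    funext y; unfold fT cx gT eT; push_cast; rfl
  rw [hF] at hM
  exact hM

lemma majE_b (hn : 0 < n)
    (hWp : ∀ s < n, W s ≤ p) (Wm : ℕ) (hW1 : 1 ≤ Wm) (hWm : ∀ s < n, W s ≤ Wm) :
    MajE (cx (bT (p := p) Q n)) (EE 4 ε (n - 1) (DD p Q n)) (Q n) ((Wm : ℝ) ^ 2) := by
  have hD0 : (0 : ℝ) < DD p Q n := Npos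
  have hQD4 : (Q n : ℝ) * 1 ≤ DD p Q n := by
    have : Q n * 1 ≤ DD p Q n := by
      unfold DD
      rw [mul_comm]
      exact Nat.mul_le_mul_right _ (by omega)
    exact_mod_cast this
  have h2D : 2 ∣ DD p Q n := dvd_trans (by norm_num) (DD_four (p := p) hR n)
  have hM := majE_fun hR hp ε hε0 hε1 n (n - 1) n hn le_rfl (by omega) hWp Wm hW1 hWm
    (cx (zz (N := DD p Q n))) 4 (by norm_num) (DD p Q n) (by linarith) (fun κ => by
      have h1 := fN_zz_le h2D κ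
      calc _ ≤ 4 / (DD p Q n : ℝ) * DD p Q n :=
            mul_le_mul h1 (by linarith) (Nat.cast_nonneg _) (by positivity)
        _ = 4 := by field_simp
        _ ≤ 4 := le_rfl) (fun κ => by
      have h1 := fN_zz_le h2D κ
      have h2 := valMinAbs_le κ
      calc _ ≤ (DD p Q n : ℝ) / 2 * (4 / DD p Q n) :=
            mul_le_mul h2 h1 (norm_nonneg _) (by positivity)
        _ = 2 := by field_simp; norm_num
        _ ≤ 4 := by norm_num) (fun κ => by
      have h1 := fN_zz_le h2D κ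
      have h2 := valMinAbs_le κ
      calc _ ≤ ((DD p Q n : ℝ) / 2) ^ 2 * (4 / DD p Q n) :=
            mul_le_mul (pow_le_pow_left₀ (abs_nonneg _) h2 2) h1 (norm_nonneg _) (by positivity)
        _ = DD p Q n := by field_simp; norm_num
        _ ≤ 4 * (DD p Q n : ℝ) := by linarith)
  exact hM

end

end Pool.Agent.W862.Kom
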