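import Pool.Agent.W862.Kom.Asm

/-!
# Product functions, small planes, level sets
-/

namespace Pool.Agent.W862.Kom

open Finset

variable {p : ℕ} [Fact p.Prime]

/-- one-dimensional transform -/
noncomputable def ft1 (φ : ZMod p → ℂ) (k : ZMod p) : ℂ := (p : ℂ)⁻¹ * ∑ x, φ x * chi (-(k * x))

/-- `ℓ¹` norm of the one-dimensional transform -/
noncomputable def n1 (φ : ZMod p → ℂ) : ℝ := ∑ k, ‖ft1 φ k‖

lemma n1_nonneg (φ : ZMod p → ℂ) : 0 ≤ n1 φ := Finset.sum_nonneg fun _ _ => norm_nonneg _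

lemma n1_delta : n1 (fun x : ZMod p => if x = 0 then 1 else 0) = 1 := by
  have hp : (p : ℝ) ≠ 0 := by exact_mod_cast (Fact.out : p.Prime).ne_zero
  unfold n1 ft1
  have h : ∀ k : ZMod p, (p : ℂ)⁻¹ * ∑ x, (if x = 0 then (1 : ℂ) else 0) * chi (-(k * x)) =
      (p : ℂ)⁻¹ := by
    intro k
    simp [chi_zero]
  simp_rw [h]
  rw [Finset.sum_const, Finset.card_univ, ZMod.card, nsmul_eq_mul, norm_inv,
    Complex.norm_natCast, mul_inv_cancel₀ hp]

lemma ft1_one (k : ZMod p) : ft1 (fun _ : ZMod p => 1) k = if k = 0 then 1 else 0 := by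
  have hp : (p : ℂ) ≠ 0 := by exact_mod_cast (Fact.out : p.Prime).ne_zero
  unfold ft1
  have h : ∀ x : ZMod p, (1 : ℂ) * chi (-(k * x)) = chi (x * (-k)) := by
    intro x; rw [one_mul]; congr 1; ring
  simp_rw [h, sum_chi_mul, neg_eq_zero]
  split_ifs
  · rw [inv_mul_cancel₀ hp]
  · rw [mul_zero]

lemma n1_one : n1 (fun _ : ZMod p => 1) = 1 := by
  unfold n1
  simp_rw [ft1_one]
  rw [Finset.sum_eq_single 0]
  · simp
  · intro b _ hb; rw [if_neg hb]; simp
  · intro h; exact absurd (Finset.mem_univ _) h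

section
variable {n : Type*} [Fintype n] [DecidableEq n]

lemma chi_sum {ι : Type*} (s : Finset ι) (f : ι → ZMod p) :
    chi (∑ i ∈ s, f i) = ∏ i ∈ s, chi (f i) := by
  classical
  induction s using Finset.induction_on with
  | empty => simp [chi_zero]
  | insert a s ha ih => rw [Finset.sum_insert ha, Finset.prod_insert ha, chi_add, ih]

lemma ft_prod (φ : n → ZMod p → ℂ) (κ : n → ZMod p) :
    ft (fun y => ∏ t, φ t (y t)) κ = ∏ t, ft1 (φ t) (κ t) := by
  unfold ft ft1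
  rw [Finset.prod_mul_distrib, Finset.prod_const, Finset.card_univ, inv_pow]
  congr 1
  have h2 := Finset.prod_univ_sum (fun _ : n => (univ : Finset (ZMod p)))
    (fun t x => φ t x * chi (-(κ t * x)))
  rw [Fintype.piFinset_univ] at h2
  rw [h2]
  refine Finset.sum_congr rfl fun y _ => ?_
  rw [Finset.prod_mul_distrib]
  congr 1
  unfold dotProduct
  rw [← Finset.sum_neg_distrib, chi_sum]

lemma sum_ft_prod (φ : n → ZMod p → ℂ) :
    ∑ κ, ‖ft (fun y => ∏ t, φ t (y t)) κ‖ = ∏ t, n1 (φ t) := by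
  simp_rw [ft_prod, norm_prod]
  unfold n1
  have h2 := Finset.prod_univ_sum (fun _ : n => (univ : Finset (ZMod p)))
    (fun t x => ‖ft1 (φ t) x‖)
  rw [Fintype.piFinset_univ] at h2
  exact h2.symm

/-- a plane has at most `p^2` points -/
lemma card_plane {Q : ℕ} (v : Fin Q → (n → ZMod p)) (hv : Function.Injective v)
    (c X k : n → ZMod p) :
    Nat.card {i : Fin Q // v i + c ∈ Submodule.span (ZMod p) {X, k}} ≤ min (p ^ 2) Q := by
  refine le_min ?_ ?_
  · have h1 : ∀ i : {i : Fin Q // v i + c ∈ Submodule.span (ZMod p) {X, k}},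
        ∃ ab : ZMod p × ZMod p, ab.1 • X + ab.2 • k = v i.1 + c := by
      intro i
      obtain ⟨a, b, h⟩ := Submodule.mem_span_pair.mp i.2
      exact ⟨(a, b), h⟩
    choose φ hφ using h1
    have hinj : Function.Injective φ := by
      intro i j hij
      have h2 := hφ i
      rw [hij, hφ j] at h2
      exact Subtype.ext (hv (add_right_cancel h2)).symm
    have := Nat.card_le_card_of_injective φ hinj
    rw [Nat.card_prod, Nat.card_zmod] at this
    calc _ ≤ p * p := this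
      _ = p ^ 2 := by ring
  · have := Nat.card_le_card_of_injective
      (Subtype.val : {i : Fin Q // v i + c ∈ Submodule.span (ZMod p) {X, k}} → Fin Q)
      Subtype.val_injective
    rwa [Nat.card_eq_fintype_card (α := Fin Q), Fintype.card_fin] at this

end

/-- all vectors supported on the first `l` coordinates -/
noncomputable def vv (p : ℕ) [Fact p.Prime] (N l : ℕ) (i : Fin (p ^ l)) : Fin N → ZMod p :=
  fun t => if h : t.1 < l then ((finFunctionFinEquiv.symm i : Fin l → Fin p) ⟨t.1, h⟩ : ZMod p)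
    else 0

lemma vv_inj (N l : ℕ) (hl : l ≤ N) : Function.Injective (vv p N l) := by
  intro i j hij
  apply finFunctionFinEquiv.symm.injective
  funext t
  have ht : t.1 < N := lt_of_lt_of_le t.2 hl
  have h1 := congrFun hij ⟨t.1, ht⟩
  unfold vv at h1
  rw [dif_pos t.2, dif_pos t.2] at h1
  have h2 := (ZMod.natCast_eq_natCast_iff' _ _ _).mp h1
  rw [Nat.mod_eq_of_lt (Fin.is_lt _), Nat.mod_eq_of_lt (Fin.is_lt _)] at h2
  exact Fin.ext h2

lemma vv_supp (N l : ℕ) (i : Fin (p ^ l)) (t : Fin N) (ht : l ≤ t.1) : vv p N l i t = 0 := by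
  unfold vv; rw [dif_neg (by omega)]

/-- majorant for a function vanishing unless the first `l` coordinates are zero -/
lemma maj_zero (N l : ℕ) (hl : l ≤ N) (F : (Fin N → ZMod p) → ℂ) (Z : ℝ)
    (hZ : ∑ κ, ‖ft F κ‖ ≤ Z)
    (hF : ∀ y : Fin N → ZMod p, (∃ t : Fin N, t.1 < l ∧ y t ≠ 0) → F y = 0) :
    Maj F Unit (p ^ l) Z (min (p ^ 2) (p ^ l) : ℕ) (fun _ => vv p N l)
      (fun _ κ => ‖ft F κ‖) where
  Qpos := pow_pos (Fact.out : p.Prime).pos _
  Pone := by
    have h1 : 1 ≤ p ^ 2 := Nat.one_le_pow _ _ (Fact.out : p.Prime).pos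
    have h2 : 1 ≤ p ^ l := Nat.one_le_pow _ _ (Fact.out : p.Prime).pos
    exact_mod_cast le_min h1 h2
  nonneg := fun _ _ => norm_nonneg _
  mass := fun _ => hZ
  spread := fun _ => ⟨vv_inj N l hl, fun c X k => by
    exact_mod_cast card_plane _ (vv_inj N l hl) c X k⟩
  maj := by
    intro κ i j
    simp only [Finset.univ_unique, Finset.sum_singleton]
    apply le_of_eq
    congr 1
    unfold ft
    congr 1
    refine Finset.sum_congr rfl fun y _ => ?_
    by_cases hy : ∃ t : Fin N, t.1 < l ∧ y t ≠ 0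
    · rw [hF y hy, zero_mul, zero_mul]
    · congr 2
      push Not at hy
      unfold dotProduct
      congr 1
      refine Finset.sum_congr rfl fun t _ => ?_
      by_cases ht : t.1 < l
      · rw [hy t ht, mul_zero, mul_zero]
      · simp only [Pi.sub_apply]
        rw [vv_supp N l i t (by omega), vv_supp N l j t (by omega), sub_zero, sub_zero]

section
variable {m : Type*} [Fintype m] [DecidableEq m] {R : Type*} [Fintype R]

open Classical in
/-- the level sets -/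
noncomputable def lev (a : R → (m → ZMod p) → ℝ) (δ : ℝ) (ρ : R) : Finset (m → ZMod p) :=
  univ.filter fun i => δ < |a ρ i|

lemma lev_card (a : R → (m → ZMod p) → ℝ) (ha : ∑ ρ, ∑ i, a ρ i ^ 2 ≤ 1) (δ : ℝ) (hδ : 0 < δ) :
    ∑ ρ, ((lev a δ ρ).card : ℝ) ≤ 1 / δ ^ 2 := by
  rw [le_div_iff₀ (by positivity)]
  refine le_trans ?_ ha
  rw [Finset.sum_mul]
  refine Finset.sum_le_sum fun ρ _ => ?_
  calc ((lev a δ ρ).card : ℝ) * δ ^ 2 = ∑ i ∈ lev a δ ρ, δ ^ 2 := by
        rw [Finset.sum_const, nsmul_eq_mul]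
    _ ≤ ∑ i ∈ lev a δ ρ, a ρ i ^ 2 := by
        refine Finset.sum_le_sum fun i hi => ?_
        have := (Finset.mem_filter.mp hi).2
        rw [← sq_abs (a ρ i)]
        exact pow_le_pow_left₀ hδ.le this.le 2
    _ ≤ ∑ i, a ρ i ^ 2 :=
        Finset.sum_le_sum_of_subset_of_nonneg (Finset.subset_univ _) fun i _ _ => sq_nonneg _

lemma abs_le_one (a : R → (m → ZMod p) → ℝ) (ha : ∑ ρ, ∑ i, a ρ i ^ 2 ≤ 1) (ρ : R)
    (i : m → ZMod p) : |a ρ i| ≤ 1 := by
  have h1 : a ρ i ^ 2 ≤ ∑ i, a ρ i ^ 2 :=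
    Finset.single_le_sum (f := fun i => a ρ i ^ 2) (fun _ _ => sq_nonneg _) (Finset.mem_univ i)
  have h2 : ∑ i, a ρ i ^ 2 ≤ ∑ ρ, ∑ i, a ρ i ^ 2 :=
    Finset.single_le_sum (f := fun ρ => ∑ i, a ρ i ^ 2)
      (fun _ _ => Finset.sum_nonneg fun _ _ => sq_nonneg _) (Finset.mem_univ ρ)
  rw [← sq_le_one_iff_abs_le_one]
  linarith

lemma trunc_norm_le (a : (m → ZMod p) → ℝ) (δ : ℝ) (hδ : 0 ≤ δ) (i : m → ZMod p) :
    ‖cx (trunc a δ) i‖ ≤ δ := by
  unfold cx trunc
  rw [Complex.norm_real, Real.norm_eq_abs]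
  split_ifs with h
  · exact h
  · simpa using hδ

lemma trunc_sum (a : R → (m → ZMod p) → ℝ) (ha : ∑ ρ, ∑ i, a ρ i ^ 2 ≤ 1) (δ : ℝ) :
    ∑ ρ, ∑ i, ‖cx (trunc (a ρ) δ) i‖ ^ 2 ≤ 1 := by
  refine le_trans (Finset.sum_le_sum fun ρ _ => Finset.sum_le_sum fun i _ => ?_) ha
  unfold cx trunc
  rw [Complex.norm_real, Real.norm_eq_abs, sq_abs]
  split_ifs
  · exact le_rfl
  · simp [sq_nonneg]

end

end Pool.Agent.W862.Kom
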