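import Pool.Agent.W862.Kom.Frozen
import Pool.Agent.W862.Kom.ElemP

/-!
# Products of majorised functions
-/

namespace Pool.Agent.W862.Kom

open Finset

variable {p : ℕ} [Fact p.Prime]
variable {m1 m2 : Type*} [Fintype m1] [DecidableEq m1] [Fintype m2] [DecidableEq m2]

/-- left part -/
def yl (y : m1 ⊕ m2 → ZMod p) : m1 → ZMod p := fun s => y (Sum.inl s)

/-- right part -/
def yr (y : m1 ⊕ m2 → ZMod p) : m2 → ZMod p := fun s => y (Sum.inr s)

lemma sum_split {M : Type*} [AddCommMonoid M] (f : (m1 ⊕ m2 → ZMod p) → M) :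
    ∑ y, f y = ∑ y1 : m1 → ZMod p, ∑ y2 : m2 → ZMod p, f (Sum.elim y1 y2) := by
  rw [← Fintype.sum_prod_type']
  refine Fintype.sum_equiv (Equiv.sumArrowEquivProdArrow m1 m2 (ZMod p)) _ _ fun y => ?_
  congr 1
  funext s
  rcases s with s | s <;> rfl

lemma yl_elim (y1 : m1 → ZMod p) (y2 : m2 → ZMod p) : yl (Sum.elim y1 y2) = y1 := rfl

lemma yr_elim (y1 : m1 → ZMod p) (y2 : m2 → ZMod p) : yr (Sum.elim y1 y2) = y2 := rfl

lemma ft_mul (F1 : (m1 → ZMod p) → ℂ) (F2 : (m2 → ZMod p) → ℂ) (κ : m1 ⊕ m2 → ZMod p) :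
    ft (fun y => F1 (yl y) * F2 (yr y)) κ = ft F1 (yl κ) * ft F2 (yr κ) := by
  unfold ft
  rw [sum_split, Fintype.card_sum, pow_add, mul_inv]
  have h : ∀ (y1 : m1 → ZMod p) (y2 : m2 → ZMod p),
      F1 (yl (Sum.elim y1 y2)) * F2 (yr (Sum.elim y1 y2)) * chi (-(κ ⬝ᵥ Sum.elim y1 y2)) =
      (F1 y1 * chi (-(yl κ ⬝ᵥ y1))) * (F2 y2 * chi (-(yr κ ⬝ᵥ y2))) := by
    intro y1 y2
    rw [yl_elim, yr_elim]
    have : κ ⬝ᵥ Sum.elim y1 y2 = yl κ ⬝ᵥ y1 + yr κ ⬝ᵥ y2 := by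
      unfold dotProduct yl yr
      rw [Fintype.sum_sum_type]; rfl
    rw [this, neg_add, chi_add]; ring
  simp_rw [h]
  rw [← Finset.sum_mul_sum]
  ring

open Classical in
lemma ft_lift (F1 : (m1 → ZMod p) → ℂ) (κ : m1 ⊕ m2 → ZMod p) :
    ft (fun y => F1 (yl y)) κ = ft F1 (yl κ) * (if yr κ = 0 then 1 else 0) := by
  have h1 : (fun y : m1 ⊕ m2 → ZMod p => F1 (yl y)) =
      fun y => F1 (yl y) * (fun _ : m2 → ZMod p => (1 : ℂ)) (yr y) := by
    funext y; rw [mul_one]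
  have h0 := ft_mul F1 (fun _ : m2 → ZMod p => (1 : ℂ)) κ
  rw [h1, h0]
  congr 1
  have h2 : (fun _ : m2 → ZMod p => (1 : ℂ)) = fun y => ∏ t, (fun _ _ => (1 : ℂ)) t (y t) := by
    funext y; simp
  rw [h2, ft_prod (fun (_ : m2) (_ : ZMod p) => (1 : ℂ))]
  simp_rw [ft1_one]
  by_cases h : yr κ = 0
  · rw [if_pos h]
    refine Finset.prod_eq_one fun t _ => ?_
    rw [if_pos (by rw [h]; rfl)]
  · rw [if_neg h]
    obtain ⟨t, ht⟩ := Function.ne_iff.mp h
    exact Finset.prod_eq_zero (Finset.mem_univ t) (if_neg ht)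

lemma span_yl (X k z : m1 ⊕ m2 → ZMod p) (h : z ∈ Submodule.span (ZMod p) {X, k}) :
    yl z ∈ Submodule.span (ZMod p) {yl X, yl k} := by
  obtain ⟨a, b, h⟩ := Submodule.mem_span_pair.mp h
  rw [Submodule.mem_span_pair]
  refine ⟨a, b, ?_⟩
  rw [← h]; rfl

/-- indicator of the vanishing of the right part -/
noncomputable def ir (κ : m1 ⊕ m2 → ZMod p) : ℝ := by
  classical exact if yr κ = 0 then 1 else 0

lemma ir_nonneg (κ : m1 ⊕ m2 → ZMod p) : 0 ≤ ir κ := by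
  unfold ir; split_ifs <;> norm_num

lemma norm_ft_lift (F1 : (m1 → ZMod p) → ℂ) (κ : m1 ⊕ m2 → ZMod p) :
    ‖ft (fun y => F1 (yl y)) κ‖ = ‖ft F1 (yl κ)‖ * ir κ := by
  classical
  rw [ft_lift, norm_mul]
  congr 1
  unfold ir
  by_cases h : yr κ = 0
  · rw [if_pos h, if_pos h]; simp
  · rw [if_neg h, if_neg h]; simp

theorem MajE.lift {F1 : (m1 → ZMod p) → ℂ} {E P : ℝ} {Q : ℕ} (h : MajE F1 E Q P) :
    MajE (fun y : m1 ⊕ m2 → ZMod p => F1 (yl y)) E Q P := by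
  classical
  obtain ⟨I, hI, Z, v, G, hE, hM⟩ := h
  refine ⟨I, hI, Z, fun ι i => Sum.elim (v ι i) 0, fun ι κ => G ι (yl κ) * ir κ, hE, ?_⟩
  refine ⟨hM.Qpos, hM.Pone, ?_, ?_, ?_, ?_⟩
  · intro ι κ
    exact mul_nonneg (hM.nonneg _ _) (ir_nonneg _)
  · intro ι
    rw [sum_split]
    simp only [yl_elim]
    refine le_trans (le_of_eq ?_) (hM.mass ι)
    refine Finset.sum_congr rfl fun y1 _ => ?_
    rw [Finset.sum_eq_single 0]
    · have : ir (Sum.elim y1 (0 : m2 → ZMod p)) = 1 := by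
        unfold ir; rw [if_pos (yr_elim _ _)]
      rw [this, mul_one]
    · intro b _ hb
      have : ir (Sum.elim y1 b) = 0 := by
        unfold ir; rw [if_neg (by rw [yr_elim]; exact hb)]
      rw [this, mul_zero]
    · intro h; exact absurd (Finset.mem_univ _) h
  · intro ι
    refine ⟨?_, ?_⟩
    · intro i j hij
      apply (hM.spread ι).inj
      have := congrArg yl hij
      simpa [yl_elim] using this
    · intro c X k
      refine le_trans ?_ ((hM.spread ι).plane (yl c) (yl X) (yl k))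
      have h1 : Nat.card {i : Fin Q // (Sum.elim (v ι i) 0 : m1 ⊕ m2 → ZMod p) + c ∈
          Submodule.span (ZMod p) {X, k}} ≤
          Nat.card {i : Fin Q // v ι i + yl c ∈ Submodule.span (ZMod p) {yl X, yl k}} :=
        Nat.card_le_card_of_injective
          (fun i => ⟨i.1, span_yl X k _ i.2⟩)
          (fun i j hij => Subtype.ext (Subtype.mk.inj hij))
      exact_mod_cast h1
  · intro κ i j
    rw [norm_ft_lift]
    have h2 : ∀ ι, ir (κ - Sum.elim (v ι i) 0 - Sum.elim (v ι j) 0) = ir κ := by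
      intro ι
      have h3 : yr (κ - Sum.elim (v ι i) 0 - Sum.elim (v ι j) 0) = yr κ := by
        funext s; simp [yr]
      unfold ir; rw [h3]
    simp_rw [h2]
    rw [← Finset.sum_mul]
    exact mul_le_mul_of_nonneg_right (hM.maj (yl κ) i j) (ir_nonneg _)

theorem MajE.prod_zero {F1 : (m1 → ZMod p) → ℂ} {E P : ℝ} {Q : ℕ} (h : MajE F1 E Q P)
    (N l : ℕ) (hl : l ≤ N) (F2 : (Fin N → ZMod p) → ℂ) (Z2 : ℝ) (hZ0 : 0 ≤ Z2)
    (hZ : ∑ κ, ‖ft F2 κ‖ ≤ Z2)
    (hF : ∀ y : Fin N → ZMod p, (∃ t : Fin N, t.1 < l ∧ y t ≠ 0) → F2 y = 0) :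
    MajE (fun y : m1 ⊕ Fin N → ZMod p => F1 (yl y) * F2 (yr y)) (E * Z2) (Q * p ^ l)
      ((p : ℝ) ^ 2) := by
  classical
  obtain ⟨I, hI, Z, v, G, hE, hM⟩ := h
  have hM2 := maj_zero N l hl F2 Z2 hZ hF
  have hinj : ∀ ι, Function.Injective (fun i : Fin (Q * p ^ l) =>
      (Sum.elim (v ι (finProdFinEquiv.symm i).1) (vv p N l (finProdFinEquiv.symm i).2) :
        m1 ⊕ Fin N → ZMod p)) := by
    intro ι i j hij
    have h1 := congrArg yl hij
    have h2 := congrArg yr hij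
    simp only [yl_elim, yr_elim] at h1 h2
    apply finProdFinEquiv.symm.injective
    exact Prod.ext ((hM.spread ι).inj h1) (vv_inj N l hl h2)
  refine ⟨I, hI, Z * Z2, fun ι i => Sum.elim (v ι (finProdFinEquiv.symm i).1)
    (vv p N l (finProdFinEquiv.symm i).2), fun ι κ => G ι (yl κ) * ‖ft F2 (yr κ)‖, ?_, ?_⟩
  · rw [← mul_assoc]; exact mul_le_mul_of_nonneg_right hE hZ0
  refine ⟨Nat.mul_pos hM.Qpos (pow_pos (Fact.out : p.Prime).pos _),
    one_le_pow₀ (by exact_mod_cast (Fact.out : p.Prime).one_le), ?_, ?_, ?_, ?_⟩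
  · intro ι κ; exact mul_nonneg (hM.nonneg _ _) (norm_nonneg _)
  · intro ι
    rw [sum_split]
    simp only [yl_elim, yr_elim]
    rw [← Finset.sum_mul_sum]
    have h0 : 0 ≤ ∑ κ, G ι κ := Finset.sum_nonneg fun κ _ => hM.nonneg ι κ
    exact mul_le_mul (hM.mass ι) hZ (Finset.sum_nonneg fun _ _ => norm_nonneg _)
      (h0.trans (hM.mass ι))
  · intro ι
    refine ⟨hinj ι, fun c X k => ?_⟩
    have h1 := card_plane _ (hinj ι) c X k
    have h2 := h1.trans (min_le_left _ _)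
    exact_mod_cast h2
  · intro κ i j
    rw [ft_mul, norm_mul]
    have h1 := hM.maj (yl κ) (finProdFinEquiv.symm i).1 (finProdFinEquiv.symm j).1
    have h2 := hM2.maj (yr κ) (finProdFinEquiv.symm i).2 (finProdFinEquiv.symm j).2
    simp only [Finset.univ_unique, Finset.sum_singleton] at h2
    calc _ ≤ (∑ ι, G ι (yl κ - v ι (finProdFinEquiv.symm i).1 - v ι (finProdFinEquiv.symm j).1)) *
          ‖ft F2 (yr κ - vv p N l (finProdFinEquiv.symm i).2 -
            vv p N l (finProdFinEquiv.symm j).2)‖ :=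
          mul_le_mul h1 h2 (norm_nonneg _) ((norm_nonneg _).trans h1)
      _ = _ := by rw [Finset.sum_mul]; rfl

end Pool.Agent.W862.Kom
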