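import Pool.Agent.W862.Kom.CoreThm

/-!
# First moment bounds for the pieces
-/

namespace Pool.Agent.W862.Kom

open Finset

variable {p : ℕ} [Fact p.Prime]
variable {m n : Type*} [Fintype m] [DecidableEq m] [Fintype n] [DecidableEq n]

/-- `X` has a majorant depending on `ξ` only, of mean at most `B` -/
def Bd {R : Type*} (X : (n → m → ZMod p) → R → (m → ZMod p) → ℝ) (B : ℝ) : Prop :=
  ∃ M : (n → m → ZMod p) → ℝ, (∀ ξ, 0 ≤ M ξ) ∧ (∀ ξ ρ g, X ξ ρ g ≤ M ξ) ∧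
    ∑ ξ, M ξ ≤ ((p : ℝ) ^ (Fintype.card n * Fintype.card m)) * B

section
variable {R : Type*} {X Y : (n → m → ZMod p) → R → (m → ZMod p) → ℝ} {A B : ℝ}

lemma Bd.mono (h : Bd X A) (hAB : A ≤ B) : Bd X B := by
  obtain ⟨M, h0, h1, h2⟩ := h
  exact ⟨M, h0, h1, h2.trans (mul_le_mul_of_nonneg_left hAB (by positivity))⟩

lemma Bd.of_le (h : Bd X A) (hXY : ∀ ξ ρ g, Y ξ ρ g ≤ X ξ ρ g) : Bd Y A := by
  obtain ⟨M, h0, h1, h2⟩ := h
  exact ⟨M, h0, fun ξ ρ g => (hXY ξ ρ g).trans (h1 ξ ρ g), h2⟩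

lemma Bd.add (h : Bd X A) (h' : Bd Y B) : Bd (fun ξ ρ g => X ξ ρ g + Y ξ ρ g) (A + B) := by
  obtain ⟨M, h0, h1, h2⟩ := h
  obtain ⟨M', h0', h1', h2'⟩ := h'
  refine ⟨fun ξ => M ξ + M' ξ, fun ξ => add_nonneg (h0 ξ) (h0' ξ),
    fun ξ ρ g => add_le_add (h1 ξ ρ g) (h1' ξ ρ g), ?_⟩
  rw [Finset.sum_add_distrib, mul_add]
  exact add_le_add h2 h2'

lemma Bd.smul (h : Bd X A) {c : ℝ} (hc : 0 ≤ c) : Bd (fun ξ ρ g => c * X ξ ρ g) (c * A) := by
  obtain ⟨M, h0, h1, h2⟩ := h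
  refine ⟨fun ξ => c * M ξ, fun ξ => mul_nonneg hc (h0 ξ),
    fun ξ ρ g => mul_le_mul_of_nonneg_left (h1 ξ ρ g) hc, ?_⟩
  rw [← Finset.mul_sum]
  calc c * ∑ ξ, M ξ ≤ c * (((p : ℝ) ^ (Fintype.card n * Fintype.card m)) * A) :=
        mul_le_mul_of_nonneg_left h2 hc
    _ = _ := by ring

lemma Bd.zero : Bd (fun (_ : n → m → ZMod p) (_ : R) (_ : m → ZMod p) => (0 : ℝ)) 0 :=
  ⟨fun _ => 0, fun _ => le_rfl, fun _ _ _ => le_rfl, by simp⟩

lemma Bd.sum {X : ℕ → (n → m → ZMod p) → R → (m → ZMod p) → ℝ} {A : ℕ → ℝ} (L : ℕ)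
    (h : ∀ l < L, Bd (X l) (A l)) :
    Bd (fun ξ ρ g => ∑ l ∈ range L, X l ξ ρ g) (∑ l ∈ range L, A l) := by
  induction L with
  | zero => simpa using Bd.zero
  | succ L ih =>
    simp_rw [Finset.sum_range_succ]
    exact (ih fun l hl => h l (by omega)).add (h L (by omega))

lemma Bd.of_four (W : (n → m → ZMod p) → ℝ) (hW0 : ∀ ξ, 0 ≤ W ξ)
    (hW : ∀ ξ ρ g, X ξ ρ g ^ 4 ≤ W ξ) (hB : 0 ≤ B)
    (hsum : ∑ ξ, W ξ ≤ ((p : ℝ) ^ (Fintype.card n * Fintype.card m)) * B ^ 4) : Bd X B := by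
  have h4 : ∀ ξ, (Real.sqrt (Real.sqrt (W ξ))) ^ 4 = W ξ := by
    intro ξ
    calc (Real.sqrt (Real.sqrt (W ξ))) ^ 4 = ((Real.sqrt (Real.sqrt (W ξ))) ^ 2) ^ 2 := by ring
      _ = W ξ := by rw [Real.sq_sqrt (Real.sqrt_nonneg _), Real.sq_sqrt (hW0 ξ)]
  refine ⟨fun ξ => Real.sqrt (Real.sqrt (W ξ)), fun ξ => Real.sqrt_nonneg _, ?_, ?_⟩
  · intro ξ ρ g
    refine le_of_pow_le_pow_left₀ (n := 4) (by norm_num) (Real.sqrt_nonneg _) ?_
    rw [h4]; exact hW ξ ρ g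
  · have h5 := sum_pow_four_le (univ : Finset (n → m → ZMod p))
      (fun ξ => Real.sqrt (Real.sqrt (W ξ))) (fun ξ _ => Real.sqrt_nonneg _)
    simp_rw [h4] at h5
    rw [Finset.card_univ, card_xi] at h5
    refine le_of_pow_le_pow_left₀ (n := 4) (by norm_num) (by positivity) (h5.trans ?_)
    calc _ ≤ ((p : ℝ) ^ (Fintype.card n * Fintype.card m)) ^ 3 *
          (((p : ℝ) ^ (Fintype.card n * Fintype.card m)) * B ^ 4) :=
          mul_le_mul_of_nonneg_left hsum (by positivity)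
      _ = _ := by ring

end

/-- Parseval along a random frequency -/
lemma sum_hat_sq (s : (m → ZMod p) → ℂ) (κ : n → ZMod p) (hκ : κ ≠ 0) :
    ∑ ξ : n → m → ZMod p, ‖hat s (cmb κ ξ)‖ ^ 2 =
      ((p : ℝ) ^ (Fintype.card n * Fintype.card m)) * ∑ i, ‖s i‖ ^ 2 := by
  obtain ⟨t, ht⟩ := Function.ne_iff.mp hκ
  have ht' : κ t ≠ 0 := by simpa using ht
  have h1 : ((∑ ξ : n → m → ZMod p, ‖hat s (cmb κ ξ)‖ ^ 2 : ℝ) : ℂ) =
      ∑ i, ∑ j, (s i * (starRingEnd ℂ) (s j)) *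
        ∑ ξ : n → m → ZMod p, chi (∑ t, ξ t ⬝ᵥ (κ t • j - κ t • i)) := by
    rw [Complex.ofReal_sum]
    simp_rw [hat, norm_sq_sum_eq, Finset.mul_sum]
    rw [Finset.sum_comm]
    refine Finset.sum_congr rfl fun i _ => ?_
    rw [Finset.sum_comm]
    refine Finset.sum_congr rfl fun j _ => Finset.sum_congr rfl fun ξ _ => ?_
    rw [map_mul, ← chi_neg, neg_neg]
    have : chi (∑ t, ξ t ⬝ᵥ (κ t • j - κ t • i)) = chi (-(cmb κ ξ ⬝ᵥ i)) * chi (cmb κ ξ ⬝ᵥ j) := by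
      rw [← chi_add]
      congr 1
      simp only [dotProduct_sub, Finset.sum_sub_distrib, ← cmb_dot]
      ring
    rw [this]; ring
  have h2 : ∀ i j : m → ZMod p, ∑ ξ : n → m → ZMod p, chi (∑ t, ξ t ⬝ᵥ (κ t • j - κ t • i)) =
      if i = j then ((p : ℂ) ^ (Fintype.card n * Fintype.card m)) else 0 := by
    intro i j
    rw [sum_chi_xi (fun t => κ t • j - κ t • i)]
    refine if_congr ?_ rfl rfl
    constructor
    · intro h
      funext l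
      have h3 := congrFun (congrFun h t) l
      simp only [Pi.sub_apply, Pi.smul_apply, smul_eq_mul, Pi.zero_apply] at h3
      have h4 : κ t * (j l - i l) = 0 := by rw [mul_sub]; exact h3
      rcases mul_eq_zero.mp h4 with h5 | h5
      · exact absurd h5 ht'
      · exact (sub_eq_zero.mp h5).symm
    · rintro rfl; funext l; simp
  simp_rw [h2] at h1
  have h3 : ∑ i, ∑ j, (s i * (starRingEnd ℂ) (s j)) *
      (if i = j then ((p : ℂ) ^ (Fintype.card n * Fintype.card m)) else 0) =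
      ((((p : ℝ) ^ (Fintype.card n * Fintype.card m)) * ∑ i, ‖s i‖ ^ 2 : ℝ) : ℂ) := by
    simp only [mul_ite, mul_zero, Finset.sum_ite_eq, Finset.mem_univ, if_true]
    push_cast
    rw [Finset.mul_sum]
    refine Finset.sum_congr rfl fun i _ => ?_
    rw [Complex.mul_conj, Complex.normSq_eq_norm_sq]; push_cast; ring
  rw [h3] at h1
  exact_mod_cast h1

/-- size of the group -/
lemma gcard_ne : ((p : ℂ) ^ (Fintype.card m)) ≠ 0 := by
  have : (p : ℂ) ≠ 0 := by exact_mod_cast (Fact.out : p.Prime).ne_zero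
  exact pow_ne_zero _ this

/-- the inverse transform -/
noncomputable def ihat (c : (m → ZMod p) → ℂ) (i : m → ZMod p) : ℂ :=
  ((p : ℂ) ^ (Fintype.card m))⁻¹ * ∑ η, c η * chi (η ⬝ᵥ i)

lemma hat_ihat (c : (m → ZMod p) → ℂ) (η : m → ZMod p) : hat (ihat c) η = c η := by
  unfold hat ihat
  have h1 : ∀ i : m → ZMod p, ((p : ℂ) ^ (Fintype.card m))⁻¹ * (∑ η', c η' * chi (η' ⬝ᵥ i)) *
      chi (-(η ⬝ᵥ i)) = ((p : ℂ) ^ (Fintype.card m))⁻¹ * ∑ η', c η' * chi (i ⬝ᵥ (η' - η)) := by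
    intro i
    rw [mul_assoc, Finset.sum_mul]
    congr 1
    refine Finset.sum_congr rfl fun η' _ => ?_
    rw [mul_assoc, ← chi_add, dotProduct_sub, dotProduct_comm i η', dotProduct_comm i η,
      sub_eq_add_neg]
  simp_rw [h1]
  rw [← Finset.mul_sum, Finset.sum_comm]
  simp_rw [← Finset.mul_sum, sum_chi_dot, sub_eq_zero]
  simp only [mul_ite, mul_zero, Finset.sum_ite_eq', Finset.mem_univ, if_true]
  field_simp [gcard_ne (p := p) (m := m)]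

lemma ihat_hat (s : (m → ZMod p) → ℂ) (i : m → ZMod p) : ihat (hat s) i = s i := by
  unfold hat ihat
  have h1 : ∀ η : m → ZMod p, (∑ j, s j * chi (-(η ⬝ᵥ j))) * chi (η ⬝ᵥ i) =
      ∑ j, s j * chi (η ⬝ᵥ (i - j)) := by
    intro η
    rw [Finset.sum_mul]
    refine Finset.sum_congr rfl fun j _ => ?_
    rw [mul_assoc, ← chi_add, dotProduct_sub]
    congr 2; ring
  simp_rw [h1]
  rw [Finset.sum_comm]
  simp_rw [← Finset.mul_sum, sum_chi_dot, sub_eq_zero]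
  simp only [mul_ite, mul_zero, Finset.sum_ite_eq, Finset.mem_univ, if_true]
  field_simp [gcard_ne (p := p) (m := m)]

lemma parseval_ihat (c : (m → ZMod p) → ℂ) :
    ∑ i, ‖ihat c i‖ ^ 2 = ((p : ℝ) ^ (Fintype.card m))⁻¹ * ∑ η, ‖c η‖ ^ 2 := by
  have h1 : ((∑ i, ‖ihat c i‖ ^ 2 : ℝ) : ℂ) = ((p : ℂ) ^ (Fintype.card m))⁻¹ ^ 2 *
      ∑ η, ∑ η', (c η * (starRingEnd ℂ) (c η')) * ∑ i, chi (i ⬝ᵥ (η - η')) := by
    rw [Complex.ofReal_sum]
    have h2 : ∀ i : m → ZMod p, ((‖ihat c i‖ ^ 2 : ℝ) : ℂ) =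
        ((p : ℂ) ^ (Fintype.card m))⁻¹ ^ 2 * ∑ η, ∑ η', (c η * (starRingEnd ℂ) (c η')) *
          chi (i ⬝ᵥ (η - η')) := by
      intro i
      unfold ihat
      rw [norm_mul, mul_pow, Complex.ofReal_mul, norm_sq_sum_eq]
      congr 1
      · rw [norm_inv, norm_pow, Complex.norm_natCast]; push_cast; rfl
      · refine Finset.sum_congr rfl fun η _ => Finset.sum_congr rfl fun η' _ => ?_
        rw [map_mul, ← chi_neg, dotProduct_sub, sub_eq_add_neg, chi_add, dotProduct_comm i η,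
          dotProduct_comm i η']
        ring
    simp_rw [h2]
    rw [← Finset.mul_sum, Finset.sum_comm]
    congr 1
    refine Finset.sum_congr rfl fun η _ => ?_
    rw [Finset.sum_comm]
    refine Finset.sum_congr rfl fun η' _ => ?_
    rw [Finset.mul_sum]
  simp_rw [sum_chi_dot, sub_eq_zero] at h1
  have h3 : ((p : ℂ) ^ (Fintype.card m))⁻¹ ^ 2 * ∑ η, ∑ η', (c η * (starRingEnd ℂ) (c η')) *
      (if η = η' then ((p : ℂ) ^ (Fintype.card m)) else 0) =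
      ((((p : ℝ) ^ (Fintype.card m))⁻¹ * ∑ η, ‖c η‖ ^ 2 : ℝ) : ℂ) := by
    simp only [mul_ite, mul_zero, Finset.sum_ite_eq, Finset.mem_univ, if_true]
    push_cast
    rw [Finset.mul_sum, Finset.mul_sum]
    refine Finset.sum_congr rfl fun i _ => ?_
    rw [Complex.mul_conj, Complex.normSq_eq_norm_sq]
    have := gcard_ne (p := p) (m := m)
    field_simp
    push_cast; ring
  rw [h3] at h1
  exact_mod_cast h1

lemma parseval_hat (s : (m → ZMod p) → ℂ) :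
    ((p : ℝ) ^ (Fintype.card m))⁻¹ * ∑ η, ‖hat s η‖ ^ 2 = ∑ i, ‖s i‖ ^ 2 := by
  rw [← parseval_ihat]
  simp_rw [ihat_hat]

lemma ihat_sub (c c' : (m → ZMod p) → ℂ) (i : m → ZMod p) :
    ihat (fun η => c η - c' η) i = ihat c i - ihat c' i := by
  unfold ihat
  simp_rw [sub_mul, Finset.sum_sub_distrib, mul_sub]

lemma hat_sub (s s' : (m → ZMod p) → ℂ) (η : m → ZMod p) :
    hat (fun i => s i - s' i) η = hat s η - hat s' η := by
  unfold hat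
  simp_rw [sub_mul, Finset.sum_sub_distrib]

/-- splitting off the large Fourier coefficients -/
lemma split {R : Type*} [Fintype R] (s : R → (m → ZMod p) → ℂ) (K : ℝ) (hK : 0 < K)
    (hs : ∑ ρ, ∑ i, ‖s ρ i‖ ^ 2 ≤ 1) :
    ∃ b : R → (m → ZMod p) → ℂ, (∀ η, ∑ ρ, ‖hat (b ρ) η‖ ^ 2 ≤ K ^ 2) ∧
      (∀ ρ i, ‖s ρ i - b ρ i‖ ≤ 1 / K) ∧ (∑ ρ, ∑ i, ‖b ρ i‖ ^ 2 ≤ 1) ∧
      (∀ ρ η, ‖hat (fun i => s ρ i - b ρ i) η‖ ≤ (∑ ρ', ‖hat (s ρ') η‖ ^ 2) / K) := by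
  classical
  set A2 : (m → ZMod p) → ℝ := fun η => ∑ ρ', ‖hat (s ρ') η‖ ^ 2 with hA2
  have hA20 : ∀ η, 0 ≤ A2 η := fun η => Finset.sum_nonneg fun _ _ => sq_nonneg _
  set b : R → (m → ZMod p) → ℂ := fun ρ =>
    ihat (fun η => if A2 η ≤ K ^ 2 then hat (s ρ) η else 0) with hb
  have hhat : ∀ ρ η, hat (b ρ) η = if A2 η ≤ K ^ 2 then hat (s ρ) η else 0 := by
    intro ρ η; rw [hb]; simp only []; rw [hat_ihat]
  have hsum : ((p : ℝ) ^ (Fintype.card m))⁻¹ * ∑ η, A2 η ≤ 1 := by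
    rw [hA2]
    simp only []
    rw [Finset.sum_comm, Finset.mul_sum]
    simp_rw [parseval_hat]
    exact hs
  have hdiff : ∀ ρ η, ‖hat (s ρ) η - (if A2 η ≤ K ^ 2 then hat (s ρ) η else 0)‖ ≤ A2 η / K := by
    intro ρ η
    split_ifs with h
    · rw [sub_self, norm_zero]; exact div_nonneg (hA20 η) hK.le
    · rw [sub_zero, le_div_iff₀ hK]
      push Not at h
      have h1 : ‖hat (s ρ) η‖ ^ 2 ≤ A2 η :=
        Finset.single_le_sum (f := fun ρ' => ‖hat (s ρ') η‖ ^ 2) (fun _ _ => sq_nonneg _)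
          (Finset.mem_univ ρ)
      nlinarith [sq_nonneg (‖hat (s ρ) η‖ - K)]
  refine ⟨b, ?_, ?_, ?_, ?_⟩
  · intro η
    simp_rw [hhat]
    by_cases h : A2 η ≤ K ^ 2
    · simp_rw [if_pos h]; exact h
    · simp_rw [if_neg h]; simp; positivity
  · intro ρ i
    have h1 : s ρ i - b ρ i = ihat (fun η => hat (s ρ) η -
        (if A2 η ≤ K ^ 2 then hat (s ρ) η else 0)) i := by
      rw [ihat_sub, ihat_hat]
    rw [h1]
    unfold ihat
    rw [norm_mul, norm_inv, norm_pow, Complex.norm_natCast]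
    calc ((p : ℝ) ^ (Fintype.card m))⁻¹ * ‖∑ η, (hat (s ρ) η -
        (if A2 η ≤ K ^ 2 then hat (s ρ) η else 0)) * chi (η ⬝ᵥ i)‖
        ≤ ((p : ℝ) ^ (Fintype.card m))⁻¹ * ∑ η, A2 η / K := by
          refine mul_le_mul_of_nonneg_left ?_ (by positivity)
          refine (norm_sum_le _ _).trans (Finset.sum_le_sum fun η _ => ?_)
          rw [norm_mul, norm_chi, mul_one]
          exact hdiff ρ η
      _ = (((p : ℝ) ^ (Fintype.card m))⁻¹ * ∑ η, A2 η) / K := by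
          rw [← Finset.sum_div]; ring
      _ ≤ 1 / K := div_le_div_of_nonneg_right hsum hK.le
  · have h1 : ∀ ρ, ∑ i, ‖b ρ i‖ ^ 2 ≤ ∑ i, ‖s ρ i‖ ^ 2 := by
      intro ρ
      rw [hb]
      simp only []
      rw [parseval_ihat, ← parseval_hat (s ρ)]
      refine mul_le_mul_of_nonneg_left (Finset.sum_le_sum fun η _ => ?_) (by positivity)
      split_ifs with h
      · exact le_rfl
      · simp
    exact (Finset.sum_le_sum fun ρ _ => h1 ρ).trans hs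
  · intro ρ η
    rw [hat_sub, hhat]
    exact hdiff ρ η

lemma XX_sub (s s' : (m → ZMod p) → ℂ) (F : (n → ZMod p) → ℂ) (ξ : n → m → ZMod p)
    (g : m → ZMod p) :
    XX s F ξ g = XX s' F ξ g + XX (fun i => s i - s' i) F ξ g := by
  unfold XX
  rw [← Finset.sum_add_distrib]
  refine Finset.sum_congr rfl fun i _ => ?_
  ring

lemma Maj.l1 {I : Type*} [Fintype I] {F : (n → ZMod p) → ℂ} {Q : ℕ} {Z P : ℝ}
    {v : I → Fin Q → (n → ZMod p)} {G : I → (n → ZMod p) → ℝ} (hM : Maj F I Q Z P v G) :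
    ∑ κ, ‖ft F κ‖ ≤ Fintype.card I * Z := by
  have i0 : Fin Q := ⟨0, hM.Qpos⟩
  calc ∑ κ, ‖ft F κ‖ ≤ ∑ κ, ∑ σ, G σ (κ - v σ i0 - v σ i0) :=
        Finset.sum_le_sum fun κ _ => hM.maj κ i0 i0
    _ = ∑ σ, ∑ κ, G σ (κ - v σ i0 - v σ i0) := Finset.sum_comm
    _ = ∑ σ, ∑ κ, G σ κ := by
        refine Finset.sum_congr rfl fun σ _ => ?_
        refine Fintype.sum_equiv (Equiv.subRight (v σ i0 + v σ i0)) _ _ fun κ => ?_
        simp [sub_sub]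
    _ ≤ ∑ σ : I, Z := Finset.sum_le_sum fun σ _ => hM.mass σ
    _ = _ := by rw [Finset.sum_const, Finset.card_univ, nsmul_eq_mul]

theorem small_part {R I : Type*} [Fintype R] [Fintype I] {F : (n → ZMod p) → ℂ} {Q : ℕ}
    {Z P : ℝ} {v : I → Fin Q → (n → ZMod p)} {G : I → (n → ZMod p) → ℝ}
    (hM : Maj F I Q Z P v G) (hF0 : ft F 0 = 0) (s : R → (m → ZMod p) → ℂ)
    (δ K B : ℝ) (hδ : ∀ ρ i, ‖s ρ i‖ ≤ δ) (hδ0 : 0 ≤ δ)
    (hs : ∑ ρ, ∑ i, ‖s ρ i‖ ^ 2 ≤ 1) (hK : 0 < K) (hB : 0 ≤ B)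
    (hB4 : (Fintype.card I : ℝ) ^ 4 * Z ^ 4 * ((δ + 1 / K) ^ 2 + 3 * P * K ^ 4 / Q) ≤ B ^ 4) :
    Bd (fun (ξ : n → m → ZMod p) ρ g => ‖XX (s ρ) F ξ g‖) (Fintype.card I * Z / K + B) := by
  obtain ⟨b, hb1, hb2, hb3, hb4⟩ := split s K hK hs
  have hbn : ∀ ρ i, ‖b ρ i‖ ≤ δ + 1 / K := by
    intro ρ i
    have h1 : b ρ i = s ρ i - (s ρ i - b ρ i) := by ring
    rw [h1]
    exact (norm_sub_le _ _).trans (add_le_add (hδ ρ i) (hb2 ρ i))
  have hU : ∑ ρ, ∑ i, ‖b ρ i‖ ^ 4 ≤ (δ + 1 / K) ^ 2 := by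
    calc ∑ ρ, ∑ i, ‖b ρ i‖ ^ 4 ≤ ∑ ρ, ∑ i, (δ + 1 / K) ^ 2 * ‖b ρ i‖ ^ 2 := by
          refine Finset.sum_le_sum fun ρ _ => Finset.sum_le_sum fun i _ => ?_
          have := pow_le_pow_left₀ (norm_nonneg _) (hbn ρ i) 2
          calc ‖b ρ i‖ ^ 4 = ‖b ρ i‖ ^ 2 * ‖b ρ i‖ ^ 2 := by ring
            _ ≤ _ := mul_le_mul_of_nonneg_right this (sq_nonneg _)
      _ = (δ + 1 / K) ^ 2 * ∑ ρ, ∑ i, ‖b ρ i‖ ^ 2 := by simp_rw [← Finset.mul_sum]
      _ ≤ (δ + 1 / K) ^ 2 * 1 := mul_le_mul_of_nonneg_left hb3 (sq_nonneg _)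
      _ = _ := mul_one _
  obtain ⟨W, hW0, hW1, hW2⟩ := core (m := m) hM b K _ hb1 hU
  have p1 : Bd (fun (ξ : n → m → ZMod p) ρ g => ‖XX (b ρ) F ξ g‖) B := by
    refine Bd.of_four W hW0 hW1 hB (hW2.trans ?_)
    exact mul_le_mul_of_nonneg_left hB4 (by positivity)
  have p2 : Bd (fun (ξ : n → m → ZMod p) ρ g => ‖XX (fun i => s ρ i - b ρ i) F ξ g‖)
      (Fintype.card I * Z / K) := by
    refine ⟨fun ξ => ∑ κ, ‖ft F κ‖ * ((∑ ρ', ‖hat (s ρ') (cmb κ ξ)‖ ^ 2) / K), ?_, ?_, ?_⟩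
    · intro ξ
      exact Finset.sum_nonneg fun κ _ => mul_nonneg (norm_nonneg _)
        (div_nonneg (Finset.sum_nonneg fun _ _ => sq_nonneg _) hK.le)
    · intro ξ ρ g
      simp only []
      rw [XX_eq]
      refine (norm_sum_le _ _).trans (Finset.sum_le_sum fun κ _ => ?_)
      rw [norm_mul, norm_mul, norm_chi, one_mul]
      exact mul_le_mul_of_nonneg_left (hb4 ρ _) (norm_nonneg _)
    · rw [Finset.sum_comm]
      have h1 : ∀ κ, ∑ ξ : n → m → ZMod p, ‖ft F κ‖ *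
          ((∑ ρ', ‖hat (s ρ') (cmb κ ξ)‖ ^ 2) / K) ≤
          ‖ft F κ‖ * (((p : ℝ) ^ (Fintype.card n * Fintype.card m)) / K) := by
        intro κ
        by_cases hκ : κ = 0
        · rw [hκ, hF0]; simp
        · rw [← Finset.mul_sum, ← Finset.sum_div, Finset.sum_comm]
          simp_rw [sum_hat_sq _ κ hκ]
          rw [← Finset.mul_sum]
          refine mul_le_mul_of_nonneg_left (div_le_div_of_nonneg_right ?_ hK.le) (norm_nonneg _)
          calc _ ≤ ((p : ℝ) ^ (Fintype.card n * Fintype.card m)) * 1 :=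
                mul_le_mul_of_nonneg_left hs (by positivity)
            _ = _ := mul_one _
      refine (Finset.sum_le_sum fun κ _ => h1 κ).trans ?_
      rw [← Finset.sum_mul]
      calc _ ≤ (Fintype.card I * Z) * (((p : ℝ) ^ (Fintype.card n * Fintype.card m)) / K) :=
            mul_le_mul_of_nonneg_right hM.l1 (by positivity)
        _ = _ := by ring
  refine (p2.add p1).of_le fun ξ ρ g => ?_
  rw [XX_sub (s ρ) (b ρ), add_comm]
  exact norm_add_le _ _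

open Classical in
theorem large_part {R I : Type*} [Fintype R] [Fintype I] {F : (n → ZMod p) → ℂ} {Q : ℕ}
    {Z P : ℝ} {v : I → Fin Q → (n → ZMod p)} {G : I → (n → ZMod p) → ℝ}
    (hM : Maj F I Q Z P v G) (Λ : R → Finset (m → ZMod p)) (lam B : ℝ)
    (hlam : ∑ ρ, ((Λ ρ).card : ℝ) ≤ lam) (hB : 0 ≤ B)
    (hB4 : (Fintype.card I : ℝ) ^ 4 * Z ^ 4 * (lam + 3 * P * lam ^ 4 / Q) ≤ B ^ 4) :
    Bd (fun (ξ : n → m → ZMod p) ρ g => ‖XX (fun i => if i ∈ Λ ρ then 1 else 0) F ξ g‖) B := by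
  have hlam0 : 0 ≤ lam := le_trans (Finset.sum_nonneg fun _ _ => Nat.cast_nonneg _) hlam
  have h1 : ∀ (ρ : R) (η : m → ZMod p),
      ‖hat (fun i => if i ∈ Λ ρ then 1 else 0) η‖ ≤ ((Λ ρ).card : ℝ) := by
    intro ρ η
    unfold hat
    refine (norm_sum_le _ _).trans ?_
    have : ∀ i, ‖(if i ∈ Λ ρ then (1 : ℂ) else 0) * chi (-(η ⬝ᵥ i))‖ =
        if i ∈ Λ ρ then 1 else 0 := by
      intro i
      rw [norm_mul, norm_chi, mul_one]
      split_ifs <;> simp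
    simp_rw [this]
    simp
  have hK : ∀ η : m → ZMod p, ∑ ρ, ‖hat (fun i => if i ∈ Λ ρ then (1 : ℂ) else 0) η‖ ^ 2 ≤
      lam ^ 2 := by
    intro η
    calc _ ≤ ∑ ρ, ((Λ ρ).card : ℝ) ^ 2 :=
          Finset.sum_le_sum fun ρ _ => pow_le_pow_left₀ (norm_nonneg _) (h1 ρ η) 2
      _ ≤ ∑ ρ, ((Λ ρ).card : ℝ) * lam := by
          refine Finset.sum_le_sum fun ρ _ => ?_
          rw [sq]
          refine mul_le_mul_of_nonneg_left ?_ (Nat.cast_nonneg _)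
          exact (Finset.single_le_sum (f := fun ρ => ((Λ ρ).card : ℝ))
            (fun _ _ => Nat.cast_nonneg _) (Finset.mem_univ ρ)).trans hlam
      _ = (∑ ρ, ((Λ ρ).card : ℝ)) * lam := by rw [Finset.sum_mul]
      _ ≤ lam * lam := mul_le_mul_of_nonneg_right hlam hlam0
      _ = _ := by ring
  have hU : ∑ ρ, ∑ i : m → ZMod p, ‖(if i ∈ Λ ρ then (1 : ℂ) else 0)‖ ^ 4 ≤ lam := by
    refine le_trans (Finset.sum_le_sum fun ρ _ => ?_) hlam
    have : ∀ i : m → ZMod p, ‖(if i ∈ Λ ρ then (1 : ℂ) else 0)‖ ^ 4 =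
        if i ∈ Λ ρ then 1 else 0 := by
      intro i; split_ifs <;> simp
    simp_rw [this]
    simp
  obtain ⟨W, hW0, hW1, hW2⟩ := core (m := m) hM
    (fun ρ i => if i ∈ Λ ρ then (1 : ℂ) else 0) lam lam hK hU
  exact Bd.of_four W hW0 hW1 hB (hW2.trans (mul_le_mul_of_nonneg_left hB4 (by positivity)))

end Pool.Agent.W862.Kom
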