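import Pool.Agent.W862.Kom.Chain

/-!
# The two kinds of stages, with the concrete parameters
-/

namespace Pool.Agent.W862.Kom

open Finset

variable {p : ℕ} [Fact p.Prime]

/-- the radix -/
def Qc (s : ℕ) : ℕ := 2 ^ (16 * s ^ 2)

/-- the widths -/
def Wc (s : ℕ) : ℕ := 2 ^ (16 * (2 * s + 1))

lemma hRc : Radix Qc Wc :=
  ⟨by simp [Qc], fun s => by unfold Qc Wc; rw [← pow_add]; congr 1; ring,
    fun s => by unfold Wc; positivity⟩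

lemma Qc_real (s : ℕ) : ((Qc s : ℕ) : ℝ) = e2 (16 * (s : ℝ) ^ 2) := by
  have := e2_nat (16 * s ^ 2)
  unfold Qc
  push_cast at this ⊢
  exact this.symm

lemma Wc_real (s : ℕ) : ((Wc s : ℕ) : ℝ) = e2 (16 * (2 * (s : ℝ) + 1)) := by
  have := e2_nat (16 * (2 * s + 1))
  unfold Wc
  push_cast at this ⊢
  exact this.symm

lemma Wc_mono {s t : ℕ} (h : s ≤ t) : Wc s ≤ Wc t := by
  unfold Wc
  exact Nat.pow_le_pow_right (by norm_num) (by omega)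

lemma Qc_sixteen (l : ℕ) : 16 ∣ Qc (l + 1) := by
  unfold Qc
  have : 16 * (l + 1) ^ 2 = 4 + (16 * (l + 1) ^ 2 - 4) := by
    have : 1 ≤ (l + 1) ^ 2 := Nat.one_le_pow _ _ (by omega)
    omega
  rw [this, pow_add]
  exact ⟨2 ^ (16 * (l + 1) ^ 2 - 4), by norm_num⟩

lemma Qc_ge (l : ℕ) : 16 ≤ Qc (l + 1) :=
  Nat.le_of_dvd (hRc.Qpos _) (Qc_sixteen l)

lemma Wc_four (s : ℕ) : 4 ≤ Wc s := by
  unfold Wc
  calc 4 = 2 ^ 2 := by norm_num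
    _ ≤ _ := Nat.pow_le_pow_right (by norm_num) (by omega)

attribute [irreducible] Qc Wc

/-- exponent of the size of the majorant -/
noncomputable def th (l : ℕ) : ℝ := 20 + 25 * l + (l : ℝ) ^ 2 / 16 + ((l : ℝ) + 1) ^ 2 / 8

/-- exponent of the size of the exact majorant -/
noncomputable def Th (L : ℕ) : ℝ := 21 + 25 * L + (L : ℝ) ^ 2 / 16 + ((L : ℝ) + 2) ^ 2 / 8

lemma EE_th (C : ℝ) (hC0 : 0 ≤ C) (hC : C ≤ 16) (l : ℕ) :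
    EE C (1 / 256) l (Qc (l + 1)) ≤ e2 (th l) := by
  refine (EE_le C hC0 hC l _ (((l : ℝ) + 1) ^ 2 / 8) (Nat.cast_nonneg _) ?_).trans
    (e2_mono (by unfold th; linarith))
  rw [Qc_real]
  refine e2_mono (le_of_eq ?_)
  push_cast; ring

lemma EE_Th (C : ℝ) (hC0 : 0 ≤ C) (hC : C ≤ 16) (L : ℕ) (hp : p < Wc (L + 1)) :
    EE C (1 / 256) L (DD p Qc (L + 1)) ≤ e2 (Th L) := by
  refine (EE_le C hC0 hC L _ (((L : ℝ) + 2) ^ 2 / 8 + 1) (Nat.cast_nonneg _) ?_).trans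
    (e2_mono (by unfold Th; linarith))
  have hp' : (p : ℝ) ≤ e2 (16 * (2 * ((L + 1 : ℕ) : ℝ) + 1)) := by
    rw [← Wc_real]; exact_mod_cast hp.le
  unfold DD
  push_cast
  rw [Qc_real]
  push_cast at hp' ⊢
  calc 4 * (p : ℝ) * e2 (16 * ((L : ℝ) + 1) ^ 2) ≤
        4 * e2 (16 * (2 * ((L : ℝ) + 1) + 1)) * e2 (16 * ((L : ℝ) + 1) ^ 2) := by
        refine mul_le_mul_of_nonneg_right ?_ (e2_pos _).le
        exact mul_le_mul_of_nonneg_left hp' (by norm_num)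
    _ = e2 (2 + 16 * (2 * ((L : ℝ) + 1) + 1) + 16 * ((L : ℝ) + 1) ^ 2) := by
        rw [e2_add, e2_add, e2_two]
    _ ≤ _ := e2_mono (by nlinarith)

variable {m n : Type*} [Fintype m] [DecidableEq m] [Fintype n] [DecidableEq n]

lemma stageS {R : Type*} [Fintype R] {F : (n → ZMod p) → ℂ} {E P : ℝ} {Q : ℕ}
    (h : MajE F E Q P) (hF0 : ft F 0 = 0) (a : R → (m → ZMod p) → ℝ)
    (ha : ∑ ρ, ∑ i, a ρ i ^ 2 ≤ 1) (x θ s σ s' δ : ℝ) (hs : 0 < s) (hσ : 0 < σ) (hσ1 : σ ≤ 1)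
    (hs2 : s ≤ σ ^ 2) (hs' : s' ≤ 8 * s ^ 4 * σ ^ 4) (hP0 : 0 ≤ P)
    (hPQ : P / Q ≤ e2 (64 * x + 32 - 16 * x ^ 2) * s') (hE0 : 0 ≤ E) (hE : E ≤ e2 θ)
    (hδ : δ = e2 (-x ^ 2) * s) (B : ℝ) (hB : 2 * (e2 (θ + 36 - x ^ 2 / 2) * σ) ≤ B) :
    Bd (fun (ξ : n → m → ZMod p) ρ g => ‖XX (cx (trunc (a ρ) δ)) F ξ g‖) B := by
  obtain ⟨h1, h2⟩ := numS x θ s σ s' (P / Q) E δ hs hσ hσ1 hs2 hs'
    (div_nonneg hP0 (Nat.cast_nonneg _)) hPQ hE0 hE hδ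
  have hδ0 : 0 < δ := by rw [hδ]; exact mul_pos (e2_pos _) hs
  exact (h.small hF0 (fun ρ => cx (trunc (a ρ) δ)) δ _ (fun ρ i => trunc_norm_le _ _ hδ0.le i)
    hδ0 (trunc_sum a ha _) (mul_pos (e2_pos _) hσ).le h1 h2).mono hB

open Classical in
lemma stageT {R : Type*} [Fintype R] {F : (n → ZMod p) → ℂ} {E P : ℝ} {Q : ℕ}
    (h : MajE F E Q P) (a : R → (m → ZMod p) → ℝ)
    (ha : ∑ ρ, ∑ i, a ρ i ^ 2 ≤ 1) (x θ s τ s' δ : ℝ) (hs : 0 < s) (hτ : 0 < τ)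
    (hs2 : 1 / s ^ 2 ≤ 2 * τ ^ 4)
    (hs' : s' * (1 / s ^ 8) ≤ 8 * τ ^ 4) (hs'0 : 0 ≤ s') (hP0 : 0 ≤ P)
    (hPQ : P / Q ≤ e2 (64 * x + 32 - 16 * x ^ 2) * s') (hE0 : 0 ≤ E) (hE : E ≤ e2 θ)
    (hδ : δ = e2 (-x ^ 2) * s) (B : ℝ) (hB : e2 (θ + 36 + x ^ 2 / 2) * τ ≤ B) :
    Bd (fun (ξ : n → m → ZMod p) (ρ : R) g =>
      ‖XX (fun i => if i ∈ lev a δ ρ then 1 else 0) F ξ g‖) B := by
  have hδ0 : 0 < δ := by rw [hδ]; exact mul_pos (e2_pos _) hs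
  have hlam : 1 / δ ^ 2 = e2 (2 * x ^ 2) * (1 / s ^ 2) := by
    have h3 := e2_inv (2 * x ^ 2)
    have h4 : δ ^ 2 = e2 (-(2 * x ^ 2)) * s ^ 2 := by
      rw [hδ, mul_pow, e2_pow]; congr 2; push_cast; ring
    rw [h4]
    have h5 := e2_pos (-(2 * x ^ 2))
    rw [one_div, mul_inv, one_div]
    congr 1
    exact (eq_inv_of_mul_eq_one_right h3).symm
  have h2 := numT x θ s τ s' (P / Q) E (1 / δ ^ 2) hs hτ hs2 hs' hs'0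
    (div_nonneg hP0 (Nat.cast_nonneg _)) hPQ hE0 hE hlam
  exact (h.large (lev a δ) (1 / δ ^ 2) _ (lev_card a ha δ hδ0) (mul_pos (e2_pos _) hτ).le
    h2).mono hB

end Pool.Agent.W862.Kom
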