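import Pool.Agent.W862.Kom.MajL

/-!
# The functions of `Θ`
-/

namespace Pool.Agent.W862.Kom

open Finset

variable {p : ℕ} [Fact p.Prime]

/-- `D Θ_l` as an integer -/
def XI (Q : ℕ → ℕ) (n l : ℕ) (y : Fin n → ZMod p) : ℤ :=
  ∑ s : Fin n, if s.1 = 0 then 4 * (Q n : ℤ) * ((y s).val : ℤ)
    else if s.1 ≤ l then 2 * ((Q n / Q s.1 : ℕ) : ℤ) * tz (y s) else 0

/-- the modulus -/
def DD (p : ℕ) (Q : ℕ → ℕ) (n : ℕ) : ℕ := 4 * p * Q n

/-- factors of the character of `Θ_l` -/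
noncomputable def cf (Q : ℕ → ℕ) (l : ℕ) (k : ℤ) (s : ℕ) (x : ZMod p) : ℂ :=
  if s = 0 then chi ((k : ZMod p) * x) else if s ≤ l then uc p (k / Q s) x else 1

open Classical in
/-- their transforms -/
noncomputable def tf (Q : ℕ → ℕ) (l : ℕ) (k : ℤ) (s : ℕ) (x : ZMod p) : ℂ :=
  if s = 0 then (if x = (k : ZMod p) then 1 else 0)
  else if s ≤ l then That p (k / Q s) x else (if x = 0 then 1 else 0)

lemma ft1_cf (Q : ℕ → ℕ) (l : ℕ) (k : ℤ) (s : ℕ) (x : ZMod p) :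
    ft1 (cf Q l k s) x = tf Q l k s x := by
  have hp : (p : ℂ) ≠ 0 := by exact_mod_cast (Fact.out : p.Prime).ne_zero
  unfold tf
  by_cases h0 : s = 0
  · simp only [if_pos h0]
    have h1 : cf Q l k s = fun y => chi ((k : ZMod p) * y) := by
      funext y; unfold cf; rw [if_pos h0]
    rw [h1]
    unfold ft1
    have h2 : ∀ y : ZMod p, chi ((k : ZMod p) * y) * chi (-(x * y)) =
        chi (y * ((k : ZMod p) - x)) := by
      intro y; rw [← chi_add]; congr 1; ring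
    simp_rw [h2, sum_chi_mul, sub_eq_zero]
    by_cases h3 : x = (k : ZMod p)
    · rw [if_pos h3.symm, if_pos h3, inv_mul_cancel₀ hp]
    · rw [if_neg (fun h => h3 h.symm), if_neg h3, mul_zero]
  · by_cases h1 : s ≤ l
    · simp only [if_neg h0, if_pos h1]
      have h2 : cf (p := p) Q l k s = uc p (k / Q s) := by
        funext y; unfold cf; rw [if_neg h0, if_pos h1]
      rw [h2]; rfl
    · simp only [if_neg h0, if_neg h1]
      have h2 : cf (p := p) Q l k s = fun _ => 1 := by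
        funext y; unfold cf; rw [if_neg h0, if_neg h1]
      rw [h2, ft1_one]

section
variable {Q W : ℕ → ℕ} (hR : Radix Q W)
include hR

lemma Radix.dvd {s t : ℕ} (h : s ≤ t) : Q s ∣ Q t := by
  induction t, h using Nat.le_induction with
  | base => exact dvd_rfl
  | succ t _ ih => rw [hR.succ]; exact ih.mul_right _

lemma DD_pos (n : ℕ) : 0 < DD p Q n := by
  unfold DD
  have := (Fact.out : p.Prime).pos
  have := hR.Qpos n
  positivity

lemma DD_ne (n : ℕ) : NeZero (DD p Q n) := ⟨(DD_pos hR n).ne'⟩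

lemma DD_four (n : ℕ) : 4 ∣ DD p Q n := by
  unfold DD; exact ⟨p * Q n, by ring⟩

/-- the character of `Θ_l` is a product -/
lemma char_XI (n l : ℕ) (k : ℤ) (y : Fin n → ZMod p) :
    ex (k * XI Q n l y / DD p Q n) = ∏ s : Fin n, cf Q l k s.1 (y s) := by
  have hp : (0 : ℝ) < p := Npos (N := p)
  have hQn : (0 : ℝ) < Q n := by exact_mod_cast hR.Qpos n
  have h1 : (k : ℝ) * XI Q n l y / DD p Q n = ∑ s : Fin n, (if s.1 = 0 then
      (k : ℝ) * (y s).val / p else if s.1 ≤ l then (k / Q s.1) * tz (y s) / (2 * p) else 0) := by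
    unfold XI DD
    push_cast
    rw [Finset.mul_sum, Finset.sum_div]
    refine Finset.sum_congr rfl fun s _ => ?_
    by_cases h0 : s.1 = 0
    · simp only [if_pos h0]; field_simp
    · by_cases h2 : s.1 ≤ l
      · simp only [if_neg h0, if_pos h2]
        have hQs : (0 : ℝ) < Q s.1 := by exact_mod_cast hR.Qpos s.1
        have hdiv : (((Q n : ℤ) / (Q s.1 : ℤ) : ℤ) : ℝ) = (Q n : ℝ) / Q s.1 := by
          rw [← Int.natCast_div, Int.cast_natCast]
          exact Nat.cast_div (hR.dvd s.2.le) hQs.ne'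
        rw [hdiv]; field_simp; ring
      · simp only [if_neg h0, if_neg h2]; simp
  rw [h1, ex_sum]
  refine Finset.prod_congr rfl fun s _ => ?_
  unfold cf uc
  by_cases h0 : s.1 = 0
  · simp only [if_pos h0]
    have h3 : (k : ZMod p) * y s = ((k * (y s).val : ℤ) : ZMod p) := by push_cast; simp
    rw [h3, ← chN_eq_chi, chN_coe]; push_cast; rfl
  · by_cases h2 : s.1 ≤ l
    · simp only [if_neg h0, if_pos h2]
    · simp only [if_neg h0, if_neg h2]; exact ex_zero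

/-- transform of a function of `Θ_l` -/
theorem ft_comp (n l : ℕ) [NeZero (DD p Q n)] (Φ : ZMod (DD p Q n) → ℂ) (μ : Fin n → ZMod p) :
    ft (fun y => Φ ((XI Q n l y : ℤ) : ZMod (DD p Q n))) μ =
      ∑ κ : ZMod (DD p Q n), fN Φ κ * ∏ s : Fin n, tf Q l κ.valMinAbs s.1 (μ s) := by
  have h1 : ∀ y : Fin n → ZMod p, Φ ((XI Q n l y : ℤ) : ZMod (DD p Q n)) =
      ∑ κ : ZMod (DD p Q n), fN Φ κ * ∏ s : Fin n, cf Q l κ.valMinAbs s.1 (y s) := by
    intro y
    rw [fN_inv Φ]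
    refine Finset.sum_congr rfl fun κ _ => ?_
    rw [← char_XI hR]
    congr 1
    have h2 : κ * ((XI Q n l y : ℤ) : ZMod (DD p Q n)) =
        ((κ.valMinAbs * XI Q n l y : ℤ) : ZMod (DD p Q n)) := by
      rw [Int.cast_mul, ZMod.coe_valMinAbs]
    rw [h2, chN_coe]; push_cast; rfl
  have h2 : ft (fun y => Φ ((XI Q n l y : ℤ) : ZMod (DD p Q n))) μ =
      ∑ κ : ZMod (DD p Q n), fN Φ κ *
        ft (fun y => ∏ s : Fin n, cf Q l κ.valMinAbs s.1 (y s)) μ := by
    unfold ft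
    simp_rw [h1, Finset.sum_mul]
    rw [Finset.sum_comm, Finset.mul_sum]
    refine Finset.sum_congr rfl fun κ _ => ?_
    simp_rw [mul_assoc]
    rw [← Finset.mul_sum]
    ring
  rw [h2]
  refine Finset.sum_congr rfl fun κ _ => ?_
  congr 1
  rw [ft_prod (fun (s : Fin n) x => cf Q l κ.valMinAbs s.1 x)]
  refine Finset.prod_congr rfl fun s _ => ?_
  exact ft1_cf Q l _ _ _

end

/-- floor of a quotient -/
lemma floor_div (k : ℤ) (q : ℕ) (hq : 0 < q) : ⌊(k : ℝ) / q⌋ = k / (q : ℤ) := by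
  have hq' : (0 : ℝ) < q := by exact_mod_cast hq
  rw [Int.floor_eq_iff]
  have h1 := Int.emod_add_mul_ediv k q
  have h2 := Int.emod_nonneg k (by omega : (q : ℤ) ≠ 0)
  have h3 := Int.emod_lt_of_pos k (by omega : (0 : ℤ) < q)
  have e1 : (k : ℝ) = ((k % q : ℤ) : ℝ) + q * ((k / q : ℤ) : ℝ) := by exact_mod_cast h1.symm
  have e2 : (0 : ℝ) ≤ ((k % q : ℤ) : ℝ) := by exact_mod_cast h2
  have e3 : ((k % q : ℤ) : ℝ) < q := by exact_mod_cast h3
  constructor
  · rw [le_div_iff₀ hq']; nlinarith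
  · rw [div_lt_iff₀ hq']; nlinarith

/-- factors with a set `T` of admissible signs -/
noncomputable def tb (Q : ℕ → ℕ) (η : ℝ) (l : ℕ) (T : Finset ℤ) (k : ℤ) (s : ℕ) (x : ZMod p) :
    ℝ :=
  ∑ τ ∈ T, gf Q η l (fun _ => τ) k s x

lemma gf_const (Q : ℕ → ℕ) (η : ℝ) (l : ℕ) (σ : ℕ → ℤ) (m : ℤ) (s : ℕ) (x : ZMod p) :
    gf Q η l σ m s x = gf Q η l (fun _ => σ s) m s x := by
  unfold gf; rfl

lemma gf_le_tb (Q : ℕ → ℕ) (η : ℝ) (l : ℕ) (T : Finset ℤ) (τ : ℤ) (hτ : τ ∈ T) (k : ℤ) (s : ℕ)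
    (x : ZMod p) : gf Q η l (fun _ => τ) k s x ≤ tb Q η l T k s x :=
  Finset.single_le_sum (f := fun τ => gf Q η l (fun _ => τ) k s x)
    (fun _ _ => gf_nonneg _ _ _ _ _ _ _) hτ

lemma tb_nonneg (Q : ℕ → ℕ) (η : ℝ) (l : ℕ) (T : Finset ℤ) (k : ℤ) (s : ℕ) (x : ZMod p) :
    0 ≤ tb Q η l T k s x := Finset.sum_nonneg fun _ _ => gf_nonneg _ _ _ _ _ _ _

/-- the standard bound for the factors -/
lemma tf_le {Q W : ℕ → ℕ} (hR : Radix Q W) (hp : 5 ≤ p) (η : ℝ) (hη0 : 0 < η) (hη1 : η ≤ 1)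
    (l : ℕ) (T : Finset ℤ) (h1 : (1 : ℤ) ∈ T) (k : ℤ) (s : ℕ) (h2 : 1 ≤ s → s ≤ l → (-1 : ℤ) ∈ T)
    (x : ZMod p) :
    ‖tf Q l k s x‖ ≤ (if 1 ≤ s ∧ s ≤ l then 80 * (1 + |(k : ℝ)|) ^ η else 1) *
      tb Q η l T k s x := by
  by_cases h0 : s = 0
  · have hc : ¬ (1 ≤ s ∧ s ≤ l) := by omega
    rw [if_neg hc, one_mul]
    refine le_trans ?_ (gf_le_tb Q η l T 1 h1 k s x)
    unfold tf gf
    simp only [if_pos h0]
    split_ifs <;> simp
  · by_cases hl : s ≤ l
    · have hc : 1 ≤ s ∧ s ≤ l := by omega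
      rw [if_pos hc]
      have hQs := hR.Qpos s
      have hQs' : (0 : ℝ) < Q s := by exact_mod_cast hQs
      have hQs1 : (1 : ℝ) ≤ Q s := by exact_mod_cast hQs
      have e1 : tf Q l k s x = That p (k / Q s) x := by
        unfold tf; rw [if_neg h0, if_pos hl]
      rw [e1]
      have h3 := That_bound hp η hη0 hη1 ((k : ℝ) / Q s) x
      rw [floor_div k (Q s) hQs] at h3
      have hm1 : (-1 : ℤ) ∈ T := h2 hc.1 hc.2
      have h4 : nu η (x - ((k / (Q s : ℤ) : ℤ) : ZMod p)) + nu η (x + ((k / (Q s : ℤ) : ℤ) : ZMod p)) ≤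
          tb Q η l T k s x := by
        have h5 : ({1, -1} : Finset ℤ) ⊆ T := by
          intro τ hτ
          rcases Finset.mem_insert.mp hτ with rfl | hτ
          · exact h1
          · rw [Finset.mem_singleton] at hτ; rw [hτ]; exact hm1
        have h6 : ∑ τ ∈ ({1, -1} : Finset ℤ), gf Q η l (fun _ => τ) k s x ≤ tb Q η l T k s x :=
          Finset.sum_le_sum_of_subset_of_nonneg h5 fun _ _ _ => gf_nonneg _ _ _ _ _ _ _
        rw [Finset.sum_pair (by norm_num)] at h6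
        refine le_trans (le_of_eq ?_) h6
        unfold gf
        simp only [if_neg h0, if_pos hl]
        push_cast
        congr 2 <;> ring
      have h7 : (1 + |(k : ℝ) / Q s|) ^ η ≤ (1 + |(k : ℝ)|) ^ η := by
        refine Real.rpow_le_rpow (by positivity) ?_ hη0.le
        have : |(k : ℝ) / Q s| ≤ |(k : ℝ)| := by
          rw [abs_div, abs_of_pos hQs']
          exact div_le_self (abs_nonneg _) hQs1
        linarith
      have h8 := nu_pos η (x - ((k / (Q s : ℤ) : ℤ) : ZMod p))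
      have h9 := nu_pos η (x + ((k / (Q s : ℤ) : ℤ) : ZMod p))
      calc _ ≤ _ := h3
        _ ≤ 80 * (1 + |(k : ℝ)|) ^ η * (nu η (x - ((k / (Q s : ℤ) : ℤ) : ZMod p)) +
            nu η (x + ((k / (Q s : ℤ) : ℤ) : ZMod p))) := by
            refine mul_le_mul_of_nonneg_right ?_ (by positivity)
            have : 0 ≤ (1 + |(k : ℝ)|) ^ η := by positivity
            nlinarith
        _ ≤ _ := mul_le_mul_of_nonneg_left h4 (by positivity)
    · have hc : ¬ (1 ≤ s ∧ s ≤ l) := by omega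
      rw [if_neg hc, one_mul]
      refine le_trans ?_ (gf_le_tb Q η l T 1 h1 k s x)
      unfold tf gf
      simp only [if_neg h0, if_neg hl]
      split_ifs <;> simp

/-- the bound for the bracket -/
lemma That_sub_le {Q W : ℕ → ℕ} (hR : Radix Q W) (hp : 5 ≤ p) (η : ℝ) (hη0 : 0 < η)
    (hη1 : η ≤ 1) (l : ℕ) (hl : 1 ≤ l) (k : ℤ) (x : ZMod p) :
    ‖That p (k / Q l) x - (if x = 0 then 1 else 0)‖ ≤
      (if |(k : ℝ)| ≤ Q l then |(k : ℝ)| / Q l else 1) * (80 * (1 + |(k : ℝ)|) ^ η *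
        tb Q η l {1, -1, 0} k l x) := by
  have hQs := hR.Qpos l
  have hQs' : (0 : ℝ) < Q l := by exact_mod_cast hQs
  have hl0 : l ≠ 0 := by omega
  have hC1 : 1 ≤ (1 + |(k : ℝ)|) ^ η := Real.one_le_rpow (by linarith [abs_nonneg (k : ℝ)]) hη0.le
  have htb : tb Q η l {1, -1, 0} k l x = nu η (x - ((k / (Q l : ℤ) : ℤ) : ZMod p)) +
      (nu η (x + ((k / (Q l : ℤ) : ℤ) : ZMod p)) + nu η x) := by
    unfold tb
    rw [Finset.sum_insert (by decide), Finset.sum_insert (by decide), Finset.sum_singleton]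
    unfold gf
    simp only [if_neg hl0, le_refl, if_true]
    have a1 : x - ((1 : ℤ) : ZMod p) * ((k / (Q l : ℤ) : ℤ) : ZMod p) =
        x - ((k / (Q l : ℤ) : ℤ) : ZMod p) := by rw [Int.cast_one]; ring
    have a2 : x - ((-1 : ℤ) : ZMod p) * ((k / (Q l : ℤ) : ℤ) : ZMod p) =
        x + ((k / (Q l : ℤ) : ℤ) : ZMod p) := by rw [Int.cast_neg, Int.cast_one]; ring
    have a3 : x - ((0 : ℤ) : ZMod p) * ((k / (Q l : ℤ) : ℤ) : ZMod p) = x := by
      rw [Int.cast_zero]; ring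
    rw [a1, a2, a3]
  have n1 := nu_pos η (x - ((k / (Q l : ℤ) : ℤ) : ZMod p))
  have n2 := nu_pos η (x + ((k / (Q l : ℤ) : ℤ) : ZMod p))
  have n3 := nu_pos η x
  by_cases hk : |(k : ℝ)| ≤ Q l
  · rw [if_pos hk, htb]
    have hc : |(k : ℝ) / Q l| ≤ 1 := by
      rw [abs_div, abs_of_pos hQs', div_le_one hQs']; exact hk
    refine (That_low hp η hη0 hη1 _ hc x).trans ?_
    rw [abs_div, abs_of_pos hQs']
    have h1 : nu η x ≤ (1 + |(k : ℝ)|) ^ η * (nu η (x - ((k / (Q l : ℤ) : ℤ) : ZMod p)) +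
      (nu η (x + ((k / (Q l : ℤ) : ℤ) : ZMod p)) + nu η x)) := by
      calc nu η x ≤ 1 * (nu η (x - ((k / (Q l : ℤ) : ℤ) : ZMod p)) +
            (nu η (x + ((k / (Q l : ℤ) : ℤ) : ZMod p)) + nu η x)) := by linarith
        _ ≤ _ := mul_le_mul_of_nonneg_right hC1 (by linarith)
    have h2 := mul_le_mul_of_nonneg_left h1 (by positivity : 0 ≤ 80 * (|(k : ℝ)| / Q l))
    linarith
  · rw [if_neg hk, one_mul, htb]
    have h3 := That_bound hp η hη0 hη1 ((k : ℝ) / Q l) x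
    rw [floor_div k (Q l) hQs] at h3
    have hQs1 : (1 : ℝ) ≤ Q l := by exact_mod_cast hQs
    have h7 : (1 + |(k : ℝ) / Q l|) ^ η ≤ (1 + |(k : ℝ)|) ^ η := by
      refine Real.rpow_le_rpow (by positivity) ?_ hη0.le
      have : |(k : ℝ) / Q l| ≤ |(k : ℝ)| := by
        rw [abs_div, abs_of_pos hQs']
        exact div_le_self (abs_nonneg _) hQs1
      linarith
    have h8 : ‖(if x = 0 then (1 : ℂ) else 0)‖ ≤ nu η x := by
      split_ifs with h
      · rw [h, nu_zero, norm_one]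
      · rw [norm_zero]; exact n3.le
    calc _ ≤ ‖That p (k / Q l) x‖ + ‖(if x = 0 then (1 : ℂ) else 0)‖ := norm_sub_le _ _
      _ ≤ 32 * (1 + |(k : ℝ)|) ^ η * (nu η (x - ((k / (Q l : ℤ) : ℤ) : ZMod p)) +
          nu η (x + ((k / (Q l : ℤ) : ℤ) : ZMod p))) + nu η x := by
          refine add_le_add (h3.trans ?_) h8
          refine mul_le_mul_of_nonneg_right ?_ (by positivity)
          linarith
      _ ≤ _ := by nlinarith

end Pool.Agent.W862.Kom
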