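import Pool.Agent.W862.Kom.Circ

/-!
# The triangle wave modulo `N` and the transform of `e (c τ)`
-/

namespace Pool.Agent.W862.Kom

open Finset

/-- triangle wave, twice the height, on representatives -/
def tt (N v : ℕ) : ℤ :=
  if 4 * v < N then 2 * v else if 4 * v < 3 * N then (N : ℤ) - 2 * v else 2 * v - 2 * N

/-- triangle wave on `ZMod N` -/
def tz {N : ℕ} (x : ZMod N) : ℤ := tt N x.val

section
variable {N : ℕ} [NeZero N]

lemma val_succ (hN : 2 ≤ N) (x : ZMod N) :
    (x + 1).val = if x.val + 1 = N then 0 else x.val + 1 := by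
  have h1 : (1 : ZMod N).val = 1 := by
    rw [ZMod.val_one_eq_one_mod, Nat.mod_eq_of_lt (by omega)]
  have h2 := ZMod.val_lt x
  rw [ZMod.val_add, h1]
  split_ifs with h
  · rw [h, Nat.mod_self]
  · exact Nat.mod_eq_of_lt (by omega)

lemma tz_neg (x : ZMod N) : tz (-x) = - tz x := by
  have hN := Nat.pos_of_ne_zero (NeZero.ne N)
  by_cases hx : x = 0
  · rw [hx, neg_zero]
    unfold tz tt
    rw [ZMod.val_zero, if_pos (by omega)]
    simp
  · have : NeZero x := ⟨hx⟩
    have h1 : (-x).val = N - x.val := ZMod.val_neg_of_ne_zero x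
    have h2 := ZMod.val_lt x
    have h3 : 0 < x.val := Nat.pos_of_ne_zero (by rwa [Ne, ZMod.val_eq_zero])
    unfold tz tt
    rw [h1]
    split_ifs <;> omega

lemma tz_abs (x : ZMod N) : 2 * |tz x| ≤ N := by
  have h2 := ZMod.val_lt x
  have h3 : -(N : ℤ) ≤ 2 * tz x ∧ 2 * tz x ≤ N := by
    unfold tz tt
    split_ifs <;> constructor <;> omega
  rcases abs_cases (tz x) with h | h <;> omega

/-- the increment -/
def stp (x : ZMod N) : ℤ := tz (x + 1) - tz x

lemma stp_abs (hN : 2 ≤ N) (x : ZMod N) : |stp x| ≤ 2 := by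
  have h2 := ZMod.val_lt x
  unfold stp tz tt
  rw [val_succ hN, abs_le]
  split_ifs <;> constructor <;> omega

end

section
variable {p : ℕ} [Fact p.Prime]

/-- the exceptional set -/
def exc (p : ℕ) [Fact p.Prime] : Finset (ZMod p) :=
  univ.filter fun x => x.val = p / 4 ∨ x.val = 3 * p / 4 ∨ x.val + 1 = p / 4 ∨
    x.val + 1 = 3 * p / 4

lemma card_filter_val (s : Finset ℕ) :
    (univ.filter fun x : ZMod p => x.val ∈ s).card ≤ s.card := by
  refine Finset.card_le_card_of_injOn (fun x => x.val) ?_ ?_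
  · intro x hx
    have hx' := Finset.mem_coe.mp hx
    exact Finset.mem_coe.mpr (Finset.mem_filter.mp hx').2
  · intro x _ y _ h
    exact ZMod.val_injective p h

lemma card_exc : (exc p).card ≤ 4 := by
  have h1 : exc p ⊆ univ.filter fun x : ZMod p => x.val ∈
      ({p / 4, 3 * p / 4, p / 4 - 1, 3 * p / 4 - 1} : Finset ℕ) := by
    intro x hx
    have h2 := (Finset.mem_filter.mp hx).2
    rw [Finset.mem_filter]
    refine ⟨Finset.mem_univ x, ?_⟩
    simp only [Finset.mem_insert, Finset.mem_singleton]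
    omega
  refine (Finset.card_le_card h1).trans ((card_filter_val _).trans ?_)
  exact Finset.card_le_four

/-- away from the corners two consecutive increments agree and are `±2` -/
lemma stp_regular (hp : 5 ≤ p) (x : ZMod p) (hx : x ∉ exc p) :
    (stp x = 2 ∧ stp (x + 1) = 2) ∨ (stp x = -2 ∧ stp (x + 1) = -2) := by
  have h1 := ZMod.val_lt x
  have h2 : p % 2 = 1 := ((Fact.out : p.Prime).eq_two_or_odd).resolve_left (by omega)
  have h3 : ¬ (x.val = p / 4 ∨ x.val = 3 * p / 4 ∨ x.val + 1 = p / 4 ∨ x.val + 1 = 3 * p / 4) := by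
    intro h; exact hx (Finset.mem_filter.mpr ⟨Finset.mem_univ x, h⟩)
  unfold stp tz tt
  rw [val_succ (by omega) (x + 1), val_succ (by omega) x]
  generalize x.val = v at *
  by_cases c1 : v + 1 = p
  · rw [if_pos c1]
    split_ifs <;> omega
  · rw [if_neg c1]
    by_cases c2 : v + 1 + 1 = p
    · rw [if_pos c2]; split_ifs <;> omega
    · rw [if_neg c2]; split_ifs <;> omega

/-- increments on the two branches -/
def rise (p : ℕ) [Fact p.Prime] (x : ZMod p) : Prop := 4 * x.val < p ∨ 3 * p < 4 * x.val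

instance (x : ZMod p) : Decidable (rise p x) := by unfold rise; infer_instance

lemma stp_branch (hp : 5 ≤ p) (x : ZMod p) (h1 : x.val ≠ p / 4) (h2 : x.val ≠ 3 * p / 4) :
    (rise p x ∧ rise p (x + 1) ∧ stp x = 2) ∨
      (¬ rise p x ∧ ¬ rise p (x + 1) ∧ stp x = -2) := by
  have h0 := ZMod.val_lt x
  have h3 : p % 2 = 1 := ((Fact.out : p.Prime).eq_two_or_odd).resolve_left (by omega)
  unfold rise stp tz tt
  rw [val_succ (by omega) x]
  generalize x.val = v at *
  by_cases c1 : v + 1 = p
  · rw [if_pos c1]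
    split_ifs <;> omega
  · rw [if_neg c1]
    split_ifs <;> omega

/-- the function `e (c τ)` -/
noncomputable def uc (p : ℕ) [Fact p.Prime] (c : ℝ) (x : ZMod p) : ℂ := ex (c * tz x / (2 * p))

lemma norm_uc (c : ℝ) (x : ZMod p) : ‖uc p c x‖ = 1 := norm_ex _

lemma uc_succ (c : ℝ) (x : ZMod p) : uc p c (x + 1) = ex (c * stp x / (2 * p)) * uc p c x := by
  unfold uc stp
  rw [← ex_add]; congr 1; push_cast; ring

/-- the transform -/
noncomputable def That (p : ℕ) [Fact p.Prime] (c : ℝ) (j : ZMod p) : ℂ := ft1 (uc p c) j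

lemma norm_chi_sub_ex (j : ZMod p) (c : ℝ) :
    4 * nr ((j.val - c) / p) ≤ ‖chi j - ex (c / p)‖ := by
  rw [← chN_eq_chi, chN_val, norm_ex_sub_ex, ← sub_div]
  exact four_nr_le _

lemma That_le_one (c : ℝ) (j : ZMod p) : ‖That p c j‖ ≤ 1 := by
  have h := norm_fN_le (uc p c) j univ 1 (fun x hx => absurd (Finset.mem_univ x) hx)
    (fun x _ => (norm_uc c x).le)
  rw [Finset.card_univ, ZMod.card, mul_one] at h
  have hp : (p : ℝ) ≠ 0 := (Npos (N := p)).ne'
  rw [div_self hp] at h
  exact h

/-- second order bound -/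
lemma That_second (hp : 5 ≤ p) (c : ℝ) (j : ZMod p) :
    nr ((j.val - c) / p) * nr ((j.val + c) / p) * ‖That p c j‖ ≤ 2 * Real.pi * |c| / p ^ 2 := by
  have hp0 : (0 : ℝ) < p := Npos (N := p)
  have hpi := Real.pi_pos
  set α := ex (c / p) with hα
  set β := ex (-(c / p)) with hβ
  have hαβ : α * β = 1 := by rw [hα, hβ, ← ex_add, add_neg_cancel, ex_zero]
  have h1 : fN (fun x => uc p c (x + 1 + 1) - (α + β) * uc p c (x + 1) + uc p c x) j =
      (chi j - α) * (chi j - β) * That p c j := by
    rw [fN_add, fN_sub, fN_smul, fN_shift (fun x => uc p c (x + 1)), fN_shift, chN_eq_chi]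
    unfold That
    rw [← fN_eq_ft1]
    linear_combination (fN (uc p c) j) * (-hαβ)
  have h2 := norm_fN_le (fun x => uc p c (x + 1 + 1) - (α + β) * uc p c (x + 1) + uc p c x) j
    (exc p) (8 * Real.pi * |c| / p) (by
      intro x hx
      rw [uc_succ c (x + 1), uc_succ c x]
      rcases stp_regular hp x hx with ⟨e1, e2⟩ | ⟨e1, e2⟩
      · rw [e1, e2]
        have e3 : ex (c * ((2 : ℤ) : ℝ) / (2 * p)) = α := by
          rw [hα]; congr 1; push_cast; field_simp
        rw [e3]
        linear_combination (uc p c x) * (-hαβ)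
      · rw [e1, e2]
        have e3 : ex (c * ((-2 : ℤ) : ℝ) / (2 * p)) = β := by
          rw [hβ]; congr 1; push_cast; field_simp
        rw [e3]
        linear_combination (uc p c x) * (-hαβ)) (by
      intro x _
      have e1 : uc p c x = ex (-(c * stp x / (2 * p))) * uc p c (x + 1) := by
        rw [uc_succ, ← mul_assoc, ← ex_add, neg_add_cancel, ex_zero, one_mul]
      have e2 : uc p c (x + 1 + 1) - (α + β) * uc p c (x + 1) + uc p c x =
          uc p c (x + 1) * ((ex (c * stp (x + 1) / (2 * p)) - 1) +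
            (ex (-(c * stp x / (2 * p))) - 1) - (α - 1) - (β - 1)) := by
        rw [uc_succ c (x + 1)]
        conv_lhs => rw [e1]
        ring
      rw [e2, norm_mul, norm_uc, one_mul]
      have b1 : ∀ (s : ℤ), |s| ≤ 2 → ‖ex (c * s / (2 * p)) - 1‖ ≤ 2 * Real.pi * |c| / p := by
        intro s hs
        refine (norm_ex_sub_one_le _).trans ?_
        have hs' : |(s : ℝ)| ≤ 2 := by exact_mod_cast hs
        rw [abs_div, abs_mul, abs_of_pos (by positivity : (0 : ℝ) < 2 * p)]
        have : |c| * |(s : ℝ)| / (2 * p) ≤ |c| * 2 / (2 * p) :=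
          div_le_div_of_nonneg_right (mul_le_mul_of_nonneg_left hs' (abs_nonneg _)) (by positivity)
        calc _ ≤ 2 * Real.pi * (|c| * 2 / (2 * p)) :=
              mul_le_mul_of_nonneg_left this (by positivity)
          _ = _ := by field_simp
      have b2 : ‖ex (c * stp (x + 1) / (2 * p)) - 1‖ ≤ 2 * Real.pi * |c| / p :=
        b1 _ (stp_abs (by omega) _)
      have b3 : ‖ex (-(c * stp x / (2 * p))) - 1‖ ≤ 2 * Real.pi * |c| / p := by
        have := b1 (-stp x) (by rw [abs_neg]; exact stp_abs (by omega) _)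
        have e : c * ((-stp x : ℤ) : ℝ) / (2 * p) = -(c * stp x / (2 * p)) := by
          push_cast; ring
        rwa [e] at this
      have b4 : ‖α - 1‖ ≤ 2 * Real.pi * |c| / p := by
        rw [hα]
        refine (norm_ex_sub_one_le _).trans (le_of_eq ?_)
        rw [abs_div, abs_of_pos hp0]; ring
      have b5 : ‖β - 1‖ ≤ 2 * Real.pi * |c| / p := by
        rw [hβ]
        refine (norm_ex_sub_one_le _).trans (le_of_eq ?_)
        rw [abs_neg, abs_div, abs_of_pos hp0]; ring
      calc _ ≤ ‖ex (c * stp (x + 1) / (2 * p)) - 1‖ + ‖ex (-(c * stp x / (2 * p))) - 1‖ +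
            ‖α - 1‖ + ‖β - 1‖ := by
            refine (norm_sub_le _ _).trans (add_le_add ?_ le_rfl)
            refine (norm_sub_le _ _).trans (add_le_add ?_ le_rfl)
            exact norm_add_le _ _
        _ ≤ 2 * Real.pi * |c| / p + 2 * Real.pi * |c| / p + 2 * Real.pi * |c| / p +
            2 * Real.pi * |c| / p := by linarith
        _ = _ := by ring)
  rw [h1, norm_mul, norm_mul] at h2
  have h3 := norm_chi_sub_ex j c
  have h4 := norm_chi_sub_ex j (-c)
  rw [show (j.val - -c) / (p : ℝ) = (j.val + c) / p by ring, show -c / (p : ℝ) = -(c / p) by ring,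
    ← hβ] at h4
  rw [← hα] at h3
  have h5 : ((exc p).card : ℝ) ≤ 4 := by exact_mod_cast card_exc
  have h6 : ((exc p).card : ℝ) * (8 * Real.pi * |c| / p) / p ≤ 32 * Real.pi * |c| / p ^ 2 := by
    calc _ ≤ 4 * (8 * Real.pi * |c| / p) / p :=
          div_le_div_of_nonneg_right (mul_le_mul_of_nonneg_right h5 (by positivity)) hp0.le
      _ = _ := by field_simp; ring
  have h7 : (4 * nr ((j.val - c) / p)) * (4 * nr ((j.val + c) / p)) * ‖That p c j‖ ≤
      32 * Real.pi * |c| / p ^ 2 := by
    refine le_trans ?_ (h2.trans h6)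
    refine mul_le_mul_of_nonneg_right ?_ (norm_nonneg _)
    exact mul_le_mul h3 h4 (mul_nonneg (by norm_num) (nr_nonneg _)) (norm_nonneg _)
  have h8 : 32 * Real.pi * |c| / (p : ℝ) ^ 2 = 16 * (2 * Real.pi * |c| / p ^ 2) := by ring
  rw [h8] at h7
  nlinarith

/-- first order bound for the two branches -/
lemma That_first (hp : 5 ≤ p) (c : ℝ) (j : ZMod p) :
    ∃ z w : ℂ, That p c j = z + w ∧ nr ((j.val - c) / p) * ‖z‖ ≤ 1 / (2 * p) ∧
      nr ((j.val + c) / p) * ‖w‖ ≤ 1 / (2 * p) := by
  classical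
  have hp0 : (0 : ℝ) < p := Npos (N := p)
  set α := ex (c / p) with hα
  set β := ex (-(c / p)) with hβ
  set uA : ZMod p → ℂ := fun x => if rise p x then uc p c x else 0 with huA
  set uB : ZMod p → ℂ := fun x => if rise p x then 0 else uc p c x with huB
  have hsum : uc p c = fun x => uA x + uB x := by
    funext x; rw [huA, huB]; simp only []; split_ifs <;> simp
  set s : Finset (ZMod p) := univ.filter fun x => x.val ∈ ({p / 4, 3 * p / 4} : Finset ℕ) with hs
  have hscard : (s.card : ℝ) ≤ 2 := by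
    have : s.card ≤ 2 := (card_filter_val _).trans Finset.card_le_two
    exact_mod_cast this
  have hns : ∀ x ∉ s, x.val ≠ p / 4 ∧ x.val ≠ 3 * p / 4 := by
    intro x hx
    rw [hs, Finset.mem_filter] at hx
    simp only [Finset.mem_univ, Finset.mem_insert, Finset.mem_singleton, true_and, not_or] at hx
    exact hx
  refine ⟨fN uA j, fN uB j, ?_, ?_, ?_⟩
  · unfold That
    rw [← fN_eq_ft1, hsum, fN_add]
  · have h1 : fN (fun x => uA (x + 1) - α * uA x) j = (chi j - α) * fN uA j := by
      rw [fN_sub, fN_smul, fN_shift, chN_eq_chi]; ring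
    have h2 := norm_fN_le (fun x => uA (x + 1) - α * uA x) j s 1 (by
      intro x hx
      obtain ⟨n1, n2⟩ := hns x hx
      simp only [huA]
      rcases stp_branch hp x n1 n2 with ⟨r1, r2, r3⟩ | ⟨r1, r2, r3⟩
      · rw [if_pos r1, if_pos r2, uc_succ, r3]
        have e3 : ex (c * ((2 : ℤ) : ℝ) / (2 * p)) = α := by
          rw [hα]; congr 1; push_cast; field_simp
        rw [e3, sub_self]
      · rw [if_neg r1, if_neg r2, mul_zero, sub_zero]) (by
      intro x hx
      have hx' : x.val = p / 4 ∨ x.val = 3 * p / 4 := by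
        rw [hs, Finset.mem_filter] at hx
        simpa using hx.2
      have h0 := ZMod.val_lt x
      have h3 : p % 2 = 1 := ((Fact.out : p.Prime).eq_two_or_odd).resolve_left (by omega)
      have hex : (rise p x ∧ ¬ rise p (x + 1)) ∨ (¬ rise p x ∧ rise p (x + 1)) := by
        unfold rise
        rw [val_succ (by omega) x]
        split_ifs <;> omega
      simp only [huA]
      rcases hex with ⟨r1, r2⟩ | ⟨r1, r2⟩
      · rw [if_pos r1, if_neg r2, zero_sub, norm_neg, norm_mul, norm_uc, hα, norm_ex, one_mul]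
      · rw [if_neg r1, if_pos r2, mul_zero, sub_zero, norm_uc])
    rw [h1, norm_mul] at h2
    have h3 := norm_chi_sub_ex j c
    rw [← hα] at h3
    have h4 : (4 * nr ((j.val - c) / p)) * ‖fN uA j‖ ≤ 2 / p := by
      refine (mul_le_mul_of_nonneg_right h3 (norm_nonneg _)).trans (h2.trans ?_)
      rw [mul_one]
      exact div_le_div_of_nonneg_right hscard hp0.le
    have h5 : (2 : ℝ) / p = 4 * (1 / (2 * p)) := by field_simp; norm_num
    rw [h5] at h4
    nlinarith
  · have h1 : fN (fun x => uB (x + 1) - β * uB x) j = (chi j - β) * fN uB j := by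
      rw [fN_sub, fN_smul, fN_shift, chN_eq_chi]; ring
    have h2 := norm_fN_le (fun x => uB (x + 1) - β * uB x) j s 1 (by
      intro x hx
      obtain ⟨n1, n2⟩ := hns x hx
      simp only [huB]
      rcases stp_branch hp x n1 n2 with ⟨r1, r2, r3⟩ | ⟨r1, r2, r3⟩
      · rw [if_pos r1, if_pos r2, mul_zero, sub_zero]
      · rw [if_neg r1, if_neg r2, uc_succ, r3]
        have e3 : ex (c * ((-2 : ℤ) : ℝ) / (2 * p)) = β := by
          rw [hβ]; congr 1; push_cast; field_simp
        rw [e3, sub_self]) (by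
      intro x hx
      have hx' : x.val = p / 4 ∨ x.val = 3 * p / 4 := by
        rw [hs, Finset.mem_filter] at hx
        simpa using hx.2
      have h0 := ZMod.val_lt x
      have h3 : p % 2 = 1 := ((Fact.out : p.Prime).eq_two_or_odd).resolve_left (by omega)
      have hex : (rise p x ∧ ¬ rise p (x + 1)) ∨ (¬ rise p x ∧ rise p (x + 1)) := by
        unfold rise
        rw [val_succ (by omega) x]
        split_ifs <;> omega
      simp only [huB]
      rcases hex with ⟨r1, r2⟩ | ⟨r1, r2⟩
      · rw [if_pos r1, if_neg r2, mul_zero, sub_zero, norm_uc]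
      · rw [if_neg r1, if_pos r2, zero_sub, norm_neg, norm_mul, norm_uc, hβ, norm_ex, one_mul])
    rw [h1, norm_mul] at h2
    have h3 := norm_chi_sub_ex j (-c)
    rw [show (j.val - -c) / (p : ℝ) = (j.val + c) / p by ring,
      show -c / (p : ℝ) = -(c / p) by ring, ← hβ] at h3
    have h4 : (4 * nr ((j.val + c) / p)) * ‖fN uB j‖ ≤ 2 / p := by
      refine (mul_le_mul_of_nonneg_right h3 (norm_nonneg _)).trans (h2.trans ?_)
      rw [mul_one]
      exact div_le_div_of_nonneg_right hscard hp0.le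
    have h5 : (2 : ℝ) / p = 4 * (1 / (2 * p)) := by field_simp; norm_num
    rw [h5] at h4
    nlinarith

end

end Pool.Agent.W862.Kom
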